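import Pool.Agent.Lib.EpZ.Inv

/-!
# Compactness and finiteness of reduced forms
-/

open Matrix Filter Topology
open scoped Matrix.Norms.Elementwise

namespace Pool.Agent.Lib.EpZ

variable {d : ℕ}

/-- the compact set of reduced forms -/
def KK (d : ℕ) (c : ℝ) : Set (Mx d) := {Q | Q.IsSymm ∧ Low c Q ∧ ∀ i, Q i i ≤ 2 / c}

lemma cmp_continuous_qr (v : Fin d → ℝ) : Continuous fun H : Mx d => qr H v := by
  unfold qr
  fun_prop

lemma cmp_continuous_qr' (Q : Mx d) : Continuous fun v : Fin d → ℝ => qr Q v := by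
  unfold qr
  fun_prop

lemma cmp_qr_smul (Q : Mx d) (t : ℝ) (v : Fin d → ℝ) : qr Q (t • v) = t ^ 2 * qr Q v := by
  simp only [qr, mulVec_smul, dotProduct_smul, smul_dotProduct, smul_eq_mul]
  ring

lemma cmp_floor_tendsto (a : ℝ) :
    Tendsto (fun n : ℕ => ((n : ℝ) + 1)⁻¹ * (⌊a * ((n : ℝ) + 1)⌋ : ℝ)) atTop (𝓝 a) := by
  have h1 : Tendsto (fun n : ℕ => a - ((n : ℝ) + 1)⁻¹) atTop (𝓝 a) := by
    have := tendsto_one_div_add_atTop_nhds_zero_nat (𝕜 := ℝ)
    simpa using (tendsto_const_nhds (x := a)).sub this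
  refine tendsto_of_tendsto_of_tendsto_of_le_of_le h1 tendsto_const_nhds (fun n => ?_)
    (fun n => ?_)
  · have hn : (0 : ℝ) < (n : ℝ) + 1 := by positivity
    have h2 := (Int.sub_one_lt_floor (a * ((n : ℝ) + 1))).le
    have h3 := mul_le_mul_of_nonneg_left h2 (inv_nonneg.2 hn.le)
    refine le_trans (le_of_eq ?_) h3
    field_simp
  · have hn : (0 : ℝ) < (n : ℝ) + 1 := by positivity
    have h2 := Int.floor_le (a * ((n : ℝ) + 1))
    have h3 := mul_le_mul_of_nonneg_left h2 (inv_nonneg.2 hn.le)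
    refine h3.trans (le_of_eq ?_)
    field_simp

/-- a lower bound at integer vectors is a lower bound at real vectors (rational approximation) -/
theorem Low.real {c : ℝ} {Q : Mx d} (h : Low c Q) (v : Fin d → ℝ) : c * ∑ i, v i ^ 2 ≤ qr Q v := by
  set x : ℕ → Fin d → ℤ := fun n i => ⌊v i * ((n : ℝ) + 1)⌋ with hx
  have h1 : Tendsto (fun n : ℕ => ((n : ℝ) + 1)⁻¹ • rv (x n)) atTop (𝓝 v) := by
    rw [tendsto_pi_nhds]
    intro i
    exact cmp_floor_tendsto (v i)
  have h2 : Tendsto (fun n : ℕ => qr Q (((n : ℝ) + 1)⁻¹ • rv (x n))) atTop (𝓝 (qr Q v)) :=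
    ((cmp_continuous_qr' Q).tendsto v).comp h1
  have hc : Continuous fun v : Fin d → ℝ => c * ∑ i, v i ^ 2 := by fun_prop
  have h3 : Tendsto (fun n : ℕ => c * ∑ i, (((n : ℝ) + 1)⁻¹ • rv (x n)) i ^ 2) atTop
      (𝓝 (c * ∑ i, v i ^ 2)) := (hc.tendsto v).comp h1
  refine le_of_tendsto_of_tendsto' h3 h2 fun n => ?_
  rw [cmp_qr_smul]
  have h4 := mul_le_mul_of_nonneg_left (h (x n)) (sq_nonneg ((n : ℝ) + 1)⁻¹)
  refine le_trans (le_of_eq ?_) h4
  simp only [Pi.smul_apply, smul_eq_mul, rv, mul_pow, nn]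
  rw [← Finset.mul_sum]
  ring

theorem KK_pd {c : ℝ} (hc : 0 < c) {Q : Mx d} (h : Q ∈ KK d c) : PD Q := by
  refine ⟨h.1, fun v hv => ?_⟩
  have h1 := h.2.1.real v
  obtain ⟨i, hi⟩ : ∃ i, v i ≠ 0 := by
    by_contra hcon
    push Not at hcon
    exact hv (funext hcon)
  have h2 : 0 < ∑ i, v i ^ 2 :=
    Finset.sum_pos' (fun _ _ => sq_nonneg _) ⟨i, Finset.mem_univ i, by positivity⟩
  have := mul_pos hc h2
  linarith

lemma cmp_qf_single (Q : Mx d) (i : Fin d) : qf Q (Pi.single i 1) = Q i i := by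
  have h : rv (Pi.single i 1 : Fin d → ℤ) = Pi.single i (1 : ℝ) := by
    funext j
    by_cases hj : j = i
    · subst hj; simp [rv]
    · simp [rv, hj]
  unfold qf qr
  rw [h]
  simp

/-- bound of the entries -/
lemma cmp_entry {c : ℝ} (hc : 0 < c) {Q : Mx d} (h : Q ∈ KK d c) (i j : Fin d) :
    |Q i j| ≤ 2 / c := by
  have hs : Q j i = Q i j := by
    have := congrFun (congrFun h.1 i) j
    simpa [transpose_apply] using this
  have h1 : ∀ ε : ℝ, qr Q (Pi.single i 1 + ε • Pi.single j 1) =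
      Q i i + 2 * ε * Q i j + ε ^ 2 * Q j j := by
    intro ε
    simp only [qr, mulVec_add, mulVec_smul, dotProduct_add, add_dotProduct, smul_dotProduct,
      dotProduct_smul, smul_eq_mul, single_one_dotProduct, mulVec_single_one, Matrix.col_apply]
    rw [hs]
    ring
  have h0 : ∀ v : Fin d → ℝ, 0 ≤ qr Q v := fun v => by
    have h2 := h.2.1.real v
    have : 0 ≤ c * ∑ i, v i ^ 2 := mul_nonneg hc.le (Finset.sum_nonneg fun _ _ => sq_nonneg _)
    linarith
  have h3 := h0 (Pi.single i 1 + (1 : ℝ) • Pi.single j 1)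
  have h4 := h0 (Pi.single i 1 + (-1 : ℝ) • Pi.single j 1)
  rw [h1] at h3 h4
  have h5 := h.2.2 i
  have h6 := h.2.2 j
  rw [abs_le]
  constructor <;> linarith

theorem isCompact_KK {c : ℝ} (hc : 0 < c) : IsCompact (KK d c) := by
  have : ProperSpace (Mx d) := FiniteDimensional.proper ℝ (Mx d)
  refine Metric.isCompact_of_isClosed_isBounded ?_ ?_
  · have h1 : IsClosed {Q : Mx d | Q.IsSymm} := by
      have : {H : Mx d | H.IsSymm} = {H : Mx d | Hᵀ = H} := rfl
      rw [this]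
      exact isClosed_eq (by fun_prop) continuous_id
    have h2 : IsClosed {Q : Mx d | Low c Q} := by
      have : {Q : Mx d | Low c Q} = ⋂ x : Fin d → ℤ, {Q : Mx d | c * nn x ≤ qf Q x} := by
        ext H
        simp [Low]
      rw [this]
      exact isClosed_iInter fun x => isClosed_le continuous_const (cmp_continuous_qr _)
    have h3 : IsClosed {Q : Mx d | ∀ i, Q i i ≤ 2 / c} := by
      have : {Q : Mx d | ∀ i, Q i i ≤ 2 / c} = ⋂ i : Fin d, {Q : Mx d | Q i i ≤ 2 / c} := by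
        ext H
        simp
      rw [this]
      exact isClosed_iInter fun i => isClosed_le (by fun_prop) continuous_const
    have : KK d c = {Q : Mx d | Q.IsSymm} ∩ ({Q : Mx d | Low c Q} ∩ {Q : Mx d | ∀ i, Q i i ≤ 2 / c}) := by
      ext Q
      rfl
    rw [this]
    exact h1.inter (h2.inter h3)
  · rw [isBounded_iff_forall_norm_le]
    refine ⟨2 / c, fun Q hQ => ?_⟩
    rw [Matrix.norm_le_iff (by positivity)]
    intro i j
    rw [Real.norm_eq_abs]
    exact cmp_entry hc hQ i j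

/-! ### Cauchy-Schwarz -/

lemma cmp_inv {Q : Mx d} (hQ : PD Q) (i : Fin d) :
    0 < Q⁻¹ i i ∧ ∀ v : Fin d → ℝ, v i ^ 2 ≤ qr Q v * Q⁻¹ i i := by
  set w : Fin d → ℝ := Q⁻¹ *ᵥ Pi.single i 1 with hw
  have hdet : IsUnit Q.det := hQ.det_pos.ne'.isUnit
  have hQw : Q *ᵥ w = Pi.single i 1 := by
    rw [hw, mulVec_mulVec, Matrix.mul_nonsing_inv _ hdet, one_mulVec]
  have hwi : w i = Q⁻¹ i i := by
    rw [hw, mulVec_single_one, Matrix.col_apply]
  have hqw : qr Q w = Q⁻¹ i i := by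
    unfold qr
    rw [hQw, dotProduct_single_one, hwi]
  have hw0 : w ≠ 0 := by
    intro h0
    rw [h0, mulVec_zero] at hQw
    have := congrFun hQw i
    simp at this
  have hpos : 0 < Q⁻¹ i i := hqw ▸ hQ.2 w hw0
  refine ⟨hpos, fun v => ?_⟩
  have h1 : ∀ t : ℝ, qr Q (v - t • w) = qr Q v - 2 * t * v i + t ^ 2 * Q⁻¹ i i := by
    intro t
    have h2 : w ⬝ᵥ (Q *ᵥ v) = v i := by
      rw [dotProduct_mulVec, ← mulVec_transpose, hQ.1, hQw, single_one_dotProduct]
    have h3 : v ⬝ᵥ (Q *ᵥ w) = v i := by rw [hQw, dotProduct_single_one]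
    have h4 : w ⬝ᵥ (Q *ᵥ w) = Q⁻¹ i i := hqw
    simp only [qr, mulVec_sub, mulVec_smul, dotProduct_sub, sub_dotProduct, smul_dotProduct,
      dotProduct_smul, smul_eq_mul, h2, h3, h4]
    ring
  have h0 : ∀ u : Fin d → ℝ, 0 ≤ qr Q u := fun u => by
    rcases eq_or_ne u 0 with rfl | hu
    · simp [qr]
    · exact (hQ.2 u hu).le
  have h5 := h0 (v - (v i / Q⁻¹ i i) • w)
  rw [h1] at h5
  have h6 : qr Q v - 2 * (v i / Q⁻¹ i i) * v i + (v i / Q⁻¹ i i) ^ 2 * Q⁻¹ i i =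
      qr Q v - v i ^ 2 / Q⁻¹ i i := by
    field_simp
    ring
  rw [h6, sub_nonneg, div_le_iff₀ hpos] at h5
  exact h5

/-- the form `x i ^ 2` -/
lemma cmp_single (i : Fin d) : (Matrix.single i i (1 : ℝ) : Mx d).IsSymm ∧
    (∀ x : Fin d → ℤ, qf (Matrix.single i i (1 : ℝ)) x = (x i : ℝ) ^ 2) ∧
    ∀ B : Mx d, (B * Matrix.single i i (1 : ℝ)).trace = B i i := by
  refine ⟨?_, fun x => ?_, fun B => ?_⟩
  · unfold Matrix.IsSymm
    rw [transpose_single]
  · unfold qf
    rw [qr_eq]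
    rw [Finset.sum_eq_single i, Finset.sum_eq_single i]
    · simp [rv]
      ring
    · intro j _ hj
      simp [Ne.symm hj]
    · intro h; exact absurd (Finset.mem_univ _) h
    · intro j _ hj
      refine Finset.sum_eq_zero fun k _ => ?_
      simp [Ne.symm hj]
    · intro h; exact absurd (Finset.mem_univ _) h
  · rw [trace_mul_comm, Matrix.trace_single_mul]
    simp

lemma cmp_nn_single {x : Fin d → ℤ} {i : Fin d} (hi : x i ≠ 0) : (1 : ℝ) ≤ (x i : ℝ) ^ 2 := by
  have : (1 : ℤ) ≤ (x i) ^ 2 := by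
    have := sq_pos_of_ne_zero hi
    omega
  exact_mod_cast this

/-- membership in the compact set -/
lemma cmp_mem {c : ℝ} (hc : 0 < c) {Q : Mx d} (hQ : PD Q)
    (hred : ∀ x : Fin d → ℤ, c * ∑ i, Q i i * (x i : ℝ) ^ 2 ≤ qf Q x)
    (hmin : ∀ x : NZ d, 1 ≤ qf Q x.1)
    (hex : ∀ i, ∃ x : NZ d, x.1 i ≠ 0 ∧ qf Q x.1 ≤ 2) : Q ∈ KK d c := by
  have h1 : ∀ i, 1 ≤ Q i i := fun i => by
    rw [← cmp_qf_single Q i]
    exact hmin ⟨Pi.single i 1, by
      intro h
      have := congrFun h i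
      simp at this⟩
  refine ⟨hQ.1, fun x => ?_, fun i => ?_⟩
  · refine le_trans (mul_le_mul_of_nonneg_left (Finset.sum_le_sum fun i _ => ?_) hc.le) (hred x)
    nlinarith [h1 i, sq_nonneg (x i : ℝ)]
  · obtain ⟨x, hx, hx2⟩ := hex i
    rw [le_div_iff₀ hc]
    have h2 := hred x.1
    have h3 : Q i i * (x.1 i : ℝ) ^ 2 ≤ ∑ j, Q j j * (x.1 j : ℝ) ^ 2 :=
      Finset.single_le_sum (f := fun j => Q j j * (x.1 j : ℝ) ^ 2)
        (fun j _ => mul_nonneg (by linarith [h1 j]) (sq_nonneg _)) (Finset.mem_univ i)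
    have h4 := cmp_nn_single hx
    have h5 : Q i i ≤ Q i i * (x.1 i : ℝ) ^ 2 := by nlinarith [h1 i]
    have h6 := mul_le_mul_of_nonneg_left (h5.trans h3) hc.le
    linarith

/-- a stationary form with `F s Q = 1` is equivalent to a reduced one, for large `s`.

Proof: reduce by `reduction`; `act U Q i i ≥ 1` (value at a nonzero vector), so `Low c`. By `tail`
with `δ = 1` the part of `F` over the vectors with value `≥ 2` is `< 1/d` for `s ≥ s₁`. If for some
`i` all `x` with value `< 2` had `x i = 0`, stationarity for `H = e_i e_iᵀ` and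
`(x i)² ≤ Q[x] (Q⁻¹) i i` would give `1/d ≤` tail. So some `x` has value `< 2` and `x i ≠ 0`, whence
`c Q i i ≤ 2`. -/
theorem crit_reduce (d : ℕ) (hd : d ≠ 0) : ∃ c > 0, ∃ s₁ : ℝ, (d : ℝ) / 2 < s₁ ∧
    (∀ s : ℝ, s₁ ≤ s → ∀ Q : Mx d, PD Q → F s Q = 1 → Crit s Q → ∃ Q', Eqv Q Q' ∧ Q' ∈ KK d c) ∧
    ∀ A : Mx d, Ext A → ∃ A', Eqv A A' ∧ A' ∈ KK d c := by
  obtain ⟨c, hc, hred⟩ := reduction d
  obtain ⟨K, hK, htail⟩ := tail (d := d) hc one_pos
  have hdp : (0 : ℝ) < d := by exact_mod_cast Nat.pos_of_ne_zero hd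
  -- choice of s₁
  obtain ⟨s₀, hs₀⟩ : ∃ s₀ : ℝ, ∀ s ≥ s₀, K * (1 + 1 : ℝ) ^ (-s) < 1 / d := by
    have h1 : Tendsto (fun s : ℝ => K * (1 + 1 : ℝ) ^ (-s)) atTop (𝓝 (K * 0)) := by
      refine Tendsto.const_mul K ?_
      have h2 : Tendsto (fun s : ℝ => (1 / 2 : ℝ) ^ s) atTop (𝓝 0) :=
        tendsto_rpow_atTop_of_base_lt_one (1 / 2) (by norm_num) (by norm_num)
      refine h2.congr fun s => ?_
      rw [Real.rpow_neg (by norm_num), one_div, Real.inv_rpow (by norm_num)]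
      norm_num
    rw [mul_zero] at h1
    have h3 := h1.eventually_lt_const (show (0 : ℝ) < 1 / d by positivity)
    obtain ⟨s₀, hs₀⟩ := eventually_atTop.1 h3
    exact ⟨s₀, hs₀⟩
  have hred' : ∀ Q : Mx d, PD Q → ∃ Q', Eqv Q Q' ∧
      ∀ x : Fin d → ℤ, c * ∑ i, Q' i i * (x i : ℝ) ^ 2 ≤ qf Q' x := by
    intro Q hQ
    obtain ⟨U, hU, h1⟩ := hred Q hQ
    refine ⟨act U Q, ⟨U, hU, rfl⟩, fun x => ?_⟩
    rw [qf_act]
    exact h1 x
  refine ⟨c, hc, max s₀ ((d : ℝ) / 2 + 1), ?_, ?_, ?_⟩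
  · exact lt_of_lt_of_le (by linarith) (le_max_right _ _)
  · intro s hs Q hQ hF hC
    have hs1 : (d : ℝ) / 2 + 1 ≤ s := (le_max_right _ _).trans hs
    have hs2 : (d : ℝ) / 2 < s := by linarith
    have hs3 := hs₀ s ((le_max_left _ _).trans hs)
    obtain ⟨Q', he, hr⟩ := hred' Q hQ
    have hQ' := he.pd hQ
    have hF' : F s Q' = 1 := by rw [he.F, hF]
    have hC' := he.crit hQ hC
    have hmin := one_le_of_F hQ' hs2 hF'
    refine ⟨Q', he, cmp_mem hc hQ' hr hmin fun i => ?_⟩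
    by_contra hcon
    push Not at hcon
    have h1 : ∀ i, 1 ≤ Q' i i := fun i => by
      rw [← cmp_qf_single Q' i]
      exact hmin ⟨Pi.single i 1, by
        intro h
        have := congrFun h i
        simp at this⟩
    have hlow : Low c Q' := fun x => by
      refine le_trans (mul_le_mul_of_nonneg_left (Finset.sum_le_sum fun i _ => ?_) hc.le) (hr x)
      nlinarith [h1 i, sq_nonneg (x i : ℝ)]
    obtain ⟨hH1, hH2, hH3⟩ := cmp_single i
    have h2 := hC' _ hH1
    rw [hF', hH3, one_mul] at h2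
    obtain ⟨hip, hcs⟩ := cmp_inv hQ' i
    have h3 := htail s hs1 Q' hlow {x | x.1 i ≠ 0} fun x hx => by
      have := hcon x hx
      linarith
    have hsum1 := hlow.summable_mul hc hs2 (Matrix.single i i (1 : ℝ))
    have hsum2 : Summable fun x : NZ d =>
        {x : NZ d | x.1 i ≠ 0}.indicator (fun x => qf Q' x.1 ^ (-s)) x :=
      (hlow.summable hc hs2).indicator _
    have h4 : ∑' x : NZ d, qf Q' x.1 ^ (-s) * (qf (Matrix.single i i (1 : ℝ)) x.1 / qf Q' x.1) ≤
        ∑' x : NZ d, Q'⁻¹ i i * {x : NZ d | x.1 i ≠ 0}.indicator (fun x => qf Q' x.1 ^ (-s)) x := by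
      refine hsum1.tsum_le_tsum (fun x => ?_) (hsum2.mul_left _)
      have hp := hlow.pos hc x
      have hp' := Real.rpow_nonneg hp.le (-s)
      by_cases hx : x ∈ {x : NZ d | x.1 i ≠ 0}
      · rw [Set.indicator_of_mem hx, mul_comm]
        refine mul_le_mul_of_nonneg_right ?_ hp'
        rw [hH2, div_le_iff₀ hp]
        have := hcs (rv x.1)
        rw [mul_comm]
        exact this
      · rw [Set.indicator_of_notMem hx, hH2]
        have hx0 : x.1 i = 0 := by
          by_contra h0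
          exact hx h0
        rw [hx0]
        simp
    rw [h2, tsum_mul_left] at h4
    have h5 := mul_le_mul_of_nonneg_left h3 hip.le
    have h6 : Q'⁻¹ i i * (K * (1 + 1 : ℝ) ^ (-s)) < Q'⁻¹ i i * (1 / d) :=
      mul_lt_mul_of_pos_left hs3 hip
    have h7 : Q'⁻¹ i i / d = Q'⁻¹ i i * (1 / d) := by ring
    linarith
  · intro A hA
    obtain ⟨A', he, hr⟩ := hred' A hA.1
    have hA' := he.ext hA
    refine ⟨A', he, cmp_mem hc hA'.1 hr hA'.2.1 fun i => ?_⟩
    by_contra hcon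
    push Not at hcon
    obtain ⟨hH1, hH2, hH3⟩ := cmp_single i
    obtain ⟨hip, -⟩ := cmp_inv hA'.1 i
    have h0 := hA'.2.2 (-Matrix.single i i (1 : ℝ)) hH1.neg (fun x hx => by
      rw [qf_neg, hH2]
      have hx0 : x.1 i = 0 := by
        by_contra h0
        have := hcon x h0
        linarith
      rw [hx0]
      simp) (by
      rw [mul_neg, trace_neg, hH3]
      linarith)
    have h1 : (Matrix.single i i (1 : ℝ) : Mx d) = 0 := neg_eq_zero.1 h0
    have h2 := congrFun (congrFun h1 i) i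
    simp at h2

/-- finiteness of the reduced extreme forms: an extreme form is determined by its minimal vectors,
which lie in a fixed finite set. -/
theorem finite_ext {c : ℝ} (hc : 0 < c) : {A : Mx d | A ∈ KK d c ∧ Ext A}.Finite := by
  have hfin : {x : NZ d | c * nn x.1 ≤ 1}.Finite := by
    have hPD : PD ((c : ℝ) • (1 : Mx d)) := by
      refine PD.smul ⟨isSymm_one, fun v hv => ?_⟩ hc
      obtain ⟨i, hi⟩ : ∃ i, v i ≠ 0 := by
        by_contra hcon
        push Not at hcon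
        exact hv (funext hcon)
      unfold qr
      rw [one_mulVec]
      exact Finset.sum_pos' (fun _ _ => mul_self_nonneg _)
        ⟨i, Finset.mem_univ i, mul_self_pos.2 hi⟩
    refine (finite_level hPD 1).subset fun x hx => ?_
    have h1 : qf ((c : ℝ) • (1 : Mx d)) x.1 = c * nn x.1 := by
      rw [qf_smul]
      unfold qf qr nn rv
      rw [one_mulVec]
      congr 1
      exact Finset.sum_congr rfl fun i _ => by ring
    show qf ((c : ℝ) • (1 : Mx d)) x.1 ≤ 1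
    rw [h1]
    exact hx
  refine Set.Finite.of_finite_image (f := minSet) (hfin.finite_subsets.subset ?_) ?_
  · rintro _ ⟨A, ⟨hA, hE⟩, rfl⟩ x hx
    have h1 : qf A x.1 = 1 := hx
    exact h1 ▸ hA.2.1 x.1
  · rintro A ⟨hA, hEA⟩ B ⟨hB, hEB⟩ hAB
    have hs : (B - A).IsSymm := hB.1.sub hA.1
    have hz : ∀ x : NZ d, qf A x.1 = 1 → qf (B - A) x.1 = 0 := by
      intro x hx
      have h1 : x ∈ minSet B := by
        rw [← hAB]
        exact hx
      have h2 : qf B x.1 = 1 := h1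
      rw [qf_sub, hx, h2, sub_self]
    rcases le_total (A⁻¹ * (B - A)).trace 0 with h | h
    · have h1 := hEA.2.2 (B - A) hs (fun x hx => (hz x hx).ge) h
      exact (sub_eq_zero.1 h1).symm
    · have h1 := hEA.2.2 (-(B - A)) hs.neg (fun x hx => by rw [qf_neg, hz x hx]; simp) (by
        rw [mul_neg, trace_neg]
        linarith)
      exact (sub_eq_zero.1 (neg_eq_zero.1 h1)).symm

/-- forms in a compact set of positive definite forms are equivalent in finitely many ways: if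
`Q k → A`, `Q' k → A'`, positive definite limits, and `Eqv (Q k) (Q' k)` for infinitely many `k`,
then `Eqv A A'`. -/
theorem eqv_limit {A A' : Mx d} (hA : PD A) (hA' : PD A') {Q Q' : ℕ → Mx d}
    (hQ : Tendsto Q atTop (𝓝 A)) (hQ' : Tendsto Q' atTop (𝓝 A'))
    (h : ∀ k, Eqv (Q k) (Q' k)) : Eqv A A' := by
  choose U hU hUQ using h
  obtain ⟨c, hc, hl⟩ := hA.lower
  -- uniform lower bound
  have h1 : ∀ᶠ k in atTop, ∀ v : Fin d → ℝ, c / 2 * ∑ i, v i ^ 2 ≤ qr (Q k) v := by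
    have h2 : Tendsto (fun k => (d : ℝ) * ‖Q k - A‖) atTop (𝓝 (d * ‖A - A‖)) :=
      ((hQ.sub_const A).norm).const_mul _
    rw [sub_self, norm_zero, mul_zero] at h2
    filter_upwards [h2.eventually_le_const (show (0 : ℝ) < c / 2 by positivity)] with k hk
    exact fun v => lower_near hl hk v
  -- upper bound of the entries
  have h2 : ∀ᶠ k in atTop, ‖Q' k‖ ≤ ‖A'‖ + 1 :=
    hQ'.norm.eventually_le_const (by linarith)
  set B : ℤ := ⌈(‖A'‖ + 1) / (c / 2)⌉ with hB
  have hfin : {V : Matrix (Fin d) (Fin d) ℤ | ∀ i, V i ∈ {r : Fin d → ℤ | ∀ j, r j ∈ Set.Icc (-B) B}}.Finite :=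
    Set.Finite.pi' fun _ => Set.Finite.pi' fun _ => Set.finite_Icc _ _
  have h3 : ∀ᶠ k in atTop, U k ∈ {V : Matrix (Fin d) (Fin d) ℤ | ∀ i, V i ∈ {r : Fin d → ℤ | ∀ j, r j ∈ Set.Icc (-B) B}} := by
    filter_upwards [h1, h2] with k hk1 hk2
    intro i j
    have h4 : qf (Q k) (U k *ᵥ Pi.single j 1) = Q' k j j := by
      rw [← qf_act, ← hUQ, cmp_qf_single]
    have h5 := hk1 (rv (U k *ᵥ Pi.single j 1))
    have h6 : ((U k i j : ℤ) : ℝ) ^ 2 ≤ ∑ l, rv (U k *ᵥ Pi.single j 1) l ^ 2 := by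
      have h7 : rv (U k *ᵥ Pi.single j 1) i = (U k i j : ℝ) := by
        rw [mulVec_single_one]
        rfl
      rw [← h7]
      exact Finset.single_le_sum (f := fun l => rv (U k *ᵥ Pi.single j 1) l ^ 2)
        (fun _ _ => sq_nonneg _) (Finset.mem_univ i)
    have h8 : Q' k j j ≤ ‖A'‖ + 1 := ((le_abs_self _).trans (entry_le _ _ _)).trans hk2
    have h9 : ((U k i j : ℤ) : ℝ) ^ 2 ≤ (‖A'‖ + 1) / (c / 2) := by
      rw [le_div_iff₀ (by positivity)]
      have h10 := mul_le_mul_of_nonneg_left h6 (show 0 ≤ c / 2 by positivity)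
      have h11 : c / 2 * ∑ l, rv (U k *ᵥ Pi.single j 1) l ^ 2 ≤ Q' k j j := by
        rw [← h4]
        exact h5
      linarith
    have h10 : (|U k i j| : ℤ) ≤ B := by
      have h11 : |U k i j| ≤ (U k i j) ^ 2 := by
        rcases eq_or_ne (U k i j) 0 with h | h
        · simp [h]
        · have h5 : 1 ≤ |U k i j| := Int.one_le_abs h
          rw [← sq_abs]
          nlinarith
      have h12 : ((|U k i j| : ℤ) : ℝ) ≤ (B : ℝ) := by
        have h13 : ((|U k i j| : ℤ) : ℝ) ≤ (((U k i j) ^ 2 : ℤ) : ℝ) := by exact_mod_cast h11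
        push_cast at h13 ⊢
        exact (h13.trans h9).trans (Int.le_ceil _)
      exact_mod_cast h12
    exact Set.mem_Icc.2 (abs_le.1 h10)
  obtain ⟨V, -, hV⟩ : ∃ V ∈ {V : Matrix (Fin d) (Fin d) ℤ | ∀ i, V i ∈ {r : Fin d → ℤ | ∀ j, r j ∈ Set.Icc (-B) B}},
      ∃ᶠ k in atTop, U k = V := by
    by_contra hcon
    push Not at hcon
    have h4 := (eventually_all_finite hfin).2 fun V hV => hcon V hV
    obtain ⟨k, hk1, hk2⟩ := (h3.and h4).exists
    exact hk2 _ hk1 rfl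
  obtain ⟨k, hk⟩ := hV.exists
  refine ⟨V, hk ▸ hU k, ?_⟩
  have hcl : IsClosed {p : Mx d × Mx d | p.2 = act V p.1} :=
    isClosed_eq continuous_snd ((continuous_act V).comp continuous_fst)
  have h4 : ∃ᶠ k in atTop, (Q k, Q' k) ∈ {p : Mx d × Mx d | p.2 = act V p.1} :=
    hV.mono fun k hk => by
      show Q' k = act V (Q k)
      rw [hUQ k, hk]
  exact hcl.mem_of_frequently_of_tendsto h4 (hQ.prodMk_nhds hQ')

end Pool.Agent.Lib.EpZ
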