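import Pool.Agent.Lib.EpZ.Key

/-!
# The entropy limit

Let `T k = s k • (Q k - A)`, bounded by `key`. Along a subsequence `T k → T`. For a minimal vector
`x` of `A`, `Q k [x] = 1 + T k [x] / s k`, so the weight `Q k [x]^(-s k) → exp (-T[x]) =: ρ x`;
the other weights have sum `→ 0` (`near_data`, `tail`). Passing to the limit in `F = 1` and in
`Crit` gives `Eut A ρ` (note that `∑ ρ x = 1` is the case `H = A`), and
`(det Q k / det A)^(s k / d) → exp (tr (A⁻¹ T) / d)` (`simDiag_data` or the derivative of `det`: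
`det (A + T k / s k) = det A * ∏ (1 + μ i / s k)`; or `logdet_lower` and `log det Q ≤ log det A +
tr (A⁻¹ (Q - A))`, which follows from `amgm`). By `Eut A ρ'` for any `ρ'` (Gibbs inequality)
`entr ρ' ≤ - ∑ ρ' x log (ρ x) = ∑ ρ' x T[x] = tr (A⁻¹ T) / d`, with equality for `ρ' = ρ`. Hence
`h = tr (A⁻¹ T) / d` is the greatest entropy, independent of the subsequence. Also `T` does not
depend on the subsequence: if `T'` is another limit, with `ρ'`, equality in Gibbs' inequality gives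
`ρ = ρ'`, so `T[x] = T'[x]` on the minimal vectors and `T = T'` since `A` is perfect (`Ext` applied
to `±(T - T')`).
-/

open Matrix Filter Topology
open scoped Matrix.Norms.Elementwise

namespace Pool.Agent.Lib.EpZ

variable {d : ℕ}

/-- eutaxy coefficients of a form with minimum one -/
def Eut (A : Mx d) (ρ : NZ d → ℝ) : Prop :=
  (∀ x, 0 ≤ ρ x) ∧ (∀ x, x ∉ minSet A → ρ x = 0) ∧
    ∀ H : Mx d, H.IsSymm → ∑' x : NZ d, ρ x * qf H x.1 = (A⁻¹ * H).trace / d

/-- the entropy of a weight function -/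
noncomputable def entr (ρ : NZ d → ℝ) : ℝ := ∑' x : NZ d, Real.negMulLog (ρ x)

namespace EntAux

lemma continuous_qf (x : Fin d → ℤ) : Continuous fun Q : Mx d => qf Q x := by
  unfold qf qr
  fun_prop

lemma tendsto_trace_inv {A : Mx d} (hA : PD A) {Q : ℕ → Mx d} (hlim : Tendsto Q atTop (𝓝 A))
    (H : Mx d) : Tendsto (fun k => ((Q k)⁻¹ * H).trace) atTop (𝓝 ((A⁻¹ * H).trace)) := by
  have hdet : Tendsto (fun k => (Q k).det) atTop (𝓝 A.det) :=
    (continuous_id.matrix_det.tendsto A).comp hlim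
  have hadj : Tendsto (fun k => (Q k).adjugate) atTop (𝓝 A.adjugate) :=
    (continuous_id.matrix_adjugate.tendsto A).comp hlim
  have hinv : Tendsto (fun k => (Q k)⁻¹) atTop (𝓝 A⁻¹) := by
    simp only [Matrix.inv_def, Ring.inverse_eq_inv']
    exact (hdet.inv₀ hA.det_pos.ne').smul hadj
  have hc : Continuous fun R : Mx d => (R * H).trace :=
    (continuous_id.matrix_mul continuous_const).matrix_trace
  exact (hc.tendsto _).comp hinv

/-- `s log q → a` -/
lemma tendsto_s_log {s q : ℕ → ℝ} {a : ℝ} (hs : Tendsto s atTop atTop)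
    (hq : Tendsto q atTop (𝓝 1)) (ha : Tendsto (fun k => s k * (q k - 1)) atTop (𝓝 a)) :
    Tendsto (fun k => s k * Real.log (q k)) atTop (𝓝 a) := by
  have hpos : ∀ᶠ k in atTop, 0 < q k := hq.eventually (lt_mem_nhds one_pos)
  have hs0 : ∀ᶠ k in atTop, 0 ≤ s k := hs.eventually_ge_atTop 0
  have h1 : Tendsto (fun k => s k * (q k - 1) / q k) atTop (𝓝 a) := by
    have := ha.div hq one_ne_zero
    rwa [div_one] at this
  refine tendsto_of_tendsto_of_tendsto_of_le_of_le' h1 ha ?_ ?_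
  · filter_upwards [hpos, hs0] with k hk hk'
    have h2 := Real.one_sub_inv_le_log_of_pos hk
    have h3 : s k * (q k - 1) / q k = s k * (1 - (q k)⁻¹) := by
      field_simp
    rw [h3]
    exact mul_le_mul_of_nonneg_left h2 hk'
  · filter_upwards [hpos, hs0] with k hk hk'
    exact mul_le_mul_of_nonneg_left (Real.log_le_sub_one_of_pos hk) hk'

lemma tendsto_qf {A : Mx d} {Q : ℕ → Mx d} (hlim : Tendsto Q atTop (𝓝 A)) (x : NZ d) :
    Tendsto (fun k => qf (Q k) x.1) atTop (𝓝 (qf A x.1)) :=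
  ((continuous_qf x.1).tendsto A).comp hlim

lemma weight_min {A T : Mx d} {s : ℕ → ℝ} (hs : Tendsto s atTop atTop) {Q : ℕ → Mx d}
    (hQ : ∀ k, PD (Q k)) (hlim : Tendsto Q atTop (𝓝 A))
    (hT : Tendsto (fun k => s k • (Q k - A)) atTop (𝓝 T)) {x : NZ d} (hx : x ∈ minSet A) :
    Tendsto (fun k => qf (Q k) x.1 ^ (-(s k))) atTop (𝓝 (Real.exp (-qf T x.1))) := by
  have h1 : Tendsto (fun k => qf (Q k) x.1) atTop (𝓝 1) := by
    have := tendsto_qf hlim x
    rwa [show qf A x.1 = 1 from hx] at this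
  have h2 : Tendsto (fun k => s k * (qf (Q k) x.1 - 1)) atTop (𝓝 (qf T x.1)) := by
    refine (((continuous_qf x.1).tendsto T).comp hT).congr fun k => ?_
    show qf (s k • (Q k - A)) x.1 = _
    rw [qf_smul, qf_sub, show qf A x.1 = 1 from hx]
  have h3 := tendsto_s_log hs h1 h2
  refine ((Real.continuous_exp.tendsto _).comp h3.neg).congr fun k => ?_
  show Real.exp (-(s k * Real.log (qf (Q k) x.1))) = _
  rw [Real.rpow_def_of_pos ((hQ k).pos x)]
  congr 1
  ring

lemma tendsto_pow_neg {s : ℕ → ℝ} (hs : Tendsto s atTop atTop) {δ : ℝ} (hδ : 0 < δ) :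
    Tendsto (fun k => (1 + δ) ^ (-(s k))) atTop (𝓝 0) :=
  (tendsto_rpow_atBot_of_base_gt_one (1 + δ) (by linarith)).comp (tendsto_neg_atTop_atBot.comp hs)

lemma eventually_near {A : Mx d} {Q : ℕ → Mx d} (hlim : Tendsto Q atTop (𝓝 A)) {r : ℝ}
    (hr : 0 < r) : ∀ᶠ k in atTop, ‖Q k - A‖ ≤ r := by
  have h1 : Tendsto (fun k => ‖Q k - A‖) atTop (𝓝 0) := tendsto_iff_norm_sub_tendsto_zero.1 hlim
  exact (h1.eventually (gt_mem_nhds hr)).mono fun k hk => hk.le

lemma weight_far {A : Mx d} (hA : PD A) (h1 : ∀ x : NZ d, 1 ≤ qf A x.1) {s : ℕ → ℝ}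
    (hs : Tendsto s atTop atTop) {Q : ℕ → Mx d} (hlim : Tendsto Q atTop (𝓝 A)) {x : NZ d}
    (hx : x ∉ minSet A) : Tendsto (fun k => qf (Q k) x.1 ^ (-(s k))) atTop (𝓝 0) := by
  obtain ⟨c, hc, δ, hδ, r, hr, hnear⟩ := near_data hA h1
  have hs0 : ∀ᶠ k in atTop, 0 ≤ s k := hs.eventually_ge_atTop 0
  refine tendsto_of_tendsto_of_tendsto_of_le_of_le' tendsto_const_nhds (tendsto_pow_neg hs hδ) ?_ ?_
  · filter_upwards [eventually_near hlim hr] with k hk
    have h2 := (hnear (Q k) hk).2.2 x hx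
    exact Real.rpow_nonneg (by linarith) _
  · filter_upwards [eventually_near hlim hr, hs0] with k hk hk'
    exact Real.rpow_le_rpow_of_nonpos (by linarith) ((hnear (Q k) hk).2.2 x hx) (by linarith)

open Classical in
/-- the limit weights -/
noncomputable def rho (A T : Mx d) (x : NZ d) : ℝ :=
  if x ∈ minSet A then Real.exp (-qf T x.1) else 0

lemma rho_of_mem {A T : Mx d} {x : NZ d} (hx : x ∈ minSet A) : rho A T x = Real.exp (-qf T x.1) :=
  if_pos hx

lemma rho_of_notMem {A T : Mx d} {x : NZ d} (hx : x ∉ minSet A) : rho A T x = 0 := if_neg hx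

lemma sum_limit {A T : Mx d} (hA : PD A) (h1 : ∀ x : NZ d, 1 ≤ qf A x.1) {s : ℕ → ℝ}
    (hs : Tendsto s atTop atTop) {Q : ℕ → Mx d} (hQ : ∀ k, PD (Q k))
    (hlim : Tendsto Q atTop (𝓝 A)) (hT : Tendsto (fun k => s k • (Q k - A)) atTop (𝓝 T))
    (H : Mx d) :
    Tendsto (fun k => ∑' x : NZ d, qf (Q k) x.1 ^ (-(s k)) * (qf H x.1 / qf (Q k) x.1)) atTop
      (𝓝 (∑ x ∈ (finite_minSet hA).toFinset, rho A T x * qf H x.1)) := by
  obtain ⟨c, hc, δ, hδ, r, hr, hnear⟩ := near_data hA h1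
  obtain ⟨K, hK, htail⟩ := tail (d := d) hc hδ
  set S := (finite_minSet hA).toFinset with hS
  have hmem : ∀ x, x ∈ S ↔ x ∈ minSet A := fun x => by simp [hS]
  -- the finite part
  have h2 : Tendsto (fun k => ∑ x ∈ S, qf (Q k) x.1 ^ (-(s k)) * (qf H x.1 / qf (Q k) x.1)) atTop
      (𝓝 (∑ x ∈ S, rho A T x * qf H x.1)) := by
    refine tendsto_finsetSum _ fun x hx => ?_
    have hx' := (hmem x).1 hx
    have h3 := weight_min hs hQ hlim hT hx'
    have h4 : Tendsto (fun k => qf H x.1 / qf (Q k) x.1) atTop (𝓝 (qf H x.1)) := by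
      have h5 := (tendsto_const_nhds (x := qf H x.1)).div (tendsto_qf hlim x)
        (by rw [show qf A x.1 = 1 from hx']; exact one_ne_zero)
      rwa [show qf A x.1 = 1 from hx', div_one] at h5
    rw [rho_of_mem hx']
    exact h3.mul h4
  -- the tail
  have h3 : Tendsto (fun k => ∑' x : NZ d, qf (Q k) x.1 ^ (-(s k)) * (qf H x.1 / qf (Q k) x.1) -
      ∑ x ∈ S, qf (Q k) x.1 ^ (-(s k)) * (qf H x.1 / qf (Q k) x.1)) atTop (𝓝 0) := by
    have h4 : Tendsto (fun k => d * ‖H‖ / c * (K * (1 + δ) ^ (-(s k)))) atTop (𝓝 0) := by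
      have := ((tendsto_pow_neg hs hδ).const_mul K).const_mul (d * ‖H‖ / c)
      simpa using this
    refine squeeze_zero_norm' ?_ h4
    filter_upwards [eventually_near hlim hr, hs.eventually_ge_atTop ((d : ℝ) / 2 + 1)] with k hk hk'
    obtain ⟨hlow, -, hfar⟩ := hnear (Q k) hk
    have hsd : (d : ℝ) / 2 < s k := by linarith
    have h5 := (hlow.summable_mul hc hsd H)
    have h6 : ∑' x : NZ d, qf (Q k) x.1 ^ (-(s k)) * (qf H x.1 / qf (Q k) x.1) -
        ∑ x ∈ S, qf (Q k) x.1 ^ (-(s k)) * (qf H x.1 / qf (Q k) x.1) =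
        ∑' x : NZ d, ((S : Set (NZ d))ᶜ).indicator
          (fun x => qf (Q k) x.1 ^ (-(s k)) * (qf H x.1 / qf (Q k) x.1)) x := by
      rw [← h5.sum_add_tsum_compl (s := S), ← tsum_subtype]
      ring
    rw [h6]
    have h7 : ∀ x : NZ d, ‖((S : Set (NZ d))ᶜ).indicator
        (fun x => qf (Q k) x.1 ^ (-(s k)) * (qf H x.1 / qf (Q k) x.1)) x‖ ≤
        d * ‖H‖ / c * ((S : Set (NZ d))ᶜ).indicator (fun x => qf (Q k) x.1 ^ (-(s k))) x := by
      intro x
      by_cases hx : x ∈ (S : Set (NZ d))ᶜ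
      · rw [Set.indicator_of_mem hx, Set.indicator_of_mem hx, Real.norm_eq_abs, abs_mul,
          abs_of_nonneg (Real.rpow_nonneg (hlow.pos hc x).le _), mul_comm]
        exact mul_le_mul_of_nonneg_right (hlow.ratio hc H x)
          (Real.rpow_nonneg (hlow.pos hc x).le _)
      · rw [Set.indicator_of_notMem hx, Set.indicator_of_notMem hx, norm_zero, mul_zero]
    have h8 : Summable fun x : NZ d => d * ‖H‖ / c *
        ((S : Set (NZ d))ᶜ).indicator (fun x => qf (Q k) x.1 ^ (-(s k))) x :=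
      ((hlow.summable hc hsd).indicator _).mul_left _
    refine (norm_tsum_le_tsum_norm (h8.of_nonneg_of_le (fun _ => norm_nonneg _) h7)).trans ?_
    refine ((h8.of_nonneg_of_le (fun _ => norm_nonneg _) h7).tsum_le_tsum h7 h8).trans ?_
    rw [tsum_mul_left]
    refine mul_le_mul_of_nonneg_left ?_ (by positivity)
    exact htail (s k) hk' (Q k) hlow _ fun x hx => hfar x fun h => hx ((hmem x).2 h)
  have h9 := h3.add h2
  rw [zero_add] at h9
  exact h9.congr fun k => by ring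

lemma isSymm_of_tendsto {T : Mx d} {R : ℕ → Mx d} (hR : ∀ k, (R k).IsSymm)
    (h : Tendsto R atTop (𝓝 T)) : T.IsSymm := by
  have h1 : Tendsto (fun k => (R k)ᵀ) atTop (𝓝 Tᵀ) :=
    (continuous_id.matrix_transpose.tendsto T).comp h
  exact tendsto_nhds_unique h1 (h.congr fun k => (hR k).symm)

lemma tsum_eq_sum_minSet {A : Mx d} (hA : PD A) {f : NZ d → ℝ}
    (hf : ∀ x, x ∉ minSet A → f x = 0) :
    ∑' x, f x = ∑ x ∈ (finite_minSet hA).toFinset, f x :=
  tsum_eq_sum fun x hx => hf x fun h => hx (by simpa using h)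

/-- the data of a limit along a sequence -/
lemma sub_data {A T : Mx d} (hA : PD A) (h1 : ∀ x : NZ d, 1 ≤ qf A x.1) {s : ℕ → ℝ}
    (hs : Tendsto s atTop atTop) {Q : ℕ → Mx d} (hQ : ∀ k, PD (Q k))
    (hF : ∀ k, F (s k) (Q k) = 1) (hC : ∀ k, Crit (s k) (Q k))
    (hlim : Tendsto Q atTop (𝓝 A)) (hT : Tendsto (fun k => s k • (Q k - A)) atTop (𝓝 T)) :
    T.IsSymm ∧ Eut A (rho A T) := by
  refine ⟨isSymm_of_tendsto (fun k => ((hQ k).1.sub hA.1).smul _) hT, ?_, ?_, ?_⟩
  · intro x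
    by_cases hx : x ∈ minSet A
    · rw [rho_of_mem hx]; exact (Real.exp_pos _).le
    · rw [rho_of_notMem hx]
  · exact fun x hx => rho_of_notMem hx
  · intro H hH
    rw [tsum_eq_sum_minSet hA fun x hx => by rw [rho_of_notMem hx, zero_mul]]
    refine tendsto_nhds_unique (sum_limit hA h1 hs hQ hlim hT H) ?_
    refine ((tendsto_trace_inv hA hlim H).div_const (d : ℝ)).congr fun k => ?_
    rw [hC k H hH, hF k, one_mul]

lemma sum_eut (hd : d ≠ 0) {A : Mx d} (hA : PD A) {ρ : NZ d → ℝ} (h : Eut A ρ) :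
    ∑ x ∈ (finite_minSet hA).toFinset, ρ x = 1 := by
  have h1 := h.2.2 A hA.1
  rw [tsum_eq_sum_minSet hA fun x hx => by rw [h.2.1 x hx, zero_mul],
    Matrix.nonsing_inv_mul A hA.det_pos.ne'.isUnit, Matrix.trace_one, Fintype.card_fin,
    div_self (Nat.cast_ne_zero.2 hd)] at h1
  rw [← h1]
  refine Finset.sum_congr rfl fun x hx => ?_
  have hx' : x ∈ minSet A := by simpa using hx
  rw [show qf A x.1 = 1 from hx', mul_one]

lemma entr_rho {A T : Mx d} (hT : T.IsSymm) (h : Eut A (rho A T)) :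
    entr (rho A T) = (A⁻¹ * T).trace / d := by
  rw [← h.2.2 T hT]
  unfold entr
  refine tsum_congr fun x => ?_
  by_cases hx : x ∈ minSet A
  · rw [rho_of_mem hx, Real.negMulLog, Real.log_exp]
    ring
  · rw [rho_of_notMem hx, Real.negMulLog_zero, zero_mul]

/-- pointwise Gibbs inequality -/
lemma gibbs_pt {p q : ℝ} (hp : 0 < p) (hq : 0 ≤ q) :
    Real.negMulLog q ≤ q * (-Real.log p) + (p - q) := by
  rcases hq.eq_or_lt with rfl | hq
  · simp [hp.le]
  · have h1 := Real.log_le_sub_one_of_pos (div_pos hp hq)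
    rw [Real.log_div hp.ne' hq.ne'] at h1
    have h2 := mul_le_mul_of_nonneg_left h1 hq.le
    have h3 : q * (p / q - 1) = p - q := by field_simp
    rw [h3] at h2
    unfold Real.negMulLog
    linarith

lemma gibbs_pt_eq {p q : ℝ} (hp : 0 < p) (hq : 0 ≤ q)
    (h : q * (-Real.log p) + (p - q) ≤ Real.negMulLog q) : q = p := by
  rcases hq.eq_or_lt with rfl | hq
  · simp at h
    linarith
  · by_contra hne
    have h0 : p / q ≠ 1 := fun h' => hne ((div_eq_one_iff_eq hq.ne').1 h').symm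
    have h1 := Real.log_lt_sub_one_of_pos (div_pos hp hq) h0
    rw [Real.log_div hp.ne' hq.ne'] at h1
    have h2 := mul_lt_mul_of_pos_left h1 hq
    have h3 : q * (p / q - 1) = p - q := by field_simp
    rw [h3] at h2
    unfold Real.negMulLog at h
    linarith

lemma gibbs_sum (hd : d ≠ 0) {A T : Mx d} (hA : PD A) (hT : T.IsSymm) (h : Eut A (rho A T))
    {ρ : NZ d → ℝ} (hρ : Eut A ρ) :
    ∑ x ∈ (finite_minSet hA).toFinset, (ρ x * (-Real.log (rho A T x)) + (rho A T x - ρ x)) =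
      (A⁻¹ * T).trace / d := by
  rw [Finset.sum_add_distrib, Finset.sum_sub_distrib, sum_eut hd hA h, sum_eut hd hA hρ, sub_self,
    add_zero, ← hρ.2.2 T hT, tsum_eq_sum_minSet hA fun x hx => by rw [hρ.2.1 x hx, zero_mul]]
  refine Finset.sum_congr rfl fun x hx => ?_
  have hx' : x ∈ minSet A := by simpa using hx
  rw [rho_of_mem hx', Real.log_exp, neg_neg]

lemma entr_eq_sum {A : Mx d} (hA : PD A) {ρ : NZ d → ℝ} (hρ : Eut A ρ) :
    entr ρ = ∑ x ∈ (finite_minSet hA).toFinset, Real.negMulLog (ρ x) :=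
  tsum_eq_sum_minSet hA fun x hx => by rw [hρ.2.1 x hx, Real.negMulLog_zero]

lemma gibbs (hd : d ≠ 0) {A T : Mx d} (hA : PD A) (hT : T.IsSymm) (h : Eut A (rho A T))
    {ρ : NZ d → ℝ} (hρ : Eut A ρ) : entr ρ ≤ (A⁻¹ * T).trace / d := by
  rw [entr_eq_sum hA hρ, ← gibbs_sum hd hA hT h hρ]
  refine Finset.sum_le_sum fun x hx => ?_
  have hx' : x ∈ minSet A := by simpa using hx
  exact gibbs_pt (by rw [rho_of_mem hx']; exact Real.exp_pos _) (hρ.1 x)

lemma gibbs_eq (hd : d ≠ 0) {A T : Mx d} (hA : PD A) (hT : T.IsSymm) (h : Eut A (rho A T))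
    {ρ : NZ d → ℝ} (hρ : Eut A ρ) (he : (A⁻¹ * T).trace / d ≤ entr ρ) :
    ∀ x ∈ minSet A, ρ x = rho A T x := by
  rw [entr_eq_sum hA hρ, ← gibbs_sum hd hA hT h hρ] at he
  have h1 : ∀ x ∈ (finite_minSet hA).toFinset, Real.negMulLog (ρ x) ≤
      ρ x * (-Real.log (rho A T x)) + (rho A T x - ρ x) := by
    intro x hx
    have hx' : x ∈ minSet A := by simpa using hx
    exact gibbs_pt (by rw [rho_of_mem hx']; exact Real.exp_pos _) (hρ.1 x)
  have h2 := (Finset.sum_eq_sum_iff_of_le h1).1 (le_antisymm (Finset.sum_le_sum h1) he)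
  intro x hx
  exact gibbs_pt_eq (by rw [rho_of_mem hx]; exact Real.exp_pos _) (hρ.1 x)
    (h2 x (by simpa using hx)).ge

lemma limit_unique (hd : d ≠ 0) {A T T' : Mx d} (hA : Ext A) (hT : T.IsSymm)
    (h : Eut A (rho A T)) (hT' : T'.IsSymm) (h' : Eut A (rho A T')) : T = T' := by
  have h1 := gibbs hd hA.1 hT h h'
  have h2 := gibbs hd hA.1 hT' h' h
  have h3 : (A⁻¹ * T).trace / d ≤ entr (rho A T') := by
    rw [entr_rho hT h] at h2
    rw [entr_rho hT' h']
    exact h2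
  have h4 := gibbs_eq hd hA.1 hT h h' h3
  have h5 : ∀ x : NZ d, qf A x.1 = 1 → qf T x.1 = qf T' x.1 := by
    intro x hx
    have h6 := h4 x hx
    rw [rho_of_mem (show x ∈ minSet A from hx), rho_of_mem (show x ∈ minSet A from hx)] at h6
    have h7 := Real.exp_injective h6
    linarith
  rcases le_total ((A⁻¹ * (T - T')).trace) 0 with h6 | h6
  · have h7 := hA.2.2 (T - T') (hT.sub hT') (fun x hx => by rw [qf_sub, h5 x hx, sub_self]) h6
    exact sub_eq_zero.1 h7
  · have h8 : (A⁻¹ * (T' - T)).trace ≤ 0 := by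
      have h9 : (A⁻¹ * (T' - T)).trace = -(A⁻¹ * (T - T')).trace := by
        rw [← neg_sub T T', Matrix.mul_neg, Matrix.trace_neg]
      linarith
    have h7 := hA.2.2 (T' - T) (hT'.sub hT) (fun x hx => by rw [qf_sub, h5 x hx, sub_self]) h8
    exact (sub_eq_zero.1 h7).symm

/-- limit of the determinants -/
lemma det_limit (hd : d ≠ 0) {A T : Mx d} (hA : PD A) {s : ℕ → ℝ}
    (hs : Tendsto s atTop atTop) {Q : ℕ → Mx d} (hQ : ∀ k, PD (Q k))
    (hlim : Tendsto Q atTop (𝓝 A)) (hT : Tendsto (fun k => s k • (Q k - A)) atTop (𝓝 T)) :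
    Tendsto (fun k => ((Q k).det / A.det) ^ (s k / d)) atTop
      (𝓝 (Real.exp ((A⁻¹ * T).trace / d))) := by
  have hd' : (0 : ℝ) < d := Nat.cast_pos.2 (Nat.pos_of_ne_zero hd)
  obtain ⟨r, hr, C, hlow⟩ := logdet_lower hA
  have hc : Continuous fun R : Mx d => (A⁻¹ * R).trace :=
    (continuous_const.matrix_mul continuous_id).matrix_trace
  have htr : Tendsto (fun k => s k * (A⁻¹ * (Q k - A)).trace) atTop (𝓝 ((A⁻¹ * T).trace)) := by
    refine ((hc.tendsto T).comp hT).congr fun k => ?_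
    show (A⁻¹ * (s k • (Q k - A))).trace = _
    rw [Matrix.mul_smul, Matrix.trace_smul, smul_eq_mul]
  have hn0 : Tendsto (fun k => ‖Q k - A‖) atTop (𝓝 0) := tendsto_iff_norm_sub_tendsto_zero.1 hlim
  have hsn : Tendsto (fun k => s k * (C * ‖Q k - A‖ ^ 2)) atTop (𝓝 0) := by
    have h1 : Tendsto (fun k => C * (‖s k • (Q k - A)‖ * ‖Q k - A‖)) atTop (𝓝 (C * (‖T‖ * 0))) :=
      (hT.norm.mul hn0).const_mul C
    rw [mul_zero, mul_zero] at h1
    refine h1.congr' ?_
    filter_upwards [hs.eventually_ge_atTop 0] with k hk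
    rw [norm_smul, Real.norm_eq_abs, abs_of_nonneg hk]
    ring
  have hlog : Tendsto (fun k => s k * Real.log ((Q k).det / A.det)) atTop
      (𝓝 ((A⁻¹ * T).trace)) := by
    have h1 : Tendsto (fun k => s k * (A⁻¹ * (Q k - A)).trace - s k * (C * ‖Q k - A‖ ^ 2)) atTop
        (𝓝 ((A⁻¹ * T).trace)) := by
      have := htr.sub hsn
      rwa [sub_zero] at this
    refine tendsto_of_tendsto_of_tendsto_of_le_of_le' h1 htr ?_ ?_
    · filter_upwards [hs.eventually_ge_atTop 0, eventually_near hlim hr] with k hk hk'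
      have h2 := hlow (Q k - A) ((hQ k).1.sub hA.1) hk'
      rw [add_sub_cancel] at h2
      rw [← mul_sub, Real.log_div (hQ k).det_pos.ne' hA.det_pos.ne']
      exact mul_le_mul_of_nonneg_left (by linarith) hk
    · filter_upwards [hs.eventually_ge_atTop 0] with k hk
      refine mul_le_mul_of_nonneg_left ?_ hk
      have h2 := amgm hd hA (hQ k)
      have hpos : 0 < (Q k).det / A.det := div_pos (hQ k).det_pos hA.det_pos
      have h3 : (A⁻¹ * Q k).trace / d = 1 + (A⁻¹ * (Q k - A)).trace / d := by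
        rw [Matrix.mul_sub, Matrix.trace_sub, Matrix.nonsing_inv_mul A hA.det_pos.ne'.isUnit,
          Matrix.trace_one, Fintype.card_fin]
        field_simp
        ring
      have h4 : 0 < ((Q k).det / A.det) ^ ((1 : ℝ) / d) := Real.rpow_pos_of_pos hpos _
      have h5 := Real.log_le_log h4 h2
      rw [Real.log_rpow hpos, h3] at h5
      have h6 : Real.log (1 + (A⁻¹ * (Q k - A)).trace / d) ≤ (A⁻¹ * (Q k - A)).trace / d := by
        have h7 := Real.log_le_sub_one_of_pos (x := 1 + (A⁻¹ * (Q k - A)).trace / d)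
          (by rw [← h3]; exact h4.trans_le h2)
        linarith
      have h8 := h5.trans h6
      rw [div_mul_eq_mul_div, one_mul, div_le_div_iff_of_pos_right hd'] at h8
      exact h8
  refine ((Real.continuous_exp.tendsto _).comp (hlog.div_const (d : ℝ))).congr fun k => ?_
  show Real.exp (s k * Real.log ((Q k).det / A.det) / d) = _
  rw [Real.rpow_def_of_pos (div_pos (hQ k).det_pos hA.det_pos)]
  congr 1
  ring

end EntAux

open EntAux

theorem ent_limit (hd : d ≠ 0) {A : Mx d} (hA : Ext A) {s : ℕ → ℝ} (hs : Tendsto s atTop atTop)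
    {Q : ℕ → Mx d} (hQ : ∀ k, PD (Q k)) (hF : ∀ k, F (s k) (Q k) = 1)
    (hC : ∀ k, Crit (s k) (Q k)) (hlim : Tendsto Q atTop (𝓝 A)) :
    ∃ h : ℝ, IsGreatest {e | ∃ ρ, Eut A ρ ∧ e = entr ρ} h ∧
      Tendsto (fun k => ((Q k).det / A.det) ^ (s k / d)) atTop (𝓝 (Real.exp h)) ∧
      ∃ ρ, Eut A ρ ∧ entr ρ = h ∧ (∀ x ∈ minSet A, 0 < ρ x) ∧
        (∀ x : NZ d, Tendsto (fun k => qf (Q k) x.1 ^ (-(s k))) atTop (𝓝 (ρ x))) ∧
        ∃ T : Mx d, T.IsSymm ∧ (∀ x ∈ minSet A, ρ x = Real.exp (-qf T x.1)) ∧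
          Tendsto (fun k => s k • (Q k - A)) atTop (𝓝 T) := by
  obtain ⟨h1A, C, hC0, hCb⟩ := key hd hA.1 hs hQ hF hC hlim
  set R : ℕ → Mx d := fun k => s k • (Q k - A) with hR
  have hbd : ∀ᶠ k in atTop, R k ∈ Metric.closedBall (0 : Mx d) C := by
    filter_upwards [hCb, hs.eventually_gt_atTop 0] with k hk hk'
    rw [mem_closedBall_zero_iff, hR]
    show ‖s k • (Q k - A)‖ ≤ C
    rw [norm_smul, Real.norm_eq_abs, abs_of_pos hk']
    calc s k * ‖Q k - A‖ ≤ s k * (C / s k) := mul_le_mul_of_nonneg_left hk hk'.le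
      _ = C := by field_simp
  have hcomp : IsCompact (Metric.closedBall (0 : Mx d) C) := isCompact_closedBall _ _
  have hfc : FirstCountableTopology (Mx d) :=
    inferInstanceAs (FirstCountableTopology (Fin d → Fin d → ℝ))
  have hsub : ∀ (φ : ℕ → ℕ), Tendsto φ atTop atTop → ∀ T : Mx d,
      Tendsto (fun k => R (φ k)) atTop (𝓝 T) → T.IsSymm ∧ Eut A (rho A T) := fun φ hφ T hT =>
    sub_data hA.1 h1A (s := fun k => s (φ k)) (Q := fun k => Q (φ k)) (hs.comp hφ)
      (fun k => hQ _) (fun k => hF _) (fun k => hC _) (hlim.comp hφ) hT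
  obtain ⟨T, -, φ₀, hφ₀, hT₀⟩ := hcomp.tendsto_subseq' hbd.frequently
  obtain ⟨hTs, hTe⟩ := hsub φ₀ hφ₀.tendsto_atTop T hT₀
  have hT : Tendsto R atTop (𝓝 T) := by
    refine tendsto_of_subseq_tendsto fun ns hns => ?_
    obtain ⟨T', -, ms, hms, hT'⟩ := hcomp.tendsto_subseq' (hns.eventually hbd).frequently
    refine ⟨ms, ?_⟩
    obtain ⟨hTs', hTe'⟩ := hsub (fun k => ns (ms k)) (hns.comp hms.tendsto_atTop) T' hT'
    rw [limit_unique hd hA hTs hTe hTs' hTe']
    exact hT'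
  refine ⟨(A⁻¹ * T).trace / d, ⟨⟨rho A T, hTe, (entr_rho hTs hTe).symm⟩, ?_⟩,
    det_limit hd hA.1 hs hQ hlim hT, rho A T, hTe, entr_rho hTs hTe, ?_, ?_, T, hTs, ?_, hT⟩
  · rintro e ⟨ρ, hρ, rfl⟩
    exact gibbs hd hA.1 hTs hTe hρ
  · intro x hx
    rw [rho_of_mem hx]
    exact Real.exp_pos _
  · intro x
    by_cases hx : x ∈ minSet A
    · rw [rho_of_mem hx]
      exact weight_min hs hQ hlim hT hx
    · rw [rho_of_notMem hx]
      exact weight_far hA.1 h1A hs hlim hx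
  · exact fun x hx => rho_of_mem hx

end Pool.Agent.Lib.EpZ
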