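import Pool.Agent.Lib.EpZ.Vor

/-!
# Existence of a local minimum near an extreme form

Let `A` be extreme with minimum one (`Ext A`).

1. 2. `ext_growth` (imported): for symmetric `Q` near `A` with `Q[x] ≥ 1` on the minimal vectors,
   `log det Q ≥ log det A + κ ‖Q - A‖`.
3. Let `N = {Q symmetric, ‖Q - A‖ ≤ r}` (compact, all positive definite for small `r`), and let `Q*`
   minimise the continuous function `En s` on `N`. Let `Qs = λ Q*`, `λ = (F s Q*)^(1/s)`, so that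
   `F s Qs = 1` and all the values of `Qs` are at least `1`. If `r` is small, `(1 - η) A[x] ≤ Q*[x]`
   for all `x` and `Q*[x₀] ≤ 1 + η` for a minimal vector `x₀`, so
   `(1 + η)⁻¹ ≤ λ ≤ (1 + η) / (1 - η)` (`F s A ≤ K ≤ (1 + η)^s` for large `s`), and `Qs` is near `A`.
4. `(det Qs)^(s/d) = En s Qs = En s Q* ≤ En s A ≤ K (det A)^(s/d)`, so
   `(s/d) κ ‖Qs - A‖ ≤ log K`.
-/

open Matrix Filter Topology
open scoped Matrix.Norms.Elementwise

namespace Pool.Agent.Lib.EpZ

variable {d : ℕ}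

/-- `En s` is continuous at every positive definite form, among all matrices near it -/
theorem continuousAt_En {s : ℝ} (hs : (d : ℝ) / 2 < s) {A : Mx d} (hA : PD A) :
    ContinuousAt (En s) A := by
  have hs0 : 0 < s := by
    have : (0 : ℝ) ≤ d := Nat.cast_nonneg d
    linarith
  have h1 : ContinuousAt (fun Q : Mx d => F s Q) A := by
    obtain ⟨c, hc, hl⟩ := hA.lower
    have hball : ∀ᶠ Q in 𝓝 A, Low (c / 2) Q := by
      have h2 : ∀ᶠ Q in 𝓝 A, dist Q A < c / (2 * (d + 1)) :=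
        Metric.ball_mem_nhds _ (by positivity)
      filter_upwards [h2] with Q hQ x
      rw [dist_eq_norm] at hQ
      have h3 : d * ‖Q - A‖ ≤ c / 2 := by
        calc d * ‖Q - A‖ ≤ (d + 1) * (c / (2 * (d + 1))) := by
              refine mul_le_mul (by linarith) hQ.le (norm_nonneg _) (by positivity)
          _ = c / 2 := by field_simp
      exact lower_near hl h3 (rv x)
    have hsum : Summable fun x : NZ d => (c / 2 * nn x.1) ^ (-s) := by
      have := (summable_nn hs).mul_left ((c / 2) ^ (-s))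
      refine this.congr fun x => ?_
      rw [Real.mul_rpow (by positivity) (nn_nonneg _)]
    have h4 : Tendsto (fun Q : Mx d => ∑' x : NZ d, qf Q x.1 ^ (-s)) (𝓝 A)
        (𝓝 (∑' x : NZ d, qf A x.1 ^ (-s))) := by
      refine tendsto_tsum_of_dominated_convergence hsum (fun x => ?_) ?_
      · have h5 : ContinuousAt (fun Q : Mx d => qf Q x.1) A :=
          (VorAux.continuous_qf x.1).continuousAt
        exact h5.rpow_const (Or.inl (hA.pos x).ne')
      · filter_upwards [hball] with Q hQ x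
        have hc2 : 0 < c / 2 := by positivity
        have hn := one_le_nn x.2
        rw [Real.norm_eq_abs, abs_of_nonneg (Real.rpow_nonneg (hQ.pos hc2 x).le _)]
        exact Real.rpow_le_rpow_of_nonpos (by positivity) (hQ x.1) (by linarith)
    exact h4
  have h2 : ContinuousAt (fun Q : Mx d => Q.det ^ (s / d)) A := by
    have h3 : ContinuousAt (fun Q : Mx d => Q.det) A := by
      have : Continuous fun Q : Mx d => Q.det := by fun_prop
      exact this.continuousAt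
    exact h3.rpow_const (Or.inl hA.det_pos.ne')
  exact h1.mul h2

namespace ExistAux

/-- the form values are stable under small perturbations -/
lemma stable {A : Mx d} {c η : ℝ} (hc : 0 < c) (hη : 0 < η)
    (hl : ∀ v : Fin d → ℝ, c * ∑ i, v i ^ 2 ≤ qr A v) {Q : Mx d}
    (hQ : ‖Q - A‖ ≤ c * η / (d + 1)) (x : Fin d → ℤ) :
    (1 - η) * qf A x ≤ qf Q x ∧ qf Q x ≤ (1 + η) * qf A x := by
  have h3 : d * ‖Q - A‖ ≤ c * η := by
    calc d * ‖Q - A‖ ≤ (d + 1) * (c * η / (d + 1)) := by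
          refine mul_le_mul (by linarith) hQ (norm_nonneg _) (by positivity)
      _ = c * η := by field_simp
  have h4 : qf Q x = qf A x + qf (Q - A) x := by rw [qf_sub]; ring
  have h5 := abs_le.mp (qf_abs_le (Q - A) x)
  have h6 : d * ‖Q - A‖ * nn x ≤ η * qf A x := by
    calc d * ‖Q - A‖ * nn x ≤ (c * η) * nn x :=
          mul_le_mul_of_nonneg_right h3 (nn_nonneg _)
      _ = η * (c * nn x) := by ring
      _ ≤ η * qf A x := mul_le_mul_of_nonneg_left (hl (rv x)) hη.le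
  constructor
  · linarith [h5.1]
  · linarith [h5.2]

lemma F_antitone {A : Mx d} (hA : PD A) (h1 : ∀ x : NZ d, 1 ≤ qf A x.1) {s s' : ℝ}
    (hs : (d : ℝ) / 2 < s) (hss : s ≤ s') : F s' A ≤ F s A := by
  unfold F
  refine (hA.summable (lt_of_lt_of_le hs hss)).tsum_le_tsum (fun x => ?_) (hA.summable hs)
  exact Real.rpow_le_rpow_of_exponent_le (h1 x) (by linarith)

lemma le_F {Q : Mx d} (hQ : PD Q) {s : ℝ} (hs : (d : ℝ) / 2 < s) (x : NZ d) :
    qf Q x.1 ^ (-s) ≤ F s Q :=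
  (hQ.summable hs).le_tsum x fun y _ => Real.rpow_nonneg (hQ.pos y).le _

lemma F_le {A Q : Mx d} (hA : PD A) (hQ : PD Q) {s : ℝ} (hs : (d : ℝ) / 2 < s) {m : ℝ}
    (hm : 0 < m) (h : ∀ x : NZ d, m * qf A x.1 ≤ qf Q x.1) : F s Q ≤ m ^ (-s) * F s A := by
  have hs0 : 0 < s := by
    have : (0 : ℝ) ≤ d := Nat.cast_nonneg d
    linarith
  unfold F
  rw [← tsum_mul_left]
  refine (hQ.summable hs).tsum_le_tsum (fun x => ?_) ((hA.summable hs).mul_left _)
  rw [← Real.mul_rpow hm.le (hA.pos x).le]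
  exact Real.rpow_le_rpow_of_nonpos (mul_pos hm (hA.pos x)) (h x) (by linarith)

/-- existence of a minimum in a neighbourhood -/
lemma exists_argmin {A : Mx d} {r s : ℝ} (hs : (d : ℝ) / 2 < s) (hA : PD A) (hr : 0 < r)
    (hpd : ∀ Q : Mx d, Q.IsSymm → ‖Q - A‖ ≤ r → PD Q) :
    ∃ Q : Mx d, Q.IsSymm ∧ ‖Q - A‖ ≤ r ∧
      ∀ Q' : Mx d, Q'.IsSymm → ‖Q' - A‖ ≤ r → En s Q ≤ En s Q' := by
  have : ProperSpace (Mx d) := FiniteDimensional.proper ℝ (Mx d)
  have hcl : IsClosed {H : Mx d | H.IsSymm} := by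
    have : {H : Mx d | H.IsSymm} = {H : Mx d | Hᵀ = H} := rfl
    rw [this]
    exact isClosed_eq (by fun_prop) continuous_id
  have hcomp : IsCompact ({H : Mx d | H.IsSymm} ∩ Metric.closedBall A r) :=
    (isCompact_closedBall A r).inter_left hcl
  have hmem : ∀ Q : Mx d, Q ∈ {H : Mx d | H.IsSymm} ∩ Metric.closedBall A r ↔
      Q.IsSymm ∧ ‖Q - A‖ ≤ r := by
    intro Q
    rw [Set.mem_inter_iff, Metric.mem_closedBall, dist_eq_norm]
    rfl
  obtain ⟨Q, hQ, hmin⟩ := hcomp.exists_isMinOn (f := En s)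
    ⟨A, (hmem A).2 ⟨hA.1, by simpa using hr.le⟩⟩ (fun Q hQ =>
      (continuousAt_En hs (hpd Q ((hmem Q).1 hQ).1 ((hmem Q).1 hQ).2)).continuousWithinAt)
  exact ⟨Q, ((hmem Q).1 hQ).1, ((hmem Q).1 hQ).2, fun Q' h1 h2 => hmin ((hmem Q').2 ⟨h1, h2⟩)⟩

end ExistAux

open ExistAux

theorem exists_min (hd : d ≠ 0) {A : Mx d} (hA : Ext A) :
    ∃ r > 0, ∃ s₀ C : ℝ, (d : ℝ) / 2 < s₀ ∧ ∃ Qs : ℝ → Mx d, ∀ s : ℝ, s₀ ≤ s →
      PD (Qs s) ∧ F s (Qs s) = 1 ∧ ‖Qs s - A‖ ≤ C / s ∧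
      ∀ Q : Mx d, Q.IsSymm → ‖Q - A‖ ≤ r → PD Q ∧ En s (Qs s) ≤ En s Q := by
  obtain ⟨r₀, hr₀, κ, hκ, hgr⟩ := ext_growth hA
  obtain ⟨r₁, hr₁, hpd⟩ := pd_near hA.1
  obtain ⟨c, hc, hl⟩ := hA.1.lower
  obtain ⟨x₀, hx₀⟩ := hA.nonempty hd
  have hdpos : (0 : ℝ) < d := Nat.cast_pos.2 (Nat.pos_of_ne_zero hd)
  -- constants
  set η : ℝ := min (1 / 2) (r₀ / (8 * (‖A‖ + 1))) with hη
  have hη0 : 0 < η := lt_min (by norm_num) (by positivity)
  have hη1 : η ≤ 1 / 2 := min_le_left _ _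
  have hη2 : 8 * η * (‖A‖ + 1) ≤ r₀ := by
    have h1 : η ≤ r₀ / (8 * (‖A‖ + 1)) := min_le_right _ _
    rw [le_div_iff₀ (by positivity)] at h1
    linarith
  set r : ℝ := min (min r₁ (c * η / (d + 1))) (min 1 (r₀ / 2)) with hr
  have hr0 : 0 < r := lt_min (lt_min hr₁ (by positivity)) (lt_min one_pos (by positivity))
  have hr1 : r ≤ r₁ := (min_le_left _ _).trans (min_le_left _ _)
  have hr2 : r ≤ c * η / (d + 1) := (min_le_left _ _).trans (min_le_right _ _)
  have hr3 : r ≤ 1 := (min_le_right _ _).trans (min_le_left _ _)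
  have hr4 : r ≤ r₀ / 2 := (min_le_right _ _).trans (min_le_right _ _)
  set s₁ : ℝ := (d : ℝ) / 2 + 1 with hs₁
  have hs₁' : (d : ℝ) / 2 < s₁ := by rw [hs₁]; linarith
  set K : ℝ := F s₁ A with hK
  have hK1 : 1 ≤ K := by
    have := le_F hA.1 hs₁' x₀
    rw [hx₀, Real.one_rpow] at this
    exact this
  have hlogK : 0 ≤ Real.log K := Real.log_nonneg hK1
  have hlogη : 0 < Real.log (1 + η) := Real.log_pos (by linarith)
  refine ⟨r, hr0, max s₁ (Real.log K / Real.log (1 + η)), d * Real.log K / κ,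
    lt_of_lt_of_le hs₁' (le_max_left _ _), ?_⟩
  suffices H : ∀ s : ℝ, max s₁ (Real.log K / Real.log (1 + η)) ≤ s → ∃ Q' : Mx d,
      PD Q' ∧ F s Q' = 1 ∧ ‖Q' - A‖ ≤ d * Real.log K / κ / s ∧
      ∀ Q : Mx d, Q.IsSymm → ‖Q - A‖ ≤ r → PD Q ∧ En s Q' ≤ En s Q by
    classical
    refine ⟨fun s => if h : max s₁ (Real.log K / Real.log (1 + η)) ≤ s then (H s h).choose
      else 0, fun s h => ?_⟩
    simp only [dif_pos h]
    exact (H s h).choose_spec
  intro s hs
  have hss₁ : s₁ ≤ s := (le_max_left _ _).trans hs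
  have hsd : (d : ℝ) / 2 < s := lt_of_lt_of_le hs₁' hss₁
  have hs0 : 0 < s := by linarith
  have hKs : K ≤ (1 + η) ^ s := by
    have h1 : Real.log K / Real.log (1 + η) ≤ s := (le_max_right _ _).trans hs
    rw [div_le_iff₀ hlogη] at h1
    rw [← Real.log_le_log_iff (by linarith) (Real.rpow_pos_of_pos (by linarith) _),
      Real.log_rpow (by linarith)]
    exact h1
  have hpd' : ∀ Q : Mx d, Q.IsSymm → ‖Q - A‖ ≤ r → PD Q := fun Q h1 h2 => hpd Q h1 (h2.trans hr1)
  obtain ⟨Q, hQs, hQn, hQm⟩ := exists_argmin hsd hA.1 hr0 hpd'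
  have hQ : PD Q := hpd' Q hQs hQn
  have hFpos : 0 < F s Q := F_pos hd hQ hsd
  have hFA : F s A ≤ K := F_antitone hA.1 hA.2.1 hs₁' hss₁
  have h1η : 0 < 1 - η := by linarith
  -- bounds for the normalisation
  set l : ℝ := F s Q ^ (1 / s) with hl'
  have hl0 : 0 < l := Real.rpow_pos_of_pos hFpos _
  have hls : l ^ s = F s Q := by
    rw [hl', ← Real.rpow_mul hFpos.le, one_div, inv_mul_cancel₀ hs0.ne', Real.rpow_one]
  have hlow : (1 + η)⁻¹ ≤ l := by
    have h1 : (1 + η) ^ (-s) ≤ F s Q := by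
      refine le_trans ?_ (le_F hQ hsd x₀)
      have h2 := (stable hc hη0 hl (hQn.trans hr2) x₀.1).2
      rw [hx₀, mul_one] at h2
      exact Real.rpow_le_rpow_of_nonpos (hQ.pos x₀) h2 (by linarith)
    have h3 := Real.rpow_le_rpow (Real.rpow_nonneg (by linarith) _) h1
      (by positivity : (0 : ℝ) ≤ 1 / s)
    rw [← Real.rpow_mul (by linarith : (0 : ℝ) ≤ 1 + η)] at h3
    have h4 : -s * (1 / s) = -1 := by
      field_simp
    rw [h4, Real.rpow_neg_one] at h3
    exact h3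
  have hup : l ≤ (1 + η) / (1 - η) := by
    have h1 : F s Q ≤ ((1 + η) / (1 - η)) ^ s := by
      refine (F_le hA.1 hQ hsd h1η fun x =>
        (stable hc hη0 hl (hQn.trans hr2) x.1).1).trans ?_
      rw [Real.div_rpow (by linarith) h1η.le, Real.rpow_neg h1η.le, mul_comm, ← div_eq_mul_inv]
      exact div_le_div_of_nonneg_right (hFA.trans hKs) (Real.rpow_nonneg h1η.le _)
    have h3 := Real.rpow_le_rpow hFpos.le h1 (by positivity : (0 : ℝ) ≤ 1 / s)
    rw [← Real.rpow_mul (by positivity), mul_one_div_cancel hs0.ne', Real.rpow_one] at h3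
    exact h3
  have habs : |l - 1| ≤ 4 * η := by
    rw [abs_le]
    constructor
    · have h1 : (1 - η) ≤ (1 + η)⁻¹ := by
        rw [← one_div, le_div_iff₀ (by linarith)]
        nlinarith [sq_nonneg η]
      linarith
    · have h1 : (1 + η) / (1 - η) ≤ 1 + 4 * η := by
        rw [div_le_iff₀ h1η]
        nlinarith
      linarith
  -- the normalised form
  have hPQ : PD (l • Q) := hQ.smul hl0
  have hF1 : F s (l • Q) = 1 := by
    rw [F_smul hQ hl0, Real.rpow_neg hl0.le, hls, inv_mul_cancel₀ hFpos.ne']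
  have hnear : ‖l • Q - A‖ ≤ r₀ := by
    have h1 : l • Q - A = (l - 1) • Q + (Q - A) := by
      rw [sub_smul, one_smul]
      abel
    have h2 : ‖Q‖ ≤ ‖A‖ + 1 := by
      have : Q = A + (Q - A) := by abel
      calc ‖Q‖ = ‖A + (Q - A)‖ := by rw [← this]
        _ ≤ ‖A‖ + ‖Q - A‖ := norm_add_le _ _
        _ ≤ ‖A‖ + 1 := by linarith
    rw [h1]
    refine (norm_add_le _ _).trans ?_
    rw [norm_smul, Real.norm_eq_abs]
    have h3 : |l - 1| * ‖Q‖ ≤ 4 * η * (‖A‖ + 1) :=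
      mul_le_mul habs h2 (norm_nonneg _) (by positivity)
    linarith
  have hval : ∀ x : NZ d, 1 ≤ qf (l • Q) x.1 := one_le_of_F hPQ hsd hF1
  obtain ⟨-, hlog⟩ := hgr (l • Q) (hQs.smul l) hnear fun x _ => hval x
  have hEn : En s (l • Q) = En s Q := En_smul hd hQ hl0 s
  have hEnA : En s (l • Q) ≤ En s A := by
    rw [hEn]
    exact hQm A hA.1.1 (by simpa using hr0.le)
  refine ⟨l • Q, hPQ, hF1, ?_, fun Q' h1 h2 => ⟨hpd' Q' h1 h2, ?_⟩⟩
  · have h1 : (l • Q).det ^ (s / d) ≤ K * A.det ^ (s / d) := by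
      have h2 : En s (l • Q) = (l • Q).det ^ (s / d) := by
        unfold En
        rw [hF1, one_mul]
      rw [← h2]
      refine hEnA.trans ?_
      unfold En
      exact mul_le_mul_of_nonneg_right hFA (Real.rpow_nonneg hA.1.det_pos.le _)
    have h2 := Real.log_le_log (Real.rpow_pos_of_pos hPQ.det_pos _) h1
    rw [Real.log_mul (by linarith) (Real.rpow_pos_of_pos hA.1.det_pos _).ne',
      Real.log_rpow hPQ.det_pos, Real.log_rpow hA.1.det_pos] at h2
    have h3 : s / d * (κ * ‖l • Q - A‖) ≤ Real.log K := by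
      have h4 : s / d * (Real.log A.det + κ * ‖l • Q - A‖) ≤ s / d * Real.log (l • Q).det :=
        mul_le_mul_of_nonneg_left hlog (by positivity)
      linarith
    rw [div_div, le_div_iff₀ (by positivity)]
    rw [div_mul_eq_mul_div, div_le_iff₀ hdpos] at h3
    linarith
  · rw [hEn]
    exact hQm Q' h1 h2

end Pool.Agent.Lib.EpZ
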