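import Pool.Agent.Lib.EpZ.Sim

/-!
# Stationarity for all large `s` and the layers

`Layers A`: every layer `{x | A[x] = r}` is strongly eutactic. If `Crit s A` for all large `s` then
for fixed symmetric `H` the function `a x = qf H x / qf A x - (A⁻¹ * H).trace / d` satisfies
`∑' x, a x * qf A x ^ (-s) = 0` for all large `s`. If some layer sum were nonzero, take the least
such value `r` (the values are discrete, `finite_level`), multiply by `r ^ s` and let `s → ∞`: the
layers below `r` contribute `0`, the layer `r` its sum, and the rest tends to `0`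
(values `≥ r (1 + δ)`; apply `tail` to `r⁻¹ • A`, `|a x|` is bounded by `Low.ratio`).
Conversely `Layers A` gives the identity of `Crit s A` by grouping the (absolutely convergent) sum
by the value of `qf A`.
-/

open Matrix Filter Topology
open scoped Matrix.Norms.Elementwise

namespace Pool.Agent.Lib.EpZ

variable {d : ℕ}

/-- every layer is strongly eutactic -/
def Layers (A : Mx d) : Prop :=
  ∀ r : ℝ, ∀ H : Mx d, H.IsSymm →
    ∑' x : NZ d, (if qf A x.1 = r then qf H x.1 / r - (A⁻¹ * H).trace / d else 0) = 0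

namespace LayAux

/-- grouping by the value of the form -/
lemma tsum_layers {A H : Mx d} (w : ℝ → ℝ)
    (hf : Summable fun x : NZ d =>
      w (qf A x.1) * (qf H x.1 / qf A x.1 - (A⁻¹ * H).trace / d))
    (h : ∀ c : ℝ, w c * ∑' x : NZ d,
      (if qf A x.1 = c then qf H x.1 / c - (A⁻¹ * H).trace / d else 0) = 0) :
    ∑' x : NZ d, w (qf A x.1) * (qf H x.1 / qf A x.1 - (A⁻¹ * H).trace / d) = 0 := by
  have h1 := hf.hasSum.tsum_fiberwise (fun x : NZ d => qf A x.1)
  have h2 : (fun c : ℝ => ∑' b : (fun x : NZ d => qf A x.1) ⁻¹' {c},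
      w (qf A b.1.1) * (qf H b.1.1 / qf A b.1.1 - (A⁻¹ * H).trace / d)) = fun _ => 0 := by
    funext c
    rw [← h c, ← tsum_mul_left]
    rw [tsum_subtype ((fun x : NZ d => qf A x.1) ⁻¹' {c})
      (fun x : NZ d => w (qf A x.1) * (qf H x.1 / qf A x.1 - (A⁻¹ * H).trace / d))]
    refine tsum_congr fun x => ?_
    by_cases hx : qf A x.1 = c
    · rw [Set.indicator_of_mem (show x ∈ (fun x : NZ d => qf A x.1) ⁻¹' {c} from hx), if_pos hx, hx]
    · rw [Set.indicator_of_notMem (show x ∉ (fun x : NZ d => qf A x.1) ⁻¹' {c} from hx), if_neg hx,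
        mul_zero]
  rw [h2] at h1
  exact h1.unique hasSum_zero

/-- the layer sums have finite support -/
lemma layer_le {A : Mx d} (hA : PD A) (r : ℝ) (f : NZ d → ℝ) :
    Summable fun x : NZ d => (if qf A x.1 = r then f x else 0) := by
  refine summable_of_ne_finset_zero (s := (finite_level hA r).toFinset) fun x hx => ?_
  rw [if_neg]
  intro h
  exact hx (by simp [h])

end LayAux

theorem crit_of_layers {A : Mx d} (hA : PD A) (hL : Layers A) {s : ℝ} (hs : (d : ℝ) / 2 < s) :
    Crit s A := by
  intro H hH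
  obtain ⟨c, hc, hl⟩ := hA.low
  have h1 := hl.summable hc hs
  have h2 := hl.summable_mul hc hs H
  have h3 : Summable fun x : NZ d =>
      qf A x.1 ^ (-s) * (qf H x.1 / qf A x.1 - (A⁻¹ * H).trace / d) := by
    have := h2.sub (h1.mul_right ((A⁻¹ * H).trace / d))
    refine this.congr fun x => ?_
    ring
  have h4 := LayAux.tsum_layers (A := A) (H := H) (fun c => c ^ (-s)) h3 (fun c => by
    rw [hL c H hH, mul_zero])
  have h5 : ∑' x : NZ d, qf A x.1 ^ (-s) * (qf H x.1 / qf A x.1 - (A⁻¹ * H).trace / d) =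
      ∑' x : NZ d, qf A x.1 ^ (-s) * (qf H x.1 / qf A x.1) -
        F s A * ((A⁻¹ * H).trace / d) := by
    unfold F
    rw [← tsum_mul_right, ← h2.tsum_sub (h1.mul_right _)]
    exact tsum_congr fun x => by ring
  linarith

theorem layers_of_crit {A : Mx d} (hA : PD A) {s : ℕ → ℝ} (hs : Tendsto s atTop atTop)
    (hC : ∀ k, Crit (s k) A) : Layers A := by
  classical
  by_contra hcon
  unfold Layers at hcon
  push Not at hcon
  obtain ⟨r, H, hH, hr⟩ := hcon
  set τ : ℝ := (A⁻¹ * H).trace / d with hτ
  set S : ℝ → ℝ := fun c => ∑' x : NZ d, (if qf A x.1 = c then qf H x.1 / c - τ else 0) with hS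
  -- values with nonzero layer sums
  have hval : ∀ c, S c ≠ 0 → ∃ x : NZ d, qf A x.1 = c := by
    intro c hc
    by_contra hx
    push Not at hx
    apply hc
    simp only [hS]
    have : (fun x : NZ d => (if qf A x.1 = c then qf H x.1 / c - τ else 0)) = fun _ => 0 := by
      funext x
      rw [if_neg (hx x)]
    rw [this, tsum_zero]
  have hfin : {c : ℝ | S c ≠ 0 ∧ c ≤ r}.Finite := by
    refine ((finite_level hA r).image (fun x : NZ d => qf A x.1)).subset ?_
    rintro c ⟨h1, h2⟩
    obtain ⟨x, hx⟩ := hval c h1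
    exact ⟨x, by show qf A x.1 ≤ r; rw [hx]; exact h2, hx⟩
  obtain ⟨r₀, ⟨hr₀, hr₀r⟩, hmin⟩ := Set.exists_min_image _ (fun c : ℝ => c) hfin
    ⟨r, hr, le_rfl⟩
  have hlow : ∀ c, c < r₀ → S c = 0 := by
    intro c hc
    by_contra h
    have := hmin c ⟨h, by linarith⟩
    linarith
  obtain ⟨x₀, hx₀⟩ := hval r₀ hr₀
  have hr₀pos : 0 < r₀ := by rw [← hx₀]; exact hA.pos x₀
  -- the rescaled form
  obtain ⟨c, hc, hl⟩ := hA.low
  set Q : Mx d := r₀⁻¹ • A with hQ
  have hqQ : ∀ x : NZ d, qf Q x.1 = qf A x.1 / r₀ := by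
    intro x
    rw [hQ, qf_smul, inv_mul_eq_div]
  have hQPD : PD Q := hA.smul (inv_pos.2 hr₀pos)
  obtain ⟨c', hc', hl'⟩ := hQPD.low
  -- gap above r₀
  obtain ⟨δ, hδ, hgap⟩ : ∃ δ > 0, ∀ x : NZ d, r₀ < qf A x.1 → 1 + δ ≤ qf Q x.1 := by
    have hfin2 : {x : NZ d | qf Q x.1 ≤ 2 ∧ r₀ < qf A x.1}.Finite :=
      (finite_level hQPD 2).subset fun x hx => hx.1
    rcases Set.eq_empty_or_nonempty {x : NZ d | qf Q x.1 ≤ 2 ∧ r₀ < qf A x.1} with he | hne
    · refine ⟨1, one_pos, fun x hx => ?_⟩
      by_contra hlt
      have : x ∈ {x : NZ d | qf Q x.1 ≤ 2 ∧ r₀ < qf A x.1} := ⟨by linarith, hx⟩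
      rw [he] at this
      exact this
    · obtain ⟨y, hy, hmin2⟩ := Set.exists_min_image _ (fun x : NZ d => qf Q x.1) hfin2 hne
      have hy1 : 1 < qf Q y.1 := by
        rw [hqQ, lt_div_iff₀ hr₀pos]
        linarith [hy.2]
      refine ⟨min 1 (qf Q y.1 - 1), lt_min one_pos (by linarith), fun x hx => ?_⟩
      by_cases h2 : qf Q x.1 ≤ 2
      · have := hmin2 x ⟨h2, hx⟩
        have := min_le_right 1 (qf Q y.1 - 1)
        linarith
      · have := min_le_left 1 (qf Q y.1 - 1)
        linarith
  obtain ⟨K, hK, htail⟩ := tail (d := d) hc' hδ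
  -- bound of the coefficients
  set M : ℝ := d * ‖H‖ / c + |τ| with hM
  have hMb : ∀ x : NZ d, |qf H x.1 / qf A x.1 - τ| ≤ M := by
    intro x
    have h1 := hl.ratio hc H x
    have h2 := abs_sub (qf H x.1 / qf A x.1) τ
    linarith
  have hM0 : 0 ≤ M := by positivity
  -- the main estimate
  have hest : ∀ t : ℝ, (d : ℝ) / 2 + 1 ≤ t → Crit t A → |S r₀| ≤ M * (K * (1 + δ) ^ (-t)) := by
    intro t ht hCt
    have htd : (d : ℝ) / 2 < t := by linarith
    have h1 := hl.summable hc htd
    have h2 := hl.summable_mul hc htd H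
    have h3 : Summable fun x : NZ d => qf A x.1 ^ (-t) * (qf H x.1 / qf A x.1 - τ) := by
      have := h2.sub (h1.mul_right τ)
      refine this.congr fun x => ?_
      ring
    have h4 : ∑' x : NZ d, qf A x.1 ^ (-t) * (qf H x.1 / qf A x.1 - τ) = 0 := by
      have h5 := hCt H hH
      have h6 : ∑' x : NZ d, qf A x.1 ^ (-t) * (qf H x.1 / qf A x.1 - τ) =
          ∑' x : NZ d, qf A x.1 ^ (-t) * (qf H x.1 / qf A x.1) - F t A * τ := by
        unfold F
        rw [← tsum_mul_right, ← h2.tsum_sub (h1.mul_right _)]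
        exact tsum_congr fun x => by ring
      rw [h6, h5]
      ring
    -- rescale
    have hG : ∀ x : NZ d, qf Q x.1 ^ (-t) * (qf H x.1 / qf A x.1 - τ) =
        (r₀⁻¹) ^ (-t) * (qf A x.1 ^ (-t) * (qf H x.1 / qf A x.1 - τ)) := by
      intro x
      rw [hqQ, div_eq_inv_mul, Real.mul_rpow (inv_pos.2 hr₀pos).le (hA.pos x).le]
      ring
    have hGs : Summable fun x : NZ d => qf Q x.1 ^ (-t) * (qf H x.1 / qf A x.1 - τ) := by
      refine (h3.mul_left ((r₀⁻¹) ^ (-t))).congr fun x => ?_
      rw [hG]
    have hG0 : ∑' x : NZ d, qf Q x.1 ^ (-t) * (qf H x.1 / qf A x.1 - τ) = 0 := by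
      rw [tsum_congr hG, tsum_mul_left, h4, mul_zero]
    set f : NZ d → ℝ := fun x => qf Q x.1 ^ (-t) * (qf H x.1 / qf A x.1 - τ) with hf
    set T1 : Set (NZ d) := {x | qf A x.1 < r₀} with hT1
    set T2 : Set (NZ d) := {x | qf A x.1 = r₀} with hT2
    set T3 : Set (NZ d) := {x | r₀ < qf A x.1} with hT3
    have hsplit : ∀ x, f x = T1.indicator f x + T2.indicator f x + T3.indicator f x := by
      intro x
      rcases lt_trichotomy (qf A x.1) r₀ with h | h | h
      · rw [Set.indicator_of_mem (show x ∈ T1 from h),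
          Set.indicator_of_notMem (show x ∉ T2 from fun h' => by
            have h' : qf A x.1 = r₀ := h'
            linarith),
          Set.indicator_of_notMem (show x ∉ T3 from fun h' => by
            have h' : r₀ < qf A x.1 := h'
            linarith)]
        ring
      · rw [Set.indicator_of_notMem (show x ∉ T1 from fun h' => by
            have h' : qf A x.1 < r₀ := h'
            linarith),
          Set.indicator_of_mem (show x ∈ T2 from h),
          Set.indicator_of_notMem (show x ∉ T3 from fun h' => by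
            have h' : r₀ < qf A x.1 := h'
            linarith)]
        ring
      · rw [Set.indicator_of_notMem (show x ∉ T1 from fun h' => by
            have h' : qf A x.1 < r₀ := h'
            linarith),
          Set.indicator_of_notMem (show x ∉ T2 from fun h' => by
            have h' : qf A x.1 = r₀ := h'
            linarith),
          Set.indicator_of_mem (show x ∈ T3 from h)]
        ring
    have hs1 : Summable (T1.indicator f) := hGs.indicator T1
    have hs2 : Summable (T2.indicator f) := hGs.indicator T2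
    have hs3 : Summable (T3.indicator f) := hGs.indicator T3
    have hsum : 0 = ∑' x, T1.indicator f x + ∑' x, T2.indicator f x + ∑' x, T3.indicator f x := by
      rw [← hG0, tsum_congr hsplit, (hs1.add hs2).tsum_add hs3, hs1.tsum_add hs2]
    -- below
    have e1 : ∑' x, T1.indicator f x = 0 := by
      have h7 : ∀ x : NZ d, T1.indicator f x =
          (fun c : ℝ => if c < r₀ then (c / r₀) ^ (-t) else 0) (qf A x.1) *
            (qf H x.1 / qf A x.1 - τ) := by
        intro x
        by_cases h : qf A x.1 < r₀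
        · rw [Set.indicator_of_mem (show x ∈ T1 from h)]
          simp only [hf, if_pos h]
          rw [hqQ]
        · rw [Set.indicator_of_notMem (show x ∉ T1 from h)]
          simp only [if_neg h]
          rw [zero_mul]
      rw [tsum_congr h7]
      refine LayAux.tsum_layers (A := A) (H := H)
        (fun c : ℝ => if c < r₀ then (c / r₀) ^ (-t) else 0) ?_ ?_
      · exact hs1.congr fun x => h7 x
      · intro c
        by_cases h : c < r₀
        · have h8 := hlow c h
          simp only [hS] at h8
          rw [h8, mul_zero]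
        · simp only [if_neg h]
          rw [zero_mul]
    -- the layer
    have e2 : ∑' x, T2.indicator f x = S r₀ := by
      simp only [hS]
      refine tsum_congr fun x => ?_
      by_cases h : qf A x.1 = r₀
      · rw [Set.indicator_of_mem (show x ∈ T2 from h), if_pos h]
        simp only [hf]
        rw [hqQ, h, div_self hr₀pos.ne', Real.one_rpow, one_mul]
      · rw [Set.indicator_of_notMem (show x ∉ T2 from h), if_neg h]
    -- above
    have e3 : |∑' x, T3.indicator f x| ≤ M * (K * (1 + δ) ^ (-t)) := by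
      have h7 := htail t ht Q hl' T3 (fun x hx => hgap x hx)
      have hsT : Summable fun x : NZ d => T3.indicator (fun x : NZ d => qf Q x.1 ^ (-t)) x :=
        (hl'.summable hc' htd).indicator T3
      have h8 : ∀ x : NZ d, ‖T3.indicator f x‖ ≤
          M * T3.indicator (fun x : NZ d => qf Q x.1 ^ (-t)) x := by
        intro x
        by_cases h : x ∈ T3
        · rw [Set.indicator_of_mem h, Set.indicator_of_mem h]
          simp only [hf]
          rw [Real.norm_eq_abs, abs_mul, abs_of_nonneg (Real.rpow_nonneg (hQPD.pos x).le _),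
            mul_comm]
          exact mul_le_mul_of_nonneg_right (hMb x) (Real.rpow_nonneg (hQPD.pos x).le _)
        · rw [Set.indicator_of_notMem h, Set.indicator_of_notMem h]
          simp
      have h9 := tsum_of_norm_bounded (hsT.mul_left M).hasSum h8
      rw [Real.norm_eq_abs, tsum_mul_left] at h9
      exact h9.trans (mul_le_mul_of_nonneg_left h7 hM0)
    have h10 : S r₀ = - ∑' x, T3.indicator f x := by
      rw [e1, e2] at hsum
      linarith
    rw [h10, abs_neg]
    exact e3
  -- let s tend to infinity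
  have hlim : Tendsto (fun k => M * (K * (1 + δ) ^ (-(s k)))) atTop (𝓝 0) := by
    have h1 : Tendsto (fun t : ℝ => (1 + δ) ^ (-t)) atTop (𝓝 0) := by
      have h2 : ∀ t : ℝ, (1 + δ) ^ (-t) = Real.exp (-(Real.log (1 + δ) * t)) := by
        intro t
        rw [Real.rpow_def_of_pos (by linarith)]
        congr 1
        ring
      simp only [h2]
      refine Real.tendsto_exp_neg_atTop_nhds_zero.comp ?_
      exact tendsto_id.const_mul_atTop (Real.log_pos (by linarith))
    have h3 := ((h1.comp hs).const_mul K).const_mul M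
    simpa using h3
  have hev : ∀ᶠ k in atTop, |S r₀| ≤ M * (K * (1 + δ) ^ (-(s k))) := by
    filter_upwards [hs.eventually_ge_atTop ((d : ℝ) / 2 + 1)] with k hk
    exact hest (s k) hk (hC k)
  have h0 : |S r₀| ≤ 0 := ge_of_tendsto hlim hev
  exact hr₀ (abs_nonpos_iff.1 h0)

end Pool.Agent.Lib.EpZ
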