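import Pool.Agent.Lib.EpZ.Uniq
import Pool.Agent.Lib.EpZ.Exist
import Pool.Agent.Lib.EpZ.Cmp
import Pool.Agent.Lib.EpZ.Ent
import Pool.Agent.Lib.EpZ.Lay

/-!
# The classification of the local minima for large `s`, for forms
-/

open Matrix Filter Topology
open scoped Matrix.Norms.Elementwise

namespace Pool.Agent.Lib.EpZ

variable {d : ℕ}

/-- representatives of the classes of extreme forms -/
theorem exists_reps (hd : d ≠ 0) : ∃ (N : ℕ) (A : Fin N → Mx d), (∀ i, Ext (A i)) ∧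
    ∀ A', Ext A' → ∃! i, Eqv A' (A i) := by
  obtain ⟨c, hc, s₁, hs₁, h1, h2⟩ := crit_reduce d hd
  have hfin := finite_ext (d := d) hc
  let T := {A : Mx d | A ∈ KK d c ∧ Ext A}
  have : Finite T := hfin
  let st : Setoid T :=
    { r := fun a b => Eqv a.1 b.1
      iseqv := ⟨fun a => Eqv.refl a.1, fun h => h.symm, fun h h' => h.trans h'⟩ }
  obtain ⟨N, ⟨e⟩⟩ := Finite.exists_equiv_fin (Quotient st)
  refine ⟨N, fun i => (Quotient.out (e.symm i)).1, fun i => (Quotient.out (e.symm i)).2.2, ?_⟩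
  intro A' hA'
  obtain ⟨A'', he, hK⟩ := h2 A' hA'
  let t : T := ⟨A'', hK, he.ext hA'⟩
  refine ⟨e (Quotient.mk st t), ?_, ?_⟩
  · have h3 : st.r (Quotient.out (Quotient.mk st t)) t := Quotient.exact (Quotient.out_eq _)
    show Eqv A' (Quotient.out (e.symm (e (Quotient.mk st t)))).1
    rw [Equiv.symm_apply_apply]
    exact he.trans (Eqv.symm h3)
  · intro j hj
    have h3 : Eqv A'' (Quotient.out (e.symm j)).1 := he.symm.trans hj
    have h4 : Quotient.mk st t = Quotient.mk st (Quotient.out (e.symm j)) := Quotient.sound h3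
    rw [Quotient.out_eq] at h4
    rw [h4, Equiv.apply_symm_apply]

lemma LocMin.smul (hd : d ≠ 0) {Q : Mx d} (hQ : PD Q) {s : ℝ} (h : LocMin s Q) {l : ℝ}
    (hl : 0 < l) : LocMin s (l • Q) := by
  obtain ⟨ε, hε, hm⟩ := h
  refine ⟨l * ε, by positivity, fun Q' hQ' hn => ?_⟩
  have h1 : En s Q ≤ En s (l⁻¹ • Q') := by
    refine hm _ (hQ'.smul (by positivity)) ?_
    have h2 : l⁻¹ • Q' - Q = l⁻¹ • (Q' - l • Q) := by
      rw [smul_sub, smul_smul, inv_mul_cancel₀ hl.ne', one_smul]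
    rw [h2, norm_smul, norm_inv, Real.norm_of_nonneg hl.le, inv_mul_lt_iff₀ hl]
    exact hn
  rw [En_smul hd hQ' (by positivity)] at h1
  rw [En_smul hd hQ hl]
  exact h1

lemma Crit.smul {Q : Mx d} (hQ : PD Q) {s : ℝ} (h : Crit s Q) {l : ℝ} (hl : 0 < l) :
    Crit s (l • Q) := by
  intro H hH
  have h1 := h H hH
  rw [F_smul hQ hl]
  have h2 : (l • Q)⁻¹ = l⁻¹ • Q⁻¹ := by
    refine Matrix.inv_eq_left_inv ?_
    rw [Matrix.smul_mul, Matrix.mul_smul, smul_smul, inv_mul_cancel₀ hl.ne', one_smul,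
      Matrix.nonsing_inv_mul _ hQ.det_pos.ne'.isUnit]
  rw [h2, Matrix.smul_mul, Matrix.trace_smul, smul_eq_mul]
  have h3 : ∑' x : NZ d, qf (l • Q) x.1 ^ (-s) * (qf H x.1 / qf (l • Q) x.1) =
      l ^ (-s) * l⁻¹ * ∑' x : NZ d, qf Q x.1 ^ (-s) * (qf H x.1 / qf Q x.1) := by
    rw [← tsum_mul_left]
    refine tsum_congr fun x => ?_
    rw [qf_smul, Real.mul_rpow hl.le (hQ.pos x).le]
    have := (hQ.pos x).ne'
    field_simp
  rw [h3, h1]
  ring

/-- the local minimum near an extreme form -/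
theorem exists_family (hd : d ≠ 0) {A : Mx d} (hA : Ext A) : ∃ (Q : ℝ → Mx d) (C : ℝ),
    ∀ᶠ s in atTop, (d : ℝ) / 2 + 1 ≤ s ∧ PD (Q s) ∧ F s (Q s) = 1 ∧ LocMin s (Q s) ∧
      ‖Q s - A‖ ≤ C / s := by
  obtain ⟨r, hr, s₀, C, hs₀, Q, hQ⟩ := exists_min hd hA
  refine ⟨Q, C, ?_⟩
  have h1 : Tendsto (fun s : ℝ => C / s) atTop (𝓝 0) := tendsto_const_nhds.div_atTop tendsto_id
  filter_upwards [eventually_ge_atTop s₀, eventually_ge_atTop ((d : ℝ) / 2 + 1),
    h1.eventually (gt_mem_nhds (half_pos hr))] with s k1 k2 k3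
  obtain ⟨h2, h3, h4, h5⟩ := hQ s k1
  refine ⟨k2, h2, h3, ⟨r / 2, half_pos hr, fun Q' hQ' hn => ?_⟩, h4⟩
  refine (h5 Q' hQ'.1 ?_).2
  calc ‖Q' - A‖ ≤ ‖Q' - Q s‖ + ‖Q s - A‖ := norm_sub_le_norm_sub_add_norm_sub _ _ _
    _ ≤ r := by linarith

lemma tendsto_of_rate {A : Mx d} {Q : ℝ → Mx d} {C : ℝ}
    (h : ∀ᶠ s in atTop, ‖Q s - A‖ ≤ C / s) : Tendsto Q atTop (𝓝 A) := by
  have h1 : Tendsto (fun s : ℝ => C / s) atTop (𝓝 0) := tendsto_const_nhds.div_atTop tendsto_id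
  exact (tendsto_iff_norm_sub_tendsto_zero (E := Mx d)).mpr
    (squeeze_zero' (Eventually.of_forall fun s => norm_nonneg _) h h1)

/-- a sequence of failures -/
lemma exists_seq_of_not {P : ℝ → Prop} (h : ¬ ∀ᶠ s in atTop, P s) :
    ∃ u : ℕ → ℝ, Tendsto u atTop atTop ∧ ∀ k, ¬ P (u k) := by
  rw [Filter.not_eventually] at h
  obtain ⟨u, hu, hu'⟩ := exists_seq_forall_of_frequently h
  exact ⟨u, hu, hu'⟩

/-- inequivalence of different families -/
theorem family_inj {A A' : Mx d} (hA : PD A) (hA' : PD A') (hne : ¬ Eqv A A')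
    {Q Q' : ℝ → Mx d} (hQ : Tendsto Q atTop (𝓝 A)) (hQ' : Tendsto Q' atTop (𝓝 A')) :
    ∀ᶠ s in atTop, ¬ Eqv (Q s) (Q' s) := by
  by_contra hcon
  obtain ⟨u, hu, hu'⟩ := exists_seq_of_not hcon
  exact hne (eqv_limit hA hA' (hQ.comp hu) (hQ'.comp hu) fun k => not_not.mp (hu' k))

/-- every local minimum is in one of the families -/
theorem family_surj (hd : d ≠ 0) {N : ℕ} {A : Fin N → Mx d} (hA : ∀ i, Ext (A i))
    (hrep : ∀ A', Ext A' → ∃! i, Eqv A' (A i)) {Q : Fin N → ℝ → Mx d} {C : Fin N → ℝ}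
    (hQ : ∀ i, ∀ᶠ s in atTop, (d : ℝ) / 2 + 1 ≤ s ∧ PD (Q i s) ∧ F s (Q i s) = 1 ∧
      LocMin s (Q i s) ∧ ‖Q i s - A i‖ ≤ C i / s) :
    ∀ᶠ s in atTop, ∀ Q', PD Q' → F s Q' = 1 → LocMin s Q' → ∃ i, Eqv Q' (Q i s) := by
  obtain ⟨c, hc, s₁, hs₁, h1, h2⟩ := crit_reduce d hd
  by_contra hcon
  have hcon' : ¬ ∀ᶠ s in atTop, (s₁ ≤ s → (d : ℝ) / 2 < s →
      (∀ i, (d : ℝ) / 2 + 1 ≤ s ∧ PD (Q i s) ∧ F s (Q i s) = 1 ∧
        LocMin s (Q i s) ∧ ‖Q i s - A i‖ ≤ C i / s) →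
      ∀ Q', PD Q' → F s Q' = 1 → LocMin s Q' → ∃ i, Eqv Q' (Q i s)) := by
    intro h
    apply hcon
    filter_upwards [h, eventually_ge_atTop s₁, eventually_gt_atTop ((d : ℝ) / 2),
      Filter.eventually_all.mpr hQ] with s k1 k2 k3 k4
    exact k1 k2 k3 k4
  obtain ⟨u, hu, hu'⟩ := exists_seq_of_not hcon'
  push Not at hu'
  choose g1 g2 g3 Q' hQ' hF' hM' hno using hu'
  have hC' : ∀ k, Crit (u k) (Q' k) := fun k => crit_of_locMin hd (g2 k) (hQ' k) (hM' k)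
  choose R hR hRK using fun k => h1 (u k) (g1 k) (Q' k) (hQ' k) (hF' k) (hC' k)
  have hfc : FirstCountableTopology (Mx d) :=
    inferInstanceAs (FirstCountableTopology (Fin d → Fin d → ℝ))
  obtain ⟨A₀, hA₀, φ, hφ, hlim⟩ := (isCompact_KK (d := d) hc).tendsto_subseq hRK
  have hA₀' : PD A₀ := KK_pd hc hA₀
  have hRpd : ∀ k, PD (R k) := fun k => (hR k).pd (hQ' k)
  have hRF : ∀ k, F (u k) (R k) = 1 := fun k => by rw [(hR k).F, hF' k]
  have hRM : ∀ k, LocMin (u k) (R k) := fun k => (hR k).locMin (hM' k)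
  have huφ : Tendsto (fun k => u (φ k)) atTop atTop := hu.comp hφ.tendsto_atTop
  have hext : Ext A₀ := ext_of_limit hd hA₀' huφ (fun k => hRpd (φ k)) (fun k => hRF (φ k))
    (fun k => hRM (φ k)) hlim
  obtain ⟨i, ⟨U, hU, hAi⟩, -⟩ := hrep A₀ hext
  have hlim2 : Tendsto (fun k => act U (R (φ k))) atTop (𝓝 (A i)) := by
    rw [hAi]
    exact ((continuous_act U).tendsto A₀).comp hlim
  have heqv : ∀ k, Eqv (R (φ k)) (act U (R (φ k))) := fun k => ⟨U, hU, rfl⟩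
  have hlim3 : Tendsto (fun k => Q i (u (φ k))) atTop (𝓝 (A i)) :=
    (tendsto_of_rate ((hQ i).mono fun s hs => hs.2.2.2.2)).comp huφ
  have hfin := unique_limit hd (hA i) huφ
    (Q := fun k => act U (R (φ k))) (fun k => (heqv k).pd (hRpd _))
    (fun k => by rw [(heqv k).F, hRF]) (fun k => (heqv k).crit (hRpd _)
      (crit_of_locMin hd (g2 (φ k)) (hRpd _) (hRM _))) hlim2
    (Q' := fun k => Q i (u (φ k))) (fun k => (g3 (φ k) i).2.1) (fun k => (g3 (φ k) i).2.2.1)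
    (fun k => crit_of_locMin hd (g2 (φ k)) (g3 (φ k) i).2.1 (g3 (φ k) i).2.2.2.1) hlim3
  obtain ⟨k, hk⟩ := hfin.exists
  refine hno (φ k) i ((hR (φ k)).trans ?_)
  rw [← hk]
  exact heqv k

/-- if all layers are strongly eutactic the family is constant up to scaling -/
theorem family_eq_of_layers (hd : d ≠ 0) {A : Mx d} (hA : Ext A) (h : Layers A) {Q : ℝ → Mx d}
    {C : ℝ} (hQ : ∀ᶠ s in atTop, (d : ℝ) / 2 + 1 ≤ s ∧ PD (Q s) ∧ F s (Q s) = 1 ∧
      LocMin s (Q s) ∧ ‖Q s - A‖ ≤ C / s) :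
    ∀ᶠ s in atTop, ∃ l : ℝ, 0 < l ∧ Q s = l • A := by
  by_contra hcon
  have hcon' : ¬ ∀ᶠ s in atTop, (((d : ℝ) / 2 + 1 ≤ s ∧ PD (Q s) ∧ F s (Q s) = 1 ∧
      LocMin s (Q s) ∧ ‖Q s - A‖ ≤ C / s) → ∃ l : ℝ, 0 < l ∧ Q s = l • A) := fun h' =>
    hcon (by filter_upwards [h', hQ] with s k1 k2 using k1 k2)
  obtain ⟨u, hu, hu'⟩ := exists_seq_of_not hcon'
  push Not at hu'
  have hs' : ∀ k, (d : ℝ) / 2 < u k := fun k => by linarith [(hu' k).1.1]
  have hFA : ∀ k, 0 < F (u k) A := fun k => F_pos hd hA.1 (hs' k)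
  have hs0 : ∀ k, 0 < u k := by
    intro k
    have := hs' k
    have : (0 : ℝ) ≤ d := Nat.cast_nonneg d
    linarith
  set l : ℕ → ℝ := fun k => F (u k) A ^ (1 / u k) with hl
  have hlpos : ∀ k, 0 < l k := fun k => Real.rpow_pos_of_pos (hFA k) _
  have hF1 : ∀ k, F (u k) (l k • A) = 1 := by
    intro k
    rw [F_smul hA.1 (hlpos k), hl]
    simp only
    rw [← Real.rpow_mul (hFA k).le]
    have : 1 / u k * -u k = -1 := by
      have := (hs0 k).ne'
      field_simp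
    rw [this, Real.rpow_neg_one, inv_mul_cancel₀ (hFA k).ne']
  have hbound : ∃ B : ℝ, 1 ≤ B ∧ ∀ k, F (u k) A ≤ B := by
    refine ⟨max 1 (F ((d : ℝ) / 2 + 1) A), le_max_left _ _, fun k => (le_trans ?_
      (le_max_right _ _))⟩
    refine (hA.1.summable (hs' k)).tsum_le_tsum (fun x => ?_) (hA.1.summable (by linarith))
    exact Real.rpow_le_rpow_of_exponent_le (hA.2.1 x) (by linarith [(hu' k).1.1])
  obtain ⟨B, hB1, hB⟩ := hbound
  obtain ⟨x₀, hx₀⟩ := Ext.nonempty hd hA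
  have hF1' : ∀ k, 1 ≤ F (u k) A := by
    intro k
    have h1 : qf A x₀.1 ^ (-(u k)) ≤ F (u k) A :=
      (hA.1.summable (hs' k)).le_tsum x₀ fun y _ => Real.rpow_nonneg (hA.1.pos y).le _
    rwa [hx₀, Real.one_rpow] at h1
  have hllim : Tendsto l atTop (𝓝 1) := by
    have h1 : Tendsto (fun k => B ^ (1 / u k)) atTop (𝓝 1) := by
      have h2 : Tendsto (fun k => 1 / u k) atTop (𝓝 0) := tendsto_const_nhds.div_atTop hu
      have h3 := (Real.continuous_const_rpow (by positivity : B ≠ 0)).tendsto 0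
      rw [Real.rpow_zero] at h3
      exact h3.comp h2
    refine tendsto_of_tendsto_of_tendsto_of_le_of_le tendsto_const_nhds h1 (fun k => ?_)
      (fun k => ?_)
    · exact Real.one_le_rpow (hF1' k) (by have := hs0 k; positivity)
    · exact Real.rpow_le_rpow (hFA k).le (hB k) (by have := hs0 k; positivity)
  have hlim1 : Tendsto (fun k => l k • A) atTop (𝓝 A) := by
    have := hllim.smul_const A
    rwa [one_smul] at this
  have hlim2 : Tendsto (fun k => Q (u k)) atTop (𝓝 A) :=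
    (tendsto_of_rate (hQ.mono fun s hs => hs.2.2.2.2)).comp hu
  have hfin := unique_limit hd hA hu (Q := fun k => l k • A) (fun k => hA.1.smul (hlpos k)) hF1
    (fun k => (crit_of_layers hA.1 h (hs' k)).smul hA.1 (hlpos k)) hlim1
    (Q' := fun k => Q (u k)) (fun k => (hu' k).1.2.1) (fun k => (hu' k).1.2.2.1)
    (fun k => crit_of_locMin hd (hs' k) (hu' k).1.2.1 (hu' k).1.2.2.2.1) hlim2
  obtain ⟨k, hk⟩ := hfin.exists
  exact (hu' k).2 (l k) (hlpos k) hk.symm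

/-- a form which is a local minimum for all large `s` has strongly eutactic layers -/
theorem layers_of_locMin (hd : d ≠ 0) {A : Mx d} (hA : PD A) (h : ∀ᶠ s in atTop, LocMin s A) :
    Layers A := by
  obtain ⟨u, hu⟩ : ∃ u : ℕ → ℝ, Tendsto u atTop atTop ∧ ∀ k, LocMin (u k) A ∧
      (d : ℝ) / 2 < u k := by
    obtain ⟨s₁, hs₁⟩ := eventually_atTop.mp (h.and (eventually_gt_atTop ((d : ℝ) / 2)))
    refine ⟨fun k => s₁ + k, tendsto_atTop_add_const_left _ _ tendsto_natCast_atTop_atTop,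
      fun k => hs₁ _ ?_⟩
    have : (0 : ℝ) ≤ k := Nat.cast_nonneg k
    linarith
  exact layers_of_crit hA hu.1 fun k => crit_of_locMin hd (hu.2 k).2 hA (hu.2 k).1

/-- the layer condition is scale invariant -/
theorem Layers.smul {A : Mx d} (hA : PD A) (h : Layers A) {l : ℝ} (hl : 0 < l) :
    Layers (l • A) := by
  have hu : Tendsto (fun k : ℕ => (d : ℝ) / 2 + 1 + (k : ℝ)) atTop atTop :=
    tendsto_atTop_add_const_left _ _ tendsto_natCast_atTop_atTop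
  refine layers_of_crit (hA.smul hl) hu fun k => ?_
  refine (crit_of_layers hA h ?_).smul hA hl
  have : (0 : ℝ) ≤ k := Nat.cast_nonneg k
  linarith

/-- the entropy asymptotics along the family -/
theorem family_entropy (hd : d ≠ 0) {A : Mx d} (hA : Ext A) {Q : ℝ → Mx d} {C : ℝ}
    (hQ : ∀ᶠ s in atTop, (d : ℝ) / 2 + 1 ≤ s ∧ PD (Q s) ∧ F s (Q s) = 1 ∧ LocMin s (Q s) ∧
      ‖Q s - A‖ ≤ C / s) :
    ∃ h : ℝ, IsGreatest {e | ∃ ρ, Eut A ρ ∧ e = entr ρ} h ∧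
      Tendsto (fun s => ((Q s).det / A.det) ^ (s / d)) atTop (𝓝 (Real.exp h)) := by
  -- a modification of the family valid for all parameters
  obtain ⟨s₁, hs₁⟩ := eventually_atTop.mp hQ
  have hseq : ∀ u : ℕ → ℝ, Tendsto u atTop atTop → (∀ k, s₁ ≤ u k) →
      ∃ h : ℝ, IsGreatest {e | ∃ ρ, Eut A ρ ∧ e = entr ρ} h ∧
        Tendsto (fun k => ((Q (u k)).det / A.det) ^ (u k / d)) atTop (𝓝 (Real.exp h)) := by
    intro u hu hu1
    have hlim2 : Tendsto (fun k => Q (u k)) atTop (𝓝 A) :=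
      (tendsto_of_rate (hQ.mono fun s hs => hs.2.2.2.2)).comp hu
    obtain ⟨h, h1, h2, -⟩ := ent_limit hd hA hu (Q := fun k => Q (u k))
      (fun k => (hs₁ _ (hu1 k)).2.1) (fun k => (hs₁ _ (hu1 k)).2.2.1)
      (fun k => crit_of_locMin hd (by linarith [(hs₁ _ (hu1 k)).1]) (hs₁ _ (hu1 k)).2.1
        (hs₁ _ (hu1 k)).2.2.2.1) hlim2
    exact ⟨h, h1, h2⟩
  obtain ⟨h, h1, -⟩ := hseq (fun k => s₁ + k)
    (tendsto_atTop_add_const_left _ _ tendsto_natCast_atTop_atTop)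
    (fun k => by have : (0 : ℝ) ≤ k := Nat.cast_nonneg k; linarith)
  refine ⟨h, h1, ?_⟩
  refine tendsto_of_seq_tendsto fun u hu => ?_
  obtain ⟨k₀, hk₀⟩ := eventually_atTop.mp (hu.eventually_ge_atTop s₁)
  obtain ⟨h', h1', h2'⟩ := hseq (fun k => u (k + k₀)) (hu.comp (tendsto_add_atTop_nat k₀))
    (fun k => hk₀ _ (by omega))
  rw [h1.unique h1']
  exact (tendsto_add_atTop_iff_nat k₀).mp h2'

/-- value of the energy along the family -/
lemma En_eq_of_F {Q : Mx d} {s : ℝ} (hF : F s Q = 1) : En s Q = Q.det ^ (s / d) := by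
  unfold En
  rw [hF, one_mul]

/-- comparison of two families -/
theorem family_compare {A A' : Mx d} (hA : PD A) (hA' : PD A')
    (hd : d ≠ 0) {Q Q' : ℝ → Mx d} {h h' : ℝ}
    (hQ : ∀ᶠ s in atTop, PD (Q s)) (hQ' : ∀ᶠ s in atTop, PD (Q' s))
    (hh : Tendsto (fun s => ((Q s).det / A.det) ^ (s / d)) atTop (𝓝 (Real.exp h)))
    (hh' : Tendsto (fun s => ((Q' s).det / A'.det) ^ (s / d)) atTop (𝓝 (Real.exp h')))
    (hlt : A.det < A'.det ∨ A.det = A'.det ∧ h < h') :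
    ∀ᶠ s in atTop, (Q s).det ^ (s / d) < (Q' s).det ^ (s / d) := by
  have hdpos : (0 : ℝ) < d := by exact_mod_cast Nat.pos_of_ne_zero hd
  have hD := hA.det_pos
  have hD' := hA'.det_pos
  -- quotient of the two limits
  have hq : Tendsto (fun s => ((Q s).det / A.det) ^ (s / d) / ((Q' s).det / A'.det) ^ (s / d))
      atTop (𝓝 (Real.exp h / Real.exp h')) := hh.div hh' (Real.exp_pos _).ne'
  have key : ∀ᶠ s in atTop, ((Q s).det / A.det) ^ (s / d) / ((Q' s).det / A'.det) ^ (s / d) <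
      (A'.det / A.det) ^ (s / d) := by
    rcases hlt with hlt | ⟨heq, hlt⟩
    · have h1 : 1 < A'.det / A.det := by rwa [one_lt_div hD]
      have h2 : Tendsto (fun s : ℝ => (A'.det / A.det) ^ (s / d)) atTop atTop :=
        (tendsto_rpow_atTop_of_base_gt_one _ h1).comp (tendsto_id.atTop_div_const hdpos)
      filter_upwards [hq.eventually (gt_mem_nhds (lt_add_one _)),
        h2.eventually_gt_atTop (Real.exp h / Real.exp h' + 1)] with s k1 k2
      exact k1.trans k2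
    · have h1 : Real.exp h / Real.exp h' < 1 := by
        rw [div_lt_one (Real.exp_pos _)]
        exact Real.exp_lt_exp.mpr hlt
      filter_upwards [hq.eventually (gt_mem_nhds h1)] with s k1
      rw [heq, div_self hD'.ne', Real.one_rpow]
      rw [heq] at k1
      exact k1
  filter_upwards [key, hQ, hQ'] with s k1 k2 k3
  have e1 := k2.det_pos
  have e2 := k3.det_pos
  rw [Real.div_rpow e1.le hD.le, Real.div_rpow e2.le hD'.le, Real.div_rpow hD'.le hD.le] at k1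
  have p1 := Real.rpow_pos_of_pos hD (s / d)
  have p2 := Real.rpow_pos_of_pos hD' (s / d)
  have p3 := Real.rpow_pos_of_pos e1 (s / d)
  have p4 := Real.rpow_pos_of_pos e2 (s / d)
  rw [div_div_div_eq, div_lt_div_iff₀ (by positivity) p1] at k1
  have h3 : (A.det ^ (s / d) * A'.det ^ (s / d)) * (Q s).det ^ (s / d) <
      (A.det ^ (s / d) * A'.det ^ (s / d)) * (Q' s).det ^ (s / d) := by
    linarith
  exact lt_of_mul_lt_mul_left h3 (by positivity)

end Pool.Agent.Lib.EpZ
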