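import Pool.Agent.Lib.EpZ.LatA
import Pool.Agent.Lib.EpZ.Lay

/-!
# Layers of lattices, global minima of lattices
-/

open Matrix Filter Topology
open scoped Matrix.Norms.Elementwise

namespace Pool.Agent.Lib.EpZ

variable {d : ℕ}

/-- all layers `{v ∈ Λ | ‖v‖ = r}`, `r > 0`, are strongly eutactic:
`∑ ⟪v, w⟫² = (number of vectors) r² ‖w‖² / d` -/
def StronglyEutacticLayers (Λ : Set (EuclideanSpace ℝ (Fin d))) : Prop :=
  ∀ r : ℝ, 0 < r → ∀ w : EuclideanSpace ℝ (Fin d),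
    ∑' v : {v : EuclideanSpace ℝ (Fin d) // v ∈ Λ ∧ ‖v‖ = r},
      inner ℝ (v : EuclideanSpace ℝ (Fin d)) w ^ 2 =
        Nat.card {v : EuclideanSpace ℝ (Fin d) // v ∈ Λ ∧ ‖v‖ = r} * (r ^ 2 * ‖w‖ ^ 2 / d)

namespace LatFAux

lemma sum_layer (A : Mx d) (ρ : ℝ) [Fintype {x : NZ d // qf A x.1 = ρ}] (f : NZ d → ℝ) :
    ∑' x : NZ d, (if qf A x.1 = ρ then f x else 0) =
      ∑ x : {x : NZ d // qf A x.1 = ρ}, f x.1 := by
  classical
  rw [← tsum_fintype (L := SummationFilter.unconditional _)]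
  have h := tsum_subtype {x : NZ d | qf A x.1 = ρ} f
  have h2 : ∀ x, Set.indicator {x : NZ d | qf A x.1 = ρ} f x =
      if qf A x.1 = ρ then f x else 0 := by
    intro x
    rw [Set.indicator_apply]
    rfl
  simp only [h2] at h
  exact h.symm

/-- a linear functional vanishing on all squares vanishes on the symmetric matrices -/
lemma lin_zero (L : Mx d →ₗ[ℝ] ℝ) (h : ∀ u : Fin d → ℝ, L (vecMulVec u u) = 0) {H : Mx d}
    (hH : H.IsSymm) : L H = 0 := by
  classical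
  have h1 : ∀ i, L (Matrix.single i i 1) = 0 := by
    intro i
    rw [← h (Pi.single i 1)]
    congr 1
    rw [← Matrix.single_eq_single_vecMulVec_single]
  have h2 : ∀ i j, L (Matrix.single i j 1) + L (Matrix.single j i 1) = 0 := by
    intro i j
    have e : vecMulVec (Pi.single i 1 + Pi.single j 1) (Pi.single i 1 + Pi.single j 1) =
        (Matrix.single i i 1 + Matrix.single i j 1 + (Matrix.single j i 1 + Matrix.single j j 1) :
          Mx d) := by
      rw [Matrix.add_vecMulVec, Matrix.vecMulVec_add, Matrix.vecMulVec_add]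
      simp only [← Matrix.single_eq_single_vecMulVec_single]
    have h3 := h (Pi.single i 1 + Pi.single j 1)
    rw [e, map_add, map_add, map_add, h1, h1] at h3
    linarith
  have h3 : ∀ G : Mx d, L G = ∑ i, ∑ j, G i j * L (Matrix.single i j 1) := by
    intro G
    conv_lhs => rw [Matrix.matrix_eq_sum_single G]
    rw [map_sum]
    refine Finset.sum_congr rfl fun i _ => ?_
    rw [map_sum]
    refine Finset.sum_congr rfl fun j _ => ?_
    have : Matrix.single i j (G i j) = G i j • (Matrix.single i j 1 : Mx d) := by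
      rw [Matrix.smul_single, smul_eq_mul, mul_one]
    rw [this, map_smul, smul_eq_mul]
  have h4 : 2 * L H = ∑ i, ∑ j, H i j * (L (Matrix.single i j 1) + L (Matrix.single j i 1)) := by
    have e1 := h3 H
    have e2 : L H = ∑ i, ∑ j, H i j * L (Matrix.single j i 1) := by
      rw [e1, Finset.sum_comm]
      refine Finset.sum_congr rfl fun i _ => Finset.sum_congr rfl fun j _ => ?_
      rw [hH.apply i j]
    simp only [mul_add, Finset.sum_add_distrib]
    rw [← e1, ← e2]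
    ring
  have h5 : 2 * L H = 0 := by
    rw [h4]
    refine Finset.sum_eq_zero fun i _ => Finset.sum_eq_zero fun j _ => ?_
    rw [h2, mul_zero]
  linarith

lemma inner_vec (B : Mx d) (x : Fin d → ℤ) (w : EuclideanSpace ℝ (Fin d)) :
    inner ℝ (vec B x) w = rv x ⬝ᵥ (Bᵀ *ᵥ (WithLp.ofLp w)) := by
  have h1 : inner ℝ (vec B x) w = (B *ᵥ rv x) ⬝ᵥ (WithLp.ofLp w) := by
    unfold vec
    rw [EuclideanSpace.inner_eq_star_dotProduct]
    simp only [star_trivial]
    rw [dotProduct_comm]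
  rw [h1, Matrix.dotProduct_mulVec, Matrix.vecMul_transpose]

lemma qf_sq (u : Fin d → ℝ) (x : Fin d → ℤ) : qf (vecMulVec u u) x = (rv x ⬝ᵥ u) ^ 2 := by
  unfold qf qr
  rw [Matrix.vecMulVec_mulVec]
  simp only [dotProduct_smul]
  rw [dotProduct_comm u (rv x)]
  simp [sq]

lemma trace_sq {B : Mx d} (hB : B.det ≠ 0) (w : EuclideanSpace ℝ (Fin d)) :
    ((gram B)⁻¹ * vecMulVec (Bᵀ *ᵥ (WithLp.ofLp w)) (Bᵀ *ᵥ (WithLp.ofLp w))).trace = ‖w‖ ^ 2 := by
  have hu : IsUnit B.det := isUnit_iff_ne_zero.2 hB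
  have hut : IsUnit Bᵀ.det := by rwa [det_transpose]
  rw [Matrix.mul_vecMulVec, Matrix.trace_vecMulVec]
  unfold gram
  rw [Matrix.mul_inv_rev, Matrix.mulVec_mulVec, Matrix.mul_assoc, Matrix.nonsing_inv_mul _ hut,
    Matrix.mul_one]
  rw [dotProduct_comm, ← Matrix.vecMul_transpose Bᵀ, Matrix.transpose_transpose,
    ← Matrix.dotProduct_mulVec, Matrix.mulVec_mulVec, Matrix.mul_nonsing_inv _ hu,
    Matrix.one_mulVec]
  rw [EuclideanSpace.real_norm_sq_eq]
  simp only [dotProduct, sq]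

/-- the linear functional of a layer -/
noncomputable def LF (A : Mx d) (ρ : ℝ) [Fintype {x : NZ d // qf A x.1 = ρ}] : Mx d →ₗ[ℝ] ℝ where
  toFun H := ∑ x : {x : NZ d // qf A x.1 = ρ}, (qf H x.1.1 / ρ - (A⁻¹ * H).trace / d)
  map_add' H H' := by
    rw [← Finset.sum_add_distrib]
    refine Finset.sum_congr rfl fun x _ => ?_
    rw [qf_add, Matrix.mul_add, Matrix.trace_add]
    ring
  map_smul' c H := by
    rw [RingHom.id_apply, smul_eq_mul, Finset.mul_sum]
    refine Finset.sum_congr rfl fun x _ => ?_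
    rw [qf_smul, Matrix.mul_smul, Matrix.trace_smul, smul_eq_mul]
    ring

lemma LF_apply (A : Mx d) (ρ : ℝ) [Fintype {x : NZ d // qf A x.1 = ρ}] (H : Mx d) :
    LF A ρ H = (∑ x : {x : NZ d // qf A x.1 = ρ}, qf H x.1.1) / ρ -
      Fintype.card {x : NZ d // qf A x.1 = ρ} * ((A⁻¹ * H).trace / d) := by
  show ∑ x : {x : NZ d // qf A x.1 = ρ}, (qf H x.1.1 / ρ - (A⁻¹ * H).trace / d) = _
  rw [Finset.sum_sub_distrib, Finset.sum_div, Finset.sum_const, Finset.card_univ, nsmul_eq_mul]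

/-- the vectors of a layer -/
lemma exists_equiv {B : Mx d} (hB : B.det ≠ 0) {r : ℝ} (hr : 0 < r) :
    ∃ e : {x : NZ d // qf (gram B) x.1 = r ^ 2} ≃
      {v : EuclideanSpace ℝ (Fin d) // v ∈ lat B ∧ ‖v‖ = r},
      ∀ x, (e x : EuclideanSpace ℝ (Fin d)) = vec B x.1.1 := by
  have h1 : ∀ x : {x : NZ d // qf (gram B) x.1 = r ^ 2}, vec B x.1.1 ∈ lat B ∧
      ‖vec B x.1.1‖ = r := by
    intro x
    refine ⟨(mem_lat B _).2 ⟨_, rfl⟩, ?_⟩
    have := norm_vec_sq B x.1.1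
    rw [x.2] at this
    exact (pow_left_inj₀ (norm_nonneg _) hr.le two_ne_zero).1 this
  refine ⟨Equiv.ofBijective (fun x => ⟨vec B x.1.1, h1 x⟩) ⟨?_, ?_⟩, fun x => rfl⟩
  · intro x y h
    have h2 : vec B x.1.1 = vec B y.1.1 := congrArg Subtype.val h
    exact Subtype.ext (Subtype.ext (vec_injective hB h2))
  · rintro ⟨v, hv, hvr⟩
    obtain ⟨x, rfl⟩ := (mem_lat B v).1 hv
    have hx : x ≠ 0 := by
      rintro rfl
      have h3 := norm_vec_sq B 0
      rw [hvr] at h3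
      have h4 : qf (gram B) (0 : Fin d → ℤ) = 0 := by
        unfold qf qr rv
        simp
      rw [h4] at h3
      have : r = 0 := pow_eq_zero_iff two_ne_zero |>.1 h3
      exact hr.ne' this
    refine ⟨⟨⟨x, hx⟩, ?_⟩, rfl⟩
    rw [← norm_vec_sq, hvr]

end LatFAux

open LatFAux

theorem layers_lat_iff (hd : d ≠ 0) {B : Mx d} (hB : B.det ≠ 0) :
    StronglyEutacticLayers (lat B) ↔ Layers (gram B) := by
  classical
  have hA := gram_pd hB
  have hfin : ∀ ρ, Finite {x : NZ d // qf (gram B) x.1 = ρ} := by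
    intro ρ
    exact ((finite_level hA ρ).subset fun x (hx : qf (gram B) x.1 = ρ) => le_of_eq hx).to_subtype
  have hF : ∀ ρ, Fintype {x : NZ d // qf (gram B) x.1 = ρ} := fun ρ => Fintype.ofFinite _
  have key : ∀ r : ℝ, 0 < r → ∀ w : EuclideanSpace ℝ (Fin d),
      (∑' v : {v : EuclideanSpace ℝ (Fin d) // v ∈ lat B ∧ ‖v‖ = r},
        inner ℝ (v : EuclideanSpace ℝ (Fin d)) w ^ 2 =
        Nat.card {v : EuclideanSpace ℝ (Fin d) // v ∈ lat B ∧ ‖v‖ = r} *
          (r ^ 2 * ‖w‖ ^ 2 / d)) ↔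
      LF (gram B) (r ^ 2) (vecMulVec (Bᵀ *ᵥ (WithLp.ofLp w)) (Bᵀ *ᵥ (WithLp.ofLp w))) = 0 := by
    intro r hr w
    obtain ⟨e, he⟩ := exists_equiv hB hr
    rw [← e.tsum_eq, ← Nat.card_congr e, LF_apply, trace_sq hB, tsum_fintype, Nat.card_eq_fintype_card]
    have e1 : ∑ x, inner ℝ ((e x : EuclideanSpace ℝ (Fin d))) w ^ 2 =
        ∑ x : {x : NZ d // qf (gram B) x.1 = r ^ 2},
          qf (vecMulVec (Bᵀ *ᵥ (WithLp.ofLp w)) (Bᵀ *ᵥ (WithLp.ofLp w))) x.1.1 := by
      refine Finset.sum_congr rfl fun x _ => ?_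
      rw [he, inner_vec, qf_sq]
    rw [e1]
    have hr2 : r ^ 2 ≠ 0 := pow_ne_zero 2 hr.ne'
    have hd' : (d : ℝ) ≠ 0 := Nat.cast_ne_zero.mpr hd
    constructor
    · intro h
      rw [h]
      field_simp
      ring
    · intro h
      rw [sub_eq_zero, div_eq_iff hr2] at h
      rw [h]
      ring
  constructor
  · intro h ρ H hH
    rw [sum_layer]
    rcases le_or_gt ρ 0 with hρ | hρ
    · have : IsEmpty {x : NZ d // qf (gram B) x.1 = ρ} :=
        ⟨fun x => by
          have h1 := hA.pos x.1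
          rw [x.2] at h1
          linarith⟩
      exact Finset.sum_of_isEmpty _
    · have hs : Real.sqrt ρ ^ 2 = ρ := Real.sq_sqrt hρ.le
      have hs0 : 0 < Real.sqrt ρ := Real.sqrt_pos.2 hρ
      have h1 : LF (gram B) ρ H = 0 := by
        refine lin_zero _ (fun u => ?_) hH
        have h2 := (key _ hs0 (WithLp.toLp 2 (Bᵀ⁻¹ *ᵥ u))).1 (h _ hs0 _)
        have h3 : Bᵀ *ᵥ (Bᵀ⁻¹ *ᵥ u) = u := by
          rw [Matrix.mulVec_mulVec, Matrix.mul_nonsing_inv _ (by
            rw [det_transpose]; exact isUnit_iff_ne_zero.2 hB), Matrix.one_mulVec]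
        simp only [h3] at h2
        have h4 : ∀ ρ' : ℝ, ρ' = ρ → LF (gram B) ρ' (vecMulVec u u) = 0 →
            LF (gram B) ρ (vecMulVec u u) = 0 := by
          rintro _ rfl h
          exact h
        exact h4 _ hs h2
      exact h1
  · intro h r hr w
    rw [key r hr w]
    have h1 := h (r ^ 2) (vecMulVec (Bᵀ *ᵥ (WithLp.ofLp w)) (Bᵀ *ᵥ (WithLp.ofLp w))) (by
      unfold Matrix.IsSymm
      rw [Matrix.transpose_vecMulVec])
    rw [sum_layer] at h1
    exact h1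

/-- `Λ` is a global minimum of `ζ(·, s)` among the lattices of determinant `1`. -/
def IsGlobalMinimum (Λ : Set (EuclideanSpace ℝ (Fin d))) (s : ℝ) : Prop :=
  IsUnitLattice Λ ∧ ∀ Λ' : Set (EuclideanSpace ℝ (Fin d)), IsUnitLattice Λ' →
    zeta Λ s ≤ zeta Λ' s

namespace LatFAux

lemma det_ne {B : Mx d} (hB : |B.det| = 1) : B.det ≠ 0 := by
  intro h
  rw [h] at hB
  simp at hB

lemma zeta_eq_En {B : Mx d} (hB : |B.det| = 1) (s : ℝ) : zeta (lat B) s = En s (gram B) := by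
  rw [zeta_lat (det_ne hB)]
  unfold En gram
  have h1 : (Bᵀ * B).det = 1 := by
    rw [det_mul, det_transpose, ← abs_mul_abs_self, hB, mul_one]
  rw [h1, Real.one_rpow, mul_one]

end LatFAux

/-- uses that every positive definite form is a Gram matrix (`exists_root`), normalised to
determinant one by `En_smul` -/
theorem isGlobalMinimum_iff (hd : d ≠ 0) {B : Mx d} (hB : |B.det| = 1) (s : ℝ) :
    IsGlobalMinimum (lat B) s ↔ ∀ Q : Mx d, PD Q → En s (gram B) ≤ En s Q := by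
  constructor
  · rintro ⟨-, h⟩ Q hQ
    obtain ⟨R, hR, -⟩ := exists_root Q hQ
    obtain ⟨l, hl⟩ : ∃ l : ℝ, l = Q.det ^ (-(1 / (d : ℝ))) := ⟨_, rfl⟩
    have hl0 : 0 < l := by rw [hl]; exact Real.rpow_pos_of_pos hQ.det_pos _
    have hQ' := hQ.smul hl0
    obtain ⟨-, h2⟩ := hR _ hQ'
    have hd' : (d : ℝ) ≠ 0 := Nat.cast_ne_zero.mpr hd
    have hdet : (l • Q).det = 1 := by
      rw [Matrix.det_smul, Fintype.card_fin, hl, ← Real.rpow_natCast, ← Real.rpow_mul hQ.det_pos.le]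
      have : -(1 / (d : ℝ)) * (d : ℝ) = -1 := by field_simp
      rw [this, Real.rpow_neg_one, inv_mul_cancel₀ hQ.det_pos.ne']
    have hB' : |(R (l • Q)).det| = 1 := by
      have h3 : (gram (R (l • Q))).det = 1 := by rw [h2, hdet]
      unfold gram at h3
      rw [det_mul, det_transpose] at h3
      have h4 : |(R (l • Q)).det| * |(R (l • Q)).det| = 1 := by rw [abs_mul_abs_self, h3]
      nlinarith [abs_nonneg (R (l • Q)).det]
    have h5 := h (lat (R (l • Q))) ⟨_, hB', rfl⟩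
    rw [zeta_eq_En hB, zeta_eq_En hB', h2, En_smul hd hQ hl0] at h5
    exact h5
  · intro h
    refine ⟨⟨B, hB, rfl⟩, ?_⟩
    rintro _ ⟨B', hB', rfl⟩
    rw [zeta_eq_En hB, zeta_eq_En hB']
    exact h _ (gram_pd (det_ne hB'))

end Pool.Agent.Lib.EpZ
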