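import Pool.Agent.Lib.EpZ.Defs

/-!
# Square roots of positive definite forms
-/

open Matrix Filter Topology
open scoped Matrix.Norms.Elementwise

namespace Pool.Agent.Lib.EpZ

variable {d : ℕ}

/-- the Gram matrix -/
def gram (B : Mx d) : Mx d := Bᵀ * B

namespace RootAux

lemma spec {S : Mx d} (hS : S.IsSymm) :
    ∃ (U : Mx d) (l : Fin d → ℝ), Uᵀ * U = 1 ∧ Uᵀ * S * U = diagonal l := by
  have hA : S.IsHermitian := by
    unfold Matrix.IsHermitian
    rw [conjTranspose_eq_transpose_of_trivial]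
    exact hS
  refine ⟨(hA.eigenvectorUnitary : Mx d), hA.eigenvalues, ?_, ?_⟩
  · have := Unitary.coe_star_mul_self hA.eigenvectorUnitary
    rw [star_eq_conjTranspose, conjTranspose_eq_transpose_of_trivial] at this
    exact this
  · have := hA.conjStarAlgAut_star_eigenvectorUnitary
    rw [Unitary.conjStarAlgAut_star_apply, star_eq_conjTranspose,
      conjTranspose_eq_transpose_of_trivial] at this
    rw [this]
    rfl

lemma qr_conj (Q P : Mx d) (v : Fin d → ℝ) : qr (Pᵀ * Q * P) v = qr Q (P *ᵥ v) := by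
  unfold qr
  rw [← mulVec_mulVec, ← mulVec_mulVec, dotProduct_mulVec v Pᵀ, vecMul_transpose]

lemma qr_single (Q : Mx d) (i : Fin d) : qr Q (Pi.single i 1) = Q i i := by
  unfold qr
  simp

lemma conj_apply (Q P : Mx d) (i : Fin d) :
    (Pᵀ * Q * P) i i = qr Q (P *ᵥ (Pi.single i 1)) := by
  rw [← qr_conj, qr_single]

lemma col_ne {U : Mx d} (hU : Uᵀ * U = 1) (i : Fin d) : U *ᵥ (Pi.single i (1 : ℝ)) ≠ 0 := by
  intro h0
  have h1 : Uᵀ *ᵥ (U *ᵥ (Pi.single i (1 : ℝ))) = 0 := by rw [h0, mulVec_zero]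
  rw [mulVec_mulVec, hU, one_mulVec] at h1
  have h2 := congrFun h1 i
  simp at h2

lemma col_sq {U : Mx d} (hU : Uᵀ * U = 1) (k : Fin d) : ∑ i, U i k ^ 2 = 1 := by
  have h1 := congrFun (congrFun hU k) k
  rw [Matrix.mul_apply, Matrix.one_apply_eq] at h1
  rw [← h1]
  exact Finset.sum_congr rfl fun i _ => by rw [transpose_apply, sq]

lemma recover {U S : Mx d} {l : Fin d → ℝ} (hU : Uᵀ * U = 1) (h : Uᵀ * S * U = diagonal l) :
    S = U * diagonal l * Uᵀ := by
  have hU' : U * Uᵀ = 1 := mul_eq_one_comm.1 hU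
  rw [← h]
  calc S = (U * Uᵀ) * S * (U * Uᵀ) := by rw [hU', Matrix.one_mul, Matrix.mul_one]
    _ = _ := by simp only [Matrix.mul_assoc]

lemma exists_sqrt {Q : Mx d} (hQ : PD Q) : ∃ R : Mx d, PD R ∧ R * R = Q := by
  obtain ⟨U, l, hU, hl⟩ := spec hQ.1
  have hlp : ∀ i, 0 < l i := by
    intro i
    have h1 := conj_apply Q U i
    rw [hl, diagonal_apply_eq] at h1
    rw [h1]
    exact hQ.2 _ (col_ne hU i)
  have hQe := recover hU hl
  refine ⟨U * diagonal (fun i => Real.sqrt (l i)) * Uᵀ, ⟨?_, ?_⟩, ?_⟩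
  · unfold Matrix.IsSymm
    rw [transpose_mul, transpose_mul, transpose_transpose, diagonal_transpose, Matrix.mul_assoc]
  · intro v hv
    have h1 : U * diagonal (fun i => Real.sqrt (l i)) * Uᵀ =
        (Uᵀ)ᵀ * diagonal (fun i => Real.sqrt (l i)) * Uᵀ := by rw [transpose_transpose]
    rw [h1, qr_conj]
    have hw : Uᵀ *ᵥ v ≠ 0 := by
      intro h0
      apply hv
      have h2 : U *ᵥ (Uᵀ *ᵥ v) = 0 := by rw [h0, mulVec_zero]
      rwa [mulVec_mulVec, mul_eq_one_comm.1 hU, one_mulVec] at h2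
    obtain ⟨i, hi⟩ : ∃ i, (Uᵀ *ᵥ v) i ≠ 0 := by
      by_contra hc
      push Not at hc
      exact hw (funext hc)
    generalize Uᵀ *ᵥ v = w at hi
    have h3 : qr (diagonal (fun i => Real.sqrt (l i))) w = ∑ i, Real.sqrt (l i) * w i ^ 2 := by
      unfold qr dotProduct
      refine Finset.sum_congr rfl fun i _ => ?_
      rw [mulVec_diagonal]
      ring
    rw [h3]
    refine Finset.sum_pos' (fun j _ => by positivity) ⟨i, Finset.mem_univ i, ?_⟩
    have := Real.sqrt_pos.2 (hlp i)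
    positivity
  · have h1 : U * diagonal (fun i => Real.sqrt (l i)) * Uᵀ *
        (U * diagonal (fun i => Real.sqrt (l i)) * Uᵀ) =
        U * (diagonal (fun i => Real.sqrt (l i)) * (Uᵀ * U) *
          diagonal (fun i => Real.sqrt (l i))) * Uᵀ := by
      simp only [Matrix.mul_assoc]
    rw [h1, hU, Matrix.mul_one, diagonal_mul_diagonal]
    have h2 : (fun i => Real.sqrt (l i) * Real.sqrt (l i)) = l :=
      funext fun i => Real.mul_self_sqrt (hlp i).le
    rw [h2, ← hQe]

lemma sqrt_lip {R R' : Mx d} (hR : PD R) (hR' : PD R') {c : ℝ} (hc : 0 < c)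
    (hl : ∀ v : Fin d → ℝ, c * ∑ i, v i ^ 2 ≤ qr R v) :
    ‖R' - R‖ ≤ d ^ 2 / c * ‖R' * R' - R * R‖ := by
  have hsym : (R' - R).IsSymm := hR'.1.sub hR.1
  obtain ⟨U, l, hU, hd⟩ := spec hsym
  have hU' : U * Uᵀ = 1 := mul_eq_one_comm.1 hU
  have hlb : ∀ k, |l k| ≤ d * ‖R' * R' - R * R‖ / c := by
    intro k
    have e1 : R' * R' - R * R = R' * (R' - R) + (R' - R) * R := by
      rw [Matrix.mul_sub, Matrix.sub_mul]
      abel
    have e2 : Uᵀ * (R' * R' - R * R) * U =
        (Uᵀ * R' * U) * (Uᵀ * (R' - R) * U) + (Uᵀ * (R' - R) * U) * (Uᵀ * R * U) := by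
      rw [e1, Matrix.mul_add, Matrix.add_mul]
      congr 1
      · calc Uᵀ * (R' * (R' - R)) * U = Uᵀ * R' * (1 * ((R' - R) * U)) := by
              simp only [Matrix.mul_assoc, Matrix.one_mul]
          _ = _ := by
              rw [← hU']
              simp only [Matrix.mul_assoc]
      · calc Uᵀ * ((R' - R) * R) * U = Uᵀ * (R' - R) * (1 * (R * U)) := by
              simp only [Matrix.mul_assoc, Matrix.one_mul]
          _ = _ := by
              rw [← hU']
              simp only [Matrix.mul_assoc]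
    have e3 := congrFun (congrFun e2 k) k
    rw [hd, Matrix.add_apply, mul_diagonal, diagonal_mul, conj_apply, conj_apply, conj_apply] at e3
    have hcol : ∑ i, (U *ᵥ (Pi.single k (1 : ℝ))) i ^ 2 = 1 := by
      rw [mulVec_single_one]
      exact col_sq hU k
    have h4 := hl (U *ᵥ (Pi.single k (1 : ℝ)))
    have h5 := hR'.2 _ (col_ne hU k)
    have h6 := qr_abs_le (R' * R' - R * R) (U *ᵥ (Pi.single k (1 : ℝ)))
    rw [hcol, mul_one] at h4 h6
    rw [e3] at h6
    have e4 : qr R' (U *ᵥ (Pi.single k (1 : ℝ))) * l k + l k * qr R (U *ᵥ (Pi.single k (1 : ℝ))) =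
        l k * (qr R' (U *ᵥ (Pi.single k (1 : ℝ))) + qr R (U *ᵥ (Pi.single k (1 : ℝ)))) := by ring
    rw [e4, abs_mul, abs_of_pos (a := qr R' _ + qr R _) (by linarith)] at h6
    rw [le_div_iff₀ hc]
    refine le_trans ?_ h6
    exact mul_le_mul_of_nonneg_left (by linarith) (abs_nonneg _)
  have hUe : ∀ i k, |U i k| ≤ 1 := by
    intro i k
    have h1 := col_sq hU k
    have h2 := Finset.single_le_sum (f := fun i => U i k ^ 2) (fun _ _ => sq_nonneg _)
      (Finset.mem_univ i)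
    rw [h1] at h2
    exact (sq_le_one_iff_abs_le_one _).1 h2
  have hrec := recover hU hd
  rw [Matrix.norm_le_iff (by positivity)]
  intro i j
  have h1 : (R' - R) i j = ∑ k, U i k * l k * U j k := by
    conv_lhs => rw [hrec]
    rw [Matrix.mul_apply]
    refine Finset.sum_congr rfl fun k _ => ?_
    rw [mul_diagonal, transpose_apply]
  rw [h1, Real.norm_eq_abs]
  refine (Finset.abs_sum_le_sum_abs _ _).trans ?_
  calc ∑ k, |U i k * l k * U j k| ≤ ∑ _k : Fin d, d * ‖R' * R' - R * R‖ / c := by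
        refine Finset.sum_le_sum fun k _ => ?_
        rw [abs_mul, abs_mul]
        have h2 : |U i k| * |l k| ≤ 1 * (d * ‖R' * R' - R * R‖ / c) :=
          mul_le_mul (hUe i k) (hlb k) (abs_nonneg _) zero_le_one
        calc |U i k| * |l k| * |U j k| ≤ (1 * (d * ‖R' * R' - R * R‖ / c)) * 1 :=
              mul_le_mul h2 (hUe j k) (abs_nonneg _) (by positivity)
          _ = _ := by ring
    _ = _ := by
        simp only [Finset.sum_const, Finset.card_univ, Fintype.card_fin, nsmul_eq_mul]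
        ring

end RootAux

/-- A positive definite square root, Lipschitz near every positive definite form.

Proof. Existence: the square root of a positive semidefinite matrix (symmetric, `R * R = Q`,
so `gram R = Q`). Lipschitz bound: for symmetric `R, R'` with `v·Rv ≥ c|v|²`, `v·R'v ≥ 0` and `u` a
unit eigenvector of the symmetric matrix `R - R'` with eigenvalue `μ` of maximal modulus,
`u·(R² - R'²)u = μ (u·R u + u·R' u)`. -/
theorem exists_root (A : Mx d) (hA : PD A) : ∃ R : Mx d → Mx d,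
    (∀ Q, PD Q → PD (R Q) ∧ gram (R Q) = Q) ∧
    ∃ C : ℝ, ∃ r > 0, ∀ Q, PD Q → ‖Q - A‖ ≤ r → ‖R Q - R A‖ ≤ C * ‖Q - A‖ := by
  classical
  choose! R hR using fun (Q : Mx d) (hQ : PD Q) => RootAux.exists_sqrt hQ
  refine ⟨R, fun Q hQ => ⟨(hR Q hQ).1, ?_⟩, ?_⟩
  · unfold gram
    rw [(hR Q hQ).1.1.eq]
    exact (hR Q hQ).2
  · obtain ⟨c, hc, hl⟩ := (hR A hA).1.lower
    refine ⟨d ^ 2 / c, 1, one_pos, fun Q hQ _ => ?_⟩
    have h1 := RootAux.sqrt_lip (hR A hA).1 (hR Q hQ).1 hc hl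
    rw [(hR Q hQ).2, (hR A hA).2] at h1
    exact h1

end Pool.Agent.Lib.EpZ
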