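import Pool.Agent.Lib.EpZ.Exist
import Pool.Agent.Lib.EpZ.Cmp

/-!
# Existence of global minima

Proof. Let `E₀ = En s 1`. By scaling (`En_smul`, `F_smul`) only forms with `F s Q = 1` matter; all
their values at nonzero integer vectors are `≥ 1` (`one_le_of_F`). By `reduction` and invariance
(`Eqv.F`, `Eqv.det`) we may assume `c ∑ Q i i * x_i² ≤ Q[x]` for integer `x`, hence for real `x`
(rational approximation; or: `Q - c • diagonal (Q i i)` is positive semidefinite), so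
`det Q ≥ c^d ∏ Q i i ≥ c^d Q i i` for every `i`, since all `Q i i ≥ 1`. So if
`En s Q = (det Q)^(s/d) ≤ E₀` then `Q i i ≤ R`. The set `{Q symmetric | Low c Q, Q i i ≤ R}` is
compact and consists of positive definite forms (as in `isCompact_KK`), `En s` is continuous on it
(`continuousAt_En`), so it attains its minimum there.
-/

open Matrix Filter Topology
open scoped Matrix.Norms.Elementwise

namespace Pool.Agent.Lib.EpZ

variable {d : ℕ}

namespace GlobAux

lemma qr_diagonal' (a v : Fin d → ℝ) : qr (diagonal a) v = ∑ i, a i * v i ^ 2 := by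
  unfold qr
  simp only [dotProduct, mulVec_diagonal]
  exact Finset.sum_congr rfl fun i _ => by ring

lemma qf_diagonal' (a : Fin d → ℝ) (x : Fin d → ℤ) :
    qf (diagonal a) x = ∑ i, a i * (x i : ℝ) ^ 2 := qr_diagonal' a (rv x)

/-- weighted lower bound for the determinant -/
lemma det_lower {c : ℝ} {Q : Mx d} (hQ : Q.IsSymm) (a : Fin d → ℝ)
    (ha : ∀ i, 0 < a i) (hc : 0 < c) (h : ∀ v : Fin d → ℝ, c * ∑ i, a i * v i ^ 2 ≤ qr Q v) :
    c ^ d * ∏ i, a i ≤ Q.det := by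
  set S : Mx d := diagonal (fun i => (Real.sqrt (a i))⁻¹) with hS
  have hST : Sᵀ = S := by rw [hS, diagonal_transpose]
  set M : Mx d := S * Q * S with hM
  have hMs : M.IsHermitian := by
    unfold Matrix.IsHermitian
    rw [conjTranspose_eq_transpose_of_trivial, hM, transpose_mul, transpose_mul, hST, hQ.eq,
      Matrix.mul_assoc]
  have hqr : ∀ v : Fin d → ℝ, c * ∑ i, v i ^ 2 ≤ qr M v := by
    intro v
    have h1 : qr M v = qr Q (S *ᵥ v) := by
      have := SimAux.qr_conj Q S v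
      rw [hST] at this
      exact this
    rw [h1]
    refine le_trans (le_of_eq ?_) (h (S *ᵥ v))
    congr 1
    refine Finset.sum_congr rfl fun i _ => ?_
    rw [hS, mulVec_diagonal]
    have h2 := Real.sq_sqrt (ha i).le
    have h3 : Real.sqrt (a i) ≠ 0 := (Real.sqrt_pos.2 (ha i)).ne'
    rw [mul_pow, inv_pow, h2]
    field_simp [(ha i).ne']
  have hev : ∀ i, c ≤ hMs.eigenvalues i := by
    intro i
    have h1 := hMs.eigenvalues_eq i
    have h2 := hqr (hMs.eigenvectorBasis i : EuclideanSpace ℝ (Fin d))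
    have h3 : ∑ j, (hMs.eigenvectorBasis i : EuclideanSpace ℝ (Fin d)) j ^ 2 = 1 := by
      have h4 := hMs.eigenvectorBasis.orthonormal.1 i
      have h5 := EuclideanSpace.norm_sq_eq (hMs.eigenvectorBasis i)
      rw [h4] at h5
      simp only [Real.norm_eq_abs, sq_abs] at h5
      rw [← h5]
      norm_num
    rw [h3, mul_one] at h2
    rw [h1]
    refine h2.trans (le_of_eq ?_)
    unfold qr
    simp
  have hdet : c ^ d ≤ M.det := by
    rw [hMs.det_eq_prod_eigenvalues]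
    calc c ^ d = ∏ _i : Fin d, c := by simp
      _ ≤ ∏ i, hMs.eigenvalues i := Finset.prod_le_prod (fun _ _ => hc.le) fun i _ => hev i
      _ = _ := by simp
  have hdM : M.det = (∏ i, a i)⁻¹ * Q.det := by
    rw [hM, det_mul, det_mul, hS, det_diagonal]
    have h6 : (∏ i, (Real.sqrt (a i))⁻¹) * (∏ i, (Real.sqrt (a i))⁻¹) = (∏ i, a i)⁻¹ := by
      rw [← Finset.prod_mul_distrib, ← Finset.prod_inv_distrib]
      refine Finset.prod_congr rfl fun i _ => ?_
      rw [← mul_inv, Real.mul_self_sqrt (ha i).le]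
    calc (∏ i, (Real.sqrt (a i))⁻¹) * Q.det * (∏ i, (Real.sqrt (a i))⁻¹) =
        ((∏ i, (Real.sqrt (a i))⁻¹) * (∏ i, (Real.sqrt (a i))⁻¹)) * Q.det := by ring
      _ = (∏ i, a i)⁻¹ * Q.det := by rw [h6]
  have hp : 0 < ∏ i, a i := Finset.prod_pos fun i _ => ha i
  rw [hdM] at hdet
  have := mul_le_mul_of_nonneg_right hdet hp.le
  calc c ^ d * ∏ i, a i ≤ (∏ i, a i)⁻¹ * Q.det * ∏ i, a i := this
    _ = Q.det := by field_simp

lemma pd_one : PD (1 : Mx d) := pd_of_posDef Matrix.PosDef.one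

lemma single_ne (i : Fin d) : (Pi.single i 1 : Fin d → ℤ) ≠ 0 := by
  intro h
  have := congrFun h i
  simp at this

/-- normalised reduced representative -/
lemma exists_repr (hd : d ≠ 0) {s : ℝ} (hs : (d : ℝ) / 2 < s) : ∃ c > 0, ∀ E₀ : ℝ,
    ∀ Q : Mx d, PD Q → En s Q ≤ E₀ → ∃ Q' : Mx d, Q'.IsSymm ∧ Low c Q' ∧
      (∀ i, Q' i i ≤ (c ^ d)⁻¹ * E₀ ^ (d / s)) ∧ En s Q' = En s Q := by
  obtain ⟨c, hc, hred⟩ := reduction d
  have hs0 : 0 < s := by
    have : (0 : ℝ) ≤ d := Nat.cast_nonneg d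
    linarith
  have hdpos : (0 : ℝ) < d := Nat.cast_pos.2 (Nat.pos_of_ne_zero hd)
  refine ⟨c, hc, fun E₀ Q hQ hE => ?_⟩
  -- normalisation
  have hFpos : 0 < F s Q := F_pos hd hQ hs
  set l : ℝ := F s Q ^ (1 / s) with hl'
  have hl0 : 0 < l := Real.rpow_pos_of_pos hFpos _
  have hls : l ^ s = F s Q := by
    rw [hl', ← Real.rpow_mul hFpos.le, one_div, inv_mul_cancel₀ hs0.ne', Real.rpow_one]
  have hPQ : PD (l • Q) := hQ.smul hl0
  have hF1 : F s (l • Q) = 1 := by
    rw [F_smul hQ hl0, Real.rpow_neg hl0.le, hls, inv_mul_cancel₀ hFpos.ne']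
  have hEl : En s (l • Q) = En s Q := En_smul hd hQ hl0 s
  -- reduction
  obtain ⟨U, hU, hUx⟩ := hred (l • Q) hPQ
  set Q' : Mx d := act U (l • Q) with hQ'
  have heqv : Eqv (l • Q) Q' := ⟨U, hU, rfl⟩
  have hPD' : PD Q' := heqv.pd hPQ
  have hF' : F s Q' = 1 := by rw [heqv.F s, hF1]
  have hdet' : Q'.det = (l • Q).det := heqv.det
  have hEn' : En s Q' = En s Q := by
    rw [← hEl]
    unfold En
    rw [hF', hF1, hdet']
  have hx : ∀ x : Fin d → ℤ, c * ∑ i, Q' i i * (x i : ℝ) ^ 2 ≤ qf Q' x := by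
    intro x
    rw [hQ', qf_act]
    exact hUx x
  have hdiag : ∀ i, 1 ≤ Q' i i := by
    intro i
    have := one_le_of_F hPD' hs hF' ⟨Pi.single i 1, single_ne i⟩
    rwa [cmp_qf_single] at this
  have hreal : ∀ v : Fin d → ℝ, c * ∑ i, Q' i i * v i ^ 2 ≤ qr Q' v := by
    have h0 : Low 0 (Q' - c • diagonal fun i => Q' i i) := by
      intro x
      rw [zero_mul, qf_sub, qf_smul, qf_diagonal']
      linarith [hx x]
    intro v
    have h1 := h0.real v
    rw [zero_mul, qr_sub, qr_smul, qr_diagonal'] at h1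
    linarith
  have hdet : c ^ d * ∏ i, Q' i i ≤ Q'.det :=
    det_lower hPD'.1 _ (fun i => lt_of_lt_of_le one_pos (hdiag i)) hc hreal
  refine ⟨Q', hPD'.1, fun x => ?_, fun i => ?_, hEn'⟩
  · refine le_trans ?_ (hx x)
    refine mul_le_mul_of_nonneg_left (Finset.sum_le_sum fun i _ => ?_) hc.le
    have h1 := hdiag i
    nlinarith [sq_nonneg (x i : ℝ)]
  · have h1 : Q' i i ≤ ∏ j, Q' j j := by
      rw [← Finset.mul_prod_erase Finset.univ _ (Finset.mem_univ i)]
      have h2 : 1 ≤ ∏ j ∈ Finset.univ.erase i, Q' j j := by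
        calc (1 : ℝ) = ∏ _j ∈ Finset.univ.erase i, (1 : ℝ) := by simp
          _ ≤ _ := Finset.prod_le_prod (fun _ _ => zero_le_one) fun j _ => hdiag j
      have h3 := hdiag i
      nlinarith
    have h2 : En s Q' = Q'.det ^ (s / d) := by
      unfold En
      rw [hF', one_mul]
    have h3 : Q'.det ≤ E₀ ^ (d / s) := by
      have h4 : Q'.det ^ (s / d) ≤ E₀ := by
        rw [← h2, hEn']
        exact hE
      have h5 := Real.rpow_le_rpow (Real.rpow_nonneg hPD'.det_pos.le _) h4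
        (by positivity : (0 : ℝ) ≤ d / s)
      rw [← Real.rpow_mul hPD'.det_pos.le] at h5
      have h6 : s / d * (d / s) = 1 := by field_simp
      rwa [h6, Real.rpow_one] at h5
    have hcd : 0 < c ^ d := by positivity
    rw [inv_mul_eq_div, le_div_iff₀ hcd]
    calc Q' i i * c ^ d ≤ (∏ j, Q' j j) * c ^ d := mul_le_mul_of_nonneg_right h1 hcd.le
      _ = c ^ d * ∏ j, Q' j j := by ring
      _ ≤ Q'.det := hdet
      _ ≤ _ := h3

end GlobAux

open GlobAux

theorem exists_global (hd : d ≠ 0) {s : ℝ} (hs : (d : ℝ) / 2 < s) :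
    ∃ Q : Mx d, PD Q ∧ ∀ Q' : Mx d, PD Q' → En s Q ≤ En s Q' := by
  obtain ⟨c, hc, hrep⟩ := exists_repr hd hs
  set E₀ : ℝ := En s (1 : Mx d) with hE₀
  have hE0 : 0 < E₀ := by
    rw [hE₀]
    unfold En
    exact mul_pos (F_pos hd pd_one hs) (Real.rpow_pos_of_pos pd_one.det_pos _)
  set R : ℝ := (c ^ d)⁻¹ * E₀ ^ (d / s) with hR
  have hRpos : 0 < R := mul_pos (by positivity) (Real.rpow_pos_of_pos hE0 _)
  set c' : ℝ := min c (2 / R) with hc'
  have hc'pos : 0 < c' := lt_min hc (by positivity)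
  have hmem : ∀ Q : Mx d, PD Q → En s Q ≤ E₀ → ∃ Q' ∈ KK d c', En s Q' = En s Q := by
    intro Q hQ hE
    obtain ⟨Q', hs', hlow, hdiag, hEn⟩ := hrep E₀ Q hQ hE
    refine ⟨Q', ⟨hs', fun x => ?_, fun i => ?_⟩, hEn⟩
    · exact (mul_le_mul_of_nonneg_right (min_le_left _ _) (nn_nonneg x)).trans (hlow x)
    · refine (hdiag i).trans ?_
      rw [le_div_iff₀ hc'pos]
      calc R * c' ≤ R * (2 / R) := mul_le_mul_of_nonneg_left (min_le_right _ _) hRpos.le
        _ = 2 := by field_simp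
  obtain ⟨Q₁, hQ₁, hE₁⟩ := hmem 1 pd_one le_rfl
  obtain ⟨Q, hQ, hmin⟩ := (isCompact_KK (d := d) hc'pos).exists_isMinOn (f := En s) ⟨Q₁, hQ₁⟩
    (fun Q hQ => (continuousAt_En hs (KK_pd hc'pos hQ)).continuousWithinAt)
  refine ⟨Q, KK_pd hc'pos hQ, fun Q' hQ' => ?_⟩
  by_cases h : En s Q' ≤ E₀
  · obtain ⟨Q'', hQ'', hE''⟩ := hmem Q' hQ' h
    rw [← hE'']
    exact hmin hQ''
  · have h1 : En s Q ≤ En s Q₁ := hmin hQ₁
    linarith

end Pool.Agent.Lib.EpZ
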