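import Pool.Agent.Lib.EpZ.Gram
import Pool.Agent.Lib.EpZ.Glob

/-!
# Global minima for large `s`, for forms
-/

open Matrix Filter Topology
open scoped Matrix.Norms.Elementwise

namespace Pool.Agent.Lib.EpZ

variable {d : ℕ}

/-- scaling to `F s Q = 1` -/
lemma exists_scale_F (hd : d ≠ 0) {Q : Mx d} (hQ : PD Q) {s : ℝ} (hs : (d : ℝ) / 2 < s) :
    ∃ l : ℝ, 0 < l ∧ F s (l • Q) = 1 := by
  have hs0 : 0 < s := by
    have : (0 : ℝ) ≤ d := Nat.cast_nonneg d
    linarith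
  have hF := F_pos hd hQ hs
  refine ⟨F s Q ^ (1 / s), Real.rpow_pos_of_pos hF _, ?_⟩
  rw [F_smul hQ (Real.rpow_pos_of_pos hF _), ← Real.rpow_mul hF.le]
  have : 1 / s * -s = -1 := by field_simp
  rw [this, Real.rpow_neg_one, inv_mul_cancel₀ hF.ne']

/-- a global minimum is a local minimum -/
lemma locMin_of_global {Q : Mx d} {s : ℝ} (h : ∀ Q' : Mx d, PD Q' → En s Q ≤ En s Q') :
    LocMin s Q := ⟨1, one_pos, fun Q' hQ' _ => h Q' hQ'⟩

lemma En_eqv {Q Q' : Mx d} (h : Eqv Q Q') (s : ℝ) : En s Q' = En s Q := by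
  unfold En
  rw [h.F, h.det]

/-- the density theorem for the best class -/
theorem densest_of_best (hd : d ≠ 0) {N : ℕ} {A : Fin N → Mx d} (hA : ∀ i, Ext (A i))
    (hrep : ∀ A', Ext A' → ∃! i, Eqv A' (A i)) {Q : Fin N → ℝ → Mx d} {C : Fin N → ℝ}
    (hQ : ∀ i, ∀ᶠ s in atTop, (d : ℝ) / 2 + 1 ≤ s ∧ PD (Q i s) ∧ F s (Q i s) = 1 ∧
      LocMin s (Q i s) ∧ ‖Q i s - A i‖ ≤ C i / s)
    {i : Fin N} (hi : ∀ j, (A i).det ≤ (A j).det) {Q' : Mx d} (hQ' : PD Q')
    (h1 : ∀ x : NZ d, 1 ≤ qf Q' x.1) : (A i).det ≤ Q'.det := by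
  by_contra hlt
  push Not at hlt
  have hdpos : (0 : ℝ) < d := by exact_mod_cast Nat.pos_of_ne_zero hd
  set D := (A i).det with hD
  have hD0 : 0 < D := (hA i).1.det_pos
  have hD' : 0 < Q'.det := hQ'.det_pos
  -- lower bound of the energies of the families
  have hlow : ∀ᶠ s : ℝ in atTop, ∀ j, 1 / 2 * D ^ (s / (d : ℝ)) ≤ En s (Q j s) := by
    refine Filter.eventually_all.mpr fun j => ?_
    obtain ⟨h, hh1, hh2⟩ := family_entropy hd (hA j) (hQ j)
    have hh0 : 0 ≤ h := by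
      obtain ⟨ρ, hρ, rfl⟩ := hh1.1
      refine tsum_nonneg fun x => Real.negMulLog_nonneg (hρ.1 x) ?_
      have hsum := hρ.2.2 (A j) (hA j).1.1
      have hdet : IsUnit (A j).det := (hA j).1.det_pos.ne'.isUnit
      rw [Matrix.nonsing_inv_mul _ hdet, Matrix.trace_one, Fintype.card_fin,
        div_self hdpos.ne'] at hsum
      by_cases hx : x ∈ minSet (A j)
      · have hfin := finite_minSet (hA j).1
        have hsupp : ∀ y, y ∉ hfin.toFinset → ρ y * qf (A j) y.1 = 0 := by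
          intro y hy
          rw [hρ.2.1 y (fun hy' => hy (hfin.mem_toFinset.mpr hy')), zero_mul]
        rw [tsum_eq_sum hsupp] at hsum
        have h2 : ρ x * qf (A j) x.1 ≤ 1 := by
          rw [← hsum]
          exact Finset.single_le_sum (f := fun y => ρ y * qf (A j) y.1)
            (fun y _ => mul_nonneg (hρ.1 y) ((hA j).1.pos y).le) (hfin.mem_toFinset.mpr hx)
        have h3 : qf (A j) x.1 = 1 := hx
        rwa [h3, mul_one] at h2
      · rw [hρ.2.1 x hx]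
        exact zero_le_one
    have h3 : (1 : ℝ) / 2 < Real.exp h := by
      have := Real.one_le_exp hh0
      linarith
    filter_upwards [hh2.eventually (lt_mem_nhds h3), hQ j, eventually_ge_atTop (0 : ℝ)] with s k1 k2 k3
    rw [En_eq_of_F k2.2.2.1]
    have hj0 : 0 < (A j).det := (hA j).1.det_pos
    rw [Real.div_rpow k2.2.1.det_pos.le hj0.le, lt_div_iff₀ (Real.rpow_pos_of_pos hj0 _)] at k1
    have h4 : D ^ (s / d) ≤ (A j).det ^ (s / d) :=
      Real.rpow_le_rpow hD0.le (hi j) (by positivity)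
    linarith
  -- upper bound of the energy of `Q'`
  set s₁ : ℝ := (d : ℝ) / 2 + 1 with hs₁
  have hup : ∀ s, s₁ ≤ s → En s Q' ≤ F s₁ Q' * Q'.det ^ (s / d) := by
    intro s hs
    refine mul_le_mul_of_nonneg_right ?_ (Real.rpow_nonneg hD'.le _)
    refine (hQ'.summable (by linarith)).tsum_le_tsum (fun x => ?_) (hQ'.summable (by linarith))
    exact Real.rpow_le_rpow_of_exponent_le (h1 x) (by linarith)
  have hratio : Tendsto (fun s : ℝ => (D / Q'.det) ^ (s / d)) atTop atTop := by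
    have h2 : 1 < D / Q'.det := by rwa [one_lt_div hD']
    exact (tendsto_rpow_atTop_of_base_gt_one _ h2).comp (tendsto_id.atTop_div_const hdpos)
  have hsurj := family_surj hd hA hrep hQ
  obtain ⟨s, k1, k2, k3, k4⟩ := (hlow.and ((eventually_ge_atTop s₁).and
    ((hratio.eventually_gt_atTop (2 * F s₁ Q')).and hsurj))).exists
  have hs : (d : ℝ) / 2 < s := by linarith
  obtain ⟨G, hG, hGmin⟩ := exists_global hd hs
  obtain ⟨l, hl, hlF⟩ := exists_scale_F hd hG hs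
  have hGl : LocMin s (l • G) := (locMin_of_global hGmin).smul hd hG hl
  obtain ⟨j, hj⟩ := k4 _ (hG.smul hl) hlF hGl
  have e1 : En s (Q j s) = En s G := by rw [En_eqv hj, En_smul hd hG hl]
  have e2 := k1 j
  have e3 := hup s k2
  have e4 := hGmin Q' hQ'
  rw [Real.div_rpow hD0.le hD'.le, lt_div_iff₀ (Real.rpow_pos_of_pos hD' _)] at k3
  linarith

/-- the global minima for large `s` -/
theorem global_large (hd : d ≠ 0) {N : ℕ} {A : Fin N → Mx d} (hA : ∀ i, Ext (A i))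
    (hrep : ∀ A', Ext A' → ∃! i, Eqv A' (A i)) {Q : Fin N → ℝ → Mx d} {C : Fin N → ℝ}
    (hQ : ∀ i, ∀ᶠ s in atTop, (d : ℝ) / 2 + 1 ≤ s ∧ PD (Q i s) ∧ F s (Q i s) = 1 ∧
      LocMin s (Q i s) ∧ ‖Q i s - A i‖ ≤ C i / s) {h : Fin N → ℝ}
    (hh : ∀ i, Tendsto (fun s => ((Q i s).det / (A i).det) ^ (s / d)) atTop
      (𝓝 (Real.exp (h i)))) :
    ∀ᶠ s : ℝ in atTop, ∀ G : Mx d, PD G → (∀ Q' : Mx d, PD Q' → En s G ≤ En s Q') →
      ∃ i, ∃ l : ℝ, 0 < l ∧ Eqv (l • G) (Q i s) ∧ (∀ j, (A i).det ≤ (A j).det) ∧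
        (∀ j, (A j).det = (A i).det → h i ≤ h j) := by
  have hcmp : ∀ i j, ∀ᶠ s in atTop, ((A j).det < (A i).det ∨ (A j).det = (A i).det ∧ h j < h i) →
      (Q j s).det ^ (s / d) < (Q i s).det ^ (s / d) := by
    intro i j
    by_cases hij : (A j).det < (A i).det ∨ (A j).det = (A i).det ∧ h j < h i
    · exact (family_compare (hA j).1 (hA i).1 hd ((hQ j).mono fun s k => k.2.1)
        ((hQ i).mono fun s k => k.2.1) (hh j) (hh i) hij).mono fun s k _ => k
    · exact Eventually.of_forall fun s k => absurd k hij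
  have hcmp' : ∀ᶠ s in atTop, ∀ i j, ((A j).det < (A i).det ∨ (A j).det = (A i).det ∧ h j < h i) →
      (Q j s).det ^ (s / d) < (Q i s).det ^ (s / d) :=
    Filter.eventually_all.mpr fun i => Filter.eventually_all.mpr fun j => hcmp i j
  filter_upwards [hcmp', family_surj hd hA hrep hQ, Filter.eventually_all.mpr hQ,
    eventually_gt_atTop ((d : ℝ) / 2)] with s k1 k2 k3 k4 G hG hGmin
  obtain ⟨l, hl, hlF⟩ := exists_scale_F hd hG k4
  obtain ⟨i, hi⟩ := k2 _ (hG.smul hl) hlF ((locMin_of_global hGmin).smul hd hG hl)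
  have hno : ∀ j, ¬ ((A j).det < (A i).det ∨ (A j).det = (A i).det ∧ h j < h i) := by
    intro j hj
    have e1 := k1 i j hj
    have e2 := hGmin _ (k3 j).2.1
    have e3 : En s (Q i s) = En s G := by rw [En_eqv hi, En_smul hd hG hl]
    rw [← En_eq_of_F (k3 j).2.2.1, ← En_eq_of_F (k3 i).2.2.1] at e1
    linarith
  refine ⟨i, l, hl, hi, fun j => ?_, fun j hj => ?_⟩
  · by_contra hcon
    exact hno j (Or.inl (not_le.mp hcon))
  · by_contra hcon
    exact hno j (Or.inr ⟨hj, not_le.mp hcon⟩)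

end Pool.Agent.Lib.EpZ
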