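import Pool.Agent.Lib.EpZ.Sim

/-!
# Voronoi's theorem: locally densest is the same as extreme (dual form)

`ext_growth`: the cone `{H symmetric | H[x] ≥ 0 on minSet A}` meets the unit sphere in a compact set
(finitely many closed conditions, `finite_minSet`), on which `tr (A⁻¹ H) > 0` by `Ext`; so
`tr (A⁻¹ H) ≥ κ₀ ‖H‖` on the cone, and `logdet_lower` gives the claim with `κ = κ₀ / 2`.

`ext_iff`, `→`: `ext_growth` (`det` is positive, compare logarithms). `←`: if `H ≠ 0` is symmetric,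
`≥ 0` on the minimal vectors and `tr (A⁻¹ H) ≤ 0`, then for small `t > 0` the form `A + t H` has all
values `≥ 1` (`near_data` off `minSet A`) and by `logdet_upper`, `trace_sq_pos` a smaller
determinant.
-/

open Matrix Filter Topology
open scoped Matrix.Norms.Elementwise

namespace Pool.Agent.Lib.EpZ

variable {d : ℕ}

namespace VorAux

lemma continuous_qf (x : Fin d → ℤ) : Continuous fun H : Mx d => qf H x := by
  unfold qf qr
  fun_prop

/-- the trace grows linearly on the cone of the admissible directions -/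
lemma trace_growth {A : Mx d} (hA : Ext A) : ∃ κ > 0, ∀ H : Mx d, H.IsSymm →
    (∀ x : NZ d, x ∈ minSet A → 0 ≤ qf H x.1) → κ * ‖H‖ ≤ (A⁻¹ * H).trace := by
  obtain ⟨hPD, h1, h2⟩ := hA
  set K : Set (Mx d) := {H | H.IsSymm} ∩ {H | ∀ x : NZ d, x ∈ minSet A → 0 ≤ qf H x.1} ∩
    Metric.sphere (0 : Mx d) 1 with hK
  haveI : ProperSpace (Mx d) := FiniteDimensional.proper ℝ (Mx d)
  have hcl : IsClosed ({H | H.IsSymm} ∩ {H : Mx d | ∀ x : NZ d, x ∈ minSet A → 0 ≤ qf H x.1}) := by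
    refine IsClosed.inter ?_ ?_
    · have : {H : Mx d | H.IsSymm} = {H : Mx d | Hᵀ = H} := rfl
      rw [this]
      exact isClosed_eq (by fun_prop) continuous_id
    · have : {H : Mx d | ∀ x : NZ d, x ∈ minSet A → 0 ≤ qf H x.1} =
          ⋂ x : NZ d, ⋂ _ : x ∈ minSet A, {H : Mx d | 0 ≤ qf H x.1} := by
        ext H
        simp
      rw [this]
      exact isClosed_iInter fun x => isClosed_iInter fun _ =>
        isClosed_le continuous_const (continuous_qf x.1)
  have hcomp : IsCompact K := (isCompact_sphere (0 : Mx d) 1).inter_left hcl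
  have htr : Continuous fun H : Mx d => (A⁻¹ * H).trace := by
    fun_prop
  have hpos : ∀ H ∈ K, 0 < (A⁻¹ * H).trace := by
    rintro H ⟨⟨hs, hm⟩, hn⟩
    by_contra hcon
    push Not at hcon
    have h0 := h2 H hs (fun x hx => hm x hx) hcon
    rw [h0] at hn
    simp at hn
  obtain ⟨κ, hκ, hmin⟩ : ∃ κ > 0, ∀ H ∈ K, κ ≤ (A⁻¹ * H).trace := by
    rcases K.eq_empty_or_nonempty with he | hne
    · exact ⟨1, one_pos, fun H hH => by rw [he] at hH; exact absurd hH (Set.notMem_empty _)⟩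
    · obtain ⟨w, hw, hmin⟩ := hcomp.exists_isMinOn hne htr.continuousOn
      exact ⟨_, hpos w hw, fun H hH => hmin hH⟩
  refine ⟨κ, hκ, fun H hs hm => ?_⟩
  rcases eq_or_ne H 0 with rfl | h0
  · simp
  have hn : 0 < ‖H‖ := norm_pos_iff.mpr h0
  have hmem : ‖H‖⁻¹ • H ∈ K := by
    refine ⟨⟨?_, ?_⟩, ?_⟩
    · exact hs.smul _
    · intro x hx
      rw [qf_smul]
      exact mul_nonneg (inv_nonneg.2 hn.le) (hm x hx)
    · rw [mem_sphere_zero_iff_norm, norm_smul, norm_inv, norm_norm, inv_mul_cancel₀ hn.ne']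
  have h3 := hmin _ hmem
  rw [mul_smul_comm, trace_smul, smul_eq_mul, inv_mul_eq_div, le_div_iff₀ hn] at h3
  exact h3

end VorAux

theorem ext_growth {A : Mx d} (hA : Ext A) : ∃ r > 0, ∃ κ > 0, ∀ Q : Mx d, Q.IsSymm →
    ‖Q - A‖ ≤ r → (∀ x : NZ d, x ∈ minSet A → 1 ≤ qf Q x.1) →
    PD Q ∧ Real.log A.det + κ * ‖Q - A‖ ≤ Real.log Q.det := by
  obtain ⟨κ, hκ, hgr⟩ := VorAux.trace_growth hA
  obtain ⟨r₁, hr₁, C, hC⟩ := logdet_lower hA.1
  obtain ⟨r₂, hr₂, hpd⟩ := pd_near hA.1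
  refine ⟨min (min r₁ r₂) (κ / (2 * (|C| + 1))), lt_min (lt_min hr₁ hr₂) (by positivity), κ / 2,
    by positivity, fun Q hQ hn hx => ?_⟩
  have hn1 : ‖Q - A‖ ≤ r₁ := hn.trans ((min_le_left _ _).trans (min_le_left _ _))
  have hn2 : ‖Q - A‖ ≤ r₂ := hn.trans ((min_le_left _ _).trans (min_le_right _ _))
  have hn3 : ‖Q - A‖ ≤ κ / (2 * (|C| + 1)) := hn.trans (min_le_right _ _)
  refine ⟨hpd Q hQ hn2, ?_⟩
  have hs : (Q - A).IsSymm := hQ.sub hA.1.1
  have h1 := hC (Q - A) hs hn1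
  rw [add_sub_cancel] at h1
  have h2 := hgr (Q - A) hs (fun x hx' => by
    rw [qf_sub]
    have h3 : qf A x.1 = 1 := hx'
    have := hx x hx'
    linarith)
  have h4 : C * ‖Q - A‖ ^ 2 ≤ κ / 2 * ‖Q - A‖ := by
    have h5 : C * ‖Q - A‖ ≤ κ / 2 := by
      calc C * ‖Q - A‖ ≤ (|C| + 1) * ‖Q - A‖ := by
            refine mul_le_mul_of_nonneg_right ?_ (norm_nonneg _)
            linarith [le_abs_self C]
        _ ≤ (|C| + 1) * (κ / (2 * (|C| + 1))) := mul_le_mul_of_nonneg_left hn3 (by positivity)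
        _ = κ / 2 := by field_simp
    calc C * ‖Q - A‖ ^ 2 = C * ‖Q - A‖ * ‖Q - A‖ := by ring
      _ ≤ κ / 2 * ‖Q - A‖ := mul_le_mul_of_nonneg_right h5 (norm_nonneg _)
  linarith

/-- `A` has locally minimal determinant among the forms with all values at least one -/
def LocDens (A : Mx d) : Prop :=
  ∃ ε > 0, ∀ Q : Mx d, PD Q → ‖Q - A‖ < ε → (∀ x : NZ d, 1 ≤ qf Q x.1) → A.det ≤ Q.det

theorem ext_iff {A : Mx d} :
    Ext A ↔ PD A ∧ (∀ x : NZ d, 1 ≤ qf A x.1) ∧ LocDens A := by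
  constructor
  · intro hA
    obtain ⟨r, hr, κ, hκ, hgr⟩ := ext_growth hA
    refine ⟨hA.1, hA.2.1, r, hr, fun Q hQ hn hx => ?_⟩
    obtain ⟨-, h1⟩ := hgr Q hQ.1 hn.le (fun x _ => hx x)
    have h2 : 0 ≤ κ * ‖Q - A‖ := by positivity
    exact (Real.log_le_log_iff hA.1.det_pos hQ.det_pos).1 (by linarith)
  · rintro ⟨hPD, h1, ε, hε, hloc⟩
    refine ⟨hPD, h1, fun H hs hm htr => ?_⟩
    by_contra h0
    obtain ⟨c, hc, δ, hδ, r, hr, hnear⟩ := near_data hPD h1
    obtain ⟨t₀, ht₀, hup⟩ := logdet_upper hPD hs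
    obtain ⟨r₂, hr₂, hpd⟩ := pd_near hPD
    have hsq := trace_sq_pos hPD hs h0
    have hn : 0 < ‖H‖ := norm_pos_iff.mpr h0
    set t : ℝ := min t₀ (min (min r r₂) (ε / 2) / ‖H‖) with ht
    have htpos : 0 < t := lt_min ht₀ (div_pos (lt_min (lt_min hr hr₂) (by positivity)) hn)
    have htH : t * ‖H‖ ≤ min (min r r₂) (ε / 2) := by
      rw [← le_div_iff₀ hn]
      exact min_le_right _ _
    have hnorm : ‖(A + t • H) - A‖ = t * ‖H‖ := by
      rw [add_sub_cancel_left, norm_smul, Real.norm_eq_abs, abs_of_pos htpos]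
    have hsym : (A + t • H).IsSymm := hPD.1.add (hs.smul t)
    have hPQ : PD (A + t • H) := hpd _ hsym (by
      rw [hnorm]
      exact htH.trans ((min_le_left _ _).trans (min_le_right _ _)))
    obtain ⟨-, -, hgap⟩ := hnear (A + t • H) (by
      rw [hnorm]
      exact htH.trans ((min_le_left _ _).trans (min_le_left _ _)))
    have hval : ∀ x : NZ d, 1 ≤ qf (A + t • H) x.1 := by
      intro x
      by_cases hx : x ∈ minSet A
      · have h3 : qf A x.1 = 1 := hx
        have h4 := hm x h3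
        rw [qf_add, qf_smul, h3]
        have := mul_nonneg htpos.le h4
        linarith
      · linarith [hgap x hx]
    have h5 := hloc (A + t • H) hPQ (by
      rw [hnorm]
      refine lt_of_le_of_lt (htH.trans (min_le_right _ _)) (by linarith)) hval
    have h6 := (Real.log_le_log_iff hPD.det_pos hPQ.det_pos).2 h5
    have h7 := hup t (by rw [abs_of_pos htpos]; exact min_le_left _ _)
    have h8 : t * (A⁻¹ * H).trace ≤ 0 := mul_nonpos_of_nonneg_of_nonpos htpos.le htr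
    have h9 : 0 < t ^ 2 / 3 * (A⁻¹ * H * (A⁻¹ * H)).trace := by positivity
    linarith

/-- an extreme form has a minimal vector (dimension at least one) -/
theorem Ext.nonempty (hd : d ≠ 0) {A : Mx d} (hA : Ext A) : ∃ x : NZ d, qf A x.1 = 1 := by
  by_contra hcon
  push Not at hcon
  have hdet : IsUnit A.det := hA.1.det_pos.ne'.isUnit
  have h1 := hA.2.2 (-A) hA.1.1.neg (fun x hx => absurd hx (hcon x)) (by
    rw [mul_neg, Matrix.nonsing_inv_mul _ hdet, trace_neg, trace_one]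
    simp)
  have i : Fin d := ⟨0, Nat.pos_of_ne_zero hd⟩
  have hx : (Pi.single i 1 : Fin d → ℤ) ≠ 0 := by
    intro h
    have := congrFun h i
    simp at this
  have h2 := hA.2.1 ⟨_, hx⟩
  have h3 : A = 0 := neg_eq_zero.1 h1
  rw [h3] at h2
  simp [qf, qr] at h2
  linarith

end Pool.Agent.Lib.EpZ
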