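import Pool.Agent.Lib.EpZ.LatB
import Pool.Agent.Lib.EpZ.Vor

/-!
# Voronoi's theorem for lattices
-/

open Matrix Filter Topology
open scoped Matrix.Norms.Elementwise

namespace Pool.Agent.Lib.EpZ

variable {d : ℕ}

namespace LatCAux

lemma act_smul (U : Matrix (Fin d) (Fin d) ℤ) (c : ℝ) (Q : Mx d) :
    act U (c • Q) = c • act U Q := by
  unfold act
  rw [Matrix.mul_smul, Matrix.smul_mul]

lemma eqv_smul {Q Q' : Mx d} (h : Eqv Q Q') (c : ℝ) : Eqv (c • Q) (c • Q') := by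
  obtain ⟨U, hU, hE⟩ := h
  exact ⟨U, hU, by rw [act_smul, hE]⟩

lemma det_gram (B : Mx d) : (gram B).det = B.det ^ 2 := by
  unfold gram
  rw [det_mul, det_transpose]
  ring

lemma det_gram_one {B : Mx d} (hB : |B.det| = 1) : (gram B).det = 1 := by
  rw [det_gram, ← sq_abs, hB, one_pow]

lemma abs_det_of_gram {B : Mx d} (h : (gram B).det = 1) : |B.det| = 1 := by
  rw [det_gram, ← sq_abs] at h
  have h0 := abs_nonneg B.det
  nlinarith

lemma det_ne {B : Mx d} (hB : |B.det| = 1) : B.det ≠ 0 := by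
  intro h
  rw [h, abs_zero] at hB
  exact zero_ne_one hB

lemma continuous_gram : Continuous (gram : Mx d → Mx d) := by
  unfold gram
  fun_prop

/-- `gram` is continuous, in terms of the entries -/
lemma gram_near (B : Mx d) {η : ℝ} (hη : 0 < η) : ∃ ε > 0, ∀ B' : Mx d,
    (∀ i j, |B' i j - B i j| < ε) → ‖gram B' - gram B‖ < η := by
  have hc := (Metric.continuous_iff.1 (continuous_gram (d := d))) B η hη
  obtain ⟨ε, hε, h⟩ := hc
  refine ⟨ε, hε, fun B' hB' => ?_⟩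
  have h1 : dist B' B < ε := by
    rw [dist_eq_norm, Matrix.norm_lt_iff hε]
    intro i j
    simpa [Real.norm_eq_abs] using hB' i j
  have h2 := h B' h1
  rwa [dist_eq_norm] at h2

lemma det_smul' (c : ℝ) (Q : Mx d) : (c • Q).det = c ^ d * Q.det := by
  rw [Matrix.det_smul, Fintype.card_fin]

lemma mp (hd : d ≠ 0) {B : Mx d} (hB : |B.det| = 1) {ε : ℝ} (hε : 0 < ε)
    (h : ∀ B' : Mx d, |B'.det| = 1 → (∀ i j, |B' i j - B i j| < ε) →
      minLen (lat B') ≤ minLen (lat B)) :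
    Ext ((minLen (lat B) ^ 2)⁻¹ • gram B) := by
  obtain ⟨hm, hval, -⟩ := minLen_spec hd (det_ne hB)
  set m := minLen (lat B) with hmdef
  have hm2 : 0 < m ^ 2 := by positivity
  have hG : PD (gram B) := gram_pd (det_ne hB)
  have hA : PD ((m ^ 2)⁻¹ • gram B) := hG.smul (inv_pos.2 hm2)
  have hdet : ((m ^ 2)⁻¹ • gram B).det = ((m ^ 2)⁻¹) ^ d := by
    rw [det_smul', det_gram_one hB, mul_one]
  rw [ext_iff]
  refine ⟨hA, fun x => ?_, ?_⟩
  · rw [qf_smul, ← div_eq_inv_mul, le_div_iff₀ hm2, one_mul]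
    exact hval x
  · obtain ⟨r, hr, hnear⟩ := exists_near (det_ne hB) hε
    have hd' : (d : ℝ) ≠ 0 := Nat.cast_ne_zero.mpr hd
    -- the normalisation to determinant one
    have hcont : ContinuousAt (fun Q : Mx d => (Q.det ^ (-(1 / (d : ℝ)))) • Q)
        ((m ^ 2)⁻¹ • gram B) := by
      have hc0 : Continuous fun Q : Mx d => Q.det := by fun_prop
      exact (hc0.continuousAt.rpow_const (Or.inl hA.det_pos.ne')).smul continuousAt_id
    have hlam : ((m ^ 2)⁻¹ • gram B).det ^ (-(1 / (d : ℝ))) = m ^ 2 := by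
      rw [hdet, ← Real.rpow_natCast, ← Real.rpow_mul (inv_pos.2 hm2).le]
      have : (d : ℝ) * (-(1 / (d : ℝ))) = -1 := by field_simp
      rw [this, Real.rpow_neg_one, inv_inv]
    have hval0 : (((m ^ 2)⁻¹ • gram B).det ^ (-(1 / (d : ℝ)))) • ((m ^ 2)⁻¹ • gram B) =
        gram B := by
      rw [hlam, smul_smul, mul_inv_cancel₀ hm2.ne', one_smul]
    obtain ⟨η, hη, hN⟩ := Metric.continuousAt_iff.1 hcont r hr
    refine ⟨η, hη, fun Q hQ hQn hx => ?_⟩
    have hQd := hQ.det_pos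
    have h1 := hN (x := Q) (by rwa [dist_eq_norm])
    rw [hval0, dist_eq_norm] at h1
    set lam : ℝ := Q.det ^ (-(1 / (d : ℝ))) with hlamdef
    have hlampos : 0 < lam := Real.rpow_pos_of_pos hQd _
    have hlamd : lam ^ d = Q.det⁻¹ := by
      rw [hlamdef, ← Real.rpow_natCast, ← Real.rpow_mul hQd.le]
      have : (-(1 / (d : ℝ))) * (d : ℝ) = -1 := by field_simp
      rw [this, Real.rpow_neg_one]
    obtain ⟨B', hB', hent⟩ := hnear (lam • Q) (hQ.smul hlampos) h1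
    have hB'd : |B'.det| = 1 := by
      apply abs_det_of_gram
      rw [hB', det_smul', hlamd, inv_mul_cancel₀ hQd.ne']
    have h2 := h B' hB'd hent
    obtain ⟨hm', -, x, hx'⟩ := minLen_spec hd (det_ne hB'd)
    rw [hB', qf_smul] at hx'
    have h3 : lam ≤ m ^ 2 := by
      have h4 : lam * 1 ≤ lam * qf Q x.1 := mul_le_mul_of_nonneg_left (hx x) hlampos.le
      have h5 : minLen (lat B') ^ 2 ≤ m ^ 2 := pow_le_pow_left₀ hm'.le h2 2
      linarith
    have h6 : lam ^ d ≤ (m ^ 2) ^ d := pow_le_pow_left₀ hlampos.le h3 d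
    rw [hlamd] at h6
    rw [hdet, inv_pow]
    exact inv_le_of_inv_le₀ hQd h6

lemma mpr (hd : d ≠ 0) {B : Mx d} (hB : |B.det| = 1)
    (h : Ext ((minLen (lat B) ^ 2)⁻¹ • gram B)) : IsLocallyDensest (lat B) := by
  obtain ⟨hm, hval, -⟩ := minLen_spec hd (det_ne hB)
  rw [ext_iff] at h
  obtain ⟨hA, -, ε, hε, hloc⟩ := h
  refine ⟨B, hB, rfl, ?_⟩
  set m := minLen (lat B) with hmdef
  have hm2 : 0 < m ^ 2 := by positivity
  have hdet : ((m ^ 2)⁻¹ • gram B).det = ((m ^ 2)⁻¹) ^ d := by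
    rw [det_smul', det_gram_one hB, mul_one]
  obtain ⟨ε', hε', hg⟩ := gram_near B (η := m ^ 2 * (ε / 2)) (by positivity)
  refine ⟨ε', hε', fun B' hB' hent => ?_⟩
  by_contra hlt
  push Not at hlt
  obtain ⟨hm', hval', -⟩ := minLen_spec hd (det_ne hB')
  set m' := minLen (lat B') with hmdef'
  have hmm : m ^ 2 < m' ^ 2 := by nlinarith
  have hm2' : 0 < m' ^ 2 := by positivity
  set G : Mx d := (m ^ 2)⁻¹ • gram B' with hGdef
  have hG : PD G := (gram_pd (det_ne hB')).smul (inv_pos.2 hm2)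
  have hGA : ‖G - (m ^ 2)⁻¹ • gram B‖ < ε / 2 := by
    have h1 := hg B' hent
    rw [hGdef, ← smul_sub, norm_smul, norm_inv, Real.norm_eq_abs, abs_of_pos hm2,
      inv_mul_lt_iff₀ hm2]
    exact h1
  have hGdet : G.det = ((m ^ 2)⁻¹) ^ d := by
    rw [hGdef, det_smul', det_gram_one hB', mul_one]
  set t : ℝ := max (m ^ 2 / m' ^ 2) (1 - min (1 / 2) (ε / (2 * (‖G‖ + 1)))) with htdef
  have hG0 : 0 ≤ ‖G‖ := norm_nonneg G
  have hmin : 0 < min (1 / 2) (ε / (2 * (‖G‖ + 1))) := lt_min (by norm_num) (by positivity)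
  have ht1 : t < 1 := by
    rw [htdef, max_lt_iff]
    constructor
    · rw [div_lt_one hm2']
      exact hmm
    · linarith
  have ht0 : 0 < t := lt_of_lt_of_le (by positivity) (le_max_left (m ^ 2 / m' ^ 2) _)
  have htl : m ^ 2 / m' ^ 2 ≤ t := le_max_left _ _
  have htr : 1 - t ≤ ε / (2 * (‖G‖ + 1)) := by
    have h1 : 1 - min (1 / 2) (ε / (2 * (‖G‖ + 1))) ≤ t := le_max_right _ _
    have h2 : min (1 / 2) (ε / (2 * (‖G‖ + 1))) ≤ ε / (2 * (‖G‖ + 1)) := min_le_right _ _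
    linarith
  have hnorm : ‖t • G - (m ^ 2)⁻¹ • gram B‖ < ε := by
    have h1 : t • G - (m ^ 2)⁻¹ • gram B = (G - (m ^ 2)⁻¹ • gram B) - (1 - t) • G := by
      rw [sub_smul, one_smul]
      abel
    rw [h1]
    refine lt_of_le_of_lt (norm_sub_le _ _) ?_
    rw [norm_smul, Real.norm_eq_abs, abs_of_pos (by linarith : (0 : ℝ) < 1 - t)]
    have h2 : (1 - t) * ‖G‖ ≤ ε / 2 := by
      calc (1 - t) * ‖G‖ ≤ ε / (2 * (‖G‖ + 1)) * (‖G‖ + 1) :=
            mul_le_mul htr (by linarith) hG0 (by positivity)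
        _ = ε / 2 := by field_simp
    linarith
  have hx : ∀ x : NZ d, 1 ≤ qf (t • G) x.1 := by
    intro x
    rw [qf_smul, hGdef, qf_smul]
    have h1 := hval' x
    rw [div_le_iff₀ hm2'] at htl
    have h2 : m ^ 2 ≤ t * qf (gram B') x.1 :=
      htl.trans (mul_le_mul_of_nonneg_left h1 ht0.le)
    calc (1 : ℝ) = (m ^ 2)⁻¹ * m ^ 2 := (inv_mul_cancel₀ hm2.ne').symm
      _ ≤ (m ^ 2)⁻¹ * (t * qf (gram B') x.1) :=
          mul_le_mul_of_nonneg_left h2 (inv_pos.2 hm2).le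
      _ = t * ((m ^ 2)⁻¹ * qf (gram B') x.1) := by ring
  have h1 := hloc (t • G) (hG.smul ht0) hnorm hx
  rw [hdet, det_smul', hGdet] at h1
  have h2 : 0 < ((m ^ 2)⁻¹) ^ d := by positivity
  have h3 : t ^ d < 1 := pow_lt_one₀ ht0.le ht1 hd
  nlinarith

end LatCAux

open LatCAux

/-- A unit lattice is locally densest iff its Gram matrix, divided by its minimum, is extreme.
Proof by `ext_iff`, `minLen_spec`, `exists_near`; the scale invariant quantity is
`min(Q)^d / det Q`. -/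
theorem isLocallyDensest_iff (hd : d ≠ 0) {B : Mx d} (hB : |B.det| = 1) :
    IsLocallyDensest (lat B) ↔ Ext ((minLen (lat B) ^ 2)⁻¹ • gram B) := by
  constructor
  · rintro ⟨B₁, hB₁, hE, ε, hε, h⟩
    have h1 : Ext ((minLen (lat B₁) ^ 2)⁻¹ • gram B₁) :=
      mp hd hB₁ hε (fun B' hB' hent => by
        have := h B' hB' hent
        rwa [hE] at this)
    have h2 : Isometric (lat B₁) (lat B) :=
      ⟨LinearIsometryEquiv.refl ℝ _, by rw [hE]; simp⟩
    have h3 : Eqv (gram B₁) (gram B) := (isometric_iff (det_ne hB₁) (det_ne hB)).1 h2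
    rw [hE]
    exact (eqv_smul h3 _).ext h1
  · exact mpr hd hB

end Pool.Agent.Lib.EpZ
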