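import Pool.Agent.Lib.EpZ.LatA
import Pool.Agent.Lib.EpZ.Ent

/-!
# Eutaxy entropies, layers and global minima of lattices in terms of the Gram matrix

With `m = minLen (lat B) ^ 2` and `A = m⁻¹ • gram B`, the minimal vectors of `lat B` are the
`vec B x`, `x ∈ minSet A`; `⟪vec B x, w⟫ = rv x ⬝ᵥ (Bᵀ *ᵥ w)`, so for `u = Bᵀ *ᵥ w` and
`H = vecMulVec u u` we get `⟪vec B x, w⟫² = qf H x` and `(A⁻¹ * H).trace = m ‖w‖²`
(`u ⬝ᵥ (gram B)⁻¹ *ᵥ u = ‖w‖²`). Every symmetric matrix is a linear combination of matrices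
`vecMulVec u u`, so the identities for all `w` are equivalent to those for all symmetric `H`.
-/

open Matrix Filter Topology
open scoped Matrix.Norms.Elementwise

namespace Pool.Agent.Lib.EpZ

variable {d : ℕ}

/-- the shortest nonzero vectors -/
def minVecs (Λ : Set (EuclideanSpace ℝ (Fin d))) : Set (EuclideanSpace ℝ (Fin d)) :=
  {v | v ∈ Λ ∧ v ≠ 0 ∧ ‖v‖ = minLen Λ}

/-- the entropies of the systems of eutaxy coefficients of `Λ`: nonnegative weights `ρ` on the
shortest vectors, of total mass one, with `∑ ρ(v) ⟪v, w⟫² = (minLen Λ)² ‖w‖² / d` -/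
def EutaxyEntropies (Λ : Set (EuclideanSpace ℝ (Fin d))) : Set ℝ :=
  {e | ∃ ρ : minVecs Λ → ℝ, (∀ v, 0 ≤ ρ v) ∧ ∑' v, ρ v = 1 ∧
    (∀ w : EuclideanSpace ℝ (Fin d),
      ∑' v : minVecs Λ, ρ v * inner ℝ (v : EuclideanSpace ℝ (Fin d)) w ^ 2 =
        minLen Λ ^ 2 * ‖w‖ ^ 2 / d) ∧
    e = ∑' v, Real.negMulLog (ρ v)}

namespace LatEAux

/-- the value at an integer vector as a linear functional of the form -/
def qfL (x : Fin d → ℤ) : Mx d →ₗ[ℝ] ℝ where
  toFun H := qf H x
  map_add' H H' := qf_add H H' x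
  map_smul' c H := by simp [qf_smul]

/-- the trace functional -/
noncomputable def trL (A : Mx d) : Mx d →ₗ[ℝ] ℝ where
  toFun H := (A * H).trace
  map_add' H H' := by rw [Matrix.mul_add, trace_add]
  map_smul' c H := by simp

/-- a symmetric matrix is a combination of rank one matrices -/
lemma spec_sum {H : Mx d} (hH : H.IsSymm) : ∃ (l : Fin d → ℝ) (u : Fin d → Fin d → ℝ),
    H = ∑ k, l k • vecMulVec (u k) (u k) := by
  obtain ⟨U, l, hU, hl⟩ := SimAux.spec hH
  have hU' : U * Uᵀ = 1 := mul_eq_one_comm.1 hU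
  have h1 : H = U * diagonal l * Uᵀ := by
    rw [← hl]
    calc H = (U * Uᵀ) * H * (U * Uᵀ) := by rw [hU', Matrix.one_mul, Matrix.mul_one]
      _ = U * (Uᵀ * H * U) * Uᵀ := by simp only [Matrix.mul_assoc]
  refine ⟨l, fun k i => U i k, ?_⟩
  rw [h1]
  ext i j
  rw [Matrix.mul_apply, Matrix.sum_apply]
  refine Finset.sum_congr rfl fun k _ => ?_
  rw [Matrix.mul_diagonal, transpose_apply, Matrix.smul_apply, vecMulVec_apply, smul_eq_mul]
  ring

lemma qf_vecMulVec (u : Fin d → ℝ) (x : Fin d → ℤ) :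
    qf (vecMulVec u u) x = (rv x ⬝ᵥ u) ^ 2 := by
  unfold qf qr
  rw [vecMulVec_mulVec, dotProduct_comm u (rv x), op_smul_eq_smul, dotProduct_smul, smul_eq_mul]
  ring

lemma trace_vecMulVec' (A : Mx d) (u : Fin d → ℝ) :
    (A * vecMulVec u u).trace = u ⬝ᵥ (A *ᵥ u) := by
  rw [mul_vecMulVec, trace_vecMulVec, dotProduct_comm]

lemma inner_vec (B : Mx d) (x : Fin d → ℤ) (w : EuclideanSpace ℝ (Fin d)) :
    inner ℝ (vec B x) w = rv x ⬝ᵥ (Bᵀ *ᵥ (w : Fin d → ℝ)) := by
  unfold vec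
  rw [EuclideanSpace.inner_eq_star_dotProduct]
  simp only [star_trivial]
  rw [dotProduct_comm, dotProduct_mulVec (rv x), vecMul_transpose]

lemma norm_eq_dot (w : EuclideanSpace ℝ (Fin d)) :
    ‖w‖ ^ 2 = (w : Fin d → ℝ) ⬝ᵥ (w : Fin d → ℝ) := by
  rw [EuclideanSpace.norm_sq_eq]
  simp only [Real.norm_eq_abs, sq_abs, dotProduct]
  exact Finset.sum_congr rfl fun i _ => by ring

lemma trace_key {B : Mx d} (hB : B.det ≠ 0) {m : ℝ} (hm : m ≠ 0)
    (w : EuclideanSpace ℝ (Fin d)) :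
    ((m⁻¹ • gram B)⁻¹ * vecMulVec (Bᵀ *ᵥ (w : Fin d → ℝ)) (Bᵀ *ᵥ (w : Fin d → ℝ))).trace =
      m * ‖w‖ ^ 2 := by
  have hBu : IsUnit B.det := isUnit_iff_ne_zero.2 hB
  have hBtu : IsUnit Bᵀ.det := by rwa [det_transpose]
  have hinv : (m⁻¹ • gram B)⁻¹ = m • (B⁻¹ * (Bᵀ)⁻¹) := by
    refine Matrix.inv_eq_left_inv ?_
    unfold gram
    rw [smul_mul_assoc, mul_smul_comm, smul_smul, mul_inv_cancel₀ hm, one_smul]
    calc B⁻¹ * Bᵀ⁻¹ * (Bᵀ * B) = B⁻¹ * (Bᵀ⁻¹ * Bᵀ) * B := by simp only [Matrix.mul_assoc]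
      _ = 1 := by rw [nonsing_inv_mul _ hBtu, Matrix.mul_one, nonsing_inv_mul _ hBu]
  rw [trace_vecMulVec', hinv, smul_mulVec, dotProduct_smul, smul_eq_mul, norm_eq_dot]
  congr 1
  rw [← mulVec_mulVec, mulVec_mulVec (w : Fin d → ℝ) Bᵀ⁻¹ Bᵀ, nonsing_inv_mul _ hBtu, one_mulVec,
    mulVec_transpose, ← dotProduct_mulVec, mulVec_mulVec, mul_nonsing_inv _ hBu, one_mulVec]

variable {B : Mx d}

lemma mem_minSet (hd : d ≠ 0) (hB : B.det ≠ 0) (x : NZ d) :
    x ∈ minSet ((minLen (lat B) ^ 2)⁻¹ • gram B) ↔ qf (gram B) x.1 = minLen (lat B) ^ 2 := by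
  have hm := (minLen_spec hd hB).1
  have hm2 : (minLen (lat B) ^ 2) ≠ 0 := by positivity
  unfold minSet
  change qf _ x.1 = 1 ↔ _
  rw [qf_smul, inv_mul_eq_one₀ hm2]
  exact eq_comm

/-- the minimal vectors in coordinates -/
noncomputable def eqv (hd : d ≠ 0) (hB : B.det ≠ 0) :
    minSet ((minLen (lat B) ^ 2)⁻¹ • gram B) ≃ minVecs (lat B) :=
  Equiv.ofBijective (fun x => ⟨vec B x.1.1, by
      have hm := (minLen_spec hd hB).1
      refine ⟨(mem_lat B _).2 ⟨_, rfl⟩, ?_, ?_⟩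
      · intro h
        have h0 : vec B 0 = 0 := by
          unfold vec
          have : rv (0 : Fin d → ℤ) = 0 := by
            funext i
            simp [rv]
          rw [this, mulVec_zero]
          rfl
        exact x.1.2 (vec_injective hB (h.trans h0.symm))
      · have h1 := norm_vec_sq B x.1.1
        rw [(mem_minSet hd hB x.1).1 x.2] at h1
        exact (pow_left_inj₀ (norm_nonneg _) hm.le two_ne_zero).1 h1⟩) (by
    constructor
    · intro x y hxy
      exact Subtype.ext (Subtype.ext (vec_injective hB (congrArg Subtype.val hxy)))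
    · rintro ⟨v, hv, hv0, hvn⟩
      obtain ⟨x, rfl⟩ := (mem_lat B v).1 hv
      have hx : x ≠ 0 := by
        rintro rfl
        apply hv0
        unfold vec
        have : rv (0 : Fin d → ℤ) = 0 := by
          funext i
          simp [rv]
        rw [this, mulVec_zero]
        rfl
      refine ⟨⟨⟨x, hx⟩, ?_⟩, rfl⟩
      rw [mem_minSet hd hB, ← norm_vec_sq, hvn])

lemma eqv_coe (hd : d ≠ 0) (hB : B.det ≠ 0)
    (x : minSet ((minLen (lat B) ^ 2)⁻¹ • gram B)) :
    ((eqv hd hB x : minVecs (lat B)) : EuclideanSpace ℝ (Fin d)) = vec B x.1.1 := rfl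

lemma sum_transfer (hd : d ≠ 0) (hB : B.det ≠ 0) (g : NZ d → ℝ)
    (hg : ∀ x, x ∉ minSet ((minLen (lat B) ^ 2)⁻¹ • gram B) → g x = 0) :
    ∑' v : minVecs (lat B), g ((eqv hd hB).symm v).1 = ∑' x, g x := by
  rw [(eqv hd hB).symm.tsum_eq (fun x : minSet ((minLen (lat B) ^ 2)⁻¹ • gram B) => g x.1)]
  refine tsum_subtype_eq_of_support_subset fun x hx => ?_
  by_contra h
  exact hx (hg x h)

end LatEAux

open LatEAux

theorem eutaxyEntropies_lat (hd : d ≠ 0) {B : Mx d} (hB : B.det ≠ 0) :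
    EutaxyEntropies (lat B) =
      {e | ∃ ρ, Eut ((minLen (lat B) ^ 2)⁻¹ • gram B) ρ ∧ e = entr ρ} := by
  classical
  obtain ⟨hm, hmin, -⟩ := minLen_spec hd hB
  set m : ℝ := minLen (lat B) ^ 2 with hm'
  have hmpos : 0 < m := by positivity
  set A : Mx d := m⁻¹ • gram B with hA
  have hAPD : PD A := (gram_pd hB).smul (inv_pos.2 hmpos)
  have hAdet : IsUnit A.det := hAPD.det_pos.ne'.isUnit
  have hdR : (d : ℝ) ≠ 0 := Nat.cast_ne_zero.2 hd
  have hfin := finite_minSet hAPD
  ext e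
  constructor
  · rintro ⟨ρ, hρ0, hρ1, hρw, rfl⟩
    set ρ' : NZ d → ℝ := fun x => if h : x ∈ minSet A then ρ (eqv hd hB ⟨x, h⟩) else 0 with hρ'
    have hoff : ∀ x, x ∉ minSet A → ρ' x = 0 := fun x hx => by rw [hρ']; exact dif_neg hx
    have hon : ∀ v : minVecs (lat B), ρ' ((eqv hd hB).symm v).1 = ρ v := by
      intro v
      rw [hρ']
      simp only
      rw [dif_pos ((eqv hd hB).symm v).2]
      congr 1
      exact (eqv hd hB).apply_symm_apply v
    refine ⟨ρ', ⟨fun x => ?_, hoff, ?_⟩, ?_⟩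
    · rw [hρ']
      simp only
      split_ifs with h
      · exact hρ0 _
      · exact le_rfl
    · intro H hH
      obtain ⟨l, u, rfl⟩ := spec_sum hH
      have hV : ∀ k, ∑' x : NZ d, ρ' x * qf (vecMulVec (u k) (u k)) x.1 =
          (A⁻¹ * vecMulVec (u k) (u k)).trace / d := by
        intro k
        set w : EuclideanSpace ℝ (Fin d) := WithLp.toLp 2 ((Bᵀ)⁻¹ *ᵥ u k) with hw
        have hu : Bᵀ *ᵥ (w : Fin d → ℝ) = u k := by
          have : IsUnit Bᵀ.det := by rw [det_transpose]; exact isUnit_iff_ne_zero.2 hB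
          rw [hw]
          simp only
          rw [mulVec_mulVec, mul_nonsing_inv _ this, one_mulVec]
        have h1 := hρw w
        have h2 := trace_key hB hmpos.ne' w
        rw [hu] at h2
        rw [← hm', ← h2] at h1
        rw [← h1]
        rw [← sum_transfer hd hB (fun x => ρ' x * qf (vecMulVec (u k) (u k)) x.1) fun x hx => by
          rw [hoff x hx, zero_mul]]
        refine tsum_congr fun v => ?_
        rw [hon v, qf_vecMulVec, ← hu, ← inner_vec]
        congr 3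
        have := eqv_coe hd hB ((eqv hd hB).symm v)
        rw [(eqv hd hB).apply_symm_apply v] at this
        exact this.symm
      have hfs : ∀ H : Mx d, ∑' x : NZ d, ρ' x * qf H x.1 =
          ∑ x ∈ hfin.toFinset, ρ' x * qf H x.1 := fun H =>
        tsum_eq_sum fun x hx => by
          rw [hoff x fun h => hx (hfin.mem_toFinset.2 h), zero_mul]
      have hq : ∀ x : NZ d, qf (∑ k, l k • vecMulVec (u k) (u k)) x.1 =
          ∑ k, l k * qf (vecMulVec (u k) (u k)) x.1 := by
        intro x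
        have := map_sum (qfL x.1) (fun k => l k • vecMulVec (u k) (u k)) Finset.univ
        simp only [map_smul] at this
        exact this
      have ht : (A⁻¹ * ∑ k, l k • vecMulVec (u k) (u k)).trace =
          ∑ k, l k * (A⁻¹ * vecMulVec (u k) (u k)).trace := by
        have := map_sum (trL A⁻¹) (fun k => l k • vecMulVec (u k) (u k)) Finset.univ
        simp only [map_smul] at this
        exact this
      rw [hfs, ht]
      simp only [hq]
      rw [Finset.sum_div]
      simp only [Finset.mul_sum]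
      rw [Finset.sum_comm]
      refine Finset.sum_congr rfl fun k _ => ?_
      rw [mul_div_assoc, ← hV k, hfs, Finset.mul_sum]
      exact Finset.sum_congr rfl fun x _ => by ring
    · unfold entr
      rw [← sum_transfer hd hB (fun x => Real.negMulLog (ρ' x)) fun x hx => by
        rw [hoff x hx, Real.negMulLog_zero]]
      exact tsum_congr fun v => by rw [hon v]
  · rintro ⟨ρ', ⟨h0, hoff, hH⟩, rfl⟩
    refine ⟨fun v => ρ' ((eqv hd hB).symm v).1, fun v => h0 _, ?_, fun w => ?_, ?_⟩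
    · rw [sum_transfer hd hB ρ' hoff]
      have h1 := hH A hAPD.1
      rw [nonsing_inv_mul _ hAdet, trace_one, Fintype.card_fin, div_self hdR] at h1
      rw [← h1]
      refine tsum_congr fun x => ?_
      by_cases hx : x ∈ minSet A
      · rw [show qf A x.1 = 1 from hx, mul_one]
      · rw [hoff x hx, zero_mul]
    · have h2 := trace_key hB hmpos.ne' w
      refine Eq.trans ?_ (congrArg (fun t => t / (d : ℝ)) h2)
      refine Eq.trans ?_ (hH _ (by
        unfold Matrix.IsSymm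
        exact transpose_vecMulVec _ _))
      rw [← sum_transfer hd hB (fun x => ρ' x * qf (vecMulVec (Bᵀ *ᵥ (w : Fin d → ℝ))
        (Bᵀ *ᵥ (w : Fin d → ℝ))) x.1) fun x hx => by
          rw [hoff x hx, zero_mul]]
      refine tsum_congr fun v => ?_
      rw [qf_vecMulVec, ← inner_vec]
      congr 3
      have := eqv_coe hd hB ((eqv hd hB).symm v)
      rw [(eqv hd hB).apply_symm_apply v] at this
      exact this
    · unfold entr
      rw [← sum_transfer hd hB (fun x => Real.negMulLog (ρ' x)) fun x hx => by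
        rw [hoff x hx, Real.negMulLog_zero]]

end Pool.Agent.Lib.EpZ
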