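import Pool.Agent.Lib.EpZ.Gram2
import Pool.Agent.Lib.EpZ.LatC
import Pool.Agent.Lib.EpZ.LatE
import Pool.Agent.Lib.EpZ.LatF

/-!
# Passage from forms to lattices of determinant one
-/

open Matrix Filter Topology
open scoped Matrix.Norms.Elementwise

namespace Pool.Agent.Lib.EpZ

variable {d : ℕ}

/-- normalisation to determinant one -/
noncomputable def nrm (Q : Mx d) : Mx d := Q.det ^ (-(1 / (d : ℝ))) • Q

lemma nrm_pos {Q : Mx d} (hQ : PD Q) : 0 < Q.det ^ (-(1 / (d : ℝ))) :=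
  Real.rpow_pos_of_pos hQ.det_pos _

lemma nrm_pd {Q : Mx d} (hQ : PD Q) : PD (nrm Q) := hQ.smul (nrm_pos hQ)

lemma nrm_det (hd : d ≠ 0) {Q : Mx d} (hQ : PD Q) : (nrm Q).det = 1 := by
  have hd' : (d : ℝ) ≠ 0 := Nat.cast_ne_zero.mpr hd
  unfold nrm
  rw [Matrix.det_smul, Fintype.card_fin, ← Real.rpow_natCast, ← Real.rpow_mul hQ.det_pos.le]
  have : -(1 / (d : ℝ)) * d = -1 := by field_simp
  rw [this, Real.rpow_neg_one, inv_mul_cancel₀ hQ.det_pos.ne']

lemma act_smul (U : Matrix (Fin d) (Fin d) ℤ) (l : ℝ) (Q : Mx d) :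
    act U (l • Q) = l • act U Q := by
  unfold act
  rw [Matrix.mul_smul, Matrix.smul_mul]

lemma Eqv.smul {Q Q' : Mx d} (h : Eqv Q Q') (l : ℝ) : Eqv (l • Q) (l • Q') := by
  obtain ⟨U, hU, rfl⟩ := h
  exact ⟨U, hU, (act_smul U l Q).symm⟩

lemma gram_det (B : Mx d) : (gram B).det = B.det ^ 2 := by
  unfold gram
  rw [Matrix.det_mul, Matrix.det_transpose]
  ring

lemma abs_det_of_gram {B : Mx d} (h : (gram B).det = 1) : |B.det| = 1 := by
  rw [gram_det] at h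
  have : |B.det| ^ 2 = 1 := by rw [sq_abs, h]
  exact (pow_eq_one_iff_of_nonneg (abs_nonneg _) two_ne_zero).mp this

lemma gram_det_of_abs {B : Mx d} (h : |B.det| = 1) : (gram B).det = 1 := by
  rw [gram_det, ← sq_abs, h, one_pow]

lemma det_ne_of_abs {B : Mx d} (h : |B.det| = 1) : B.det ≠ 0 := by
  intro h0
  rw [h0, abs_zero] at h
  exact zero_ne_one h

/-- equivalence up to scaling, both of determinant one -/
lemma eqv_of_scale_det (hd : d ≠ 0) {G Q : Mx d} {l : ℝ} (hG1 : G.det = 1)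
    (hl : 0 < l) (h : Eqv (l • G) Q) : Eqv G (nrm Q) := by
  have hd' : (d : ℝ) ≠ 0 := Nat.cast_ne_zero.mpr hd
  have h1 : Q.det = l ^ d := by rw [h.det, Matrix.det_smul, Fintype.card_fin, hG1, mul_one]
  have h2 : Q.det ^ (-(1 / (d : ℝ))) = l⁻¹ := by
    rw [h1, ← Real.rpow_natCast, ← Real.rpow_mul hl.le]
    have : (d : ℝ) * -(1 / (d : ℝ)) = -1 := by field_simp
    rw [this, Real.rpow_neg_one]
  have h3 := h.smul l⁻¹
  rw [smul_smul, inv_mul_cancel₀ hl.ne', one_smul] at h3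
  unfold nrm
  rwa [h2]

lemma minLen_of_ext (hd : d ≠ 0) {B : Mx d} (hB : B.det ≠ 0) {A : Mx d} (hA : Ext A) {l : ℝ}
    (hl : 0 < l) (h : gram B = l • A) : minLen (lat B) ^ 2 = l := by
  obtain ⟨h1, h2, x, hx⟩ := minLen_spec hd hB
  obtain ⟨y, hy⟩ := Ext.nonempty hd hA
  refine le_antisymm ?_ ?_
  · have := h2 y
    rwa [h, qf_smul, hy, mul_one] at this
  · rw [← hx, h, qf_smul]
    have := hA.2.1 x
    nlinarith

/-- equivalence of extreme forms up to scaling -/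
lemma eqv_of_scale_ext (hd : d ≠ 0) {A A' : Mx d} (hA : Ext A) (hA' : Ext A') {l : ℝ}
    (hl : 0 < l) (h : Eqv (l • A) A') : l = 1 := by
  obtain ⟨U, hU, hact⟩ := h
  obtain ⟨y, hy⟩ := Ext.nonempty hd hA'
  obtain ⟨x, hx⟩ := Ext.nonempty hd hA
  have hsymm : Eqv A' (l • A) := Eqv.symm ⟨U, hU, hact⟩
  obtain ⟨V, hV, hactV⟩ := hsymm
  -- values of `l • A` at nonzero vectors are at least one
  have ge_one : ∀ (W : Matrix (Fin d) (Fin d) ℤ), IsUnit W.det → ∀ z : NZ d, W *ᵥ z.1 ≠ 0 := by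
    intro W hW z hz
    exact z.2 (by
      have h1 := congrArg (fun u => W⁻¹ *ᵥ u) hz
      simpa [Matrix.mulVec_mulVec, Matrix.nonsing_inv_mul _ hW] using h1)
  refine le_antisymm ?_ ?_
  · -- `1 = A'[y] = l A[U y] ≥ l`
    have h1 : qf A' y.1 = l * qf A (U *ᵥ y.1) := by rw [hact, qf_act, qf_smul]
    rw [hy] at h1
    have h2 := hA.2.1 ⟨U *ᵥ y.1, ge_one U hU y⟩
    nlinarith
  · -- `l = l A[x] = A'[V x] ≥ 1`
    have h1 : qf (l • A) x.1 = qf A' (V *ᵥ x.1) := by rw [hactV, qf_act]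
    rw [qf_smul, hx, mul_one] at h1
    rw [h1]
    exact hA'.2.1 ⟨V *ᵥ x.1, ge_one V hV x⟩

/-- equivalence of forms with `F = 1` up to scaling -/
lemma eqv_of_scale_F {Q Q' : Mx d} (hQ : PD Q) {s l : ℝ} (hs : 0 < s) (hl : 0 < l)
    (hF : F s Q = 1) (hF' : F s Q' = 1) (h : Eqv (l • Q) Q') : l = 1 := by
  have h1 := h.F s
  rw [hF', F_smul hQ hl, hF, mul_one] at h1
  have h2 : l ^ (-s) = (1 : ℝ) := h1.symm
  by_contra hne
  rcases lt_or_gt_of_ne hne with h3 | h3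
  · have := Real.one_lt_rpow_of_pos_of_lt_one_of_neg hl h3 (by linarith : -s < 0)
    linarith
  · have := Real.rpow_lt_one_of_one_lt_of_neg h3 (by linarith : -s < 0)
    linarith

/-- local Lipschitz bound of the normalisation -/
lemma nrm_lipschitz {A : Mx d} (hA : PD A) :
    ∃ C : ℝ, ∃ r > 0, ∀ Q : Mx d, PD Q → ‖Q - A‖ ≤ r → ‖nrm Q - nrm A‖ ≤ C * ‖Q - A‖ := by
  have hdet : DifferentiableAt ℝ (fun Q : Mx d => Q.det) A := by
    have h1 : (fun Q : Mx d => Q.det) =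
        fun Q => ∑ σ : Equiv.Perm (Fin d), ((Equiv.Perm.sign σ : ℤ) : ℝ) * ∏ i, Q (σ i) i := by
      funext Q
      rw [Matrix.det_apply']
    rw [h1]
    have hentry : ∀ i j, DifferentiableAt ℝ (fun Q : Mx d => Q i j) A := by
      intro i j
      have h2 : Differentiable ℝ (fun Q : Fin d → Fin d → ℝ => Q i j) := by fun_prop
      exact h2 A
    refine DifferentiableAt.fun_sum fun σ _ => ?_
    refine (differentiableAt_const _).mul ?_
    exact (HasFDerivAt.finsetProd (u := Finset.univ) (g := fun i (Q : Mx d) => Q (σ i) i)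
      fun i _ => (hentry (σ i) i).hasFDerivAt).differentiableAt
  have hn : DifferentiableAt ℝ (fun Q : Mx d => nrm Q) A := by
    unfold nrm
    exact (hdet.rpow_const (Or.inl hA.det_pos.ne')).smul differentiableAt_id
  obtain ⟨C, hC⟩ := hn.isBigO_sub.bound
  obtain ⟨r, hr, hball⟩ := Metric.eventually_nhds_iff.mp hC
  refine ⟨C, r / 2, half_pos hr, fun Q _ hQ => ?_⟩
  refine hball ?_
  rw [dist_eq_norm]
  linarith

end Pool.Agent.Lib.EpZ
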