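import Pool.Agent.Lib.EpZ.Main

/-!
# Invariance under isometries
-/

open Matrix Filter Topology
open scoped Matrix.Norms.Elementwise

namespace Pool.Agent.Lib.EpZ

variable {d : ℕ}

lemma Isometric.symm {Λ Λ' : Set (EuclideanSpace ℝ (Fin d))} (h : Isometric Λ Λ') :
    Isometric Λ' Λ := by
  obtain ⟨φ, rfl⟩ := h
  refine ⟨φ.symm, ?_⟩
  rw [← Set.image_comp]
  convert! Set.image_id Λ
  ext v
  simp

lemma Isometric.minLen_eq {Λ Λ' : Set (EuclideanSpace ℝ (Fin d))} (h : Isometric Λ Λ') :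
    minLen Λ' = minLen Λ := by
  obtain ⟨φ, rfl⟩ := h
  unfold minLen
  congr 1
  ext r
  constructor
  · rintro ⟨_, ⟨v, hv, rfl⟩, hne, rfl⟩
    refine ⟨v, hv, fun h0 => hne (by rw [h0, map_zero]), ?_⟩
    rw [φ.norm_map]
  · rintro ⟨v, hv, hne, rfl⟩
    refine ⟨φ v, ⟨v, hv, rfl⟩, fun h0 => hne ?_, (φ.norm_map v).symm⟩
    have := congrArg φ.symm h0
    simpa using this

lemma Isometric.zeta_eq {Λ Λ' : Set (EuclideanSpace ℝ (Fin d))} (h : Isometric Λ Λ') (s : ℝ) :
    zeta Λ' s = zeta Λ s := by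
  obtain ⟨φ, rfl⟩ := h
  unfold zeta
  let e : {v : EuclideanSpace ℝ (Fin d) // v ∈ Λ ∧ v ≠ 0} ≃
      {v : EuclideanSpace ℝ (Fin d) // v ∈ φ '' Λ ∧ v ≠ 0} :=
    { toFun := fun v => ⟨φ v.1, ⟨v.1, v.2.1, rfl⟩, fun h0 => v.2.2 (by
        have := congrArg φ.symm h0
        simpa using this)⟩
      invFun := fun v => ⟨φ.symm v.1, by
        obtain ⟨u, hu, hv⟩ := v.2.1
        rw [← hv]
        simpa using hu, fun h0 => v.2.2 (by
        have := congrArg φ h0
        simpa using this)⟩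
      left_inv := fun v => Subtype.ext (by simp)
      right_inv := fun v => Subtype.ext (by simp) }
  rw [← e.tsum_eq]
  refine tsum_congr fun v => ?_
  show ‖φ v.1‖ ^ (-(2 * s)) = _
  rw [φ.norm_map]

lemma Isometric.entropies_subset {Λ Λ' : Set (EuclideanSpace ℝ (Fin d))} (h : Isometric Λ Λ') :
    EutaxyEntropies Λ ⊆ EutaxyEntropies Λ' := by
  have hm := h.minLen_eq
  obtain ⟨φ, rfl⟩ := h
  rintro e ⟨ρ, h1, h2, h3, h4⟩
  let f : minVecs Λ ≃ minVecs (φ '' Λ) :=
    { toFun := fun v => ⟨φ v.1, ⟨v.1, v.2.1, rfl⟩, fun h0 => v.2.2.1 (by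
        have := congrArg φ.symm h0
        simpa using this), by rw [φ.norm_map, hm]; exact v.2.2.2⟩
      invFun := fun v => ⟨φ.symm v.1, by
        obtain ⟨u, hu, hv⟩ := v.2.1
        rw [← hv]
        simpa using hu, fun h0 => v.2.2.1 (by
        have := congrArg φ h0
        simpa using this), by rw [φ.symm.norm_map, ← hm]; exact v.2.2.2⟩
      left_inv := fun v => Subtype.ext (by simp)
      right_inv := fun v => Subtype.ext (by simp) }
  refine ⟨fun v => ρ (f.symm v), fun v => h1 _, ?_, ?_, ?_⟩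
  · rw [← h2]
    exact f.symm.tsum_eq ρ
  · intro w
    rw [hm, ← f.tsum_eq]
    have h5 := h3 (φ.symm w)
    rw [φ.symm.norm_map] at h5
    rw [← h5]
    refine tsum_congr fun v => ?_
    beta_reduce
    rw [Equiv.symm_apply_apply]
    congr 2
    show inner ℝ (φ v.1) w = inner ℝ v.1 (φ.symm w)
    have h6 := φ.inner_map_map v.1 (φ.symm w)
    rw [← h6]
    simp
  · rw [h4]
    exact (f.symm.tsum_eq fun v => Real.negMulLog (ρ v)).symm

lemma Isometric.entropies_eq {Λ Λ' : Set (EuclideanSpace ℝ (Fin d))} (h : Isometric Λ Λ') :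
    EutaxyEntropies Λ = EutaxyEntropies Λ' :=
  Set.Subset.antisymm h.entropies_subset h.symm.entropies_subset

/-- the orthogonal matrix of an isometry -/
lemma exists_orth (φ : EuclideanSpace ℝ (Fin d) ≃ₗᵢ[ℝ] EuclideanSpace ℝ (Fin d)) :
    ∃ O : Mx d, |O.det| = 1 ∧ (∀ j k, |O j k| ≤ 1) ∧
      ∀ D : Mx d, lat (O * D) = φ '' lat D := by
  let O : Mx d := fun j k => (φ (EuclideanSpace.single k 1)) j
  have hO : ∀ v : EuclideanSpace ℝ (Fin d), ∀ j, (φ v) j = ∑ k, O j k * v k := by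
    intro v j
    have h1 : v = ∑ k, v k • EuclideanSpace.single k (1 : ℝ) := by
      ext i
      simp [Finset.sum_apply, Pi.single_apply]
    conv_lhs => rw [h1]
    rw [map_sum]
    simp only [map_smul, PiLp.smul_apply, smul_eq_mul, WithLp.ofLp_sum, Finset.sum_apply]
    exact Finset.sum_congr rfl fun k _ => by ring
  have hOO : Oᵀ * O = 1 := by
    ext j k
    rw [Matrix.mul_apply, Matrix.one_apply]
    have h1 := φ.inner_map_map (EuclideanSpace.single j (1 : ℝ)) (EuclideanSpace.single k (1 : ℝ))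
    rw [EuclideanSpace.inner_eq_star_dotProduct] at h1
    have h2 : ∑ i, Oᵀ j i * O i k = ∑ i, (φ (EuclideanSpace.single k (1 : ℝ))) i *
        (φ (EuclideanSpace.single j (1 : ℝ))) i := by
      refine Finset.sum_congr rfl fun i _ => ?_
      rw [Matrix.transpose_apply]
      ring
    rw [h2]
    have h3 : inner ℝ (EuclideanSpace.single j (1 : ℝ)) (EuclideanSpace.single k (1 : ℝ)) =
        if j = k then (1 : ℝ) else 0 := by
      rw [EuclideanSpace.inner_single_left]
      simp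
    rw [← h3, ← h1]
    simp [dotProduct]
  refine ⟨O, ?_, ?_, ?_⟩
  · have h1 : O.det ^ 2 = 1 := by
      have := congrArg Matrix.det hOO
      rw [Matrix.det_mul, Matrix.det_transpose, Matrix.det_one] at this
      rw [sq]
      exact this
    have h2 : |O.det| ^ 2 = 1 := by rw [sq_abs, h1]
    exact (pow_eq_one_iff_of_nonneg (abs_nonneg _) two_ne_zero).mp h2
  · intro j k
    have h1 : ‖(φ (EuclideanSpace.single k (1 : ℝ))) j‖ ≤
        ‖φ (EuclideanSpace.single k (1 : ℝ))‖ := PiLp.norm_apply_le _ j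
    rw [φ.norm_map] at h1
    simpa using h1
  · intro D
    ext v
    constructor
    · rintro ⟨x, hx⟩
      refine ⟨WithLp.toLp 2 (fun i => ∑ j, D i j * (x j : ℝ)), ⟨x, fun i => rfl⟩, ?_⟩
      ext i
      rw [hO, hx i]
      simp only [Matrix.mul_apply, Finset.sum_mul, Finset.mul_sum]
      rw [Finset.sum_comm]
      exact Finset.sum_congr rfl fun j _ => Finset.sum_congr rfl fun k _ => by ring
    · rintro ⟨u, ⟨x, hx⟩, rfl⟩
      refine ⟨x, fun i => ?_⟩
      rw [hO]
      simp only [hx, Matrix.mul_apply, Finset.sum_mul, Finset.mul_sum]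
      rw [Finset.sum_comm]
      exact Finset.sum_congr rfl fun j _ => Finset.sum_congr rfl fun k _ => by ring

end Pool.Agent.Lib.EpZ
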