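import Pool.Agent.Lib.EpZ.LatA

/-!
# Local minima of lattices and of forms
-/

open Matrix Filter Topology
open scoped Matrix.Norms.Elementwise

namespace Pool.Agent.Lib.EpZ

variable {d : ℕ}

/-- `Λ` is a local minimum of `ζ(·, s)` among the lattices of determinant `1`. -/
def IsLocalMinimum (Λ : Set (EuclideanSpace ℝ (Fin d))) (s : ℝ) : Prop :=
  ∃ B : Mx d, |B.det| = 1 ∧ Λ = lat B ∧ ∃ ε > 0,
    ∀ B' : Mx d, |B'.det| = 1 → (∀ i j, |B' i j - B i j| < ε) → zeta Λ s ≤ zeta (lat B') s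

/-- the packing of equal balls with centres `Λ` has locally maximal density among the lattices of
determinant `1` (the density is an increasing function of `minLen`) -/
def IsLocallyDensest (Λ : Set (EuclideanSpace ℝ (Fin d))) : Prop :=
  ∃ B : Mx d, |B.det| = 1 ∧ Λ = lat B ∧ ∃ ε > 0,
    ∀ B' : Mx d, |B'.det| = 1 → (∀ i j, |B' i j - B i j| < ε) → minLen (lat B') ≤ minLen Λ

namespace LatBAux

theorem gram_mul (A B : Mx d) : gram (A * B) = Bᵀ * gram A * B := by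
  unfold gram
  rw [transpose_mul]
  simp only [Matrix.mul_assoc]

theorem det_gram (B : Mx d) : (gram B).det = B.det ^ 2 := by
  unfold gram
  rw [det_mul, det_transpose, pow_two]

theorem det_gram_one {B : Mx d} (hB : |B.det| = 1) : (gram B).det = 1 := by
  rw [det_gram, ← sq_abs, hB, one_pow]

theorem ne_zero_of {B : Mx d} (hB : |B.det| = 1) : B.det ≠ 0 := by
  intro h
  rw [h, abs_zero] at hB
  exact zero_ne_one hB

theorem pd_one : PD (1 : Mx d) := by
  refine ⟨by unfold Matrix.IsSymm; exact transpose_one, fun v hv => ?_⟩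
  unfold qr
  rw [one_mulVec]
  have h1 : v ⬝ᵥ v = ∑ i, v i ^ 2 := by
    unfold dotProduct
    exact Finset.sum_congr rfl fun i _ => by ring
  rw [h1]
  obtain ⟨i, hi⟩ : ∃ i, v i ≠ 0 := by
    by_contra hc
    push Not at hc
    exact hv (funext hc)
  exact Finset.sum_pos' (fun j _ => sq_nonneg _) ⟨i, Finset.mem_univ i, by positivity⟩

theorem pd_conj {Q B : Mx d} (hQ : PD Q) (hB : B.det ≠ 0) : PD (Bᵀ * Q * B) := by
  refine ⟨?_, fun v hv => ?_⟩
  · unfold Matrix.IsSymm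
    rw [transpose_mul, transpose_mul, transpose_transpose, hQ.1.eq, Matrix.mul_assoc]
  · rw [RootAux.qr_conj]
    refine hQ.2 _ ?_
    intro h0
    apply hv
    have h1 : B⁻¹ *ᵥ (B *ᵥ v) = 0 := by rw [h0, mulVec_zero]
    rwa [mulVec_mulVec, nonsing_inv_mul _ hB.isUnit, one_mulVec] at h1

theorem near_of {f : Mx d → Mx d} {A : Mx d} (hf : ContinuousAt f A) {ε : ℝ} (hε : 0 < ε) :
    ∃ δ > 0, ∀ X : Mx d, ‖X - A‖ < δ → ‖f X - f A‖ < ε := by
  obtain ⟨δ, hδ, h⟩ := Metric.continuousAt_iff.mp hf ε hε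
  refine ⟨δ, hδ, fun X hX => ?_⟩
  have := h (x := X) (by rw [dist_eq_norm]; exact hX)
  rwa [dist_eq_norm] at this

end LatBAux

/-- near an invertible `B` every form near `gram B` is a Gram matrix of some `B'` near `B`:
`B' = R(B⁻ᵀ Q B⁻¹) B` with the root `R` near the identity matrix. -/
theorem exists_near {B : Mx d} (hB : B.det ≠ 0) {ε : ℝ} (hε : 0 < ε) :
    ∃ r > 0, ∀ Q : Mx d, PD Q → ‖Q - gram B‖ < r → ∃ B' : Mx d, gram B' = Q ∧
      ∀ i j, |B' i j - B i j| < ε := by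
  obtain ⟨R, hR, C, r, hr, hlip⟩ := exists_root (1 : Mx d) LatBAux.pd_one
  obtain ⟨hR1, hgR1⟩ := hR 1 LatBAux.pd_one
  have hBu : IsUnit B.det := hB.isUnit
  have hort : R 1 * (R 1)ᵀ = 1 := mul_eq_one_comm.1 hgR1
  -- the linear map `X ↦ (R 1)ᵀ * X * B`
  have hc1 : Continuous fun X : Mx d => (R 1)ᵀ * X * B := by fun_prop
  obtain ⟨δ, hδ, h1⟩ := LatBAux.near_of (hc1.continuousAt (x := R 1)) hε
  have hc2 : Continuous fun Q : Mx d => (B⁻¹)ᵀ * Q * B⁻¹ := by fun_prop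
  have hm : 0 < min r (δ / (|C| + 1)) := lt_min hr (by positivity)
  obtain ⟨ρ, hρ, h2⟩ := LatBAux.near_of (hc2.continuousAt (x := gram B)) hm
  have e0 : (B⁻¹)ᵀ * gram B * B⁻¹ = 1 := by
    rw [← LatBAux.gram_mul, mul_nonsing_inv _ hBu]
    unfold gram
    simp
  have e1 : (R 1)ᵀ * R 1 * B = B := by
    have : (R 1)ᵀ * R 1 = 1 := hgR1
    rw [this, Matrix.one_mul]
  refine ⟨ρ, hρ, fun Q hQ hlt => ?_⟩
  have h3 := h2 Q hlt
  simp only [e0] at h3
  have hiu : (B⁻¹).det ≠ 0 := by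
    rw [det_nonsing_inv, Ring.inverse_eq_inv']
    exact inv_ne_zero hB
  have hQt : PD ((B⁻¹)ᵀ * Q * B⁻¹) := LatBAux.pd_conj hQ hiu
  set Qt := (B⁻¹)ᵀ * Q * B⁻¹ with hQtdef
  obtain ⟨_, hgQ⟩ := hR Qt hQt
  have h4 : ‖R Qt - R 1‖ < δ := by
    have h5 := hlip Qt hQt (le_trans h3.le (min_le_left _ _))
    have h6 : ‖Qt - 1‖ < δ / (|C| + 1) := lt_of_lt_of_le h3 (min_le_right _ _)
    have h7 : C * ‖Qt - 1‖ ≤ |C| * ‖Qt - 1‖ :=
      mul_le_mul_of_nonneg_right (le_abs_self C) (norm_nonneg _)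
    have h8 : |C| * ‖Qt - 1‖ ≤ (|C| + 1) * ‖Qt - 1‖ :=
      mul_le_mul_of_nonneg_right (by linarith) (norm_nonneg _)
    have h9 : (|C| + 1) * ‖Qt - 1‖ < δ := by
      rw [lt_div_iff₀ (by positivity)] at h6
      linarith
    linarith
  have h10 := h1 (R Qt) h4
  simp only [e1] at h10
  refine ⟨(R 1)ᵀ * R Qt * B, ?_, ?_⟩
  · rw [LatBAux.gram_mul, LatBAux.gram_mul]
    have e2 : gram (R 1)ᵀ = 1 := by
      unfold gram
      rw [transpose_transpose]
      exact hort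
    rw [e2, Matrix.mul_one]
    have e3 : (R Qt)ᵀ * R Qt = Qt := hgQ
    rw [e3, hQtdef]
    calc Bᵀ * ((B⁻¹)ᵀ * Q * B⁻¹) * B = (Bᵀ * (B⁻¹)ᵀ) * Q * (B⁻¹ * B) := by
          simp only [Matrix.mul_assoc]
      _ = Q := by
          rw [← transpose_mul, nonsing_inv_mul _ hBu, transpose_one, Matrix.one_mul,
            Matrix.mul_one]
  · intro i j
    rw [Matrix.norm_lt_iff hε] at h10
    have := h10 i j
    rwa [Matrix.sub_apply, Real.norm_eq_abs] at this

theorem isLocalMinimum_iff (hd : d ≠ 0) {B : Mx d} (hB : |B.det| = 1) {s : ℝ}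
    (hs : (d : ℝ) / 2 < s) : IsLocalMinimum (lat B) s ↔ LocMin s (gram B) := by
  have hEn1 : ∀ {X : Mx d}, |X.det| = 1 → zeta (lat X) s = En s (gram X) := by
    intro X hX
    rw [zeta_lat (LatBAux.ne_zero_of hX)]
    unfold En
    rw [LatBAux.det_gram_one hX, Real.one_rpow, mul_one]
  constructor
  · rintro ⟨B₀, hB₀, hlat, ε, hε, hmin⟩
    have hE : Eqv (gram B₀) (gram B) := by
      rw [← isometric_iff (LatBAux.ne_zero_of hB₀) (LatBAux.ne_zero_of hB)]
      refine ⟨LinearIsometryEquiv.refl ℝ _, ?_⟩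
      rw [hlat]
      simp
    refine hE.locMin ?_
    obtain ⟨r, hr, hnear⟩ := exists_near (LatBAux.ne_zero_of hB₀) hε
    have hdet1 : (gram B₀).det = 1 := LatBAux.det_gram_one hB₀
    have hcont : ContinuousAt (fun Q : Mx d => (Q.det ^ (-(1 / (d : ℝ)))) • Q) (gram B₀) := by
      have hc : ContinuousAt (fun Q : Mx d => Q.det ^ (-(1 / (d : ℝ)))) (gram B₀) := by
        have hc0 : Continuous fun Q : Mx d => Q.det := by fun_prop
        refine hc0.continuousAt.rpow_const (Or.inl ?_)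
        rw [hdet1]
        exact one_ne_zero
      exact hc.smul continuousAt_id
    obtain ⟨δ, hδ, hlt⟩ := LatBAux.near_of hcont hr
    have e0 : ((gram B₀).det ^ (-(1 / (d : ℝ)))) • gram B₀ = gram B₀ := by
      rw [hdet1, Real.one_rpow, one_smul]
    simp only [e0] at hlt
    refine ⟨δ, hδ, fun Q' hQ' hd' => ?_⟩
    have hdp := hQ'.det_pos
    set l := Q'.det ^ (-(1 / (d : ℝ))) with hl
    have hl0 : 0 < l := Real.rpow_pos_of_pos hdp _
    obtain ⟨B', hB', hB'n⟩ := hnear (l • Q') (hQ'.smul hl0) (hlt Q' hd')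
    have hdl : (l • Q').det = 1 := by
      rw [det_smul, Fintype.card_fin, hl, ← Real.rpow_natCast, ← Real.rpow_mul hdp.le]
      have hd0 : (d : ℝ) ≠ 0 := by exact_mod_cast hd
      have : -(1 / (d : ℝ)) * (d : ℝ) = -1 := by field_simp
      rw [this, Real.rpow_neg_one, inv_mul_cancel₀ hdp.ne']
    have hB'1 : |B'.det| = 1 := by
      have h1 : B'.det ^ 2 = 1 := by rw [← LatBAux.det_gram, hB', hdl]
      rw [← sq_abs] at h1
      nlinarith [abs_nonneg B'.det]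
    have h2 := hmin B' hB'1 hB'n
    rw [hlat, hEn1 hB₀, hEn1 hB'1, hB', En_smul hd hQ' hl0] at h2
    exact h2
  · rintro ⟨ε, hε, hmin⟩
    have hcont : Continuous (gram : Mx d → Mx d) := by
      unfold gram
      fun_prop
    obtain ⟨δ, hδ, hlt⟩ := LatBAux.near_of (hcont.continuousAt (x := B)) hε
    refine ⟨B, hB, rfl, δ, hδ, fun B' hB' hn => ?_⟩
    rw [hEn1 hB, hEn1 hB']
    refine hmin _ (gram_pd (LatBAux.ne_zero_of hB')) (hlt B' ?_)
    rw [Matrix.norm_lt_iff hδ]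
    intro i j
    rw [Matrix.sub_apply, Real.norm_eq_abs]
    exact hn i j

end Pool.Agent.Lib.EpZ
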