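import Pool.Agent.Lib.EpZ.Defs

/-!
# Simultaneous diagonalisation and the determinant along lines

Proof. `Q` positive definite: `Q = R * R` with `R` positive definite (or `Q = Lᵀ L`), so with
`P₀ = R⁻¹` we have `P₀ᵀ Q P₀ = 1`; the symmetric matrix `P₀ᵀ H P₀` is diagonalised by an orthogonal
`U` (spectral theorem), `P = P₀ U`. Then `(det P)² det (Q + t H) = ∏ (1 + t μ i)`, `Q⁻¹ = P Pᵀ`,
`tr (Q⁻¹ H) = tr (Pᵀ H P)`, and so on.
-/

open Matrix Filter Topology
open scoped Matrix.Norms.Elementwise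

namespace Pool.Agent.Lib.EpZ

variable {d : ℕ}

namespace SimAux

lemma spec {S : Mx d} (hS : S.IsSymm) :
    ∃ (U : Mx d) (l : Fin d → ℝ), Uᵀ * U = 1 ∧ Uᵀ * S * U = diagonal l := by
  have hA : S.IsHermitian := by
    unfold Matrix.IsHermitian
    rw [conjTranspose_eq_transpose_of_trivial]
    exact hS
  refine ⟨(hA.eigenvectorUnitary : Mx d), hA.eigenvalues, ?_, ?_⟩
  · have := Unitary.coe_star_mul_self hA.eigenvectorUnitary
    rw [star_eq_conjTranspose, conjTranspose_eq_transpose_of_trivial] at this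
    exact this
  · have := hA.conjStarAlgAut_star_eigenvectorUnitary
    rw [Unitary.conjStarAlgAut_star_apply, star_eq_conjTranspose,
      conjTranspose_eq_transpose_of_trivial] at this
    rw [this]
    rfl

lemma qr_conj (Q P : Mx d) (v : Fin d → ℝ) : qr (Pᵀ * Q * P) v = qr Q (P *ᵥ v) := by
  unfold qr
  rw [← mulVec_mulVec, ← mulVec_mulVec, dotProduct_mulVec v Pᵀ, vecMul_transpose]

lemma qr_diagonal (l : Fin d → ℝ) (i : Fin d) : qr (diagonal l) (Pi.single i 1) = l i := by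
  unfold qr
  simp

lemma diag_pos {Q P : Mx d} (hQ : PD Q) (hP : P.det ≠ 0) {l : Fin d → ℝ}
    (h : Pᵀ * Q * P = diagonal l) (i : Fin d) : 0 < l i := by
  rw [← qr_diagonal l i, ← h, qr_conj]
  apply hQ.2
  intro h0
  have h1 : P⁻¹ *ᵥ (P *ᵥ (Pi.single i (1 : ℝ))) = 0 := by rw [h0, mulVec_zero]
  rw [mulVec_mulVec, nonsing_inv_mul _ (isUnit_iff_ne_zero.2 hP), one_mulVec] at h1
  have h2 := congrFun h1 i
  simp at h2

lemma symm_conj {H : Mx d} (hH : H.IsSymm) (P : Mx d) : (Pᵀ * H * P).IsSymm := by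
  unfold Matrix.IsSymm
  rw [transpose_mul, transpose_mul, transpose_transpose, hH.eq, Matrix.mul_assoc]

lemma det_ne_of_conj {Q P : Mx d} (h : Pᵀ * Q * P = 1) : P.det ≠ 0 := by
  intro h0
  have := congrArg Matrix.det h
  rw [det_mul, h0, mul_zero, det_one] at this
  exact zero_ne_one this

lemma log_bounds {y : ℝ} (hy : |y| ≤ 1 / 7) :
    Real.log (1 + y) ≤ y - y ^ 2 / 3 ∧ y - y ^ 2 ≤ Real.log (1 + y) := by
  have h1 := Real.abs_log_sub_add_sum_range_le (x := -y) (by rw [abs_neg]; linarith) 2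
  rw [abs_neg, sub_neg_eq_add] at h1
  simp only [Finset.sum_range_succ, Finset.sum_range_zero] at h1
  norm_num at h1
  have h2 : |y| ^ 3 / (1 - |y|) ≤ y ^ 2 / 6 := by
    rw [div_le_iff₀ (by linarith), ← sq_abs y]
    have h3 := abs_nonneg y
    nlinarith [sq_nonneg |y|]
  have h3 := (abs_le.1 (h1.trans h2))
  have h4 := sq_nonneg y
  constructor <;> linarith [h3.1, h3.2]

end SimAux

open SimAux

/-- simultaneous diagonalisation -/
theorem simDiag {Q H : Mx d} (hQ : PD Q) (hH : H.IsSymm) :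
    ∃ (P : Mx d) (μ : Fin d → ℝ), P.det ≠ 0 ∧ Pᵀ * Q * P = 1 ∧ Pᵀ * H * P = diagonal μ := by
  obtain ⟨U, l, hU, hl⟩ := spec hQ.1
  have hUd : U.det ≠ 0 := by
    intro h0
    have := congrArg Matrix.det hU
    rw [det_mul, h0, mul_zero, det_one] at this
    exact zero_ne_one this
  have hlp : ∀ i, 0 < l i := diag_pos hQ hUd hl
  set P0 : Mx d := U * diagonal (fun i => (Real.sqrt (l i))⁻¹) with hP0
  have h1 : P0ᵀ * Q * P0 = 1 := by
    have e : P0ᵀ * Q * P0 = diagonal (fun i => (Real.sqrt (l i))⁻¹) * (Uᵀ * Q * U) *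
        diagonal (fun i => (Real.sqrt (l i))⁻¹) := by
      rw [hP0, transpose_mul, diagonal_transpose]
      simp only [Matrix.mul_assoc]
    rw [e, hl, diagonal_mul_diagonal, diagonal_mul_diagonal, ← diagonal_one]
    congr 1
    funext i
    have h2 := Real.mul_self_sqrt (hlp i).le
    have h3 : 0 < Real.sqrt (l i) := Real.sqrt_pos.2 (hlp i)
    field_simp
    nlinarith
  obtain ⟨V, m, hV, hm⟩ := spec (symm_conj hH P0)
  have h3 : (P0 * V)ᵀ * Q * (P0 * V) = 1 := by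
    have e : (P0 * V)ᵀ * Q * (P0 * V) = Vᵀ * (P0ᵀ * Q * P0) * V := by
      rw [transpose_mul]
      simp only [Matrix.mul_assoc]
    rw [e, h1, Matrix.mul_one, hV]
  refine ⟨P0 * V, m, det_ne_of_conj h3, h3, ?_⟩
  rw [← hm, transpose_mul]
  simp only [Matrix.mul_assoc]

/-- the numerical consequences used later -/
theorem simDiag_data {Q H : Mx d} (hQ : PD Q) (hH : H.IsSymm) :
    ∃ μ : Fin d → ℝ, (∀ t : ℝ, (Q + t • H).det = Q.det * ∏ i, (1 + t * μ i)) ∧
      (Q⁻¹ * H).trace = ∑ i, μ i ∧ (Q⁻¹ * H * (Q⁻¹ * H)).trace = ∑ i, μ i ^ 2 ∧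
      (PD (Q + H) → ∀ i, 0 < 1 + μ i) ∧ (H ≠ 0 → μ ≠ 0) := by
  obtain ⟨P, m, hP, h1, h2⟩ := simDiag hQ hH
  have hc : ∀ t : ℝ, Pᵀ * (Q + t • H) * P = diagonal (fun i => 1 + t * m i) := by
    intro t
    rw [Matrix.mul_add, Matrix.add_mul, h1, Matrix.mul_smul, Matrix.smul_mul, h2]
    ext i j
    by_cases hij : i = j
    · subst hij
      simp
    · simp [hij]
  have hd : ∀ t : ℝ, P.det * P.det * (Q + t • H).det = ∏ i, (1 + t * m i) := by
    intro t
    have := congrArg Matrix.det (hc t)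
    rw [det_mul, det_mul, det_transpose, det_diagonal] at this
    rw [← this]
    ring
  have hd0 : P.det * P.det * Q.det = 1 := by
    have := congrArg Matrix.det h1
    rw [det_mul, det_mul, det_transpose, det_one] at this
    rw [← this]
    ring
  have hinv : Q⁻¹ = P * Pᵀ := by
    apply Matrix.inv_eq_left_inv
    have h3 : P * (Pᵀ * Q) = 1 := mul_eq_one_comm.1 h1
    rw [Matrix.mul_assoc]
    exact h3
  refine ⟨m, fun t => ?_, ?_, ?_, ?_, ?_⟩
  · rw [← hd t]
    have : Q.det * (P.det * P.det * (Q + t • H).det) =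
        (P.det * P.det * Q.det) * (Q + t • H).det := by ring
    rw [this, hd0, one_mul]
  · rw [hinv, Matrix.mul_assoc, Matrix.trace_mul_comm, h2, trace_diagonal]
  · have e : P * Pᵀ * H * (P * Pᵀ * H) = P * (Pᵀ * H * P * (Pᵀ * H)) := by
      simp only [Matrix.mul_assoc]
    rw [hinv, e, Matrix.trace_mul_comm]
    have e2 : Pᵀ * H * P * (Pᵀ * H) * P = (Pᵀ * H * P) * (Pᵀ * H * P) := by
      simp only [Matrix.mul_assoc]
    rw [e2, h2, diagonal_mul_diagonal, trace_diagonal]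
    exact Finset.sum_congr rfl fun i _ => (sq (m i)).symm
  · intro hpd i
    have h3 := hc 1
    rw [one_smul] at h3
    have := diag_pos hpd hP h3 i
    simpa using this
  · intro h0 hm
    apply h0
    rw [hm] at h2
    have h3 : Pᵀ * H * P = 0 := by
      rw [h2]
      ext i j
      by_cases hij : i = j
      · subst hij
        simp
      · simp [hij]
    have hPu : IsUnit P.det := isUnit_iff_ne_zero.2 hP
    have hPtu : IsUnit (Pᵀ).det := by rwa [det_transpose]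
    calc H = (Pᵀ)⁻¹ * (Pᵀ * H * P) * P⁻¹ := by
          rw [Matrix.mul_assoc (Pᵀ)⁻¹, Matrix.mul_assoc (Pᵀ * H), mul_nonsing_inv _ hPu,
            Matrix.mul_one, ← Matrix.mul_assoc, nonsing_inv_mul _ hPtu, Matrix.one_mul]
      _ = 0 := by rw [h3, Matrix.mul_zero, Matrix.zero_mul]

/-- the arithmetic-geometric mean inequality for determinants -/
theorem amgm (hd : d ≠ 0) {Q Q' : Mx d} (hQ : PD Q) (hQ' : PD Q') :
    (Q'.det / Q.det) ^ ((1 : ℝ) / d) ≤ (Q⁻¹ * Q').trace / d := by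
  have hdp : (0 : ℝ) < d := by exact_mod_cast Nat.pos_of_ne_zero hd
  have hsym : (Q' - Q).IsSymm := hQ'.1.sub hQ.1
  obtain ⟨m, h1, h2, _, h4, _⟩ := simDiag_data hQ hsym
  have hq : Q + (Q' - Q) = Q' := by abel
  have hpos : ∀ i, 0 < 1 + m i := h4 (by rw [hq]; exact hQ')
  have h5 := h1 1
  rw [one_smul, hq] at h5
  simp only [one_mul] at h5
  have hQd := hQ.det_pos
  have h6 : Q'.det / Q.det = ∏ i, (1 + m i) := by
    rw [h5]
    field_simp
  have h7 : (Q⁻¹ * Q').trace = ∑ i, (1 + m i) := by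
    have e : Q⁻¹ * Q' = 1 + Q⁻¹ * (Q' - Q) := by
      rw [Matrix.mul_sub, nonsing_inv_mul _ (isUnit_iff_ne_zero.2 hQd.ne')]
      abel
    rw [e, trace_add, h2, trace_one, Finset.sum_add_distrib]
    simp
  rw [h6, h7]
  have h8 := Real.geom_mean_le_arith_mean Finset.univ (fun _ : Fin d => (1 : ℝ))
    (fun i => 1 + m i) (fun _ _ => zero_le_one) (by simpa using hdp) (fun i _ => (hpos i).le)
  simp only [Real.rpow_one, one_mul, Finset.sum_const, Finset.card_univ, Fintype.card_fin,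
    nsmul_eq_mul, mul_one] at h8
  rw [one_div]
  exact h8

theorem trace_sq_pos {Q H : Mx d} (hQ : PD Q) (hH : H.IsSymm) (h0 : H ≠ 0) :
    0 < (Q⁻¹ * H * (Q⁻¹ * H)).trace := by
  obtain ⟨m, _, _, h3, _, h5⟩ := simDiag_data hQ hH
  rw [h3]
  have hm := h5 h0
  obtain ⟨i, hi⟩ : ∃ i, m i ≠ 0 := by
    by_contra hc
    push Not at hc
    exact hm (funext hc)
  exact Finset.sum_pos' (fun _ _ => sq_nonneg _) ⟨i, Finset.mem_univ i, by positivity⟩

/-- second order upper bound of the logarithm of the determinant -/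
theorem logdet_upper {Q H : Mx d} (hQ : PD Q) (hH : H.IsSymm) :
    ∃ t₀ > 0, ∀ t : ℝ, |t| ≤ t₀ →
      Real.log (Q + t • H).det ≤ Real.log Q.det + t * (Q⁻¹ * H).trace -
        t ^ 2 / 3 * (Q⁻¹ * H * (Q⁻¹ * H)).trace := by
  obtain ⟨m, h1, h2, h3, _, _⟩ := simDiag_data hQ hH
  have hS : 0 ≤ ∑ i, |m i| := Finset.sum_nonneg fun _ _ => abs_nonneg _
  refine ⟨1 / (7 * (1 + ∑ i, |m i|)), by positivity, fun t ht => ?_⟩
  have hb : ∀ i, |t * m i| ≤ 1 / 7 := by
    intro i
    have h4 : |m i| ≤ 1 + ∑ i, |m i| := by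
      have := Finset.single_le_sum (f := fun i => |m i|) (fun _ _ => abs_nonneg _)
        (Finset.mem_univ i)
      linarith
    rw [abs_mul]
    calc |t| * |m i| ≤ 1 / (7 * (1 + ∑ i, |m i|)) * (1 + ∑ i, |m i|) :=
          mul_le_mul ht h4 (abs_nonneg _) (by positivity)
      _ = 1 / 7 := by field_simp
  have hpos : ∀ i, 0 < 1 + t * m i := by
    intro i
    have := (abs_le.1 (hb i)).1
    linarith
  rw [h1 t, Real.log_mul hQ.det_pos.ne' (Finset.prod_pos fun i _ => hpos i).ne',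
    Real.log_prod (fun i _ => (hpos i).ne'), h2, h3]
  have h5 : ∑ i, Real.log (1 + t * m i) ≤ ∑ i, (t * m i - (t * m i) ^ 2 / 3) :=
    Finset.sum_le_sum fun i _ => (log_bounds (hb i)).1
  have h6 : ∑ i, (t * m i - (t * m i) ^ 2 / 3) = t * ∑ i, m i - t ^ 2 / 3 * ∑ i, m i ^ 2 := by
    rw [Finset.sum_sub_distrib, Finset.mul_sum, Finset.mul_sum]
    congr 1
    exact Finset.sum_congr rfl fun i _ => by ring
  linarith

/-- second order lower bound, uniform in the direction -/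
theorem logdet_lower {A : Mx d} (hA : PD A) :
    ∃ r > 0, ∃ C : ℝ, ∀ H : Mx d, H.IsSymm → ‖H‖ ≤ r →
      Real.log A.det + (A⁻¹ * H).trace - C * ‖H‖ ^ 2 ≤ Real.log (A + H).det := by
  set a : ℝ := (d : ℝ) ^ 2 * ‖A⁻¹‖ with ha
  have ha0 : 0 ≤ a := by positivity
  refine ⟨1 / (7 * (1 + a)), by positivity, a ^ 2, fun H hH hr => ?_⟩
  obtain ⟨m, h1, h2, h3, _, _⟩ := simDiag_data hA hH
  have hentry : ∀ i j, |(A⁻¹ * H) i j| ≤ d * (‖A⁻¹‖ * ‖H‖) := by
    intro i j
    rw [Matrix.mul_apply]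
    refine (Finset.abs_sum_le_sum_abs _ _).trans ?_
    calc ∑ k, |A⁻¹ i k * H k j| ≤ ∑ _k : Fin d, ‖A⁻¹‖ * ‖H‖ := by
          refine Finset.sum_le_sum fun k _ => ?_
          rw [abs_mul]
          exact mul_le_mul (entry_le _ _ _) (entry_le _ _ _) (abs_nonneg _) (norm_nonneg _)
      _ = _ := by simp
  have hsq : ∑ i, m i ^ 2 ≤ a ^ 2 * ‖H‖ ^ 2 := by
    rw [← h3, Matrix.trace]
    simp only [Matrix.diag_apply, Matrix.mul_apply (M := A⁻¹ * H)]
    calc ∑ i, ∑ j, (A⁻¹ * H) i j * (A⁻¹ * H) j i ≤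
          ∑ _i : Fin d, ∑ _j : Fin d, (d * (‖A⁻¹‖ * ‖H‖)) * (d * (‖A⁻¹‖ * ‖H‖)) := by
          refine Finset.sum_le_sum fun i _ => Finset.sum_le_sum fun j _ => ?_
          refine (le_abs_self _).trans ?_
          rw [abs_mul]
          exact mul_le_mul (hentry i j) (hentry j i) (abs_nonneg _) (by positivity)
      _ = a ^ 2 * ‖H‖ ^ 2 := by
          simp only [Finset.sum_const, Finset.card_univ, Fintype.card_fin, nsmul_eq_mul]
          rw [ha]
          ring
  have hb : ∀ i, |m i| ≤ 1 / 7 := by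
    intro i
    have h4 : m i ^ 2 ≤ (a * ‖H‖) ^ 2 := by
      have := Finset.single_le_sum (f := fun i => m i ^ 2) (fun _ _ => sq_nonneg _)
        (Finset.mem_univ i)
      rw [mul_pow]
      exact this.trans hsq
    have h5 : |m i| ≤ a * ‖H‖ := abs_le_of_sq_le_sq h4 (by positivity)
    calc |m i| ≤ a * ‖H‖ := h5
      _ ≤ (1 + a) * (1 / (7 * (1 + a))) :=
        mul_le_mul (by linarith) hr (norm_nonneg _) (by positivity)
      _ = 1 / 7 := by field_simp
  have hpos : ∀ i, 0 < 1 + m i := by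
    intro i
    have := (abs_le.1 (hb i)).1
    linarith
  have h6 := h1 1
  rw [one_smul] at h6
  simp only [one_mul] at h6
  rw [h6, Real.log_mul hA.det_pos.ne' (Finset.prod_pos fun i _ => hpos i).ne',
    Real.log_prod (fun i _ => (hpos i).ne'), h2]
  have h5 : ∑ i, (m i - m i ^ 2) ≤ ∑ i, Real.log (1 + m i) :=
    Finset.sum_le_sum fun i _ => (log_bounds (hb i)).2
  rw [Finset.sum_sub_distrib] at h5
  linarith

end Pool.Agent.Lib.EpZ
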