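import Pool.Agent.Lib.EpZ.Red
import Pool.Agent.Lib.EpZ.Sim

/-!
# Invariance under `GL_d(ℤ)`
-/

open Matrix Filter Topology
open scoped Matrix.Norms.Elementwise

namespace Pool.Agent.Lib.EpZ

variable {d : ℕ}

/-- `Q' = Uᵀ Q U` for some `U ∈ GL_d(ℤ)` -/
def Eqv (Q Q' : Mx d) : Prop := ∃ U : Matrix (Fin d) (Fin d) ℤ, IsUnit U.det ∧ Q' = act U Q

namespace InvAux

lemma rv_mulVec (U : Matrix (Fin d) (Fin d) ℤ) (x : Fin d → ℤ) :
    rv (U *ᵥ x) = U.map (Int.cast : ℤ → ℝ) *ᵥ rv x := by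
  funext i
  simp [rv, mulVec, dotProduct]

lemma map_mul (U V : Matrix (Fin d) (Fin d) ℤ) :
    (U * V).map (Int.cast : ℤ → ℝ) = U.map (Int.cast : ℤ → ℝ) * V.map (Int.cast : ℤ → ℝ) := by
  ext i j
  simp [Matrix.mul_apply]

lemma map_one' : (1 : Matrix (Fin d) (Fin d) ℤ).map (Int.cast : ℤ → ℝ) = 1 := by
  ext i j
  simp only [Matrix.map_apply, Matrix.one_apply]
  split_ifs <;> simp

lemma act_one (Q : Mx d) : act 1 Q = Q := by
  unfold act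
  rw [map_one']
  simp

lemma act_act (U V : Matrix (Fin d) (Fin d) ℤ) (Q : Mx d) : act V (act U Q) = act (U * V) Q := by
  unfold act
  rw [map_mul, transpose_mul]
  simp only [Matrix.mul_assoc]

lemma act_inv {U : Matrix (Fin d) (Fin d) ℤ} (hU : IsUnit U.det) (Q : Mx d) :
    act U⁻¹ (act U Q) = Q := by
  rw [act_act, mul_nonsing_inv _ hU, act_one]

lemma act_inv' {U : Matrix (Fin d) (Fin d) ℤ} (hU : IsUnit U.det) (Q : Mx d) :
    act U (act U⁻¹ Q) = Q := by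
  rw [act_act, nonsing_inv_mul _ hU, act_one]

lemma act_zero (U : Matrix (Fin d) (Fin d) ℤ) : act U (0 : Mx d) = 0 := by
  simp [act]

lemma act_symm {H : Mx d} (hH : H.IsSymm) (U : Matrix (Fin d) (Fin d) ℤ) : (act U H).IsSymm :=
  SimAux.symm_conj hH _

lemma isUnit_map {U : Matrix (Fin d) (Fin d) ℤ} (hU : IsUnit U.det) :
    IsUnit (U.map (Int.cast : ℤ → ℝ)).det := by
  have h1 : (U.map (Int.cast : ℤ → ℝ)).det = ((U.det : ℤ) : ℝ) := by
    have := (Int.castRingHom ℝ).map_det U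
    simp only [RingHom.mapMatrix_apply] at this
    exact this.symm
  rw [h1]
  exact hU.map (Int.castRingHom ℝ)

lemma det_map_sq {U : Matrix (Fin d) (Fin d) ℤ} (hU : IsUnit U.det) :
    (U.map (Int.cast : ℤ → ℝ)).det * (U.map (Int.cast : ℤ → ℝ)).det = 1 := by
  have h1 : (U.map (Int.cast : ℤ → ℝ)).det = ((U.det : ℤ) : ℝ) := by
    have := (Int.castRingHom ℝ).map_det U
    simp only [RingHom.mapMatrix_apply] at this
    exact this.symm
  rw [h1]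
  rcases Int.isUnit_iff.1 hU with h | h <;> rw [h] <;> norm_num

/-- the permutation of the nonzero integer vectors -/
noncomputable def perm {U : Matrix (Fin d) (Fin d) ℤ} (hU : IsUnit U.det) : NZ d ≃ NZ d where
  toFun x := ⟨U *ᵥ x.1, fun h => x.2 (by
    have h1 : U⁻¹ *ᵥ (U *ᵥ x.1) = 0 := by rw [h, mulVec_zero]
    rwa [mulVec_mulVec, nonsing_inv_mul _ hU, one_mulVec] at h1)⟩
  invFun x := ⟨U⁻¹ *ᵥ x.1, fun h => x.2 (by
    have h1 : U *ᵥ (U⁻¹ *ᵥ x.1) = 0 := by rw [h, mulVec_zero]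
    rwa [mulVec_mulVec, mul_nonsing_inv _ hU, one_mulVec] at h1)⟩
  left_inv x := Subtype.ext (by
    show U⁻¹ *ᵥ (U *ᵥ x.1) = x.1
    rw [mulVec_mulVec, nonsing_inv_mul _ hU, one_mulVec])
  right_inv x := Subtype.ext (by
    show U *ᵥ (U⁻¹ *ᵥ x.1) = x.1
    rw [mulVec_mulVec, mul_nonsing_inv _ hU, one_mulVec])

/-- traces are transported -/
lemma trace_act {U : Matrix (Fin d) (Fin d) ℤ} (hU : IsUnit U.det) (Q : Mx d)
    (H : Mx d) : ((act U Q)⁻¹ * H).trace = (Q⁻¹ * act U⁻¹ H).trace := by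
  set R := U.map (Int.cast : ℤ → ℝ) with hR
  have hRu : IsUnit R.det := isUnit_map hU
  have hRi : U⁻¹.map (Int.cast : ℤ → ℝ) = R⁻¹ := by
    symm
    apply inv_eq_right_inv
    rw [hR, ← map_mul, mul_nonsing_inv _ hU, map_one']
  unfold act
  rw [← hR, hRi, Matrix.mul_inv_rev, Matrix.mul_inv_rev, ← transpose_nonsing_inv]
  rw [Matrix.mul_assoc, Matrix.trace_mul_comm]
  simp only [Matrix.mul_assoc]

end InvAux

open InvAux

theorem qf_act (U : Matrix (Fin d) (Fin d) ℤ) (Q : Mx d) (x : Fin d → ℤ) :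
    qf (act U Q) x = qf Q (U *ᵥ x) := by
  unfold qf act
  rw [SimAux.qr_conj, rv_mulVec]

theorem Eqv.refl (Q : Mx d) : Eqv Q Q := ⟨1, by simp, (act_one Q).symm⟩

theorem Eqv.symm {Q Q' : Mx d} (h : Eqv Q Q') : Eqv Q' Q := by
  obtain ⟨U, hU, rfl⟩ := h
  exact ⟨U⁻¹, isUnit_nonsing_inv_det _ hU, (act_inv hU Q).symm⟩

theorem Eqv.trans {Q Q' Q'' : Mx d} (h : Eqv Q Q') (h' : Eqv Q' Q'') : Eqv Q Q'' := by
  obtain ⟨U, hU, rfl⟩ := h
  obtain ⟨V, hV, rfl⟩ := h'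
  exact ⟨U * V, by rw [det_mul]; exact hU.mul hV, act_act U V Q⟩

theorem continuous_act (U : Matrix (Fin d) (Fin d) ℤ) : Continuous (act U : Mx d → Mx d) := by
  unfold act
  fun_prop

theorem Eqv.pd {Q Q' : Mx d} (h : Eqv Q Q') (hQ : PD Q) : PD Q' := by
  obtain ⟨U, hU, rfl⟩ := h
  refine ⟨act_symm hQ.1 U, fun v hv => ?_⟩
  unfold act
  rw [SimAux.qr_conj]
  apply hQ.2
  intro h0
  apply hv
  have h1 : (U.map (Int.cast : ℤ → ℝ))⁻¹ *ᵥ (U.map (Int.cast : ℤ → ℝ) *ᵥ v) = 0 := by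
    rw [h0, mulVec_zero]
  rwa [mulVec_mulVec, nonsing_inv_mul _ (isUnit_map hU), one_mulVec] at h1

theorem Eqv.F {Q Q' : Mx d} (h : Eqv Q Q') (s : ℝ) : F s Q' = F s Q := by
  obtain ⟨U, hU, rfl⟩ := h
  unfold EpZ.F
  rw [← (perm hU).tsum_eq fun x : NZ d => qf Q x.1 ^ (-s)]
  exact tsum_congr fun x => by rw [qf_act]; rfl

theorem Eqv.det {Q Q' : Mx d} (h : Eqv Q Q') : Q'.det = Q.det := by
  obtain ⟨U, hU, rfl⟩ := h
  unfold act
  rw [det_mul, det_mul, det_transpose]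
  have := det_map_sq hU
  linear_combination Q.det * this

theorem Eqv.crit {Q Q' : Mx d} (h : Eqv Q Q') {s : ℝ} (hQ : PD Q) (hC : Crit s Q) :
    Crit s Q' := by
  have hF := h.F s
  obtain ⟨U, hU, rfl⟩ := h
  intro H hH
  rw [hF, trace_act hU Q, ← hC _ (act_symm hH U⁻¹), ← (perm hU).tsum_eq fun x : NZ d =>
    qf Q x.1 ^ (-s) * (qf (act U⁻¹ H) x.1 / qf Q x.1)]
  refine tsum_congr fun x => ?_
  have h1 : qf (act U⁻¹ H) ((perm hU) x).1 = qf H x.1 := by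
    rw [qf_act]
    show qf H (U⁻¹ *ᵥ (U *ᵥ x.1)) = _
    rw [mulVec_mulVec, nonsing_inv_mul _ hU, one_mulVec]
  rw [h1, qf_act]
  rfl

theorem Eqv.locMin {Q Q' : Mx d} (h : Eqv Q Q') {s : ℝ} (hC : LocMin s Q) : LocMin s Q' := by
  have hEn : ∀ {A B : Mx d}, Eqv A B → En s B = En s A := by
    intro A B hAB
    unfold En
    rw [hAB.F, hAB.det]
  have h0 := h
  obtain ⟨U, hU, rfl⟩ := h
  obtain ⟨ε, hε, hmin⟩ := hC
  obtain ⟨δ, hδ, hcont⟩ := Metric.continuous_iff.1 (continuous_act U⁻¹) (act U Q) ε hε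
  refine ⟨δ, hδ, fun Q'' hQ'' hd => ?_⟩
  have h1 : Eqv Q'' (act U⁻¹ Q'') := ⟨U⁻¹, isUnit_nonsing_inv_det _ hU, rfl⟩
  rw [hEn h0, ← hEn h1]
  refine hmin _ (h1.pd hQ'') ?_
  have h2 := hcont Q'' (by rwa [dist_eq_norm])
  rwa [act_inv hU, dist_eq_norm] at h2

theorem Eqv.ext {Q Q' : Mx d} (h : Eqv Q Q') (hQ : Ext Q) : Ext Q' := by
  have hpd := h.pd hQ.1
  obtain ⟨U, hU, rfl⟩ := h
  refine ⟨hpd, fun x => ?_, fun H hH h1 h2 => ?_⟩
  · rw [qf_act]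
    exact hQ.2.1 (perm hU x)
  · have h3 : act U⁻¹ H = 0 := by
      refine hQ.2.2 _ (act_symm hH U⁻¹) (fun y hy => ?_) (by rwa [← trace_act hU Q])
      rw [qf_act]
      refine h1 ((perm hU).symm y) ?_
      rw [qf_act]
      show qf Q (U *ᵥ (U⁻¹ *ᵥ y.1)) = 1
      rw [mulVec_mulVec, mul_nonsing_inv _ hU, one_mulVec]
      exact hy
    rw [← act_inv' hU H, h3, act_zero]

end Pool.Agent.Lib.EpZ
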