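import Pool.Agent.Lib.EpZ.Sim

/-!
# First and second order conditions at a local minimum
-/

open Matrix Filter Topology
open scoped Matrix.Norms.Elementwise

namespace Pool.Agent.Lib.EpZ

variable {d : ℕ}

lemma one_add_rpow_neg_le {s y : ℝ} (hs : 0 < s) (hy : |y| ≤ 1 / 2) (hsy : s * |y| ≤ 1 / 2) :
    (1 + y) ^ (-s) ≤ 1 - s * y + 4 * (s * (s + 1)) * y ^ 2 := by
  obtain ⟨h1, h2⟩ := abs_le.mp hy
  have hpos : 0 < 1 + y := by linarith
  have hlog : y - 2 * y ^ 2 ≤ Real.log (1 + y) := by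
    have h3 := Real.one_sub_inv_le_log_of_pos hpos
    have h4 : y - 2 * y ^ 2 ≤ 1 - (1 + y)⁻¹ := by
      have h5 : 1 - (1 + y)⁻¹ = y / (1 + y) := by
        field_simp
        ring
      rw [h5, le_div_iff₀ hpos]
      nlinarith [sq_nonneg y, mul_nonneg (sq_nonneg y) (by linarith : (0 : ℝ) ≤ 1 + 2 * y)]
    linarith
  set z : ℝ := -s * y + 2 * s * y ^ 2 with hz
  have hz1 : |z| ≤ 2 * (s * |y|) := by
    have : z = -s * y * (1 - 2 * y) := by rw [hz]; ring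
    rw [this, abs_mul, abs_mul, abs_neg, abs_of_pos hs]
    have h6 : |1 - 2 * y| ≤ 2 := by
      rw [abs_le]
      constructor <;> linarith
    have : 0 ≤ s * |y| := by positivity
    nlinarith
  have hz2 : |z| ≤ 1 := by linarith
  have h7 : (1 + y) ^ (-s) ≤ Real.exp z := by
    rw [Real.rpow_def_of_pos hpos]
    refine Real.exp_le_exp.mpr ?_
    rw [hz]
    nlinarith
  have h8 := (abs_le.mp (Real.abs_exp_sub_one_sub_id_le hz2)).2
  have h9 : z ^ 2 ≤ 4 * s ^ 2 * y ^ 2 := by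
    have : |z| ^ 2 ≤ (2 * (s * |y|)) ^ 2 := pow_le_pow_left₀ (abs_nonneg _) hz1 2
    rw [sq_abs] at this
    calc z ^ 2 ≤ (2 * (s * |y|)) ^ 2 := this
      _ = 4 * s ^ 2 * |y| ^ 2 := by ring
      _ = 4 * s ^ 2 * y ^ 2 := by rw [sq_abs]
  have h10 : 0 ≤ s * y ^ 2 := by positivity
  rw [hz] at h8
  nlinarith

/-- upper expansion of `F` along a line -/
lemma F_line {s : ℝ} (hs : (d : ℝ) / 2 < s) (hs0 : 0 < s) {Q : Mx d} (hQ : PD Q) (H : Mx d) :
    ∃ t₀ > 0, ∀ t : ℝ, |t| ≤ t₀ →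
      F s (Q + t • H) ≤ F s Q - s * t * ∑' x : NZ d, qf Q x.1 ^ (-s) * (qf H x.1 / qf Q x.1) +
        4 * (s * (s + 1)) * t ^ 2 *
          ∑' x : NZ d, qf Q x.1 ^ (-s) * (qf H x.1 / qf Q x.1) ^ 2 := by
  obtain ⟨c, hc, hl⟩ := hQ.low
  set M : ℝ := d * ‖H‖ / c with hM
  have hM0 : 0 ≤ M := by positivity
  refine ⟨1 / (2 * (s + 1) * (M + 1)), by positivity, fun t ht => ?_⟩
  have hS1 := hQ.summable hs
  have hS2 := hl.summable_mul hc hs H
  have hS3 := hl.summable_mul_sq hc hs H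
  have hterm : ∀ x : NZ d, qf (Q + t • H) x.1 ^ (-s) ≤
      qf Q x.1 ^ (-s) - s * t * (qf Q x.1 ^ (-s) * (qf H x.1 / qf Q x.1)) +
        4 * (s * (s + 1)) * t ^ 2 * (qf Q x.1 ^ (-s) * (qf H x.1 / qf Q x.1) ^ 2) := by
    intro x
    have hp := hQ.pos x
    have h1 : qf (Q + t • H) x.1 = qf Q x.1 * (1 + t * (qf H x.1 / qf Q x.1)) := by
      rw [qf_add, qf_smul]
      field_simp
    have hr := hl.ratio hc H x
    have h2 : |t * (qf H x.1 / qf Q x.1)| ≤ 1 / (2 * (s + 1)) := by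
      rw [abs_mul]
      calc |t| * |qf H x.1 / qf Q x.1| ≤ 1 / (2 * (s + 1) * (M + 1)) * M :=
            mul_le_mul ht hr (abs_nonneg _) (by positivity)
        _ ≤ 1 / (2 * (s + 1) * (M + 1)) * (M + 1) :=
            mul_le_mul_of_nonneg_left (by linarith) (by positivity)
        _ = 1 / (2 * (s + 1)) := by field_simp
    have h3 : |t * (qf H x.1 / qf Q x.1)| ≤ 1 / 2 := by
      refine h2.trans ?_
      rw [div_le_div_iff₀ (by positivity) (by positivity)]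
      linarith
    have h4 : s * |t * (qf H x.1 / qf Q x.1)| ≤ 1 / 2 := by
      calc s * |t * (qf H x.1 / qf Q x.1)| ≤ s * (1 / (2 * (s + 1))) :=
            mul_le_mul_of_nonneg_left h2 hs0.le
        _ ≤ 1 / 2 := by
            rw [mul_one_div, div_le_div_iff₀ (by positivity) (by positivity)]
            linarith
    have h5 := one_add_rpow_neg_le hs0 h3 h4
    have h6 : 0 ≤ 1 + t * (qf H x.1 / qf Q x.1) := by
      have := (abs_le.mp h3).1
      linarith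
    rw [h1, Real.mul_rpow hp.le h6]
    have h7 : 0 ≤ qf Q x.1 ^ (-s) := Real.rpow_nonneg hp.le _
    calc qf Q x.1 ^ (-s) * (1 + t * (qf H x.1 / qf Q x.1)) ^ (-s)
        ≤ qf Q x.1 ^ (-s) * (1 - s * (t * (qf H x.1 / qf Q x.1)) +
          4 * (s * (s + 1)) * (t * (qf H x.1 / qf Q x.1)) ^ 2) :=
          mul_le_mul_of_nonneg_left h5 h7
      _ = _ := by ring
  have hSum : Summable fun x : NZ d =>
      qf Q x.1 ^ (-s) - s * t * (qf Q x.1 ^ (-s) * (qf H x.1 / qf Q x.1)) +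
        4 * (s * (s + 1)) * t ^ 2 * (qf Q x.1 ^ (-s) * (qf H x.1 / qf Q x.1) ^ 2) :=
    (hS1.sub (hS2.mul_left _)).add (hS3.mul_left _)
  have hpos : ∀ x : NZ d, 0 ≤ qf (Q + t • H) x.1 ^ (-s) := by
    intro x
    have hp := hQ.pos x
    have h1 : qf (Q + t • H) x.1 = qf Q x.1 * (1 + t * (qf H x.1 / qf Q x.1)) := by
      rw [qf_add, qf_smul]
      field_simp
    have hr := hl.ratio hc H x
    have h2 : |t * (qf H x.1 / qf Q x.1)| ≤ 1 / (2 * (s + 1)) := by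
      rw [abs_mul]
      calc |t| * |qf H x.1 / qf Q x.1| ≤ 1 / (2 * (s + 1) * (M + 1)) * M :=
            mul_le_mul ht hr (abs_nonneg _) (by positivity)
        _ ≤ 1 / (2 * (s + 1) * (M + 1)) * (M + 1) :=
            mul_le_mul_of_nonneg_left (by linarith) (by positivity)
        _ = 1 / (2 * (s + 1)) := by field_simp
    have h3 : |t * (qf H x.1 / qf Q x.1)| ≤ 1 / 2 := by
      refine h2.trans ?_
      rw [div_le_div_iff₀ (by positivity) (by positivity)]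
      linarith
    rw [h1]
    refine Real.rpow_nonneg (mul_nonneg hp.le ?_) _
    have := (abs_le.mp h3).1
    linarith
  have hS0 : Summable fun x : NZ d => qf (Q + t • H) x.1 ^ (-s) :=
    Summable.of_nonneg_of_le hpos hterm hSum
  calc F s (Q + t • H) ≤ ∑' x : NZ d,
        (qf Q x.1 ^ (-s) - s * t * (qf Q x.1 ^ (-s) * (qf H x.1 / qf Q x.1)) +
        4 * (s * (s + 1)) * t ^ 2 * (qf Q x.1 ^ (-s) * (qf H x.1 / qf Q x.1) ^ 2)) :=
        hS0.tsum_le_tsum hterm hSum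
    _ = _ := by
        rw [(hS1.sub (hS2.mul_left _)).tsum_add (hS3.mul_left _), hS1.tsum_sub (hS2.mul_left _),
          tsum_mul_left, tsum_mul_left]
        rfl

/-- a quadratic bounded below by zero near zero -/
lemma quad_coeff {a b t₀ : ℝ} (ht₀ : 0 < t₀) (h : ∀ t : ℝ, |t| ≤ t₀ → 0 ≤ a * t + b * t ^ 2) :
    a = 0 ∧ 0 ≤ b := by
  have ha : a = 0 := by
    by_contra hne
    set u : ℝ := min t₀ (|a| / (2 * (|b| + 1))) with hu
    have hapos : 0 < |a| := abs_pos.mpr hne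
    have hu0 : 0 < u := lt_min ht₀ (by positivity)
    have hu1 : u ≤ t₀ := min_le_left _ _
    have hu2 : u ≤ |a| / (2 * (|b| + 1)) := min_le_right _ _
    have hu3 : u * (2 * (|b| + 1)) ≤ |a| := by
      rwa [le_div_iff₀ (by positivity)] at hu2
    have hb1 : b ≤ |b| := le_abs_self b
    have hb0 : 0 ≤ |b| := abs_nonneg b
    have key : |a| * u ≤ b * u ^ 2 := by
      rcases lt_or_gt_of_ne hne with h0 | h0
      · have h1 := h u (by rwa [abs_of_pos hu0])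
        rw [abs_of_neg h0]
        linarith
      · have h1 := h (-u) (by rwa [abs_neg, abs_of_pos hu0])
        rw [abs_of_pos h0]
        nlinarith
    have h2 : b * u ^ 2 ≤ |b| * u * u := by nlinarith [sq_nonneg u]
    have h3 : |a| * u ≤ (|b| * u) * u := by linarith
    have h4 : |a| ≤ |b| * u := le_of_mul_le_mul_right h3 hu0
    nlinarith
  refine ⟨ha, ?_⟩
  have h1 := h t₀ (by rw [abs_of_pos ht₀])
  rw [ha, zero_mul, zero_add] at h1
  by_contra hb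
  push Not at hb
  have : b * t₀ ^ 2 < 0 := mul_neg_of_neg_of_pos hb (by positivity)
  linarith

lemma line_pd {Q : Mx d} (hQ : PD Q) {H : Mx d} (hH : H.IsSymm) {ε : ℝ} (hε : 0 < ε) :
    ∃ t₀ > 0, ∀ t : ℝ, |t| ≤ t₀ → PD (Q + t • H) ∧ ‖Q + t • H - Q‖ < ε := by
  obtain ⟨r, hr, hpd⟩ := pd_near hQ
  refine ⟨min r (ε / 2) / (‖H‖ + 1), by positivity, fun t ht => ?_⟩
  have h1 : ‖Q + t • H - Q‖ ≤ min r (ε / 2) := by
    rw [add_sub_cancel_left, norm_smul, Real.norm_eq_abs]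
    calc |t| * ‖H‖ ≤ min r (ε / 2) / (‖H‖ + 1) * (‖H‖ + 1) :=
          mul_le_mul ht (by linarith) (norm_nonneg _) (by positivity)
      _ = min r (ε / 2) := by field_simp
  refine ⟨hpd _ (hQ.1.add (hH.smul t)) (h1.trans (min_le_left _ _)), ?_⟩
  have := h1.trans (min_le_right _ _)
  linarith

lemma cond_of_locMin (hd : d ≠ 0) {s : ℝ} (hs : (d : ℝ) / 2 < s) {Q : Mx d} (hQ : PD Q)
    (h : LocMin s Q) {H : Mx d} (hH : H.IsSymm) :
    s * ((Q⁻¹ * H).trace / d -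
      (∑' x : NZ d, qf Q x.1 ^ (-s) * (qf H x.1 / qf Q x.1)) / F s Q) = 0 ∧
    0 ≤ 4 * (s * (s + 1)) *
        (∑' x : NZ d, qf Q x.1 ^ (-s) * (qf H x.1 / qf Q x.1) ^ 2) / F s Q -
      s / d * ((Q⁻¹ * H * (Q⁻¹ * H)).trace / 3) := by
  have hs0 : 0 < s := by
    have : (0 : ℝ) ≤ d := Nat.cast_nonneg d
    linarith
  have hF := F_pos hd hQ hs
  obtain ⟨ε, hε, hmin⟩ := h
  obtain ⟨t₁, ht₁, hF1⟩ := F_line hs hs0 hQ H
  obtain ⟨t₂, ht₂, hdet⟩ := logdet_upper hQ hH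
  obtain ⟨t₃, ht₃, hpd⟩ := line_pd hQ hH hε
  set S1 := ∑' x : NZ d, qf Q x.1 ^ (-s) * (qf H x.1 / qf Q x.1) with hS1
  set S2 := ∑' x : NZ d, qf Q x.1 ^ (-s) * (qf H x.1 / qf Q x.1) ^ 2 with hS2
  set τ := (Q⁻¹ * H).trace with hτ
  set τ2 := (Q⁻¹ * H * (Q⁻¹ * H)).trace with hτ2
  have hdpos : (0 : ℝ) < d := by
    exact_mod_cast Nat.pos_of_ne_zero hd
  refine quad_coeff (t₀ := min t₁ (min t₂ t₃)) (lt_min ht₁ (lt_min ht₂ ht₃)) fun t ht => ?_
  have hta := ht.trans (min_le_left _ _)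
  have htb := ht.trans ((min_le_right _ _).trans (min_le_left _ _))
  have htc := ht.trans ((min_le_right _ _).trans (min_le_right _ _))
  obtain ⟨hpd1, hpd2⟩ := hpd t htc
  have h1 := hmin _ hpd1 hpd2
  have h2 := hF1 t hta
  have h3 := hdet t htb
  have hF' := F_pos hd hpd1 hs
  have h4 : Real.log (En s Q) ≤ Real.log (En s (Q + t • H)) :=
    Real.log_le_log (mul_pos hF (Real.rpow_pos_of_pos hQ.det_pos _)) h1
  unfold En at h4
  rw [Real.log_mul hF.ne' (Real.rpow_pos_of_pos hQ.det_pos _).ne',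
    Real.log_mul hF'.ne' (Real.rpow_pos_of_pos hpd1.det_pos _).ne',
    Real.log_rpow hQ.det_pos, Real.log_rpow hpd1.det_pos] at h4
  have h5 : Real.log (F s (Q + t • H)) ≤ Real.log (F s Q) +
      (- s * t * (S1 / F s Q) + 4 * (s * (s + 1)) * t ^ 2 * (S2 / F s Q)) := by
    have h6 : F s (Q + t • H) / F s Q ≤
        1 + (- s * t * (S1 / F s Q) + 4 * (s * (s + 1)) * t ^ 2 * (S2 / F s Q)) := by
      rw [div_le_iff₀ hF]
      calc F s (Q + t • H) ≤ F s Q - s * t * S1 + 4 * (s * (s + 1)) * t ^ 2 * S2 := h2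
        _ = _ := by field_simp; ring
    have h7 : Real.log (F s (Q + t • H) / F s Q) ≤ F s (Q + t • H) / F s Q - 1 :=
      Real.log_le_sub_one_of_pos (div_pos hF' hF)
    rw [Real.log_div hF'.ne' hF.ne'] at h7
    linarith
  have h8 : s / d * Real.log (Q + t • H).det ≤
      s / d * (Real.log Q.det + t * τ - t ^ 2 / 3 * τ2) :=
    mul_le_mul_of_nonneg_left h3 (by positivity)
  have h9 : s * (τ / d - S1 / F s Q) * t +
      (4 * (s * (s + 1)) * S2 / F s Q - s / d * (τ2 / 3)) * t ^ 2 =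
      (- s * t * (S1 / F s Q) + 4 * (s * (s + 1)) * t ^ 2 * (S2 / F s Q)) +
      s / d * (t * τ - t ^ 2 / 3 * τ2) := by
    field_simp
    ring
  rw [h9]
  have h10 : s / d * (Real.log Q.det + t * τ - t ^ 2 / 3 * τ2) =
      s / d * Real.log Q.det + s / d * (t * τ - t ^ 2 / 3 * τ2) := by ring
  linarith

theorem crit_of_locMin (hd : d ≠ 0) {s : ℝ} (hs : (d : ℝ) / 2 < s) {Q : Mx d} (hQ : PD Q)
    (h : LocMin s Q) : Crit s Q := by
  intro H hH
  have hs0 : 0 < s := by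
    have : (0 : ℝ) ≤ d := Nat.cast_nonneg d
    linarith
  have hF := F_pos hd hQ hs
  have h1 := (cond_of_locMin hd hs hQ h hH).1
  rcases mul_eq_zero.mp h1 with h2 | h2
  · exact absurd h2 hs0.ne'
  · have h3 : (∑' x : NZ d, qf Q x.1 ^ (-s) * (qf H x.1 / qf Q x.1)) / F s Q =
        (Q⁻¹ * H).trace / d := by linarith
    rw [div_eq_iff hF.ne'] at h3
    rw [h3, mul_comm]

theorem second_order (hd : d ≠ 0) {s : ℝ} (hs : (d : ℝ) / 2 < s) {Q : Mx d} (hQ : PD Q)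
    (h : LocMin s Q) {H : Mx d} (hH : H.IsSymm) :
    F s Q * ((Q⁻¹ * H * (Q⁻¹ * H)).trace / (3 * d)) ≤
      4 * (s + 1) * ∑' x : NZ d, qf Q x.1 ^ (-s) * (qf H x.1 / qf Q x.1) ^ 2 := by
  have hs0 : 0 < s := by
    have : (0 : ℝ) ≤ d := Nat.cast_nonneg d
    linarith
  have hF := F_pos hd hQ hs
  have hdpos : (0 : ℝ) < d := by
    exact_mod_cast Nat.pos_of_ne_zero hd
  have h1 := (cond_of_locMin hd hs hQ h hH).2
  set S2 := ∑' x : NZ d, qf Q x.1 ^ (-s) * (qf H x.1 / qf Q x.1) ^ 2 with hS2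
  set τ2 := (Q⁻¹ * H * (Q⁻¹ * H)).trace with hτ2
  have h2 : s / d * (τ2 / 3) ≤ 4 * (s * (s + 1)) * S2 / F s Q := by linarith
  rw [le_div_iff₀ hF] at h2
  have h3 : s * (F s Q * (τ2 / (3 * d))) ≤ s * (4 * (s + 1) * S2) := by
    calc s * (F s Q * (τ2 / (3 * d))) = s / d * (τ2 / 3) * F s Q := by field_simp
      _ ≤ 4 * (s * (s + 1)) * S2 := h2
      _ = s * (4 * (s + 1) * S2) := by ring
  exact le_of_mul_le_mul_left h3 hs0

end Pool.Agent.Lib.EpZ
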