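import Mathlib

/-!
# Epstein zeta function of positive definite forms: definitions and basic estimates
-/

open Matrix Filter Topology
open scoped Matrix.Norms.Elementwise

namespace Pool.Agent.Lib.EpZ

/-- real square matrices -/
abbrev Mx (d : ℕ) := Matrix (Fin d) (Fin d) ℝ

variable {d : ℕ}

/-- an integer vector as a real vector -/
def rv (x : Fin d → ℤ) : Fin d → ℝ := fun i => (x i : ℝ)

/-- value of the quadratic form with matrix `Q` at a real vector -/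
def qr (Q : Mx d) (v : Fin d → ℝ) : ℝ := v ⬝ᵥ (Q *ᵥ v)

/-- value of the quadratic form with matrix `Q` at an integer vector -/
def qf (Q : Mx d) (x : Fin d → ℤ) : ℝ := qr Q (rv x)

/-- sum of the squares of the coordinates of an integer vector -/
def nn (x : Fin d → ℤ) : ℝ := ∑ i, (x i : ℝ) ^ 2

/-- nonzero integer vectors -/
abbrev NZ (d : ℕ) := {x : Fin d → ℤ // x ≠ 0}

/-- positive definite symmetric real matrices -/
def PD (Q : Mx d) : Prop := Q.IsSymm ∧ ∀ v : Fin d → ℝ, v ≠ 0 → 0 < qr Q v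

/-- the Epstein zeta function of a form -/
noncomputable def F (s : ℝ) (Q : Mx d) : ℝ := ∑' x : NZ d, qf Q x.1 ^ (-s)

/-- the scale invariant version -/
noncomputable def En (s : ℝ) (Q : Mx d) : ℝ := F s Q * Q.det ^ (s / d)

/-- stationarity of `En s` at `Q` -/
def Crit (s : ℝ) (Q : Mx d) : Prop :=
  ∀ H : Mx d, H.IsSymm →
    ∑' x : NZ d, qf Q x.1 ^ (-s) * (qf H x.1 / qf Q x.1) = F s Q * ((Q⁻¹ * H).trace / d)

/-- `Q` is a local minimum of the scale invariant energy -/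
def LocMin (s : ℝ) (Q : Mx d) : Prop :=
  ∃ ε > 0, ∀ Q' : Mx d, PD Q' → ‖Q' - Q‖ < ε → En s Q ≤ En s Q'

/-- `A` is extreme with minimum `1` (dual form of Voronoi's conditions) -/
def Ext (A : Mx d) : Prop :=
  PD A ∧ (∀ x : NZ d, 1 ≤ qf A x.1) ∧
    ∀ H : Mx d, H.IsSymm → (∀ x : NZ d, qf A x.1 = 1 → 0 ≤ qf H x.1) →
      (A⁻¹ * H).trace ≤ 0 → H = 0

/-- the lower bound `c |x|²` -/
def Low (c : ℝ) (Q : Mx d) : Prop := ∀ x : Fin d → ℤ, c * nn x ≤ qf Q x

/-! ### algebra -/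

lemma qr_eq (Q : Mx d) (v : Fin d → ℝ) : qr Q v = ∑ i, ∑ j, v i * Q i j * v j := by
  simp only [qr, dotProduct, mulVec, Finset.mul_sum]
  exact Finset.sum_congr rfl fun i _ => Finset.sum_congr rfl fun j _ => by ring

lemma qr_add (Q R : Mx d) (v : Fin d → ℝ) : qr (Q + R) v = qr Q v + qr R v := by
  simp [qr, add_mulVec, dotProduct_add]

lemma qr_sub (Q R : Mx d) (v : Fin d → ℝ) : qr (Q - R) v = qr Q v - qr R v := by
  simp [qr, sub_mulVec, dotProduct_sub]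

lemma qr_smul (c : ℝ) (Q : Mx d) (v : Fin d → ℝ) : qr (c • Q) v = c * qr Q v := by
  simp [qr, smul_mulVec, dotProduct_smul]

lemma qr_neg (Q : Mx d) (v : Fin d → ℝ) : qr (-Q) v = - qr Q v := by
  simp [qr, neg_mulVec]

lemma qf_add (Q R : Mx d) (x : Fin d → ℤ) : qf (Q + R) x = qf Q x + qf R x := qr_add _ _ _

lemma qf_sub (Q R : Mx d) (x : Fin d → ℤ) : qf (Q - R) x = qf Q x - qf R x := qr_sub _ _ _

lemma qf_smul (c : ℝ) (Q : Mx d) (x : Fin d → ℤ) : qf (c • Q) x = c * qf Q x := qr_smul _ _ _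

lemma qf_neg (Q : Mx d) (x : Fin d → ℤ) : qf (-Q) x = - qf Q x := qr_neg _ _

lemma nn_nonneg (x : Fin d → ℤ) : 0 ≤ nn x := Finset.sum_nonneg fun _ _ => sq_nonneg _

lemma one_le_nn {x : Fin d → ℤ} (hx : x ≠ 0) : 1 ≤ nn x := by
  obtain ⟨i, hi⟩ : ∃ i, x i ≠ 0 := by
    by_contra h
    push Not at h
    exact hx (funext h)
  have h1 : (1 : ℝ) ≤ (x i : ℝ) ^ 2 := by
    have : (1 : ℤ) ≤ (x i) ^ 2 := by
      have := sq_pos_of_ne_zero hi
      omega
    exact_mod_cast this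
  exact h1.trans (Finset.single_le_sum (f := fun i => (x i : ℝ) ^ 2) (fun _ _ => sq_nonneg _)
    (Finset.mem_univ i))

lemma entry_le (Q : Mx d) (i j : Fin d) : |Q i j| ≤ ‖Q‖ := by
  have h1 := Matrix.norm_entry_le_entrywise_sup_norm Q (i := i) (j := j)
  simpa using h1

lemma qr_abs_le (H : Mx d) (v : Fin d → ℝ) : |qr H v| ≤ d * ‖H‖ * ∑ i, v i ^ 2 := by
  rw [qr_eq]
  have h1 : |∑ i, ∑ j, v i * H i j * v j| ≤ ∑ i, ∑ j, ‖H‖ * ((v i ^ 2 + v j ^ 2) / 2) := by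
    refine (Finset.abs_sum_le_sum_abs _ _).trans (Finset.sum_le_sum fun i _ => ?_)
    refine (Finset.abs_sum_le_sum_abs _ _).trans (Finset.sum_le_sum fun j _ => ?_)
    rw [abs_mul, abs_mul]
    have h2 : |v i| * |v j| ≤ (v i ^ 2 + v j ^ 2) / 2 := by
      nlinarith [sq_nonneg (|v i| - |v j|), sq_abs (v i), sq_abs (v j)]
    calc |v i| * |H i j| * |v j| = |H i j| * (|v i| * |v j|) := by ring
      _ ≤ ‖H‖ * ((v i ^ 2 + v j ^ 2) / 2) :=
        mul_le_mul (entry_le H i j) h2 (by positivity) (norm_nonneg _)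
  refine h1.trans (le_of_eq ?_)
  simp only [← Finset.mul_sum, ← Finset.sum_div, Finset.sum_add_distrib, Finset.sum_const,
    Finset.card_univ, Fintype.card_fin, nsmul_eq_mul]
  ring

lemma qf_abs_le (H : Mx d) (x : Fin d → ℤ) : |qf H x| ≤ d * ‖H‖ * nn x := qr_abs_le H (rv x)

lemma rv_ne {x : Fin d → ℤ} (hx : x ≠ 0) : rv x ≠ 0 := by
  intro h
  exact hx (funext fun i => by
    have := congrFun h i
    simpa [rv] using this)

lemma PD.pos {Q : Mx d} (h : PD Q) (x : NZ d) : 0 < qf Q x.1 := h.2 _ (rv_ne x.2)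

lemma PD.posDef {Q : Mx d} (h : PD Q) : Q.PosDef :=
  Matrix.PosDef.of_dotProduct_mulVec_pos (by
    have := h.1
    unfold Matrix.IsHermitian
    rw [conjTranspose_eq_transpose_of_trivial]
    exact this) fun v hv => by simpa [qr] using h.2 v hv

lemma pd_of_posDef {Q : Mx d} (h : Q.PosDef) : PD Q := by
  refine ⟨?_, fun v hv => by simpa [qr] using h.dotProduct_mulVec_pos hv⟩
  have := h.1
  unfold Matrix.IsHermitian at this
  rw [conjTranspose_eq_transpose_of_trivial] at this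
  exact this

lemma PD.det_pos {Q : Mx d} (h : PD Q) : 0 < Q.det := h.posDef.det_pos

lemma PD.smul {Q : Mx d} (h : PD Q) {c : ℝ} (hc : 0 < c) : PD (c • Q) :=
  ⟨h.1.smul c, fun v hv => by rw [qr_smul]; exact mul_pos hc (h.2 v hv)⟩

/-- a positive definite form is bounded below by a multiple of the sum of squares -/
lemma PD.lower {Q : Mx d} (h : PD Q) : ∃ c > 0, ∀ v : Fin d → ℝ, c * ∑ i, v i ^ 2 ≤ qr Q v := by
  have hcont : Continuous fun v : Fin d → ℝ => qr Q v := by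
    unfold qr
    fun_prop
  rcases (Metric.sphere (0 : Fin d → ℝ) 1).eq_empty_or_nonempty with hemp | hne
  · refine ⟨1, one_pos, fun v => ?_⟩
    have hv : v = 0 := by
      by_contra hv
      have hn : 0 < ‖v‖ := norm_pos_iff.mpr hv
      have : (‖v‖⁻¹ • v) ∈ (Metric.sphere (0 : Fin d → ℝ) 1) := by
        rw [mem_sphere_zero_iff_norm, norm_smul, norm_inv, norm_norm, inv_mul_cancel₀ hn.ne']
      rw [hemp] at this
      exact this
    subst hv
    simp [qr]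
  · obtain ⟨w, hw, hmin⟩ := (isCompact_sphere (0 : Fin d → ℝ) 1).exists_isMinOn hne
      hcont.continuousOn
    have hw0 : w ≠ 0 := by
      intro h0
      rw [h0] at hw
      simp at hw
    have hpos : 0 < qr Q w := h.2 w hw0
    refine ⟨qr Q w / (d + 1), by positivity, fun v => ?_⟩
    rcases eq_or_ne v 0 with rfl | hv
    · simp [qr]
    have hn : 0 < ‖v‖ := norm_pos_iff.mpr hv
    have h1 : qr Q w ≤ qr Q (‖v‖⁻¹ • v) := by
      refine hmin ?_
      rw [mem_sphere_zero_iff_norm, norm_smul, norm_inv, norm_norm, inv_mul_cancel₀ hn.ne']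
    have h2 : qr Q (‖v‖⁻¹ • v) = (‖v‖ ^ 2)⁻¹ * qr Q v := by
      simp only [qr, mulVec_smul, dotProduct_smul, smul_dotProduct, smul_eq_mul]
      ring
    have h3 : ∑ i, v i ^ 2 ≤ d * ‖v‖ ^ 2 := by
      calc ∑ i, v i ^ 2 ≤ ∑ _i : Fin d, ‖v‖ ^ 2 := by
            refine Finset.sum_le_sum fun i _ => ?_
            have := norm_le_pi_norm v i
            rw [Real.norm_eq_abs] at this
            rw [← sq_abs (v i)]
            exact pow_le_pow_left₀ (abs_nonneg _) this 2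
        _ = d * ‖v‖ ^ 2 := by simp
    rw [h2] at h1
    have h4 : qr Q w * ‖v‖ ^ 2 ≤ qr Q v := by
      have := mul_le_mul_of_nonneg_right h1 (sq_nonneg ‖v‖)
      rwa [mul_right_comm, inv_mul_cancel₀ (by positivity), one_mul] at this
    have h5 : 0 ≤ ∑ i, v i ^ 2 := Finset.sum_nonneg fun _ _ => sq_nonneg _
    calc qr Q w / (d + 1) * ∑ i, v i ^ 2 ≤ qr Q w / (d + 1) * ((d + 1) * ‖v‖ ^ 2) := by
          refine mul_le_mul_of_nonneg_left ?_ (by positivity)
          nlinarith [sq_nonneg ‖v‖]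
      _ = qr Q w * ‖v‖ ^ 2 := by field_simp
      _ ≤ qr Q v := h4

lemma PD.low {Q : Mx d} (h : PD Q) : ∃ c > 0, Low c Q := by
  obtain ⟨c, hc, hl⟩ := h.lower
  exact ⟨c, hc, fun x => hl (rv x)⟩

/-- the lower bound and positive definiteness are stable under small perturbations -/
lemma lower_near {A : Mx d} {c : ℝ} (hl : ∀ v : Fin d → ℝ, c * ∑ i, v i ^ 2 ≤ qr A v)
    {Q : Mx d} (hQ : d * ‖Q - A‖ ≤ c / 2) (v : Fin d → ℝ) :
    c / 2 * ∑ i, v i ^ 2 ≤ qr Q v := by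
  have h1 : qr Q v = qr A v + qr (Q - A) v := by rw [qr_sub]; ring
  have h2 := abs_le.mp (qr_abs_le (Q - A) v)
  have h3 : 0 ≤ ∑ i, v i ^ 2 := Finset.sum_nonneg fun _ _ => sq_nonneg _
  have h4 := hl v
  have h5 := mul_le_mul_of_nonneg_right hQ h3
  linarith [h2.1]

lemma pd_near {A : Mx d} (hA : PD A) : ∃ r > 0, ∀ Q : Mx d, Q.IsSymm → ‖Q - A‖ ≤ r → PD Q := by
  obtain ⟨c, hc, hl⟩ := hA.lower
  refine ⟨c / (2 * (d + 1)), by positivity, fun Q hs hQ => ⟨hs, fun v hv => ?_⟩⟩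
  have h1 : d * ‖Q - A‖ ≤ c / 2 := by
    calc d * ‖Q - A‖ ≤ (d + 1) * (c / (2 * (d + 1))) := by
          refine mul_le_mul (by linarith) hQ (norm_nonneg _) (by positivity)
      _ = c / 2 := by field_simp
  have h2 := lower_near hl h1 v
  have h3 : 0 < ∑ i, v i ^ 2 := by
    obtain ⟨i, hi⟩ : ∃ i, v i ≠ 0 := by
      by_contra h
      push Not at h
      exact hv (funext h)
    exact Finset.sum_pos' (fun _ _ => sq_nonneg _) ⟨i, Finset.mem_univ i, by positivity⟩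
  have : 0 < c / 2 * ∑ i, v i ^ 2 := by positivity
  linarith

/-! ### summability -/

lemma summable_nn {s : ℝ} (hs : (d : ℝ) / 2 < s) : Summable fun x : NZ d => nn x.1 ^ (-s) := by
  have hs0 : 0 < s := by
    have : (0 : ℝ) ≤ d := Nat.cast_nonneg d
    linarith
  let L := Submodule.span ℤ (Set.range (Pi.basisFun ℝ (Fin d)))
  have hrank : Module.finrank ℤ L = d := by
    rw [ZLattice.rank ℝ]
    simp
  have h := ZLattice.summable_norm_rpow L (-(2 * s)) (by rw [hrank]; linarith)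
  have hmem : ∀ x : Fin d → ℤ, rv x ∈ L := by
    intro x
    have : rv x = ∑ i, x i • (Pi.basisFun ℝ (Fin d)) i := by
      ext j
      simp [rv, Finset.sum_apply, Pi.single_apply]
    rw [this]
    exact Submodule.sum_mem _ fun i _ => Submodule.smul_mem _ _ (Submodule.subset_span ⟨i, rfl⟩)
  let φ : NZ d → L := fun x => ⟨rv x.1, hmem x.1⟩
  have hφ : Function.Injective φ := by
    intro x y hxy
    have h1 : rv x.1 = rv y.1 := congrArg Subtype.val hxy
    refine Subtype.ext (funext fun i => ?_)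
    have := congrFun h1 i
    simpa [rv] using this
  refine Summable.of_nonneg_of_le (fun x => Real.rpow_nonneg (nn_nonneg _) _) (fun x => ?_)
    (h.comp_injective hφ)
  have h1 : ‖rv x.1‖ ^ 2 ≤ nn x.1 := by
    have hn : ‖rv x.1‖ ≤ Real.sqrt (nn x.1) := by
      rw [pi_norm_le_iff_of_nonneg (Real.sqrt_nonneg _)]
      intro i
      rw [Real.norm_eq_abs, ← Real.sqrt_sq_eq_abs]
      refine Real.sqrt_le_sqrt ?_
      exact Finset.single_le_sum (f := fun i => (x.1 i : ℝ) ^ 2) (fun _ _ => sq_nonneg _)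
        (Finset.mem_univ i)
    calc ‖rv x.1‖ ^ 2 ≤ Real.sqrt (nn x.1) ^ 2 := pow_le_pow_left₀ (norm_nonneg _) hn 2
      _ = nn x.1 := Real.sq_sqrt (nn_nonneg _)
  have h2 : 0 < ‖rv x.1‖ := norm_pos_iff.mpr (rv_ne x.2)
  have h3 : (‖rv x.1‖ ^ 2) ^ (-s) = ‖rv x.1‖ ^ (-(2 * s)) := by
    rw [← Real.rpow_natCast, ← Real.rpow_mul h2.le]
    congr 1
    push_cast
    ring
  calc nn x.1 ^ (-s) ≤ (‖rv x.1‖ ^ 2) ^ (-s) :=
        Real.rpow_le_rpow_of_nonpos (by positivity) h1 (by linarith)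
    _ = ‖rv x.1‖ ^ (-(2 * s)) := h3

lemma Low.summable {c : ℝ} (hc : 0 < c) {Q : Mx d} (hQ : Low c Q) {s : ℝ}
    (hs : (d : ℝ) / 2 < s) : Summable fun x : NZ d => qf Q x.1 ^ (-s) := by
  have hs0 : 0 ≤ s := by
    have : (0 : ℝ) ≤ d := Nat.cast_nonneg d
    linarith
  refine Summable.of_nonneg_of_le (fun x => ?_) (fun x => ?_)
    ((summable_nn hs).mul_left (c ^ (-s)))
  · refine Real.rpow_nonneg ?_ _
    have := hQ x.1
    have h1 := one_le_nn x.2
    have : 0 ≤ c * nn x.1 := by positivity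
    linarith [hQ x.1]
  · have h1 := one_le_nn x.2
    rw [← Real.mul_rpow hc.le (nn_nonneg _)]
    exact Real.rpow_le_rpow_of_nonpos (by positivity) (hQ x.1) (by linarith)

lemma PD.summable {Q : Mx d} (hQ : PD Q) {s : ℝ} (hs : (d : ℝ) / 2 < s) :
    Summable fun x : NZ d => qf Q x.1 ^ (-s) := by
  obtain ⟨c, hc, h⟩ := hQ.low
  exact h.summable hc hs

lemma Low.pos {c : ℝ} (hc : 0 < c) {Q : Mx d} (hQ : Low c Q) (x : NZ d) : 0 < qf Q x.1 := by
  have h1 := one_le_nn x.2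
  have := hQ x.1
  have : 0 < c * nn x.1 := by positivity
  linarith

/-- the ratio of two forms is bounded -/
lemma Low.ratio {c : ℝ} (hc : 0 < c) {Q : Mx d} (hQ : Low c Q) (H : Mx d) (x : NZ d) :
    |qf H x.1 / qf Q x.1| ≤ d * ‖H‖ / c := by
  have hp := hQ.pos hc x
  rw [abs_div, abs_of_pos hp, div_le_div_iff₀ hp hc]
  calc |qf H x.1| * c ≤ (d * ‖H‖ * nn x.1) * c :=
        mul_le_mul_of_nonneg_right (qf_abs_le H x.1) hc.le
    _ = d * ‖H‖ * (c * nn x.1) := by ring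
    _ ≤ d * ‖H‖ * qf Q x.1 := mul_le_mul_of_nonneg_left (hQ x.1) (by positivity)

/-- the weighted sums converge -/
lemma Low.summable_mul {c : ℝ} (hc : 0 < c) {Q : Mx d} (hQ : Low c Q) {s : ℝ}
    (hs : (d : ℝ) / 2 < s) (H : Mx d) :
    Summable fun x : NZ d => qf Q x.1 ^ (-s) * (qf H x.1 / qf Q x.1) := by
  refine Summable.of_norm_bounded ((hQ.summable hc hs).mul_right (d * ‖H‖ / c)) fun x => ?_
  rw [Real.norm_eq_abs, abs_mul, abs_of_nonneg (Real.rpow_nonneg (hQ.pos hc x).le _)]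
  exact mul_le_mul_of_nonneg_left (hQ.ratio hc H x) (Real.rpow_nonneg (hQ.pos hc x).le _)

lemma Low.summable_mul_sq {c : ℝ} (hc : 0 < c) {Q : Mx d} (hQ : Low c Q) {s : ℝ}
    (hs : (d : ℝ) / 2 < s) (H : Mx d) :
    Summable fun x : NZ d => qf Q x.1 ^ (-s) * (qf H x.1 / qf Q x.1) ^ 2 := by
  refine Summable.of_norm_bounded ((hQ.summable hc hs).mul_right ((d * ‖H‖ / c) ^ 2)) fun x => ?_
  rw [Real.norm_eq_abs, abs_mul, abs_of_nonneg (Real.rpow_nonneg (hQ.pos hc x).le _), abs_pow]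
  exact mul_le_mul_of_nonneg_left (pow_le_pow_left₀ (abs_nonneg _) (hQ.ratio hc H x) 2)
    (Real.rpow_nonneg (hQ.pos hc x).le _)

/-- tails decay exponentially, uniformly over all forms with the same lower bound -/
lemma tail {c δ : ℝ} (hc : 0 < c) (hδ : 0 < δ) : ∃ K : ℝ, 0 < K ∧
    ∀ s : ℝ, (d : ℝ) / 2 + 1 ≤ s → ∀ Q : Mx d, Low c Q → ∀ T : Set (NZ d),
      (∀ x ∈ T, 1 + δ ≤ qf Q x.1) →
      ∑' x : NZ d, T.indicator (fun x => qf Q x.1 ^ (-s)) x ≤ K * (1 + δ) ^ (-s) := by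
  set s₁ : ℝ := (d : ℝ) / 2 + 1 with hs₁
  have hs₁' : (d : ℝ) / 2 < s₁ := by rw [hs₁]; linarith
  have hs₁0 : 0 < s₁ := by positivity
  have hsum : Summable fun x : NZ d => (c * nn x.1) ^ (-s₁) := by
    have := (summable_nn hs₁').mul_left (c ^ (-s₁))
    refine this.congr fun x => ?_
    rw [Real.mul_rpow hc.le (nn_nonneg _)]
  have hnn : ∀ x : NZ d, 0 ≤ (c * nn x.1) ^ (-s₁) := fun x =>
    Real.rpow_nonneg (mul_nonneg hc.le (nn_nonneg _)) _
  have hpos : 0 ≤ ∑' x : NZ d, (c * nn x.1) ^ (-s₁) := tsum_nonneg hnn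
  refine ⟨(1 + δ) ^ s₁ * (∑' x : NZ d, (c * nn x.1) ^ (-s₁) + 1), by positivity, ?_⟩
  intro s hs Q hQ T hT
  have hle : ∀ x : NZ d, T.indicator (fun x => qf Q x.1 ^ (-s)) x ≤
      (1 + δ) ^ (s₁ - s) * (c * nn x.1) ^ (-s₁) := by
    intro x
    by_cases hx : x ∈ T
    · rw [Set.indicator_of_mem hx]
      have hq := hQ.pos hc x
      have h1 : qf Q x.1 ^ (-s) = qf Q x.1 ^ (s₁ - s) * qf Q x.1 ^ (-s₁) := by
        rw [← Real.rpow_add hq]
        congr 1
        ring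
      rw [h1]
      have h2 := one_le_nn x.2
      refine mul_le_mul ?_ ?_ (Real.rpow_nonneg hq.le _) (Real.rpow_nonneg (by positivity) _)
      · exact Real.rpow_le_rpow_of_nonpos (by positivity) (hT x hx) (by linarith)
      · exact Real.rpow_le_rpow_of_nonpos (by positivity) (hQ x.1) (by linarith)
    · rw [Set.indicator_of_notMem hx]
      exact mul_nonneg (Real.rpow_nonneg (by positivity) _) (hnn x)
  have hsum' : Summable fun x : NZ d => T.indicator (fun x => qf Q x.1 ^ (-s)) x :=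
    (hQ.summable hc (by linarith)).indicator T
  calc ∑' x : NZ d, T.indicator (fun x => qf Q x.1 ^ (-s)) x
      ≤ ∑' x : NZ d, (1 + δ) ^ (s₁ - s) * (c * nn x.1) ^ (-s₁) :=
        hsum'.tsum_le_tsum hle (hsum.mul_left _)
    _ = (1 + δ) ^ (s₁ - s) * ∑' x : NZ d, (c * nn x.1) ^ (-s₁) := tsum_mul_left
    _ ≤ (1 + δ) ^ (s₁ - s) * (∑' x : NZ d, (c * nn x.1) ^ (-s₁) + 1) := by
        refine mul_le_mul_of_nonneg_left (by linarith) (Real.rpow_nonneg (by positivity) _)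
    _ = (1 + δ) ^ s₁ * (∑' x : NZ d, (c * nn x.1) ^ (-s₁) + 1) * (1 + δ) ^ (-s) := by
        rw [sub_eq_add_neg, Real.rpow_add (by positivity)]
        ring

/-! ### minimal vectors -/

lemma finite_level {A : Mx d} (hA : PD A) (r : ℝ) : {x : NZ d | qf A x.1 ≤ r}.Finite := by
  obtain ⟨c, hc, hl⟩ := hA.low
  have hfin : (Set.univ.pi fun _ : Fin d => Set.Icc (-⌈r / c⌉) ⌈r / c⌉).Finite :=
    Set.Finite.pi fun _ => Set.finite_Icc _ _
  refine Set.Finite.of_finite_image (f := Subtype.val) (hfin.subset ?_)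
    Subtype.val_injective.injOn
  rintro _ ⟨x, hx, rfl⟩ i -
  have h1 : c * nn x.1 ≤ r := (hl x.1).trans hx
  have h2 : (x.1 i : ℝ) ^ 2 ≤ nn x.1 :=
    Finset.single_le_sum (f := fun i => (x.1 i : ℝ) ^ 2) (fun _ _ => sq_nonneg _)
      (Finset.mem_univ i)
  have h3 : (x.1 i : ℝ) ^ 2 ≤ r / c := by
    rw [le_div_iff₀ hc]
    linarith [mul_le_mul_of_nonneg_left h2 hc.le]
  have h4 : |(x.1 i : ℝ)| ≤ (x.1 i : ℝ) ^ 2 := by
    have : |x.1 i| ≤ (x.1 i) ^ 2 := by
      rcases eq_or_ne (x.1 i) 0 with h | h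
      · simp [h]
      · have h5 : 1 ≤ |x.1 i| := Int.one_le_abs h
        rw [← sq_abs]
        nlinarith
    exact_mod_cast this
  have h5 : (|x.1 i| : ℝ) ≤ ⌈r / c⌉ := (h4.trans h3).trans (Int.le_ceil _)
  have h6 : |x.1 i| ≤ ⌈r / c⌉ := by exact_mod_cast h5
  exact Set.mem_Icc.mpr (abs_le.mp h6)

/-- the minimal vectors of a form with minimum one -/
def minSet (A : Mx d) : Set (NZ d) := {x | qf A x.1 = 1}

lemma finite_minSet {A : Mx d} (hA : PD A) : (minSet A).Finite :=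
  (finite_level hA 1).subset fun _ hx => le_of_eq hx

lemma gap {A : Mx d} (hA : PD A) (h1 : ∀ x : NZ d, 1 ≤ qf A x.1) :
    ∃ δ > 0, ∀ x : NZ d, x ∉ minSet A → 1 + δ ≤ qf A x.1 := by
  have hfin : {x : NZ d | qf A x.1 ≤ 2 ∧ x ∉ minSet A}.Finite :=
    (finite_level hA 2).subset fun x hx => hx.1
  rcases Set.eq_empty_or_nonempty {x : NZ d | qf A x.1 ≤ 2 ∧ x ∉ minSet A} with he | hne
  · refine ⟨1, one_pos, fun x hx => ?_⟩
    by_contra hlt
    have : x ∈ {x : NZ d | qf A x.1 ≤ 2 ∧ x ∉ minSet A} := ⟨by linarith, hx⟩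
    rw [he] at this
    exact this
  · obtain ⟨y, hy, hmin⟩ := Set.exists_min_image _ (fun x : NZ d => qf A x.1) hfin hne
    have hy1 : 1 < qf A y.1 := lt_of_le_of_ne (h1 y) fun h => hy.2 h.symm
    refine ⟨min 1 (qf A y.1 - 1), lt_min one_pos (by linarith), fun x hx => ?_⟩
    by_cases h2 : qf A x.1 ≤ 2
    · have := hmin x ⟨h2, hx⟩
      have := min_le_right 1 (qf A y.1 - 1)
      linarith
    · have := min_le_left 1 (qf A y.1 - 1)
      linarith

/-- uniform data in a neighbourhood of a form with minimum one -/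
lemma near_data {A : Mx d} (hA : PD A) (h1 : ∀ x : NZ d, 1 ≤ qf A x.1) :
    ∃ c > 0, ∃ δ > 0, ∃ r > 0, ∀ Q : Mx d, ‖Q - A‖ ≤ r → Low c Q ∧
      (∀ v : Fin d → ℝ, c * ∑ i, v i ^ 2 ≤ qr Q v) ∧
      ∀ x : NZ d, x ∉ minSet A → 1 + δ ≤ qf Q x.1 := by
  obtain ⟨c, hc, hl⟩ := hA.lower
  obtain ⟨δ, hδ, hgap⟩ := gap hA h1
  set η : ℝ := δ / (2 * (1 + δ)) with hη
  have hη0 : 0 < η := by positivity
  refine ⟨c / 2, by positivity, δ / 2, by positivity, min (c / (2 * (d + 1))) (c * η / (d + 1)),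
    lt_min (by positivity) (by positivity), fun Q hQ => ?_⟩
  have hQ1 := hQ.trans (min_le_left _ _)
  have hQ2 := hQ.trans (min_le_right _ _)
  have h2 : d * ‖Q - A‖ ≤ c / 2 := by
    calc d * ‖Q - A‖ ≤ (d + 1) * (c / (2 * (d + 1))) := by
          refine mul_le_mul (by linarith) hQ1 (norm_nonneg _) (by positivity)
      _ = c / 2 := by field_simp
  have h3 : d * ‖Q - A‖ ≤ c * η := by
    calc d * ‖Q - A‖ ≤ (d + 1) * (c * η / (d + 1)) := by
          refine mul_le_mul (by linarith) hQ2 (norm_nonneg _) (by positivity)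
      _ = c * η := by field_simp
  have hlow := fun v => lower_near hl h2 v
  refine ⟨fun x => hlow (rv x), hlow, fun x hx => ?_⟩
  have h4 : qf Q x.1 = qf A x.1 + qf (Q - A) x.1 := by rw [qf_sub]; ring
  have h5 := (abs_le.mp (qf_abs_le (Q - A) x.1)).1
  have h6 : d * ‖Q - A‖ * nn x.1 ≤ η * qf A x.1 := by
    calc d * ‖Q - A‖ * nn x.1 ≤ (c * η) * nn x.1 :=
          mul_le_mul_of_nonneg_right h3 (nn_nonneg _)
      _ = η * (c * nn x.1) := by ring
      _ ≤ η * qf A x.1 := mul_le_mul_of_nonneg_left (hl (rv x.1)) hη0.le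
  have h7 := hgap x hx
  have h8 : η < 1 := by
    rw [hη, div_lt_one (by positivity)]
    linarith
  have h9 : (1 - η) * (1 + δ) = 1 + δ / 2 := by
    rw [hη]
    field_simp
    ring
  have h10 : (1 - η) * (1 + δ) ≤ (1 - η) * qf A x.1 :=
    mul_le_mul_of_nonneg_left h7 (by linarith)
  linarith

/-! ### scaling -/

lemma F_smul {Q : Mx d} (hQ : PD Q) {l : ℝ} (hl : 0 < l) (s : ℝ) :
    F s (l • Q) = l ^ (-s) * F s Q := by
  unfold F
  rw [← tsum_mul_left]
  refine tsum_congr fun x => ?_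
  rw [qf_smul, Real.mul_rpow hl.le (hQ.pos x).le]

lemma En_smul (hd : d ≠ 0) {Q : Mx d} (hQ : PD Q) {l : ℝ} (hl : 0 < l) (s : ℝ) :
    En s (l • Q) = En s Q := by
  unfold En
  rw [F_smul hQ hl, Matrix.det_smul, Fintype.card_fin, Real.mul_rpow (by positivity) hQ.det_pos.le,
    ← Real.rpow_natCast, ← Real.rpow_mul hl.le]
  have hd' : (d : ℝ) ≠ 0 := Nat.cast_ne_zero.mpr hd
  rw [mul_div_cancel₀ _ hd']
  have : l ^ (-s) * l ^ s = 1 := by
    rw [← Real.rpow_add hl]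
    simp
  calc l ^ (-s) * F s Q * (l ^ s * Q.det ^ (s / d)) =
      (l ^ (-s) * l ^ s) * (F s Q * Q.det ^ (s / d)) := by ring
    _ = F s Q * Q.det ^ (s / d) := by rw [this, one_mul]

lemma F_pos (hd : d ≠ 0) {Q : Mx d} (hQ : PD Q) {s : ℝ} (hs : (d : ℝ) / 2 < s) : 0 < F s Q := by
  have i : Fin d := ⟨0, Nat.pos_of_ne_zero hd⟩
  have hx : (Pi.single i 1 : Fin d → ℤ) ≠ 0 := by
    intro h
    have := congrFun h i
    simp at this
  exact (hQ.summable hs).tsum_pos (fun x => Real.rpow_nonneg (hQ.pos x).le _) ⟨_, hx⟩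
    (Real.rpow_pos_of_pos (hQ.pos _) _)

/-- if `F s Q = 1` every value is at least one -/
lemma one_le_of_F {Q : Mx d} (hQ : PD Q) {s : ℝ} (hs : (d : ℝ) / 2 < s) (hF : F s Q = 1)
    (x : NZ d) : 1 ≤ qf Q x.1 := by
  have hs0 : 0 < s := by
    have : (0 : ℝ) ≤ d := Nat.cast_nonneg d
    linarith
  by_contra hlt
  push Not at hlt
  have h1 : qf Q x.1 ^ (-s) ≤ F s Q :=
    (hQ.summable hs).le_tsum x fun y _ => Real.rpow_nonneg (hQ.pos y).le _
  have h2 : 1 < qf Q x.1 ^ (-s) :=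
    Real.one_lt_rpow_of_pos_of_lt_one_of_neg (hQ.pos x) hlt (by linarith)
  linarith

end Pool.Agent.Lib.EpZ
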