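import Pool.Agent.Lib.EpZ.Sim

/-!
# The key estimate: stationary forms converge at rate `1/s`
-/

open Matrix Filter Topology
open scoped Matrix.Norms.Elementwise

namespace Pool.Agent.Lib.EpZ

variable {d : ℕ}

lemma continuous_qr (v : Fin d → ℝ) : Continuous fun Q : Mx d => qr Q v := by
  unfold qr
  fun_prop

lemma continuous_qf (x : Fin d → ℤ) : Continuous fun Q : Mx d => qf Q x := continuous_qr _

lemma tendsto_inv {A : Mx d} (hA : PD A) {ι : Type*} {l : Filter ι} {Q : ι → Mx d}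
    (h : Tendsto Q l (𝓝 A)) : Tendsto (fun k => (Q k)⁻¹) l (𝓝 A⁻¹) := by
  have h1 : ContinuousAt (fun Q : Mx d => Q⁻¹) A := by
    simp only [Matrix.inv_def, Ring.inverse_eq_inv']
    exact ((continuous_id.matrix_det.continuousAt).inv₀ hA.det_pos.ne').smul
      continuous_id.matrix_adjugate.continuousAt
  exact h1.tendsto.comp h

lemma split_tsum {S : Set (NZ d)} (hS : S.Finite) {f : NZ d → ℝ} (hf : Summable f) :
    ∑' x, f x = ∑ x ∈ hS.toFinset, f x + ∑' x, Sᶜ.indicator f x := by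
  have h1 : ∑' x, S.indicator f x = ∑ x ∈ hS.toFinset, f x := by
    rw [tsum_eq_sum (s := hS.toFinset)]
    · refine Finset.sum_congr rfl fun x hx => Set.indicator_of_mem (hS.mem_toFinset.mp hx) f
    · intro x hx
      exact Set.indicator_of_notMem (fun h => hx (hS.mem_toFinset.mpr h)) f
  rw [← h1, ← (hf.indicator S).tsum_add (hf.indicator Sᶜ)]
  refine tsum_congr fun x => ?_
  exact (congrFun (Set.indicator_self_add_compl S f) x).symm

/-- the tail of the weights -/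
noncomputable def tl (A : Mx d) (s : ℝ) (Q : Mx d) : ℝ :=
  ∑' x : NZ d, (minSet A)ᶜ.indicator (fun x => qf Q x.1 ^ (-s)) x

/-- uniform estimates near a form with minimum one -/
structure Near (A : Mx d) (c δ K r : ℝ) : Prop where
  c_pos : 0 < c
  δ_pos : 0 < δ
  K_pos : 0 < K
  r_pos : 0 < r
  low : ∀ Q : Mx d, ‖Q - A‖ ≤ r → Low c Q
  lowr : ∀ Q : Mx d, ‖Q - A‖ ≤ r → ∀ v : Fin d → ℝ, c * ∑ i, v i ^ 2 ≤ qr Q v
  gap : ∀ Q : Mx d, ‖Q - A‖ ≤ r → ∀ x : NZ d, x ∉ minSet A → 1 + δ ≤ qf Q x.1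
  tail : ∀ Q : Mx d, ‖Q - A‖ ≤ r → ∀ s : ℝ, (d : ℝ) / 2 + 1 ≤ s → tl A s Q ≤ K * (1 + δ) ^ (-s)

lemma exists_near_data {A : Mx d} (hA : PD A) (h1 : ∀ x : NZ d, 1 ≤ qf A x.1) :
    ∃ c δ K r, Near A c δ K r := by
  obtain ⟨c, hc, δ, hδ, r, hr, h⟩ := near_data hA h1
  obtain ⟨K, hK, ht⟩ := tail (d := d) hc hδ
  exact ⟨c, δ, K, r, ⟨hc, hδ, hK, hr, fun Q hQ => (h Q hQ).1, fun Q hQ => (h Q hQ).2.1,
    fun Q hQ => (h Q hQ).2.2, fun Q hQ s hs => ht s hs Q (h Q hQ).1 _ fun x hx => (h Q hQ).2.2 x hx⟩⟩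

lemma tl_nonneg {A : Mx d} {s : ℝ} {Q : Mx d} (hQ : PD Q) : 0 ≤ tl A s Q :=
  tsum_nonneg fun x => Set.indicator_nonneg (fun x _ => Real.rpow_nonneg (hQ.pos x).le _) x

/-- the tail of a weighted sum -/
lemma tail_mul {A : Mx d} {c s : ℝ} (hc : 0 < c) {Q : Mx d} (hQ : Low c Q)
    (hs : (d : ℝ) / 2 < s) {f : NZ d → ℝ} {M : ℝ} (hf : ∀ x, |f x| ≤ M) :
    |∑' x : NZ d, (minSet A)ᶜ.indicator (fun x => qf Q x.1 ^ (-s) * f x) x| ≤ M * tl A s Q := by
  have hsum : Summable fun x : NZ d => (minSet A)ᶜ.indicator (fun x => qf Q x.1 ^ (-s)) x :=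
    (hQ.summable hc hs).indicator _
  have hle : ∀ x : NZ d, ‖(minSet A)ᶜ.indicator (fun x => qf Q x.1 ^ (-s) * f x) x‖ ≤
      M * (minSet A)ᶜ.indicator (fun x => qf Q x.1 ^ (-s)) x := by
    intro x
    by_cases hx : x ∈ (minSet A)ᶜ
    · rw [Set.indicator_of_mem hx, Set.indicator_of_mem hx, Real.norm_eq_abs, abs_mul,
        abs_of_nonneg (Real.rpow_nonneg (hQ.pos hc x).le _), mul_comm]
      exact mul_le_mul_of_nonneg_right (hf x) (Real.rpow_nonneg (hQ.pos hc x).le _)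
    · rw [Set.indicator_of_notMem hx, Set.indicator_of_notMem hx]
      simp
  have := tsum_of_norm_bounded ((hsum.mul_left M).hasSum) hle
  rw [Real.norm_eq_abs, tsum_mul_left] at this
  exact this

/-- the weight of a minimal vector times the inverse of the value -/
lemma weight_lower {q s : ℝ} (hq : 0 < q) (hs : 0 < s) :
    q ^ (-s) - 1 / s ≤ q ^ (-s) * (1 / q) := by
  set p : ℝ := q ^ (-s) with hp
  have hp0 : 0 < p := Real.rpow_pos_of_pos hq _
  have h1 : Real.log p = -s * Real.log q := Real.log_rpow hq _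
  have h2 : 1 - Real.log q ≤ 1 / q := by
    have := Real.add_one_le_exp (-Real.log q)
    rw [Real.exp_neg, Real.exp_log hq] at this
    rw [one_div]
    linarith
  have h3 : p * (-Real.log p) ≤ 1 := by
    have h4 := Real.one_sub_inv_le_log_of_pos hp0
    have h5 : p * (1 - p⁻¹) ≤ p * Real.log p := mul_le_mul_of_nonneg_left h4 hp0.le
    have h6 : p * (1 - p⁻¹) = p - 1 := by field_simp
    nlinarith
  have h7 : p * Real.log q ≤ 1 / s := by
    rw [le_div_iff₀ hs]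
    calc p * Real.log q * s = p * (-Real.log p) := by rw [h1]; ring
      _ ≤ 1 := h3
  calc p - 1 / s ≤ p - p * Real.log q := by linarith
    _ = p * (1 - Real.log q) := by ring
    _ ≤ p * (1 / q) := mul_le_mul_of_nonneg_left h2 hp0.le

/-- the first consequence of stationarity -/
lemma trace_upper (hd : d ≠ 0) {A : Mx d} (hA : PD A) {c δ K r : ℝ} (hn : Near A c δ K r)
    {s : ℝ} (hs : (d : ℝ) / 2 + 1 ≤ s) {Q : Mx d} (hQ : PD Q) (hQA : ‖Q - A‖ ≤ r)
    (hF : F s Q = 1) (hC : Crit s Q) :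
    (Q⁻¹ * (Q - A)).trace ≤ d * (tl A s Q + (finite_minSet hA).toFinset.card / s) := by
  have hdpos : (0 : ℝ) < d := by exact_mod_cast Nat.pos_of_ne_zero hd
  have hs' : (d : ℝ) / 2 < s := by linarith
  have hs0 : 0 < s := by linarith
  have hl := hn.low Q hQA
  have hc := hn.c_pos
  set S := (finite_minSet hA).toFinset with hS
  have h1 := hC A hA.1
  rw [hF, one_mul] at h1
  rw [split_tsum (finite_minSet hA) (hl.summable_mul hc hs' A)] at h1
  have h2 : 0 ≤ ∑' x : NZ d, (minSet A)ᶜ.indicator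
      (fun x => qf Q x.1 ^ (-s) * (qf A x.1 / qf Q x.1)) x :=
    tsum_nonneg fun x => Set.indicator_nonneg (fun x _ =>
      mul_nonneg (Real.rpow_nonneg (hQ.pos x).le _) (div_nonneg (hA.pos x).le (hQ.pos x).le)) x
  have h3 : ∑ x ∈ S, (qf Q x.1 ^ (-s) - 1 / s) ≤
      ∑ x ∈ S, qf Q x.1 ^ (-s) * (qf A x.1 / qf Q x.1) := by
    refine Finset.sum_le_sum fun x hx => ?_
    have hx' : qf A x.1 = 1 := (finite_minSet hA).mem_toFinset.mp hx
    rw [hx']
    exact weight_lower (hQ.pos x) hs0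
  have h4 : F s Q = ∑ x ∈ S, qf Q x.1 ^ (-s) + tl A s Q :=
    split_tsum (finite_minSet hA) (hl.summable hc hs')
  rw [hF] at h4
  rw [Finset.sum_sub_distrib, Finset.sum_const, nsmul_eq_mul] at h3
  have h5 : (Q⁻¹ * A).trace = d - (Q⁻¹ * (Q - A)).trace := by
    have hu : IsUnit Q.det := hQ.det_pos.ne'.isUnit
    rw [mul_sub, Matrix.nonsing_inv_mul _ hu, Matrix.trace_sub, Matrix.trace_one,
      Fintype.card_fin]
    ring
  rw [h5] at h1
  have h6 : 1 - tl A s Q - S.card / s ≤ (d - (Q⁻¹ * (Q - A)).trace) / d := by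
    have : (S.card : ℝ) * (1 / s) = S.card / s := by ring
    linarith
  rw [le_div_iff₀ hdpos] at h6
  linarith

/-- the second consequence of stationarity -/
lemma trace_lower {A : Mx d} (hA : PD A) {c δ K r : ℝ} (hn : Near A c δ K r)
    {s : ℝ} (hs : (d : ℝ) / 2 + 1 ≤ s) {Q : Mx d} (hQ : PD Q) (hQA : ‖Q - A‖ ≤ r)
    (hF : F s Q = 1) (hC : Crit s Q) {H : Mx d} (hH : H.IsSymm)
    (hnn : ∀ x ∈ minSet A, 0 ≤ qf H x.1) :
    -(d * ‖H‖ / c * tl A s Q) ≤ (Q⁻¹ * H).trace / d := by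
  have hs' : (d : ℝ) / 2 < s := by linarith
  have hl := hn.low Q hQA
  have hc := hn.c_pos
  have h1 := hC H hH
  rw [hF, one_mul, split_tsum (finite_minSet hA) (hl.summable_mul hc hs' H)] at h1
  have h2 : 0 ≤ ∑ x ∈ (finite_minSet hA).toFinset, qf Q x.1 ^ (-s) * (qf H x.1 / qf Q x.1) :=
    Finset.sum_nonneg fun x hx => mul_nonneg (Real.rpow_nonneg (hQ.pos x).le _)
      (div_nonneg (hnn x ((finite_minSet hA).mem_toFinset.mp hx)) (hQ.pos x).le)
  have h3 := (abs_le.mp (tail_mul (A := A) hc hl hs' (hl.ratio hc H))).1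
  linarith

lemma tendsto_mul_tail {s : ℕ → ℝ} (hs : Tendsto s atTop atTop) {δ K : ℝ} (hδ : 0 < δ) :
    Tendsto (fun k => s k * (K * (1 + δ) ^ (-(s k)))) atTop (𝓝 0) := by
  have h1 : Tendsto (fun t : ℝ => t * (1 + δ) ^ (-t)) atTop (𝓝 0) := by
    have h2 := tendsto_rpow_mul_exp_neg_mul_atTop_nhds_zero 1 (Real.log (1 + δ))
      (Real.log_pos (by linarith))
    refine h2.congr fun t => ?_
    rw [Real.rpow_one, Real.rpow_def_of_pos (by linarith)]
    ring_nf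
  have h3 := (h1.comp hs).const_mul K
  rw [mul_zero] at h3
  refine h3.congr fun k => ?_
  simp only [Function.comp_apply]
  ring

theorem key (hd : d ≠ 0) {A : Mx d} (hA : PD A) {s : ℕ → ℝ} (hs : Tendsto s atTop atTop)
    {Q : ℕ → Mx d} (hQ : ∀ k, PD (Q k)) (hF : ∀ k, F (s k) (Q k) = 1)
    (hC : ∀ k, Crit (s k) (Q k)) (hlim : Tendsto Q atTop (𝓝 A)) :
    (∀ x : NZ d, 1 ≤ qf A x.1) ∧ ∃ C : ℝ, 0 < C ∧ ∀ᶠ k in atTop, ‖Q k - A‖ ≤ C / s k := by
  have hone : ∀ x : NZ d, 1 ≤ qf A x.1 := by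
    intro x
    have h1 : Tendsto (fun k => qf (Q k) x.1) atTop (𝓝 (qf A x.1)) :=
      ((continuous_qf x.1).tendsto A).comp hlim
    refine ge_of_tendsto h1 ?_
    filter_upwards [hs.eventually_gt_atTop ((d : ℝ) / 2)] with k hk
    exact one_le_of_F (hQ k) hk (hF k) x
  refine ⟨hone, ?_⟩
  obtain ⟨c, δ, K, r, hn⟩ := exists_near_data hA hone
  by_contra hcon
  push Not at hcon
  have hdpos : (0 : ℝ) < d := by exact_mod_cast Nat.pos_of_ne_zero hd
  -- the good tail of the sequence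
  have hgood : ∀ᶠ k in atTop, ‖Q k - A‖ ≤ r ∧ (d : ℝ) / 2 + 1 ≤ s k := by
    have h1 : Tendsto (fun k => ‖Q k - A‖) atTop (𝓝 0) := by
      have := (hlim.sub_const A).norm
      simpa using this
    filter_upwards [h1.eventually (gt_mem_nhds hn.r_pos),
      hs.eventually_ge_atTop ((d : ℝ) / 2 + 1)] with k h2 h3
    exact ⟨h2.le, h3⟩
  have hfreq : ∀ n : ℕ, ∃ᶠ k in atTop, (‖Q k - A‖ ≤ r ∧ (d : ℝ) / 2 + 1 ≤ s k) ∧
      ((n : ℝ) + 1) / s k < ‖Q k - A‖ := by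
    intro n
    have h1 := hcon ((n : ℝ) + 1) (by positivity)
    exact (h1.and_eventually hgood).mono fun k hk => ⟨hk.2, hk.1⟩
  obtain ⟨φ, hφ, hφp⟩ := Filter.extraction_forall_of_frequently hfreq
  set N : ℕ → Mx d := fun n => (‖Q (φ n) - A‖)⁻¹ • (Q (φ n) - A) with hN
  have hapos : ∀ n, 0 < ‖Q (φ n) - A‖ := by
    intro n
    have hs0 : 0 < s (φ n) := by
      have := (hφp n).1.2
      have : (0 : ℝ) ≤ d := Nat.cast_nonneg d
      linarith
    have h2 : 0 < ((n : ℝ) + 1) / s (φ n) := by positivity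
    exact h2.trans (hφp n).2
  have hNs : ∀ n, N n ∈ Metric.sphere (0 : Mx d) 1 := by
    intro n
    rw [mem_sphere_zero_iff_norm, hN]
    simp only [norm_smul, norm_inv, norm_norm]
    exact inv_mul_cancel₀ (hapos n).ne'
  obtain ⟨H, hHs, χ, hχ, hNlim⟩ := (isCompact_sphere (0 : Mx d) 1).tendsto_subseq hNs
  set ψ : ℕ → ℕ := fun n => φ (χ n) with hψ
  have hψlim : Tendsto ψ atTop atTop := hφ.tendsto_atTop.comp hχ.tendsto_atTop
  have hQlim : Tendsto (fun n => Q (ψ n)) atTop (𝓝 A) := hlim.comp hψlim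
  have hslim : Tendsto (fun n => s (ψ n)) atTop atTop := hs.comp hψlim
  have hH0 : H ≠ 0 := by
    intro h0
    rw [h0] at hHs
    simp at hHs
  have hHsymm : H.IsSymm := by
    have h1 : Tendsto (fun n => ((N ∘ χ) n)ᵀ) atTop (𝓝 Hᵀ) :=
      (continuous_id.matrix_transpose.tendsto H).comp hNlim
    have h2 : ∀ n, ((N ∘ χ) n)ᵀ = (N ∘ χ) n := by
      intro n
      exact ((hQ (φ (χ n))).1.sub hA.1).smul _
    simp only [h2] at h1
    exact tendsto_nhds_unique h1 hNlim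
  -- the tails
  have htail : ∀ n, tl A (s (ψ n)) (Q (ψ n)) ≤ K * (1 + δ) ^ (-(s (ψ n))) := fun n =>
    hn.tail _ (hφp (χ n)).1.1 _ (hφp (χ n)).1.2
  have hs0 : ∀ n, 0 < s (ψ n) := by
    intro n
    have := (hφp (χ n)).1.2
    have : (0 : ℝ) ≤ d := Nat.cast_nonneg d
    linarith
  have has : ∀ n : ℕ, (n : ℝ) + 1 ≤ ‖Q (ψ n) - A‖ * s (ψ n) := by
    intro n
    have h1 := (hφp (χ n)).2
    rw [div_lt_iff₀ (hs0 n)] at h1
    have h2 : (n : ℝ) ≤ χ n := by exact_mod_cast hχ.id_le n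
    linarith
  have htl : Tendsto (fun n => tl A (s (ψ n)) (Q (ψ n)) / ‖Q (ψ n) - A‖) atTop (𝓝 0) := by
    refine squeeze_zero (fun n => div_nonneg (tl_nonneg (hQ _)) (norm_nonneg _)) (fun n => ?_)
      (tendsto_mul_tail (K := K) hslim hn.δ_pos)
    rw [div_le_iff₀ (hapos _)]
    have h1 := has n
    have h2 : 1 ≤ ‖Q (ψ n) - A‖ * s (ψ n) := by
      have : (0 : ℝ) ≤ n := Nat.cast_nonneg n
      linarith
    have h3 : 0 ≤ K * (1 + δ) ^ (-(s (ψ n))) := (tl_nonneg (hQ _)).trans (htail n)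
    calc tl A (s (ψ n)) (Q (ψ n)) ≤ K * (1 + δ) ^ (-(s (ψ n))) * 1 := by
          rw [mul_one]; exact htail n
      _ ≤ K * (1 + δ) ^ (-(s (ψ n))) * (‖Q (ψ n) - A‖ * s (ψ n)) :=
          mul_le_mul_of_nonneg_left h2 h3
      _ = _ := by ring
  have hcs : Tendsto (fun n => ((finite_minSet hA).toFinset.card : ℝ) / s (ψ n) /
      ‖Q (ψ n) - A‖) atTop (𝓝 0) := by
    have h1 : Tendsto (fun n : ℕ => ((finite_minSet hA).toFinset.card : ℝ) / ((n : ℝ) + 1)) atTop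
        (𝓝 0) := by
      have h2 := (tendsto_const_div_atTop_nhds_zero_nat
        ((finite_minSet hA).toFinset.card : ℝ)).comp (tendsto_add_atTop_nat 1)
      refine h2.congr fun n => ?_
      simp
    refine squeeze_zero (fun n => by
      have := hs0 n
      positivity) (fun n => ?_) h1
    rw [div_div]
    refine div_le_div_of_nonneg_left (by positivity) (by positivity) ?_
    rw [mul_comm]
    exact has n
  -- the limits
  have hinv := tendsto_inv hA hQlim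
  have hNlim' : Tendsto (fun n => (‖Q (ψ n) - A‖)⁻¹ • (Q (ψ n) - A)) atTop (𝓝 H) := hNlim
  have htr1 : Tendsto (fun n => ((Q (ψ n))⁻¹ * ((‖Q (ψ n) - A‖)⁻¹ • (Q (ψ n) - A))).trace) atTop
      (𝓝 (A⁻¹ * H).trace) := by
    have h1 := hinv.mul hNlim'
    exact (continuous_id.matrix_trace.tendsto _).comp h1
  have hle1 : (A⁻¹ * H).trace ≤ 0 := by
    have h2 : Tendsto (fun n => d * (tl A (s (ψ n)) (Q (ψ n)) / ‖Q (ψ n) - A‖ +
        ((finite_minSet hA).toFinset.card : ℝ) / s (ψ n) / ‖Q (ψ n) - A‖)) atTop (𝓝 0) := by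
      have := (htl.add hcs).const_mul (d : ℝ)
      simpa using this
    refine le_of_tendsto_of_tendsto' htr1 h2 fun n => ?_
    have h3 := trace_upper hd hA hn (hφp (χ n)).1.2 (hQ (ψ n)) (hφp (χ n)).1.1 (hF _) (hC _)
    rw [Matrix.mul_smul, Matrix.trace_smul, smul_eq_mul, ← div_eq_inv_mul,
      div_le_iff₀ (hapos _)]
    refine h3.trans (le_of_eq ?_)
    have := (hapos (χ n)).ne'
    have h5 : ‖Q (ψ n) - A‖ ≠ 0 := this
    field_simp
    simp only [hψ]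
  have hnn : ∀ x ∈ minSet A, 0 ≤ qf H x.1 := by
    intro x hx
    have h1 : Tendsto (fun n => qf ((‖Q (ψ n) - A‖)⁻¹ • (Q (ψ n) - A)) x.1) atTop
        (𝓝 (qf H x.1)) := ((continuous_qf x.1).tendsto H).comp hNlim'
    refine ge_of_tendsto' h1 fun n => ?_
    rw [qf_smul, qf_sub]
    refine mul_nonneg (by positivity) ?_
    have h2 : qf A x.1 = 1 := hx
    have h3 := one_le_of_F (hQ (ψ n)) (by have := (hφp (χ n)).1.2; linarith) (hF (ψ n)) x
    linarith
  have htr2 : Tendsto (fun n => ((Q (ψ n))⁻¹ * ((‖Q (ψ n) - A‖)⁻¹ • (Q (ψ n) - A)) *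
      (A⁻¹ * H)).trace) atTop (𝓝 (A⁻¹ * H * (A⁻¹ * H)).trace) := by
    have h1 := (hinv.mul hNlim').mul_const (A⁻¹ * H)
    exact (continuous_id.matrix_trace.tendsto _).comp h1
  have hle2 : (A⁻¹ * H * (A⁻¹ * H)).trace ≤ 0 := by
    have h2 : Tendsto (fun n => d * (d * ‖H‖ / c) *
        (tl A (s (ψ n)) (Q (ψ n)) / ‖Q (ψ n) - A‖)) atTop (𝓝 0) := by
      have := htl.const_mul (d * (d * ‖H‖ / c))
      simpa using this
    refine le_of_tendsto_of_tendsto' htr2 h2 fun n => ?_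
    have h3 := trace_lower hA hn (hφp (χ n)).1.2 (hQ (ψ n)) (hφp (χ n)).1.1 (hF _) (hC _)
      hHsymm hnn
    rw [le_div_iff₀ hdpos] at h3
    have hu : IsUnit (Q (ψ n)).det := (hQ _).det_pos.ne'.isUnit
    have hu' : IsUnit A.det := hA.det_pos.ne'.isUnit
    have h4 : (Q (ψ n))⁻¹ * (Q (ψ n) - A) * (A⁻¹ * H) = A⁻¹ * H - (Q (ψ n))⁻¹ * H := by
      rw [mul_sub, sub_mul, Matrix.nonsing_inv_mul _ hu, one_mul, Matrix.mul_assoc,
        Matrix.mul_nonsing_inv_cancel_left _ _ hu']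
    rw [Matrix.mul_smul, Matrix.smul_mul, Matrix.trace_smul, smul_eq_mul, h4, Matrix.trace_sub,
      ← div_eq_inv_mul, div_le_iff₀ (hapos _)]
    have h5 : ‖Q (ψ n) - A‖ ≠ 0 := (hapos (χ n)).ne'
    calc (A⁻¹ * H).trace - ((Q (ψ n))⁻¹ * H).trace ≤ 0 + d * ‖H‖ / c * tl A (s (ψ n)) (Q (ψ n)) * d := by
          linarith
      _ = d * (d * ‖H‖ / c) * (tl A (s (ψ n)) (Q (ψ n)) / ‖Q (ψ n) - A‖) * ‖Q (φ (χ n)) - A‖ := by
          simp only [hψ] at h5 ⊢
          field_simp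
          ring
  exact absurd (trace_sq_pos hA hHsymm hH0) (not_lt.mpr hle2)

end Pool.Agent.Lib.EpZ
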