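import Pool.Agent.Lib.EpZ.Inv
import Pool.Agent.Lib.EpZ.Root

/-!
# Lattices and their Gram matrices
-/

open Matrix Filter Topology
open scoped Matrix.Norms.Elementwise

namespace Pool.Agent.Lib.EpZ

variable {d : ℕ}

/-- The set `B ℤ^d`, for a real `d × d` matrix `B`. -/
def lat (B : Mx d) : Set (EuclideanSpace ℝ (Fin d)) :=
  {v | ∃ x : Fin d → ℤ, ∀ i, v i = ∑ j, B i j * (x j : ℝ)}

/-- `Λ` is a lattice of determinant `1`. -/
def IsUnitLattice (Λ : Set (EuclideanSpace ℝ (Fin d))) : Prop :=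
  ∃ B : Mx d, |B.det| = 1 ∧ Λ = lat B

/-- The Epstein zeta function `ζ(Λ, s) = ∑_{v ∈ Λ, v ≠ 0} |v|^(-2s)`. -/
noncomputable def zeta (Λ : Set (EuclideanSpace ℝ (Fin d))) (s : ℝ) : ℝ :=
  ∑' v : {v : EuclideanSpace ℝ (Fin d) // v ∈ Λ ∧ v ≠ 0},
    ‖(v : EuclideanSpace ℝ (Fin d))‖ ^ (-(2 * s))

/-- the length of the shortest nonzero vectors -/
noncomputable def minLen (Λ : Set (EuclideanSpace ℝ (Fin d))) : ℝ :=
  sInf {r : ℝ | ∃ v ∈ Λ, v ≠ 0 ∧ r = ‖v‖}

/-- `Λ'` is the image of `Λ` under a linear isometry of `ℝ^d` -/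
def Isometric (Λ Λ' : Set (EuclideanSpace ℝ (Fin d))) : Prop :=
  ∃ φ : EuclideanSpace ℝ (Fin d) ≃ₗᵢ[ℝ] EuclideanSpace ℝ (Fin d), φ '' Λ = Λ'

/-- the vector of `lat B` with integer coordinates `x` -/
noncomputable def vec (B : Mx d) (x : Fin d → ℤ) : EuclideanSpace ℝ (Fin d) :=
  WithLp.toLp 2 (B *ᵥ rv x)

theorem mem_lat (B : Mx d) (v : EuclideanSpace ℝ (Fin d)) : v ∈ lat B ↔ ∃ x, v = vec B x := by
  unfold lat
  refine exists_congr fun x => ⟨fun h => ?_, fun h i => ?_⟩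
  · refine PiLp.ext fun i => ?_
    rw [h i]
    rfl
  · rw [h]
    rfl

namespace LatAux

lemma inner_toLp (B : Mx d) (v w : Fin d → ℝ) :
    inner ℝ (WithLp.toLp 2 (B *ᵥ v) : EuclideanSpace ℝ (Fin d)) (WithLp.toLp 2 (B *ᵥ w)) =
      v ⬝ᵥ (gram B *ᵥ w) := by
  rw [EuclideanSpace.inner_toLp_toLp, star_trivial, gram, ← mulVec_mulVec, dotProduct_mulVec v,
    vecMul_transpose, dotProduct_comm]

lemma norm_toLp_sq (B : Mx d) (v : Fin d → ℝ) :
    ‖(WithLp.toLp 2 (B *ᵥ v) : EuclideanSpace ℝ (Fin d))‖ ^ 2 = qr (gram B) v := by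
  rw [← real_inner_self_eq_norm_sq, inner_toLp]
  rfl

lemma mulVec_ne {B : Mx d} (hB : B.det ≠ 0) {v : Fin d → ℝ} (hv : v ≠ 0) : B *ᵥ v ≠ 0 := by
  intro h
  apply hv
  have h1 : B⁻¹ *ᵥ (B *ᵥ v) = v := by
    rw [mulVec_mulVec, nonsing_inv_mul _ (isUnit_iff_ne_zero.2 hB), one_mulVec]
  rw [← h1, h, mulVec_zero]

lemma rv_single (j : Fin d) : rv (Pi.single j 1) = Pi.single j 1 := by
  funext i
  by_cases h : i = j
  · subst h
    simp [rv]
  · simp [rv, Pi.single_eq_of_ne h]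

lemma vec_mulVec (B : Mx d) (V : Matrix (Fin d) (Fin d) ℤ) (y : Fin d → ℤ) :
    vec B (V *ᵥ y) = ∑ j, (y j : ℝ) • vec B (fun i => V i j) := by
  refine PiLp.ext fun i => ?_
  unfold vec
  rw [InvAux.rv_mulVec, mulVec_mulVec]
  simp only [WithLp.ofLp_sum, WithLp.ofLp_smul, Finset.sum_apply, Pi.smul_apply,
    smul_eq_mul]
  simp only [mulVec, dotProduct, Matrix.mul_apply, rv, Matrix.map_apply, Finset.sum_mul,
    Finset.mul_sum]
  refine Finset.sum_congr rfl fun j _ => Finset.sum_congr rfl fun k _ => ?_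
  ring

end LatAux

open LatAux

theorem gram_pd {B : Mx d} (hB : B.det ≠ 0) : PD (gram B) := by
  refine ⟨?_, fun v hv => ?_⟩
  · unfold gram Matrix.IsSymm
    rw [transpose_mul, transpose_transpose]
  · rw [← norm_toLp_sq]
    have h1 : (WithLp.toLp 2 (B *ᵥ v) : EuclideanSpace ℝ (Fin d)) ≠ 0 := by
      intro h
      exact mulVec_ne hB hv ((WithLp.toLp_eq_zero 2).1 h)
    positivity

theorem norm_vec_sq (B : Mx d) (x : Fin d → ℤ) : ‖vec B x‖ ^ 2 = qf (gram B) x :=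
  norm_toLp_sq B (rv x)

theorem vec_injective {B : Mx d} (hB : B.det ≠ 0) : Function.Injective (vec B) := by
  intro x y h
  by_contra hxy
  have h1 : B *ᵥ (rv x) = B *ᵥ (rv y) := (WithLp.toLp_injective 2) h
  have h2 : rv x - rv y ≠ 0 := by
    intro h3
    apply hxy
    funext i
    have h4 := congrFun h3 i
    simp only [rv, Pi.sub_apply, Pi.zero_apply] at h4
    have h5 : (x i : ℝ) = y i := by linarith
    exact_mod_cast h5
  apply mulVec_ne hB h2
  rw [mulVec_sub, h1, sub_self]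

namespace LatAux

lemma vec_zero (B : Mx d) : vec B 0 = 0 := by
  have : rv (0 : Fin d → ℤ) = 0 := by
    funext i
    simp [rv]
  unfold vec
  rw [this, mulVec_zero]
  rfl

lemma vec_ne {B : Mx d} (hB : B.det ≠ 0) {x : Fin d → ℤ} (hx : x ≠ 0) : vec B x ≠ 0 := by
  intro h
  exact hx (vec_injective hB (h.trans (vec_zero B).symm))

/-- the nonzero lattice vectors -/
noncomputable def eqv {B : Mx d} (hB : B.det ≠ 0) :
    NZ d ≃ {v : EuclideanSpace ℝ (Fin d) // v ∈ lat B ∧ v ≠ 0} :=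
  Equiv.ofBijective (fun x => ⟨vec B x.1, (mem_lat B _).2 ⟨x.1, rfl⟩, vec_ne hB x.2⟩) (by
    constructor
    · intro x y h
      exact Subtype.ext (vec_injective hB (congrArg Subtype.val h))
    · rintro ⟨v, hv, hv0⟩
      obtain ⟨x, rfl⟩ := (mem_lat B v).1 hv
      exact ⟨⟨x, fun h => hv0 (by rw [h, vec_zero])⟩, rfl⟩)

end LatAux

/-- sums over the nonzero lattice vectors -/
theorem zeta_lat {B : Mx d} (hB : B.det ≠ 0) (s : ℝ) : zeta (lat B) s = F s (gram B) := by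
  unfold zeta F
  rw [← (eqv hB).tsum_eq]
  refine tsum_congr fun x => ?_
  show ‖vec B x.1‖ ^ (-(2 * s)) = _
  rw [← norm_vec_sq, ← Real.rpow_natCast, ← Real.rpow_mul (norm_nonneg _)]
  congr 1
  push_cast
  ring

namespace LatAux

/-- columns of the integer matrix of an isometry -/
lemma exists_cols {B B' : Mx d}
    {φ : EuclideanSpace ℝ (Fin d) ≃ₗᵢ[ℝ] EuclideanSpace ℝ (Fin d)}
    (h : ∀ y, ∃ x, φ (vec B x) = vec B' y) :
    ∃ V : Matrix (Fin d) (Fin d) ℤ, ∀ y, φ (vec B (V *ᵥ y)) = vec B' y := by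
  choose x hx using fun j : Fin d => h (Pi.single j 1)
  refine ⟨Matrix.of fun i j => x j i, fun y => ?_⟩
  have h1 := vec_mulVec B' 1 y
  rw [one_mulVec] at h1
  rw [vec_mulVec, map_sum, h1]
  refine Finset.sum_congr rfl fun j _ => ?_
  have h2 : (fun i => Matrix.of (fun i j => x j i) i j) = x j := rfl
  rw [map_smul, h2, hx]
  congr 2
  funext i
  rw [Matrix.one_apply]
  by_cases hij : i = j
  · subst hij
    simp
  · rw [Pi.single_eq_of_ne hij, if_neg hij]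

lemma gram_apply (B : Mx d) (i j : Fin d) : gram B i j =
    inner ℝ (vec B (Pi.single i 1)) (vec B (Pi.single j 1)) := by
  unfold vec
  rw [inner_toLp, rv_single, rv_single]
  simp

lemma act_gram_apply (B : Mx d) (V : Matrix (Fin d) (Fin d) ℤ) (i j : Fin d) :
    act V (gram B) i j =
      inner ℝ (vec B (V *ᵥ Pi.single i 1)) (vec B (V *ᵥ Pi.single j 1)) := by
  unfold vec
  rw [InvAux.rv_mulVec, InvAux.rv_mulVec, mulVec_mulVec, mulVec_mulVec, inner_toLp, rv_single,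
    rv_single]
  have h1 : act V (gram B) = gram (B * V.map (Int.cast : ℤ → ℝ)) := by
    unfold act gram
    rw [transpose_mul]
    simp only [Matrix.mul_assoc]
  rw [h1]
  simp

lemma act_gram (B : Mx d) (V : Matrix (Fin d) (Fin d) ℤ) :
    act V (gram B) = gram (B * V.map (Int.cast : ℤ → ℝ)) := by
  unfold act gram
  rw [transpose_mul]
  simp only [Matrix.mul_assoc]

lemma vec_mul (B : Mx d) (V : Matrix (Fin d) (Fin d) ℤ) (x : Fin d → ℤ) :
    vec (B * V.map (Int.cast : ℤ → ℝ)) x = vec B (V *ᵥ x) := by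
  unfold vec
  rw [InvAux.rv_mulVec, mulVec_mulVec]

/-- an isometry between frames with the same Gram matrix -/
lemma exists_isometry {B B' : Mx d} (hB : B.det ≠ 0) (h : gram B' = gram B) :
    ∃ φ : EuclideanSpace ℝ (Fin d) ≃ₗᵢ[ℝ] EuclideanSpace ℝ (Fin d),
      ∀ x, φ (vec B x) = vec B' x := by
  set M : Mx d := B' * B⁻¹ with hM
  have hBu : IsUnit B.det := isUnit_iff_ne_zero.2 hB
  have hMB : M * B = B' := by
    rw [hM, Matrix.mul_assoc, nonsing_inv_mul _ hBu, Matrix.mul_one]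
  have hMM : gram M = 1 := by
    have h1 : Bᵀ * gram M * B = Bᵀ * B := by
      have h2 : Bᵀ * gram M * B = gram (M * B) := by
        unfold gram
        rw [transpose_mul M B]
        simp only [Matrix.mul_assoc]
      rw [h2, hMB, h]
      rfl
    have hBt : IsUnit (Bᵀ).det := by rwa [det_transpose]
    calc gram M = (Bᵀ)⁻¹ * (Bᵀ * gram M * B) * B⁻¹ := by
          rw [← Matrix.mul_assoc, ← Matrix.mul_assoc, nonsing_inv_mul _ hBt, Matrix.one_mul,
            Matrix.mul_assoc, mul_nonsing_inv _ hBu, Matrix.mul_one]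
      _ = (Bᵀ)⁻¹ * (Bᵀ * B) * B⁻¹ := by rw [h1]
      _ = 1 := by
          rw [← Matrix.mul_assoc, nonsing_inv_mul _ hBt, Matrix.one_mul, mul_nonsing_inv _ hBu]
  have hnorm : ∀ v : EuclideanSpace ℝ (Fin d), ‖Matrix.toEuclideanLin M v‖ = ‖v‖ := by
    intro v
    have h1 : ‖Matrix.toEuclideanLin M v‖ ^ 2 = ‖v‖ ^ 2 := by
      have h2 : Matrix.toEuclideanLin M v = WithLp.toLp 2 (M *ᵥ WithLp.ofLp v) := rfl
      have h3 : (v : EuclideanSpace ℝ (Fin d)) =
          WithLp.toLp 2 ((1 : Mx d) *ᵥ WithLp.ofLp v) := by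
        rw [one_mulVec]
      rw [h2, norm_toLp_sq, hMM]
      conv_rhs => rw [h3]
      rw [norm_toLp_sq]
      unfold gram
      rw [transpose_one, Matrix.mul_one]
    exact (pow_left_inj₀ (norm_nonneg _) (norm_nonneg _) two_ne_zero).1 h1
  let φ₀ : EuclideanSpace ℝ (Fin d) →ₗᵢ[ℝ] EuclideanSpace ℝ (Fin d) :=
    ⟨Matrix.toEuclideanLin M, hnorm⟩
  refine ⟨φ₀.toLinearIsometryEquiv rfl, fun x => ?_⟩
  have h1 : (φ₀.toLinearIsometryEquiv rfl) (vec B x) = Matrix.toEuclideanLin M (vec B x) := rfl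
  rw [h1]
  unfold vec
  have h2 : Matrix.toEuclideanLin M (WithLp.toLp 2 (B *ᵥ rv x)) =
      WithLp.toLp 2 (M *ᵥ (B *ᵥ rv x)) := rfl
  rw [h2, mulVec_mulVec, hMB]

end LatAux

theorem isometric_iff {B B' : Mx d} (hB : B.det ≠ 0) (hB' : B'.det ≠ 0) :
    Isometric (lat B) (lat B') ↔ Eqv (gram B) (gram B') := by
  constructor
  · rintro ⟨φ, hφ⟩
    have h1 : ∀ y, ∃ x, φ (vec B x) = vec B' y := by
      intro y
      have h2 : vec B' y ∈ φ '' lat B := by
        rw [hφ]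
        exact (mem_lat B' _).2 ⟨y, rfl⟩
      obtain ⟨v, hv, hv2⟩ := h2
      obtain ⟨x, rfl⟩ := (mem_lat B v).1 hv
      exact ⟨x, hv2⟩
    have h2 : ∀ y, ∃ x, φ.symm (vec B' x) = vec B y := by
      intro y
      have h3 : φ (vec B y) ∈ lat B' := by
        rw [← hφ]
        exact Set.mem_image_of_mem _ ((mem_lat B _).2 ⟨y, rfl⟩)
      obtain ⟨x, hx⟩ := (mem_lat B' _).1 h3
      exact ⟨x, by rw [← hx, LinearIsometryEquiv.symm_apply_apply]⟩
    obtain ⟨V, hV⟩ := exists_cols h1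
    obtain ⟨W, hW⟩ := exists_cols h2
    have h3 : ∀ x, V *ᵥ (W *ᵥ x) = x := by
      intro x
      apply vec_injective hB
      have h4 := hV (W *ᵥ x)
      have h5 := hW x
      rw [← h4, LinearIsometryEquiv.symm_apply_apply] at h5
      exact h5
    have h4 : V * W = 1 := by
      ext i j
      have h5 := congrFun (h3 (Pi.single j 1)) i
      rw [mulVec_mulVec] at h5
      simpa [Matrix.one_apply, Pi.single_apply] using h5
    refine ⟨V, IsUnit.of_mul_eq_one W.det (by rw [← det_mul, h4, det_one]), ?_⟩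
    ext i j
    rw [act_gram_apply, ← φ.inner_map_map, hV, hV, gram_apply]
  · rintro ⟨U, hU, h⟩
    rw [act_gram] at h
    have hU' := InvAux.isUnit_map hU
    have hdet : (B * U.map (Int.cast : ℤ → ℝ)).det ≠ 0 := by
      rw [det_mul]
      exact mul_ne_zero hB hU'.ne_zero
    obtain ⟨φ, hφ⟩ := exists_isometry hdet h
    refine ⟨φ, ?_⟩
    ext w
    rw [mem_lat]
    constructor
    · rintro ⟨v, hv, rfl⟩
      obtain ⟨x, rfl⟩ := (mem_lat B v).1 hv
      refine ⟨U⁻¹ *ᵥ x, ?_⟩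
      rw [← hφ, vec_mul, mulVec_mulVec, mul_nonsing_inv _ hU, one_mulVec]
    · rintro ⟨x, rfl⟩
      refine ⟨vec B (U *ᵥ x), (mem_lat B _).2 ⟨_, rfl⟩, ?_⟩
      rw [← vec_mul, hφ]

/-- the square of `minLen` is the minimum of the form -/
theorem minLen_spec (hd : d ≠ 0) {B : Mx d} (hB : B.det ≠ 0) : 0 < minLen (lat B) ∧
    (∀ x : NZ d, minLen (lat B) ^ 2 ≤ qf (gram B) x.1) ∧
    ∃ x : NZ d, qf (gram B) x.1 = minLen (lat B) ^ 2 := by
  have hpd := gram_pd hB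
  have hne : Nonempty (NZ d) := by
    refine ⟨⟨fun _ => 1, fun h => ?_⟩⟩
    have h1 := congrFun h (⟨0, Nat.pos_of_ne_zero hd⟩ : Fin d)
    simp at h1
  obtain ⟨x₀⟩ := hne
  have hfin := finite_level hpd (qf (gram B) x₀.1)
  obtain ⟨y, hy, hmin⟩ := Set.exists_min_image _ (fun x : NZ d => qf (gram B) x.1) hfin
    ⟨x₀, (le_rfl : qf (gram B) x₀.1 ≤ qf (gram B) x₀.1)⟩
  have hmin' : ∀ x : NZ d, qf (gram B) y.1 ≤ qf (gram B) x.1 := by
    intro x
    by_cases hx : qf (gram B) x.1 ≤ qf (gram B) x₀.1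
    · exact hmin x hx
    · push Not at hx
      exact (hy.out).trans hx.le
  have hleast : IsLeast {r : ℝ | ∃ v ∈ lat B, v ≠ 0 ∧ r = ‖v‖} ‖vec B y.1‖ := by
    constructor
    · exact ⟨vec B y.1, (mem_lat B _).2 ⟨y.1, rfl⟩, vec_ne hB y.2, rfl⟩
    · rintro r ⟨v, hv, hv0, rfl⟩
      obtain ⟨x, rfl⟩ := (mem_lat B v).1 hv
      have hx : x ≠ 0 := fun h => hv0 (by rw [h, vec_zero])
      have h1 := hmin' ⟨x, hx⟩
      rw [← norm_vec_sq, ← norm_vec_sq] at h1
      exact (pow_le_pow_iff_left₀ (norm_nonneg _) (norm_nonneg _) two_ne_zero).1 h1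
  have hml : minLen (lat B) = ‖vec B y.1‖ := hleast.csInf_eq
  rw [hml]
  refine ⟨norm_pos_iff.2 (vec_ne hB y.2), fun x => ?_, y, ?_⟩
  · rw [norm_vec_sq]
    exact hmin' x
  · rw [norm_vec_sq]

end Pool.Agent.Lib.EpZ
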