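import Pool.Agent.Lib.EpZ.Fin

/-!
# Local and global minima of the Epstein zeta function for all large `s`

For every dimension `d` there is `s₀` such that for all `s ≥ s₀` the local minima of `ζ(·, s)` on
the lattices of determinant one are, up to isometry, in one-to-one correspondence with the lattices
of locally maximal packing density: near every such lattice `L i` there is exactly one local minimum
`L i (s)`, at distance `O(1/s)`, and there are no others. The value satisfies
`(min L i)^(2s) ζ(L i (s), s) → exp (h i)`, with `h i` the largest entropy of a system of eutaxy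
coefficients of `L i`, and the global minima are the `L i (s)` with `L i` densest and, among the
densest, `h i` least (up to ties).
-/

open Matrix Filter Topology
open scoped Matrix.Norms.Elementwise

namespace Pool.Agent.Lib.EpZ

variable {d : ℕ}

/-- from a lattice local minimum to a form -/
lemma locMin_form (hd : d ≠ 0) {Λ : Set (EuclideanSpace ℝ (Fin d))} {s : ℝ}
    (hs : (d : ℝ) / 2 < s) (h : IsLocalMinimum Λ s) :
    ∃ B : Mx d, |B.det| = 1 ∧ Λ = lat B ∧ LocMin s (gram B) := by
  obtain ⟨B, hB, rfl, h'⟩ := h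
  exact ⟨B, hB, rfl, (isLocalMinimum_iff hd hB hs).mp ⟨B, hB, rfl, h'⟩⟩

/-- a lattice which is a local minimum for all large `s` -/
theorem final_iff (hd : d ≠ 0) (Λ : Set (EuclideanSpace ℝ (Fin d))) :
    (∃ s₁, ∀ s, s₁ ≤ s → IsLocalMinimum Λ s) ↔
      IsLocallyDensest Λ ∧ StronglyEutacticLayers Λ := by
  constructor
  · rintro ⟨s₁, h⟩
    set s₂ : ℝ := max s₁ ((d : ℝ) / 2 + 1) with hs₂
    have h2 : (d : ℝ) / 2 < s₂ := by
      have := le_max_right s₁ ((d : ℝ) / 2 + 1)
      linarith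
    obtain ⟨B, hB, rfl, -⟩ := locMin_form hd h2 (h s₂ (le_max_left _ _))
    have hB0 := det_ne_of_abs hB
    have hG := gram_pd hB0
    have hloc : ∀ s, s₂ ≤ s → LocMin s (gram B) := fun s hs =>
      (isLocalMinimum_iff hd hB (lt_of_lt_of_le h2 hs)).mp (h s ((le_max_left _ _).trans hs))
    obtain ⟨hm0, hm1, x₀, hx₀⟩ := minLen_spec hd hB0
    set m : ℝ := minLen (lat B) ^ 2 with hm
    have hmpos : 0 < m := by positivity
    set A : Mx d := m⁻¹ • gram B with hA
    have hApd : PD A := hG.smul (by positivity)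
    have hA1 : ∀ x : NZ d, 1 ≤ qf A x.1 := by
      intro x
      rw [hA, qf_smul, ← div_eq_inv_mul, one_le_div hmpos]
      exact hm1 x
    have hAx : qf A x₀.1 = 1 := by
      rw [hA, qf_smul, hx₀, inv_mul_cancel₀ hmpos.ne']
    have hAloc : ∀ s, s₂ ≤ s → LocMin s A := fun s hs => (hloc s hs).smul hd hG (by positivity)
    have hev : ∀ᶠ s in atTop, LocMin s A := by
      filter_upwards [eventually_ge_atTop s₂] with s hs using hAloc s hs
    -- the sequence of normalised forms
    let u : ℕ → ℝ := fun k => s₂ + k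
    have hu : Tendsto u atTop atTop :=
      tendsto_atTop_add_const_left _ _ tendsto_natCast_atTop_atTop
    have hu2 : ∀ k, s₂ ≤ u k := fun k => by
      have : (0 : ℝ) ≤ k := Nat.cast_nonneg k
      show s₂ ≤ s₂ + k
      linarith
    have hu3 : ∀ k, (d : ℝ) / 2 < u k := fun k => lt_of_lt_of_le h2 (hu2 k)
    have hu0 : ∀ k, 0 < u k := fun k => by
      have := hu3 k
      have : (0 : ℝ) ≤ d := Nat.cast_nonneg d
      linarith
    have hFA : ∀ k, 0 < F (u k) A := fun k => F_pos hd hApd (hu3 k)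
    let l : ℕ → ℝ := fun k => F (u k) A ^ (1 / u k)
    have hlpos : ∀ k, 0 < l k := fun k => Real.rpow_pos_of_pos (hFA k) _
    have hF1 : ∀ k, F (u k) (l k • A) = 1 := by
      intro k
      rw [F_smul hApd (hlpos k)]
      show (F (u k) A ^ (1 / u k)) ^ (-u k) * F (u k) A = 1
      rw [← Real.rpow_mul (hFA k).le]
      have : 1 / u k * -u k = -1 := by
        have := (hu0 k).ne'
        field_simp
      rw [this, Real.rpow_neg_one, inv_mul_cancel₀ (hFA k).ne']
    have hB' : ∀ k, F (u k) A ≤ max 1 (F s₂ A) := by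
      intro k
      refine le_trans ?_ (le_max_right _ _)
      refine (hApd.summable (hu3 k)).tsum_le_tsum (fun x => ?_) (hApd.summable h2)
      exact Real.rpow_le_rpow_of_exponent_le (hA1 x) (by linarith [hu2 k])
    have hF1' : ∀ k, 1 ≤ F (u k) A := by
      intro k
      have h1 : qf A x₀.1 ^ (-(u k)) ≤ F (u k) A :=
        (hApd.summable (hu3 k)).le_tsum x₀ fun y _ => Real.rpow_nonneg (hApd.pos y).le _
      rwa [hAx, Real.one_rpow] at h1
    have hllim : Tendsto l atTop (𝓝 1) := by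
      have h1 : Tendsto (fun k => (max 1 (F s₂ A)) ^ (1 / u k)) atTop (𝓝 1) := by
        have h2 : Tendsto (fun k => 1 / u k) atTop (𝓝 0) := tendsto_const_nhds.div_atTop hu
        have h3 := (Real.continuous_const_rpow
          (by positivity : (max 1 (F s₂ A)) ≠ 0)).tendsto 0
        rw [Real.rpow_zero] at h3
        exact h3.comp h2
      refine tendsto_of_tendsto_of_tendsto_of_le_of_le tendsto_const_nhds h1 (fun k => ?_)
        (fun k => ?_)
      · exact Real.one_le_rpow (hF1' k) (by have := hu0 k; positivity)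
      · exact Real.rpow_le_rpow (hFA k).le (hB' k) (by have := hu0 k; positivity)
    have hlim1 : Tendsto (fun k => l k • A) atTop (𝓝 A) := by
      have := hllim.smul_const A
      rwa [one_smul] at this
    have hext : Ext A := ext_of_limit hd hApd hu (Q := fun k => l k • A)
      (fun k => hApd.smul (hlpos k)) hF1
      (fun k => (hAloc _ (hu2 k)).smul hd hApd (hlpos k)) hlim1
    refine ⟨(isLocallyDensest_iff hd hB).mpr hext, (layers_lat_iff hd hB0).mpr ?_⟩
    have h5 := (layers_of_locMin hd hApd hev).smul hApd hmpos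
    rwa [hA, smul_smul, mul_inv_cancel₀ hmpos.ne', one_smul] at h5
  · rintro ⟨hdens, hlay⟩
    obtain ⟨B, hB, rfl, -⟩ := id hdens
    have hB0 := det_ne_of_abs hB
    have hG := gram_pd hB0
    obtain ⟨hm0, -, -⟩ := minLen_spec hd hB0
    have hext := (isLocallyDensest_iff hd hB).mp hdens
    have hL := ((layers_lat_iff hd hB0).mp hlay).smul hG
      (by positivity : 0 < (minLen (lat B) ^ 2)⁻¹)
    obtain ⟨Q, C, hQ⟩ := exists_family hd hext
    obtain ⟨s₁, hs₁⟩ := eventually_atTop.mp ((family_eq_of_layers hd hext hL hQ).and hQ)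
    refine ⟨s₁, fun s hs => ?_⟩
    obtain ⟨⟨l, hl, hlQ⟩, h1, h2, h3, h4, -⟩ := hs₁ s hs
    rw [hlQ, smul_smul] at h4
    refine (isLocalMinimum_iff hd hB (by linarith)).mpr ?_
    have hpos : 0 < l * (minLen (lat B) ^ 2)⁻¹ := by positivity
    have h5 := h4.smul hd (hG.smul hpos) (inv_pos.mpr hpos)
    rwa [smul_smul, inv_mul_cancel₀ hpos.ne', one_smul] at h5

/-- Local and global minima of `ζ(·, s)` for all large `s`. -/
theorem main (d : ℕ) (hd : 1 ≤ d) :
    ∃ (N : ℕ) (B : Fin N → Mx d) (B' : Fin N → ℝ → Mx d) (h : Fin N → ℝ) (C s₀ : ℝ),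
      (d : ℝ) / 2 < s₀ ∧
      (∀ i, |(B i).det| = 1 ∧ IsLocallyDensest (lat (B i))) ∧
      (∀ Λ : Set (EuclideanSpace ℝ (Fin d)), IsLocallyDensest Λ →
        ∃! i, Isometric Λ (lat (B i))) ∧
      (∀ s, s₀ ≤ s → ∀ i, |(B' i s).det| = 1 ∧ IsLocalMinimum (lat (B' i s)) s ∧
        ∀ j k, |B' i s j k - B i j k| ≤ C / s) ∧
      (∀ s, s₀ ≤ s → ∀ Λ : Set (EuclideanSpace ℝ (Fin d)), IsLocalMinimum Λ s →
        ∃! i, Isometric Λ (lat (B' i s))) ∧
      (∀ i, (∃ s₁, ∀ s, s₁ ≤ s → Isometric (lat (B i)) (lat (B' i s))) ↔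
        StronglyEutacticLayers (lat (B i))) ∧
      (∀ Λ : Set (EuclideanSpace ℝ (Fin d)), (∃ s₁, ∀ s, s₁ ≤ s → IsLocalMinimum Λ s) ↔
        IsLocallyDensest Λ ∧ StronglyEutacticLayers Λ) ∧
      (∀ i, IsGreatest (EutaxyEntropies (lat (B i))) (h i) ∧
        Tendsto (fun s => minLen (lat (B i)) ^ (2 * s) * zeta (lat (B' i s)) s) atTop
          (𝓝 (Real.exp (h i)))) ∧
      (∀ s, s₀ ≤ s → (∃ Λ : Set (EuclideanSpace ℝ (Fin d)), IsGlobalMinimum Λ s) ∧
        ∀ Λ : Set (EuclideanSpace ℝ (Fin d)), IsGlobalMinimum Λ s →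
          ∃ i, Isometric Λ (lat (B' i s)) ∧
            (∀ Λ' : Set (EuclideanSpace ℝ (Fin d)), IsUnitLattice Λ' →
              minLen Λ' ≤ minLen (lat (B i))) ∧
            ∀ j, minLen (lat (B j)) = minLen (lat (B i)) → h i ≤ h j) := by
  have hd' : d ≠ 0 := by omega
  have hdpos : (0 : ℝ) < d := by exact_mod_cast Nat.pos_of_ne_zero hd'
  obtain ⟨N, A, hExt, hrep⟩ := exists_reps hd'
  choose Q C₁ hQ using fun i => exists_family hd' (hExt i)
  choose h hh1 hh2 using fun i => family_entropy hd' (hExt i) (hQ i)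
  have hnpd : ∀ i, PD (nrm (A i)) := fun i => nrm_pd (hExt i).1
  choose R hR1 C₂ r₂ hr₂ hR2 using fun i => exists_root (nrm (A i)) (hnpd i)
  choose C₃ r₃ hr₃ hC₃ using fun i => nrm_lipschitz (hExt i).1
  have hgB : ∀ i, gram (R i (nrm (A i))) = nrm (A i) := fun i => (hR1 i _ (hnpd i)).2
  have hdetB : ∀ i, |(R i (nrm (A i))).det| = 1 := fun i =>
    abs_det_of_gram (by rw [hgB, nrm_det hd' (hExt i).1])
  have hB0 : ∀ i, (R i (nrm (A i))).det ≠ 0 := fun i => det_ne_of_abs (hdetB i)
  have hlpos : ∀ i, 0 < (A i).det ^ (-(1 / (d : ℝ))) := fun i => nrm_pos (hExt i).1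
  have hminB : ∀ i, minLen (lat (R i (nrm (A i)))) ^ 2 = (A i).det ^ (-(1 / (d : ℝ))) := fun i =>
    minLen_of_ext hd' (hB0 i) (hExt i) (hlpos i) (hgB i)
  have hAB : ∀ i, (minLen (lat (R i (nrm (A i)))) ^ 2)⁻¹ • gram (R i (nrm (A i))) = A i := by
    intro i
    rw [hminB, hgB]
    unfold nrm
    rw [smul_smul, inv_mul_cancel₀ (hlpos i).ne', one_smul]
  -- everything that holds for large `s`
  have hlim : ∀ i, Tendsto (Q i) atTop (𝓝 (A i)) := fun i =>
    tendsto_of_rate ((hQ i).mono fun s hs => hs.2.2.2.2)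
  have hinj : ∀ᶠ s in atTop, ∀ i j, i ≠ j → ¬ Eqv (Q i s) (Q j s) := by
    refine Filter.eventually_all.mpr fun i => Filter.eventually_all.mpr fun j => ?_
    by_cases hij : i = j
    · exact Eventually.of_forall fun s hne => absurd hij hne
    · have hne : ¬ Eqv (A i) (A j) := by
        intro he
        obtain ⟨k, -, hk⟩ := hrep (A i) (hExt i)
        exact hij ((hk i (Eqv.refl _)).trans (hk j he).symm)
      filter_upwards [family_inj (hExt i).1 (hExt j).1 hne (hlim i) (hlim j)] with s k1 _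
      exact k1
  have hsurj := family_surj hd' hExt hrep hQ
  have hglob := global_large hd' hExt hrep hQ hh2
  have hrate : ∀ᶠ s in atTop, ∀ i, ‖Q i s - A i‖ ≤ min (r₃ i) (r₂ i / (|C₃ i| + 1)) := by
    refine Filter.eventually_all.mpr fun i => ?_
    have h1 : Tendsto (fun s => ‖Q i s - A i‖) atTop (𝓝 0) :=
      (tendsto_iff_norm_sub_tendsto_zero (E := Mx d)).mp (hlim i)
    have h2 : 0 < min (r₃ i) (r₂ i / (|C₃ i| + 1)) :=
      lt_min (hr₃ i) (div_pos (hr₂ i) (by positivity))
    exact (h1.eventually (gt_mem_nhds h2)).mono fun s hs => hs.le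
  obtain ⟨s₀, hs₀⟩ := eventually_atTop.mp ((Filter.eventually_all.mpr hQ).and (hinj.and
    (hsurj.and (hglob.and (hrate.and (eventually_ge_atTop ((d : ℝ) / 2 + 1)))))))
  have hsd : ∀ s, max s₀ ((d : ℝ) / 2 + 1) ≤ s → (d : ℝ) / 2 < s := fun s hs => by
    have := (le_max_right s₀ ((d : ℝ) / 2 + 1)).trans hs
    linarith
  have hS := fun s (hs : max s₀ ((d : ℝ) / 2 + 1) ≤ s) => hs₀ s ((le_max_left _ _).trans hs)
  have hnQ : ∀ s, max s₀ ((d : ℝ) / 2 + 1) ≤ s → ∀ i, PD (nrm (Q i s)) := fun s hs i =>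
    nrm_pd ((hS s hs).1 i).2.1
  have hgB' : ∀ s, max s₀ ((d : ℝ) / 2 + 1) ≤ s → ∀ i,
      gram (R i (nrm (Q i s))) = nrm (Q i s) := fun s hs i => (hR1 i _ (hnQ s hs i)).2
  have hdetB' : ∀ s, max s₀ ((d : ℝ) / 2 + 1) ≤ s → ∀ i, |(R i (nrm (Q i s))).det| = 1 :=
    fun s hs i => abs_det_of_gram (by rw [hgB' s hs i, nrm_det hd' ((hS s hs).1 i).2.1])
  -- transfer of isometry
  have hiso : ∀ s, max s₀ ((d : ℝ) / 2 + 1) ≤ s → ∀ i, ∀ D : Mx d, |D.det| = 1 →
      ∀ l : ℝ, 0 < l → (F s (l • gram D) = 1) →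
      (Isometric (lat D) (lat (R i (nrm (Q i s)))) ↔ Eqv (l • gram D) (Q i s)) := by
    intro s hs i D hD l hl hF
    have hD0 := det_ne_of_abs hD
    rw [isometric_iff hD0 (det_ne_of_abs (hdetB' s hs i)), hgB' s hs i]
    have hQpd := ((hS s hs).1 i).2.1
    constructor
    · intro he
      have hp := nrm_pos hQpd
      have h1 := he.smul ((Q i s).det ^ (-(1 / (d : ℝ))))⁻¹
      have h2 : ((Q i s).det ^ (-(1 / (d : ℝ))))⁻¹ • nrm (Q i s) = Q i s := by
        unfold nrm
        rw [smul_smul, inv_mul_cancel₀ hp.ne', one_smul]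
      rw [h2] at h1
      set l' := ((Q i s).det ^ (-(1 / (d : ℝ))))⁻¹ with hl'
      have hl'pos : 0 < l' := inv_pos.mpr hp
      have h3 : Eqv ((l' * l⁻¹) • (l • gram D)) (Q i s) := by
        rw [smul_smul, mul_assoc, inv_mul_cancel₀ hl.ne', mul_one]
        exact h1
      have hs0 : 0 < s := by
        have := hsd s hs
        linarith
      have h4 := eqv_of_scale_F ((gram_pd hD0).smul hl) hs0 (by positivity) hF
        ((hS s hs).1 i).2.2.1 h3
      rwa [h4, one_smul] at h3
    · intro he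
      exact eqv_of_scale_det hd' (gram_det_of_abs hD) hl he
  refine ⟨N, fun i => R i (nrm (A i)), fun i s => R i (nrm (Q i s)), h,
    ∑ i, |C₂ i| * (|C₃ i| * |C₁ i|), max s₀ ((d : ℝ) / 2 + 1), ?_, ?_, ?_, ?_, ?_, ?_, ?_, ?_, ?_⟩
  · exact hsd _ le_rfl
  · intro i
    exact ⟨hdetB i, (isLocallyDensest_iff hd' (hdetB i)).mpr (by rw [hAB]; exact hExt i)⟩
  · -- classification of the locally densest lattices
    intro Λ hΛ
    obtain ⟨D, hD, rfl, -⟩ := id hΛ
    have hD0 := det_ne_of_abs hD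
    have hext := (isLocallyDensest_iff hd' hD).mp hΛ
    obtain ⟨hm0, -, -⟩ := minLen_spec hd' hD0
    have hmpos : 0 < (minLen (lat D) ^ 2)⁻¹ := by positivity
    have hiff : ∀ i, Isometric (lat D) (lat (R i (nrm (A i)))) ↔
        Eqv ((minLen (lat D) ^ 2)⁻¹ • gram D) (A i) := by
      intro i
      rw [isometric_iff hD0 (hB0 i), hgB i]
      constructor
      · intro he
        have hp := hlpos i
        have h1 := he.smul ((A i).det ^ (-(1 / (d : ℝ))))⁻¹
        have h2 : ((A i).det ^ (-(1 / (d : ℝ))))⁻¹ • nrm (A i) = A i := by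
          unfold nrm
          rw [smul_smul, inv_mul_cancel₀ hp.ne', one_smul]
        rw [h2] at h1
        set l' := ((A i).det ^ (-(1 / (d : ℝ))))⁻¹ with hl'
        have hl'pos : 0 < l' := inv_pos.mpr hp
        have h3 : Eqv ((l' * ((minLen (lat D) ^ 2)⁻¹)⁻¹) •
            ((minLen (lat D) ^ 2)⁻¹ • gram D)) (A i) := by
          rw [smul_smul, mul_assoc, inv_mul_cancel₀ hmpos.ne', mul_one]
          exact h1
        have h4 := eqv_of_scale_ext hd' hext (hExt i) (by positivity) h3
        rwa [h4, one_smul] at h3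
      · intro he
        exact eqv_of_scale_det hd' (gram_det_of_abs hD) hmpos he
    simp only [hiff]
    exact hrep _ hext
  · -- the local minima
    intro s hs i
    refine ⟨hdetB' s hs i, (isLocalMinimum_iff hd' (hdetB' s hs i) (hsd s hs)).mpr ?_, ?_⟩
    · rw [hgB' s hs i]
      exact ((hS s hs).1 i).2.2.2.1.smul hd' ((hS s hs).1 i).2.1 (nrm_pos ((hS s hs).1 i).2.1)
    · intro j k
      have h1 := (hS s hs).2.2.2.2.1 i
      have h2 := hC₃ i _ ((hS s hs).1 i).2.1 (h1.trans (min_le_left _ _))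
      have hs0 : 0 < s := by
        have := hsd s hs
        linarith
      have h3 : ‖nrm (Q i s) - nrm (A i)‖ ≤ r₂ i := by
        refine h2.trans ?_
        calc C₃ i * ‖Q i s - A i‖ ≤ (|C₃ i| + 1) * (r₂ i / (|C₃ i| + 1)) := by
              refine mul_le_mul ((le_abs_self _).trans (by linarith))
                (h1.trans (min_le_right _ _)) (norm_nonneg _) (by positivity)
          _ = r₂ i := by field_simp
      have h4 := hR2 i _ (hnQ s hs i) h3
      have h5 := ((hS s hs).1 i).2.2.2.2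
      have h6 : ‖Q i s - A i‖ ≤ |C₁ i| / s :=
        h5.trans (div_le_div_of_nonneg_right (le_abs_self _) hs0.le)
      calc |R i (nrm (Q i s)) j k - R i (nrm (A i)) j k|
          = |(R i (nrm (Q i s)) - R i (nrm (A i))) j k| := rfl
        _ ≤ ‖R i (nrm (Q i s)) - R i (nrm (A i))‖ := entry_le _ j k
        _ ≤ C₂ i * ‖nrm (Q i s) - nrm (A i)‖ := h4
        _ ≤ |C₂ i| * (|C₃ i| * (|C₁ i| / s)) := by
            refine mul_le_mul (le_abs_self _) ?_ (norm_nonneg _) (abs_nonneg _)
            refine h2.trans ?_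
            exact mul_le_mul (le_abs_self _) h6 (norm_nonneg _) (abs_nonneg _)
        _ = |C₂ i| * (|C₃ i| * |C₁ i|) / s := by ring
        _ ≤ (∑ i, |C₂ i| * (|C₃ i| * |C₁ i|)) / s := by
            refine div_le_div_of_nonneg_right ?_ hs0.le
            exact Finset.single_le_sum (f := fun i => |C₂ i| * (|C₃ i| * |C₁ i|))
              (fun i _ => by positivity) (Finset.mem_univ i)
  · -- no other local minima
    intro s hs Λ hΛ
    obtain ⟨D, hD, rfl, hloc⟩ := locMin_form hd' (hsd s hs) hΛ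
    have hG := gram_pd (det_ne_of_abs hD)
    obtain ⟨l, hl, hF⟩ := exists_scale_F hd' hG (hsd s hs)
    have hiff := fun i => hiso s hs i D hD l hl hF
    simp only [hiff]
    obtain ⟨i, hi⟩ := (hS s hs).2.2.1 _ (hG.smul hl) hF (hloc.smul hd' hG hl)
    refine ⟨i, hi, fun j hj => ?_⟩
    by_contra hne
    exact (hS s hs).2.1 j i hne (hj.symm.trans hi)
  · -- constant families
    intro i
    rw [layers_lat_iff hd' (hB0 i), hgB i]
    constructor
    · rintro ⟨s₁, h1⟩
      have hev : ∀ᶠ s in atTop, LocMin s (nrm (A i)) := by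
        filter_upwards [eventually_ge_atTop s₁, eventually_ge_atTop (max s₀ ((d : ℝ) / 2 + 1))]
          with s k1 k2
        have h2 := h1 s k1
        rw [isometric_iff (hB0 i) (det_ne_of_abs (hdetB' s k2 i)), hgB i, hgB' s k2 i] at h2
        exact h2.symm.locMin (((hS s k2).1 i).2.2.2.1.smul hd' ((hS s k2).1 i).2.1
          (nrm_pos ((hS s k2).1 i).2.1))
      exact layers_of_locMin hd' (hnpd i) hev
    · intro hL
      have hL' : Layers (A i) := by
        have h1 := hL.smul (hnpd i) (inv_pos.mpr (hlpos i))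
        unfold nrm at h1
        rwa [smul_smul, inv_mul_cancel₀ (hlpos i).ne', one_smul] at h1
      obtain ⟨s₁, hs₁⟩ := eventually_atTop.mp (family_eq_of_layers hd' (hExt i) hL' (hQ i))
      refine ⟨max s₁ (max s₀ ((d : ℝ) / 2 + 1)), fun s hs => ?_⟩
      have k1 := (le_max_left _ _).trans hs
      have k2 := (le_max_right _ _).trans hs
      obtain ⟨l, hl, hlQ⟩ := hs₁ s k1
      rw [isometric_iff (hB0 i) (det_ne_of_abs (hdetB' s k2 i)), hgB i, hgB' s k2 i]
      refine eqv_of_scale_det hd' (nrm_det hd' (hExt i).1)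
        (l := l * ((A i).det ^ (-(1 / (d : ℝ))))⁻¹) (by have := hlpos i; positivity) ?_
      have h2 : (l * ((A i).det ^ (-(1 / (d : ℝ))))⁻¹) • nrm (A i) = Q i s := by
        unfold nrm
        rw [smul_smul, mul_assoc, inv_mul_cancel₀ (hlpos i).ne', mul_one, hlQ]
      rw [h2]
      exact Eqv.refl _
  · exact final_iff hd'
  · -- entropy asymptotics
    intro i
    refine ⟨?_, ?_⟩
    · rw [eutaxyEntropies_lat hd' (hB0 i), hAB i]
      exact hh1 i
    · refine (hh2 i).congr' ?_
      filter_upwards [eventually_ge_atTop (max s₀ ((d : ℝ) / 2 + 1))] with s hs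
      have hQpd := ((hS s hs).1 i).2.1
      have hD := (hExt i).1.det_pos
      have hDQ := hQpd.det_pos
      rw [zeta_lat (det_ne_of_abs (hdetB' s hs i)), hgB' s hs i]
      unfold nrm
      rw [F_smul hQpd (nrm_pos hQpd), ((hS s hs).1 i).2.2.1, mul_one]
      have hml : 0 < minLen (lat (R i (nrm (A i)))) := (minLen_spec hd' (hB0 i)).1
      have h1 : minLen (lat (R i (nrm (A i)))) ^ (2 * s) = ((A i).det ^ (-(1 / (d : ℝ)))) ^ s := by
        rw [← hminB i, Real.rpow_mul hml.le]
        norm_num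
      have h1' := h1
      unfold nrm at h1'
      rw [h1', ← Real.rpow_mul hD.le, ← Real.rpow_mul hDQ.le, Real.div_rpow hDQ.le hD.le,
        div_eq_mul_inv, ← Real.rpow_neg hD.le, mul_comm]
      congr 2 <;> ring
  · -- global minima
    intro s hs
    have hs' := hsd s hs
    constructor
    · obtain ⟨G, hG, hGmin⟩ := exists_global hd' hs'
      obtain ⟨R₀, hR₀, -⟩ := exists_root (nrm G) (nrm_pd hG)
      have hg := (hR₀ _ (nrm_pd hG)).2
      have hdet : |(R₀ (nrm G)).det| = 1 := abs_det_of_gram (by rw [hg, nrm_det hd' hG])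
      refine ⟨lat (R₀ (nrm G)), (isGlobalMinimum_iff hd' hdet s).mpr fun Q' hQ' => ?_⟩
      rw [hg]
      unfold nrm
      rw [En_smul hd' hG (nrm_pos hG)]
      exact hGmin Q' hQ'
    · intro Λ hΛ
      obtain ⟨D, hD, rfl⟩ := hΛ.1
      have hD0 := det_ne_of_abs hD
      have hG := gram_pd hD0
      have hmin := (isGlobalMinimum_iff hd' hD s).mp hΛ
      obtain ⟨i, l, hl, he, h1, h2⟩ := (hS s hs).2.2.2.1 _ hG hmin
      have hcomp : ∀ j, (A i).det ≤ (A j).det → minLen (lat (R j (nrm (A j)))) ≤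
          minLen (lat (R i (nrm (A i)))) := by
        intro j hj
        have hmi := (minLen_spec hd' (hB0 i)).1
        have hmj := (minLen_spec hd' (hB0 j)).1
        have h3 : minLen (lat (R j (nrm (A j)))) ^ 2 ≤ minLen (lat (R i (nrm (A i)))) ^ 2 := by
          rw [hminB, hminB]
          exact Real.rpow_le_rpow_of_nonpos (hExt i).1.det_pos hj (by
            have : 0 < 1 / (d : ℝ) := by positivity
            linarith)
        exact (pow_le_pow_iff_left₀ hmj.le hmi.le two_ne_zero).mp h3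
      refine ⟨i, ?_, ?_, ?_⟩
      · rw [isometric_iff hD0 (det_ne_of_abs (hdetB' s hs i)), hgB' s hs i]
        exact eqv_of_scale_det hd' (gram_det_of_abs hD) hl he
      · intro Λ' hΛ'
        obtain ⟨D', hD', rfl⟩ := hΛ'
        have hD0' := det_ne_of_abs hD'
        obtain ⟨hm0, hm1, -⟩ := minLen_spec hd' hD0'
        have hmpos : 0 < (minLen (lat D') ^ 2)⁻¹ := by positivity
        have h3 := densest_of_best hd' hExt hrep hQ h1 ((gram_pd hD0').smul hmpos) (by
          intro x
          rw [qf_smul, ← div_eq_inv_mul, one_le_div (by positivity)]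
          exact hm1 x)
        rw [Matrix.det_smul, Fintype.card_fin, gram_det_of_abs hD', mul_one] at h3
        -- `det A i ≤ m^(-d)`
        have hmi := (minLen_spec hd' (hB0 i)).1
        have h4 : minLen (lat D') ^ 2 ≤ minLen (lat (R i (nrm (A i)))) ^ 2 := by
          rw [hminB]
          have hDi := (hExt i).1.det_pos
          have h5 : (((minLen (lat D') ^ 2)⁻¹) ^ d) ^ (-(1 / (d : ℝ))) = minLen (lat D') ^ 2 := by
            rw [← Real.rpow_natCast ((minLen (lat D') ^ 2)⁻¹), ← Real.rpow_mul hmpos.le]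
            have : (d : ℝ) * -(1 / (d : ℝ)) = -1 := by field_simp
            rw [this, Real.rpow_neg_one, inv_inv]
          rw [← h5]
          exact Real.rpow_le_rpow_of_nonpos hDi h3 (by
            have : 0 < 1 / (d : ℝ) := by positivity
            linarith)
        exact (pow_le_pow_iff_left₀ hm0.le hmi.le two_ne_zero).mp h4
      · intro j hj
        refine h2 j ?_
        have h3 : (A j).det ^ (-(1 / (d : ℝ))) = (A i).det ^ (-(1 / (d : ℝ))) := by
          rw [← hminB, ← hminB, hj]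
        have h4 : ((A j).det ^ (-(1 / (d : ℝ)))) ^ (-(d : ℝ)) =
            ((A i).det ^ (-(1 / (d : ℝ)))) ^ (-(d : ℝ)) := by rw [h3]
        rw [← Real.rpow_mul (hExt j).1.det_pos.le, ← Real.rpow_mul (hExt i).1.det_pos.le] at h4
        have : -(1 / (d : ℝ)) * -(d : ℝ) = 1 := by field_simp
        rwa [this, Real.rpow_one, Real.rpow_one] at h4

end Pool.Agent.Lib.EpZ
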