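import Pool.Agent.Lib.EpZ.Defs

/-!
# Reduction theory

Every positive definite form is equivalent under `GL_d(ℤ)` to one bounded below by a constant
multiple of its diagonal.

Proof (abstract version by induction on `n`). Claim `P n`: there is `c > 0` such that for every free
`ℤ`-module `M` of rank `n` (universe 0) with a symmetric biadditive `B : M → M → ℝ`, with
`B x x > 0` for `x ≠ 0` and `{x | B x x ≤ r}` finite for every `r`, there is `b : Fin n → M` with
span `⊤` and `c * ∑ x_i² B(b_i,b_i) ≤ B(y,y)`, `y = ∑ x_i b_i`, for all `x : Fin n → ℤ`.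

Step `n → n+1`: let `v ≠ 0` have minimal `q(v) = B v v`. `M/ℤv` is torsion free: if `k w = a v`,
`k ≠ 0`, put `w' = w - round(a/k) v`; `q(w') ≤ q(v)/4` so `w' = 0`. So `M/ℤv` is free of rank `n`.
On it put `B'(x,y) = B(x,y) - B(x,v)B(y,v)/q(v)` (well defined); every class has a representative
`x` with `|B(x,v)| ≤ q(v)/2`, and then `q(x) ≤ q'(x) + q(v)/4`; so `B'` is positive and has finite
levels. Take a basis `b'_i` of `M/ℤv` by induction, lifted to such representatives `b_i`, and
`b_0 = v`. For `y = x_0 v + ∑ x_i b_i`, `μ_i = B(b_i,v)/q(v)`, `|μ_i| ≤ 1/2`: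
`q(y) = q(v) (x_0 + ∑ μ_i x_i)² + q'(ȳ)`, `q'(ȳ) ≥ c ∑ x_i² q'(b_i)`,
`q(b_i) = q'(b_i) + μ_i² q(v) ≤ q'(b_i) + q(b_i)/4` (as `q(v) ≤ q(b_i)`), so `q'(b_i) ≥ (3/4) q(b_i)`,
and `q(v) x_0² ≤ 2 q(v)(x_0 + ∑ μ_i x_i)² + (n/2) ∑ x_i² q(v)`, `q(v) ≤ q(b_i)`.
-/

open Matrix Filter Topology
open scoped Matrix.Norms.Elementwise

namespace Pool.Agent.Lib.EpZ

variable {d : ℕ}

/-- the action of integer matrices on forms -/
def act (U : Matrix (Fin d) (Fin d) ℤ) (Q : Mx d) : Mx d :=
  (U.map (Int.cast : ℤ → ℝ))ᵀ * Q * U.map (Int.cast : ℤ → ℝ)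

namespace Red

/-- positive definite biadditive forms with finite level sets -/
structure Good (M : Type) [AddCommGroup M] (B : M → M → ℝ) : Prop where
  add : ∀ x y z, B (x + y) z = B x z + B y z
  symm : ∀ x y, B x y = B y x
  pos : ∀ x, x ≠ 0 → 0 < B x x
  fin : ∀ r : ℝ, {x | B x x ≤ r}.Finite

section

variable {M : Type} [AddCommGroup M] {B : M → M → ℝ}

/-- the form with one argument frozen -/
def Good.hom (h : Good M B) (z : M) : M →+ ℝ :=
  AddMonoidHom.mk' (fun x => B x z) fun x y => h.add x y z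

lemma Good.hom_apply (h : Good M B) (x z : M) : h.hom z x = B x z := rfl

lemma Good.zsmul (h : Good M B) (k : ℤ) (x z : M) : B (k • x) z = k * B x z := by
  rw [← h.hom_apply, map_zsmul, h.hom_apply, zsmul_eq_mul]

lemma Good.zsmul' (h : Good M B) (k : ℤ) (x z : M) : B z (k • x) = k * B z x := by
  rw [h.symm, h.zsmul, h.symm]

lemma Good.add' (h : Good M B) (x y z : M) : B z (x + y) = B z x + B z y := by
  rw [h.symm, h.add, h.symm x, h.symm y]

lemma Good.sub (h : Good M B) (x y z : M) : B (x - y) z = B x z - B y z := by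
  rw [← h.hom_apply, map_sub, h.hom_apply, h.hom_apply]

lemma Good.sub' (h : Good M B) (x y z : M) : B z (x - y) = B z x - B z y := by
  rw [h.symm, h.sub, h.symm x, h.symm y]

lemma Good.zero (h : Good M B) (z : M) : B 0 z = 0 := by
  rw [← h.hom_apply, map_zero]

lemma Good.sum (h : Good M B) {κ : Type} (s : Finset κ) (x : κ → ℤ) (b : κ → M) (z : M) :
    B (∑ i ∈ s, x i • b i) z = ∑ i ∈ s, x i * B (b i) z := by
  rw [← h.hom_apply, map_sum]
  exact Finset.sum_congr rfl fun i _ => by rw [h.hom_apply, h.zsmul]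

lemma Good.nonneg (h : Good M B) (x : M) : 0 ≤ B x x := by
  by_cases hx : x = 0
  · rw [hx, h.zero]
  · exact (h.pos x hx).le

lemma exists_min (h : Good M B) [Nontrivial M] :
    ∃ v, v ≠ 0 ∧ ∀ w, w ≠ 0 → B v v ≤ B w w := by
  obtain ⟨x0, hx0⟩ := exists_ne (0 : M)
  have hfin : {x | x ≠ 0 ∧ B x x ≤ B x0 x0}.Finite := (h.fin (B x0 x0)).subset fun x hx => hx.2
  obtain ⟨v, hv, hmin⟩ := Set.exists_min_image _ (fun x => B x x) hfin ⟨x0, hx0, le_rfl⟩
  refine ⟨v, hv.1, fun w hw => ?_⟩
  by_contra hlt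
  rw [not_le] at hlt
  exact absurd (hmin w ⟨hw, hlt.le.trans hv.2⟩) (not_le.2 hlt)

lemma exists_dual [Module.Free ℤ M] [Module.Finite ℤ M] (h : Good M B) {v : M} (hv : v ≠ 0)
    (hmin : ∀ w, w ≠ 0 → B v v ≤ B w w) : ∃ φ : M →ₗ[ℤ] ℤ, φ v = 1 := by
  classical
  set I : Submodule ℤ ℤ := LinearMap.range (Module.Dual.eval ℤ M v) with hI
  obtain ⟨g, hg⟩ := (IsPrincipalIdealRing.principal I).principal
  set b := Module.Free.chooseBasis ℤ M with hb
  have hdvd : ∀ i, ∃ a, b.repr v i = g * a := by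
    intro i
    have h1 : b.repr v i ∈ I := ⟨b.coord i, rfl⟩
    rw [hg, Submodule.mem_span_singleton] at h1
    obtain ⟨a, ha⟩ := h1
    exact ⟨a, by rw [← ha, smul_eq_mul, mul_comm]⟩
  choose a ha using hdvd
  set w := ∑ i, a i • b i with hw
  have hvw : v = g • w := by
    conv_lhs => rw [← b.sum_repr v]
    rw [hw, Finset.smul_sum]
    exact Finset.sum_congr rfl fun i _ => by rw [ha i, smul_smul]
  have hw0 : w ≠ 0 := by
    intro h0
    apply hv
    rw [hvw, h0, smul_zero]
  have h1 : B v v = (g : ℝ) ^ 2 * B w w := by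
    conv_lhs => rw [hvw]
    rw [h.zsmul, h.zsmul']
    ring
  have h2 := hmin w hw0
  have h3 := h.pos w hw0
  have h4 : (g : ℝ) ^ 2 ≤ 1 := by
    by_contra hlt
    rw [not_le] at hlt
    have := mul_lt_mul_of_pos_right hlt h3
    linarith
  have h5 : g ^ 2 ≤ 1 := by exact_mod_cast h4
  have h6 : g ≠ 0 := by
    intro h0
    apply hv
    rw [hvw, h0, zero_smul]
  have h7 : g = 1 ∨ g = -1 := by
    have h8 : g ≤ 1 := by nlinarith
    have h9 : -1 ≤ g := by nlinarith
    omega
  have hmem : g ∈ I := by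
    rw [hg]
    exact Submodule.mem_span_singleton_self g
  obtain ⟨φ, hφ⟩ := hmem
  have hφ' : φ v = g := hφ
  rcases h7 with h7 | h7
  · exact ⟨φ, by rw [hφ', h7]⟩
  · exact ⟨-φ, by rw [LinearMap.neg_apply, hφ', h7, neg_neg]⟩

/-- the form on the orthogonal complement of `v` -/
noncomputable def pr (B : M → M → ℝ) (v x y : M) : ℝ := B x y - B x v * B y v / B v v

lemma pr_shift (h : Good M B) {v : M} (hv : v ≠ 0) (k : ℤ) (y : M) :
    pr B v (y - k • v) (y - k • v) = pr B v y y := by
  have hq := (h.pos v hv).ne'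
  unfold pr
  simp only [h.sub, h.sub', h.zsmul, h.zsmul', h.symm v y]
  field_simp
  ring

lemma red (h : Good M B) {v : M} (hv : v ≠ 0) (hmin : ∀ w, w ≠ 0 → B v v ≤ B w w) (y : M) :
    B (y - round (B y v / B v v) • v) v ^ 2 ≤
      B v v * B (y - round (B y v / B v v) • v) (y - round (B y v / B v v) • v) / 4 := by
  have hq := h.pos v hv
  set k := round (B y v / B v v) with hk
  set w := y - k • v with hw
  by_cases hw0 : w = 0
  · rw [hw0, h.zero, h.zero]
    simp
  have h1 : B w v = (B y v / B v v - k) * B v v := by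
    rw [hw, h.sub, h.zsmul]
    field_simp
  have h2 := abs_sub_round (B y v / B v v)
  have h3 : (B y v / B v v - k) ^ 2 ≤ 1 / 4 := by
    have h4 := abs_le.1 h2
    nlinarith [h4.1, h4.2]
  have h5 := hmin w hw0
  rw [h1, mul_pow]
  calc (B y v / B v v - k) ^ 2 * B v v ^ 2 ≤ 1 / 4 * B v v ^ 2 :=
        mul_le_mul_of_nonneg_right h3 (sq_nonneg _)
    _ ≤ B v v * B w w / 4 := by nlinarith

lemma pr_ge (h : Good M B) {v : M} (hv : v ≠ 0) (hmin : ∀ w, w ≠ 0 → B v v ≤ B w w) (y : M) :
    3 / 4 * B (y - round (B y v / B v v) • v) (y - round (B y v / B v v) • v) ≤ pr B v y y := by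
  have hq := h.pos v hv
  rw [← pr_shift h hv (round (B y v / B v v)) y]
  have h1 := red h hv hmin y
  unfold pr
  set w := y - round (B y v / B v v) • v with hw
  have h2 : B w v * B w v / B v v ≤ B w w / 4 := by
    rw [div_le_iff₀ hq]
    nlinarith
  linarith

lemma good_ker (h : Good M B) {v : M} (hv : v ≠ 0) (hmin : ∀ w, w ≠ 0 → B v v ≤ B w w)
    {φ : M →ₗ[ℤ] ℤ} (hφ : φ v = 1) :
    Good (LinearMap.ker φ) (fun x y => pr B v x y) where
  add x y z := by
    simp only [pr, Submodule.coe_add, h.add]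
    ring
  symm x y := by
    simp only [pr, h.symm (x : M) y]
    ring
  pos x hx := by
    refine lt_of_lt_of_le ?_ (pr_ge h hv hmin (x : M))
    have h1 : (x : M) - round (B x v / B v v) • v ≠ 0 := by
      intro h0
      have h2 := congrArg φ h0
      rw [map_sub, map_zsmul, hφ, LinearMap.mem_ker.1 x.2, map_zero, zsmul_eq_mul, mul_one,
        zero_sub, neg_eq_zero] at h2
      rw [Int.cast_id] at h2
      rw [h2, zero_smul, sub_zero] at h0
      exact hx (Subtype.ext h0)
    have := h.pos _ h1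
    positivity
  fin r := by
    refine Set.Finite.of_injOn (f := fun x : LinearMap.ker φ =>
      (x : M) - round (B x v / B v v) • v) (t := {y | B y y ≤ 4 / 3 * r}) ?_ ?_ (h.fin _)
    · intro x hx
      have h1 := pr_ge h hv hmin (x : M)
      have h2 : pr B v x x ≤ r := hx
      simp only [Set.mem_setOf_eq]
      linarith
    · intro x _ y _ hxy
      have h1 : (x : M) - round (B x v / B v v) • v = (y : M) - round (B y v / B v v) • v := hxy
      have h2 := congrArg φ h1
      rw [map_sub, map_sub, map_zsmul, map_zsmul, hφ, LinearMap.mem_ker.1 x.2,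
        LinearMap.mem_ker.1 y.2, zsmul_eq_mul, zsmul_eq_mul, mul_one, mul_one, zero_sub,
        zero_sub, neg_inj, Int.cast_id, Int.cast_id] at h2
      rw [h2] at h1
      exact Subtype.ext (sub_left_injective h1)

lemma finrank_ker [Module.Free ℤ M] [Module.Finite ℤ M] {φ : M →ₗ[ℤ] ℤ} {v : M}
    (hφ : φ v = 1) {n : ℕ} (hn : Module.finrank ℤ M = n + 1) :
    Module.finrank ℤ (LinearMap.ker φ) = n := by
  have hsurj : Function.Surjective φ := fun a => ⟨a • v, by rw [map_zsmul, hφ]; simp⟩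
  have h1 := Submodule.finrank_quotient_add_finrank (LinearMap.ker φ)
  have h2 := (LinearMap.quotKerEquivOfSurjective φ hsurj).finrank_eq
  rw [Module.finrank_self] at h2
  omega

end

/-- numerical step -/
lemma num {n : ℕ} {c : ℝ} (hc : 0 < c) (hc1 : c ≤ 1) {q t x0 : ℝ} (hq : 0 < q)
    (μ x β β' : Fin n → ℝ) (hβ : ∀ i, μ i ^ 2 * q ≤ β i / 4)
    (hβ' : ∀ i, 3 / 4 * β i ≤ β' i) (ht : t = x0 + ∑ i, x i * μ i) :
    c / (2 * (n + 2)) * (x0 ^ 2 * q + ∑ i, x i ^ 2 * β i) ≤ q * t ^ 2 + c * ∑ i, x i ^ 2 * β' i := by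
  have hβ0 : ∀ i, 0 ≤ β i := fun i => by
    have := hβ i
    have h1 : 0 ≤ μ i ^ 2 * q := by positivity
    linarith
  set S := ∑ i, x i ^ 2 * β i with hS
  have hS0 : 0 ≤ S := Finset.sum_nonneg fun i _ => mul_nonneg (sq_nonneg _) (hβ0 i)
  have h1 : 3 / 4 * S ≤ ∑ i, x i ^ 2 * β' i := by
    rw [hS, Finset.mul_sum]
    refine Finset.sum_le_sum fun i _ => ?_
    have := mul_le_mul_of_nonneg_left (hβ' i) (sq_nonneg (x i))
    linarith
  have h2 : (∑ i, x i * μ i) ^ 2 * q ≤ n * (S / 4) := by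
    have h3 := sq_sum_le_card_mul_sum_sq (s := (Finset.univ : Finset (Fin n)))
      (f := fun i => x i * μ i)
    rw [Finset.card_univ, Fintype.card_fin] at h3
    calc (∑ i, x i * μ i) ^ 2 * q ≤ (n * ∑ i, (x i * μ i) ^ 2) * q :=
          mul_le_mul_of_nonneg_right h3 hq.le
      _ = n * ∑ i, x i ^ 2 * (μ i ^ 2 * q) := by
          rw [mul_assoc, Finset.sum_mul]
          congr 1
          exact Finset.sum_congr rfl fun i _ => by ring
      _ ≤ n * ∑ i, x i ^ 2 * (β i / 4) :=
          mul_le_mul_of_nonneg_left (Finset.sum_le_sum fun i _ =>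
            mul_le_mul_of_nonneg_left (hβ i) (sq_nonneg _)) (Nat.cast_nonneg _)
      _ = n * (S / 4) := by
          rw [hS, Finset.sum_div]
          congr 1
          exact Finset.sum_congr rfl fun i _ => by ring
  have h4 : x0 ^ 2 * q ≤ 2 * (q * t ^ 2) + n / 2 * S := by
    have h5 : x0 = t - ∑ i, x i * μ i := by rw [ht]; ring
    have h6 : x0 ^ 2 ≤ 2 * t ^ 2 + 2 * (∑ i, x i * μ i) ^ 2 := by
      rw [h5]
      nlinarith [sq_nonneg (t + ∑ i, x i * μ i)]
    have h7 := mul_le_mul_of_nonneg_right h6 hq.le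
    linarith
  have hn0 : (0 : ℝ) ≤ n := Nat.cast_nonneg n
  have hqt : 0 ≤ q * t ^ 2 := by positivity
  have h8 : c / (2 * (n + 2)) * (x0 ^ 2 * q + S) ≤
      c / (2 * (n + 2)) * (2 * (q * t ^ 2) + (n / 2 + 1) * S) :=
    mul_le_mul_of_nonneg_left (by linarith) (by positivity)
  have h9 : c / (2 * (n + 2)) * (2 * (q * t ^ 2) + (n / 2 + 1) * S) =
      c / (n + 2) * (q * t ^ 2) + c / 4 * S := by
    field_simp
    ring
  have h10 : c / (n + 2) * (q * t ^ 2) ≤ q * t ^ 2 := by
    refine mul_le_of_le_one_left hqt ?_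
    rw [div_le_one (by positivity)]
    linarith
  have h11 : c / 4 * S ≤ c * ∑ i, x i ^ 2 * β' i := by
    have h12 := mul_le_mul_of_nonneg_left h1 hc.le
    have h13 : c / 4 * S ≤ c * (3 / 4 * S) := by
      have := mul_nonneg hc.le hS0
      linarith
    linarith
  linarith

theorem main (n : ℕ) : ∃ c : ℝ, 0 < c ∧ c ≤ 1 ∧ ∀ (M : Type) [AddCommGroup M] [Module.Free ℤ M]
    [Module.Finite ℤ M], Module.finrank ℤ M = n → ∀ B : M → M → ℝ, Good M B →
    ∃ b : Fin n → M, Submodule.span ℤ (Set.range b) = ⊤ ∧ ∀ x : Fin n → ℤ,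
      c * ∑ i, (x i : ℝ) ^ 2 * B (b i) (b i) ≤ B (∑ i, x i • b i) (∑ i, x i • b i) := by
  induction n with
  | zero =>
    refine ⟨1, one_pos, le_rfl, fun M _ _ _ hn B h => ⟨Fin.elim0, ?_, fun x => ?_⟩⟩
    · haveI : Subsingleton M := (Module.finrank_eq_zero_iff_of_free ℤ M).1 hn
      exact Subsingleton.elim _ _
    · simp [h.zero]
  | succ n ih =>
    obtain ⟨c, hc, hc1, ih⟩ := ih
    refine ⟨c / (2 * (n + 2)), by positivity, ?_, fun M _ _ _ hn B h => ?_⟩
    · rw [div_le_one (by positivity)]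
      have hn0 : (0 : ℝ) ≤ n := Nat.cast_nonneg n
      linarith
    haveI : Nontrivial M := by
      by_contra hnt
      rw [not_nontrivial_iff_subsingleton] at hnt
      rw [Module.finrank_zero_of_subsingleton] at hn
      omega
    obtain ⟨v, hv, hmin⟩ := exists_min h
    obtain ⟨φ, hφ⟩ := exists_dual h hv hmin
    obtain ⟨b', hspan, hb'⟩ := ih (LinearMap.ker φ) (finrank_ker hφ hn) _ (good_ker h hv hmin hφ)
    have hq := h.pos v hv
    set k : Fin n → ℤ := fun i => round (B (b' i) v / B v v) with hk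
    set b : Fin n → M := fun i => (b' i : M) - k i • v with hb
    refine ⟨Fin.cons v b, ?_, fun x => ?_⟩
    · rw [eq_top_iff]
      intro z _
      set S := Submodule.span ℤ (Set.range (Fin.cons v b : Fin (n + 1) → M)) with hS
      have hvS : v ∈ S := Submodule.subset_span ⟨0, by simp⟩
      have hbS : ∀ i, (b' i : M) ∈ S := by
        intro i
        have h1 : b i ∈ S := Submodule.subset_span ⟨i.succ, by simp⟩
        have h2 : (b' i : M) = b i + k i • v := by simp [hb]
        rw [h2]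
        exact S.add_mem h1 (S.smul_mem _ hvS)
      have hK : ∀ y : LinearMap.ker φ, (y : M) ∈ S := by
        intro y
        have h1 : y ∈ Submodule.span ℤ (Set.range b') := by rw [hspan]; trivial
        have h2 : Submodule.span ℤ (Set.range b') ≤ S.comap (LinearMap.ker φ).subtype := by
          rw [Submodule.span_le]
          rintro _ ⟨i, rfl⟩
          exact hbS i
        exact h2 h1
      have h3 : z = (z - φ z • v) + φ z • v := by abel
      rw [h3]
      refine S.add_mem ?_ (S.smul_mem _ hvS)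
      refine hK ⟨z - φ z • v, ?_⟩
      rw [LinearMap.mem_ker, map_sub, map_zsmul, hφ]
      simp
    · set y : M := ∑ i, x i • (Fin.cons v b : Fin (n + 1) → M) i with hy
      have hy1 : y = x 0 • v + ∑ i : Fin n, x i.succ • b i := by
        rw [hy, Fin.sum_univ_succ]
        simp
      set y' : LinearMap.ker φ := ∑ i : Fin n, x i.succ • b' i with hy'
      have hy'1 : (y' : M) = ∑ i : Fin n, x i.succ • (b' i : M) := by
        rw [hy']
        simp
      have hy2 : y = (y' : M) - ((∑ i : Fin n, x i.succ * k i) - x 0) • v := by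
        rw [hy1, hy'1, sub_smul, Finset.sum_smul]
        simp only [hb, smul_sub, smul_smul, Finset.sum_sub_distrib]
        abel
      have h1 : pr B v y y = pr B v y' y' := by rw [hy2, pr_shift h hv]
      have h2 := hb' fun i => x i.succ
      have h3 : ∀ i, pr B v (b' i) (b' i) = pr B v (b i) (b i) := fun i =>
        (pr_shift h hv (k i) (b' i)).symm
      simp only [h3] at h2
      have h4 : B y y = B v v * (B y v / B v v) ^ 2 + pr B v y y := by
        unfold pr
        field_simp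
        ring
      have h5 : B y v / B v v = x 0 + ∑ i : Fin n, (x i.succ : ℝ) * (B (b i) v / B v v) := by
        rw [hy1, h.add, h.zsmul, h.sum, add_div, Finset.sum_div]
        congr 1
        · field_simp
        · exact Finset.sum_congr rfl fun i _ => by ring
      have h6 : ∀ i, (B (b i) v / B v v) ^ 2 * B v v ≤ B (b i) (b i) / 4 := by
        intro i
        have h7 := red h hv hmin (b' i)
        rw [div_pow, div_mul_eq_mul_div, div_le_iff₀ (by positivity)]
        have h8 : B (b i) v ^ 2 ≤ B v v * B (b i) (b i) / 4 := h7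
        nlinarith
      have h9 : ∀ i, 3 / 4 * B (b i) (b i) ≤ pr B v (b i) (b i) := fun i => by
        rw [← h3]
        exact pr_ge h hv hmin (b' i)
      have h10 := num hc hc1 hq (fun i => B (b i) v / B v v) (fun i : Fin n => (x i.succ : ℝ))
        (fun i => B (b i) (b i)) (fun i => pr B v (b i) (b i)) h6 h9 h5
      rw [Fin.sum_univ_succ]
      simp only [Fin.cons_zero, Fin.cons_succ]
      rw [h4, h1]
      refine h10.trans (add_le_add le_rfl ?_)
      exact h2

/-- the form attached to a matrix -/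
def bil (Q : Mx d) (x y : Fin d → ℤ) : ℝ := rv x ⬝ᵥ (Q *ᵥ rv y)

lemma rv_add (x y : Fin d → ℤ) : rv (x + y) = rv x + rv y := by
  funext i
  simp [rv]

lemma good_bil {Q : Mx d} (hQ : PD Q) : Good (Fin d → ℤ) (bil Q) where
  add x y z := by
    unfold bil
    rw [rv_add, add_dotProduct]
  symm x y := by
    unfold bil
    rw [dotProduct_mulVec, ← mulVec_transpose, hQ.1, dotProduct_comm]
  pos x hx := hQ.2 _ (rv_ne hx)
  fin r := by
    have h1 := (finite_level hQ r).image (Subtype.val)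
    refine (h1.union (Set.finite_singleton 0)).subset fun x hx => ?_
    by_cases hx0 : x = 0
    · exact Or.inr hx0
    · exact Or.inl ⟨⟨x, hx0⟩, hx, rfl⟩

end Red

theorem reduction (d : ℕ) : ∃ c > 0, ∀ Q : Mx d, PD Q →
    ∃ U : Matrix (Fin d) (Fin d) ℤ, IsUnit U.det ∧
      ∀ x : Fin d → ℤ, c * ∑ i, act U Q i i * (x i : ℝ) ^ 2 ≤ qf Q (U *ᵥ x) := by
  obtain ⟨c, hc, -, h⟩ := Red.main d
  refine ⟨c, hc, fun Q hQ => ?_⟩
  obtain ⟨b, hspan, hb⟩ := h (Fin d → ℤ) (by simp) (Red.bil Q) (Red.good_bil hQ)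
  set U : Matrix (Fin d) (Fin d) ℤ := Matrix.of fun i j => b j i with hU
  have hUx : ∀ x : Fin d → ℤ, U *ᵥ x = ∑ j, x j • b j := by
    intro x
    funext i
    simp only [hU, mulVec, dotProduct, Matrix.of_apply, Finset.sum_apply, Pi.smul_apply,
      smul_eq_mul]
    exact Finset.sum_congr rfl fun j _ => mul_comm _ _
  refine ⟨U, ?_, fun x => ?_⟩
  · rw [← Matrix.isUnit_iff_isUnit_det, ← Matrix.mulVec_surjective_iff_isUnit]
    intro z
    have hz : z ∈ Submodule.span ℤ (Set.range b) := by rw [hspan]; trivial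
    obtain ⟨x, hx⟩ := (Submodule.mem_span_range_iff_exists_fun ℤ).1 hz
    exact ⟨x, by rw [hUx]; exact hx⟩
  · have h1 : ∀ i, act U Q i i = Red.bil Q (b i) (b i) := by
      intro i
      unfold act Red.bil
      have h2 : rv (b i) = fun k => (U.map (Int.cast : ℤ → ℝ)) k i := by
        funext k
        simp [rv, hU]
      rw [h2]
      simp only [Matrix.mul_apply, Matrix.transpose_apply, dotProduct, mulVec, Finset.mul_sum,
        Finset.sum_mul]
      rw [Finset.sum_comm]
      exact Finset.sum_congr rfl fun k _ => Finset.sum_congr rfl fun l _ => by ring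
    have h3 := hb x
    rw [← hUx] at h3
    simp only [h1]
    refine le_trans (le_of_eq ?_) h3
    congr 1
    exact Finset.sum_congr rfl fun i _ => mul_comm _ _

end Pool.Agent.Lib.EpZ
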