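import Pool.Agent.Lib.EpZ.Key
import Pool.Agent.Lib.EpZ.First

/-!
# Limits of local minima are extreme; uniqueness near an extreme form
-/

open Matrix Filter Topology
open scoped Matrix.Norms.Elementwise

namespace Pool.Agent.Lib.EpZ

variable {d : ℕ}

/-- lower bound of the weights of the minimal vectors -/
lemma weights_lower (hd : d ≠ 0) {A : Mx d} (hA : PD A) {s : ℕ → ℝ} (hs : Tendsto s atTop atTop)
    {Q : ℕ → Mx d} (hQ : ∀ k, PD (Q k)) (hF : ∀ k, F (s k) (Q k) = 1)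
    (hC : ∀ k, Crit (s k) (Q k)) (hlim : Tendsto Q atTop (𝓝 A)) :
    ∃ w > 0, ∀ᶠ k in atTop, ∀ x ∈ minSet A, w ≤ qf (Q k) x.1 ^ (-(s k)) ∧ qf (Q k) x.1 ≤ 2 := by
  obtain ⟨hone, C, hC0, hC1⟩ := key hd hA hs hQ hF hC hlim
  have hfin := finite_minSet hA
  obtain ⟨b, hb⟩ : ∃ b : ℝ, ∀ x ∈ minSet A, nn x.1 ≤ b := by
    obtain ⟨b, hb⟩ := (hfin.image fun x => nn x.1).bddAbove
    exact ⟨b, fun x hx => hb ⟨x, hx, rfl⟩⟩
  set a : ℝ := d * C * max b 0 with ha
  have ha0 : 0 ≤ a := by positivity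
  refine ⟨Real.exp (-a), Real.exp_pos _, ?_⟩
  filter_upwards [hC1, hs.eventually_ge_atTop (a + 1)] with k hk hk1 x hx
  have hs0 : 0 < s k := by linarith
  have h1 : qf (Q k) x.1 ≤ 1 + a / s k := by
    have h2 : qf (Q k) x.1 = qf A x.1 + qf (Q k - A) x.1 := by rw [qf_sub]; ring
    have h3 : qf A x.1 = 1 := hx
    have h4 := (abs_le.mp (qf_abs_le (Q k - A) x.1)).2
    have h5 : d * ‖Q k - A‖ * nn x.1 ≤ a / s k := by
      calc d * ‖Q k - A‖ * nn x.1 ≤ d * (C / s k) * max b 0 := by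
            refine mul_le_mul (mul_le_mul_of_nonneg_left hk (by positivity))
              ((hb x hx).trans (le_max_left _ _)) (nn_nonneg _) (by positivity)
        _ = a / s k := by rw [ha]; ring
    linarith
  have h6 : a / s k ≤ 1 := by
    rw [div_le_one hs0]
    linarith
  have hp := (hQ k).pos x
  refine ⟨?_, by linarith⟩
  calc Real.exp (-a) ≤ (1 + a / s k) ^ (-(s k)) := by
        rw [Real.rpow_def_of_pos (by positivity)]
        refine Real.exp_le_exp.mpr ?_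
        have h7 : Real.log (1 + a / s k) ≤ a / s k := by
          have := Real.log_le_sub_one_of_pos (by positivity : 0 < 1 + a / s k)
          linarith
        have h8 : Real.log (1 + a / s k) * s k ≤ a / s k * s k :=
          mul_le_mul_of_nonneg_right h7 hs0.le
        rw [div_mul_cancel₀ _ hs0.ne'] at h8
        linarith
    _ ≤ qf (Q k) x.1 ^ (-(s k)) := Real.rpow_le_rpow_of_nonpos hp h1 (by linarith)

/-- the tails of the weights tend to zero, even multiplied by `s` -/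
lemma tail_tendsto {A : Mx d} {c δ K r : ℝ} (hn : Near A c δ K r) {s : ℕ → ℝ}
    (hs : Tendsto s atTop atTop) {Q : ℕ → Mx d} (hQ : ∀ k, PD (Q k))
    (hlim : Tendsto Q atTop (𝓝 A)) :
    Tendsto (fun k => s k * tl A (s k) (Q k)) atTop (𝓝 0) ∧
      Tendsto (fun k => tl A (s k) (Q k)) atTop (𝓝 0) := by
  have h1 : Tendsto (fun k => ‖Q k - A‖) atTop (𝓝 0) := by
    have := (hlim.sub_const A).norm
    simpa using this
  have h2 : ∀ᶠ k in atTop, tl A (s k) (Q k) ≤ K * (1 + δ) ^ (-(s k)) := by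
    filter_upwards [h1.eventually (gt_mem_nhds hn.r_pos),
      hs.eventually_ge_atTop ((d : ℝ) / 2 + 1)] with k h2 h3
    exact hn.tail _ h2.le _ h3
  have h3 : Tendsto (fun k => s k * tl A (s k) (Q k)) atTop (𝓝 0) := by
    refine squeeze_zero' ?_ ?_ (tendsto_mul_tail (K := K) hs hn.δ_pos)
    · filter_upwards [hs.eventually_ge_atTop 0] with k hk
      exact mul_nonneg hk (tl_nonneg (hQ k))
    · filter_upwards [h2, hs.eventually_ge_atTop 0] with k hk hk1
      exact mul_le_mul_of_nonneg_left hk hk1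
  refine ⟨h3, ?_⟩
  refine squeeze_zero' (Eventually.of_forall fun k => tl_nonneg (hQ k)) ?_ h3
  filter_upwards [hs.eventually_ge_atTop 1] with k hk
  have := tl_nonneg (A := A) (s := s k) (hQ k)
  nlinarith

lemma eventually_near {A : Mx d} {c δ K r : ℝ} (hn : Near A c δ K r) {s : ℕ → ℝ}
    (hs : Tendsto s atTop atTop) {Q : ℕ → Mx d} (hlim : Tendsto Q atTop (𝓝 A)) :
    ∀ᶠ k in atTop, ‖Q k - A‖ ≤ r ∧ (d : ℝ) / 2 + 1 ≤ s k := by
  have h1 : Tendsto (fun k => ‖Q k - A‖) atTop (𝓝 0) := by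
    have := (hlim.sub_const A).norm
    simpa using this
  filter_upwards [h1.eventually (gt_mem_nhds hn.r_pos),
    hs.eventually_ge_atTop ((d : ℝ) / 2 + 1)] with k h2 h3
  exact ⟨h2.le, h3⟩

/-- shifting the sequences -/
lemma exists_shift {s : ℕ → ℝ} (hs : Tendsto s atTop atTop) :
    ∃ k₀ : ℕ, ∀ k, (d : ℝ) / 2 + 1 ≤ s (k + k₀) := by
  obtain ⟨k₀, hk₀⟩ := eventually_atTop.mp (hs.eventually_ge_atTop ((d : ℝ) / 2 + 1))
  exact ⟨k₀, fun k => hk₀ _ (by omega)⟩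

theorem ext_of_limit (hd : d ≠ 0) {A : Mx d} (hA : PD A) {s : ℕ → ℝ} (hs : Tendsto s atTop atTop)
    {Q : ℕ → Mx d} (hQ : ∀ k, PD (Q k)) (hF : ∀ k, F (s k) (Q k) = 1)
    (hM : ∀ k, LocMin (s k) (Q k)) (hlim : Tendsto Q atTop (𝓝 A)) : Ext A := by
  wlog hbig : ∀ k, (d : ℝ) / 2 + 1 ≤ s k with hw
  · obtain ⟨k₀, hk₀⟩ := exists_shift (d := d) hs
    exact hw hd hA (hs.comp (tendsto_add_atTop_nat k₀)) (fun k => hQ (k + k₀))
      (fun k => hF (k + k₀)) (fun k => hM (k + k₀)) (hlim.comp (tendsto_add_atTop_nat k₀)) hk₀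
  have hbig' : ∀ k, (d : ℝ) / 2 < s k := fun k => by linarith [hbig k]
  have hC : ∀ k, Crit (s k) (Q k) := fun k => crit_of_locMin hd (hbig' k) (hQ k) (hM k)
  have hdpos : (0 : ℝ) < d := by exact_mod_cast Nat.pos_of_ne_zero hd
  have hone := (key hd hA hs hQ hF hC hlim).1
  obtain ⟨w, hw0, hw⟩ := weights_lower hd hA hs hQ hF hC hlim
  obtain ⟨c, δ, K, r, hn⟩ := exists_near_data hA hone
  obtain ⟨ht1, ht2⟩ := tail_tendsto hn hs hQ hlim
  have hnear := eventually_near hn hs hlim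
  have hinv := tendsto_inv hA hlim
  refine ⟨hA, hone, fun H hH hnn htr => ?_⟩
  set S := (finite_minSet hA).toFinset with hS
  set M : ℝ := d * ‖H‖ / c with hMdef
  have hM0 : 0 ≤ M := by
    have := hn.c_pos
    positivity
  have htrk : Tendsto (fun k => ((Q k)⁻¹ * H).trace) atTop (𝓝 (A⁻¹ * H).trace) :=
    (continuous_id.matrix_trace.tendsto _).comp (hinv.mul_const H)
  -- the sum over the minimal vectors vanishes
  have hsum : w / 2 * ∑ x ∈ S, qf H x.1 ≤ (A⁻¹ * H).trace / d := by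
    have h1 : Tendsto (fun k => ((Q k)⁻¹ * H).trace / d + M * tl A (s k) (Q k)) atTop
        (𝓝 ((A⁻¹ * H).trace / d + M * 0)) := (htrk.div_const _).add (ht2.const_mul M)
    rw [mul_zero, add_zero] at h1
    refine ge_of_tendsto h1 ?_
    filter_upwards [hw, hnear] with k hk1 hk2
    have hl := hn.low _ hk2.1
    have h2 := hC k H hH
    rw [hF k, one_mul, split_tsum (finite_minSet hA) (hl.summable_mul hn.c_pos (hbig' k) H)] at h2
    have h3 := (abs_le.mp (tail_mul (A := A) hn.c_pos hl (hbig' k) (hl.ratio hn.c_pos H))).1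
    have h4 : w / 2 * ∑ x ∈ S, qf H x.1 ≤
        ∑ x ∈ S, qf (Q k) x.1 ^ (-(s k)) * (qf H x.1 / qf (Q k) x.1) := by
      rw [Finset.mul_sum]
      refine Finset.sum_le_sum fun x hx => ?_
      have hx' : x ∈ minSet A := (finite_minSet hA).mem_toFinset.mp hx
      obtain ⟨h5, h6⟩ := hk1 x hx'
      have h7 := hnn x hx'
      have hp := (hQ k).pos x
      have h8 : qf H x.1 / 2 ≤ qf H x.1 / qf (Q k) x.1 :=
        div_le_div_of_nonneg_left h7 hp h6
      calc w / 2 * qf H x.1 = w * (qf H x.1 / 2) := by ring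
        _ ≤ qf (Q k) x.1 ^ (-(s k)) * (qf H x.1 / qf (Q k) x.1) :=
          mul_le_mul h5 h8 (by positivity) (Real.rpow_nonneg hp.le _)
    linarith
  have hzero : ∀ x ∈ minSet A, qf H x.1 = 0 := by
    have h1 : ∑ x ∈ S, qf H x.1 ≤ 0 := by
      have h2 : (A⁻¹ * H).trace / d ≤ 0 := div_nonpos_of_nonpos_of_nonneg htr hdpos.le
      by_contra hcon
      push Not at hcon
      have : 0 < w / 2 * ∑ x ∈ S, qf H x.1 := by positivity
      linarith
    have h3 : ∀ x ∈ S, 0 ≤ qf H x.1 := fun x hx =>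
      hnn x ((finite_minSet hA).mem_toFinset.mp hx)
    have h4 : ∑ x ∈ S, qf H x.1 = 0 := le_antisymm h1 (Finset.sum_nonneg h3)
    intro x hx
    exact (Finset.sum_eq_zero_iff_of_nonneg h3).mp h4 x ((finite_minSet hA).mem_toFinset.mpr hx)
  by_contra hne
  have hpos := trace_sq_pos hA hH hne
  have h1 : Tendsto (fun k => ((Q k)⁻¹ * H * ((Q k)⁻¹ * H)).trace / (3 * d)) atTop
      (𝓝 ((A⁻¹ * H * (A⁻¹ * H)).trace / (3 * d))) :=
    ((continuous_id.matrix_trace.tendsto _).comp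
      ((hinv.mul_const H).mul (hinv.mul_const H))).div_const _
  have h2 : Tendsto (fun k => 4 * M ^ 2 * (s k * tl A (s k) (Q k) + tl A (s k) (Q k))) atTop
      (𝓝 0) := by
    have := (ht1.add ht2).const_mul (4 * M ^ 2)
    simpa using this
  have h3 : (A⁻¹ * H * (A⁻¹ * H)).trace / (3 * d) ≤ 0 := by
    refine le_of_tendsto_of_tendsto h1 h2 ?_
    filter_upwards [hnear] with k hk
    have hl := hn.low _ hk.1
    have h4 := second_order hd (hbig' k) (hQ k) (hM k) hH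
    rw [hF k, one_mul,
      split_tsum (finite_minSet hA) (hl.summable_mul_sq hn.c_pos (hbig' k) H)] at h4
    have h5 : ∑ x ∈ (finite_minSet hA).toFinset,
        qf (Q k) x.1 ^ (-(s k)) * (qf H x.1 / qf (Q k) x.1) ^ 2 = 0 := by
      refine Finset.sum_eq_zero fun x hx => ?_
      rw [hzero x ((finite_minSet hA).mem_toFinset.mp hx)]
      simp
    rw [h5, zero_add] at h4
    have h6 := (abs_le.mp (tail_mul (A := A) (f := fun x => (qf H x.1 / qf (Q k) x.1) ^ 2)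
      (M := M ^ 2) hn.c_pos hl (hbig' k) (fun x => by
        rw [abs_pow]
        exact pow_le_pow_left₀ (abs_nonneg _) (hl.ratio hn.c_pos H x) 2))).2
    have h7 : 0 ≤ 4 * (s k + 1) := by
      have := hbig k
      linarith
    have h8 := mul_le_mul_of_nonneg_left h6 h7
    calc _ ≤ _ := h4
      _ ≤ _ := h8
      _ = _ := by ring
  have h9 : 0 < (A⁻¹ * H * (A⁻¹ * H)).trace / (3 * d) := by positivity
  linarith

lemma norm_mul_le_d (X Y : Mx d) : ‖X * Y‖ ≤ d * ‖X‖ * ‖Y‖ := by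
  rw [Matrix.norm_le_iff (by positivity)]
  intro i j
  rw [Matrix.mul_apply]
  refine (norm_sum_le _ _).trans ?_
  calc ∑ k, ‖X i k * Y k j‖ ≤ ∑ _k : Fin d, ‖X‖ * ‖Y‖ := by
        refine Finset.sum_le_sum fun k _ => ?_
        rw [norm_mul]
        exact mul_le_mul (Matrix.norm_entry_le_entrywise_sup_norm X)
          (Matrix.norm_entry_le_entrywise_sup_norm Y) (norm_nonneg _) (norm_nonneg _)
    _ = d * ‖X‖ * ‖Y‖ := by simp; ring

lemma trace_le_d (X : Mx d) : |X.trace| ≤ d * ‖X‖ := by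
  rw [Matrix.trace]
  refine (Finset.abs_sum_le_sum_abs _ _).trans ?_
  calc ∑ k, |X.diag k| ≤ ∑ _k : Fin d, ‖X‖ := by
        refine Finset.sum_le_sum fun k _ => entry_le X k k
    _ = d * ‖X‖ := by simp

/-- perfection in quantitative form -/
lemma perfect_lower {A : Mx d} (hA : Ext A) : ∃ κ > 0, ∀ H : Mx d, H.IsSymm →
    κ * ‖H‖ ^ 2 ≤ ∑ x ∈ (finite_minSet hA.1).toFinset, qf H x.1 ^ 2 := by
  set S := (finite_minSet hA.1).toFinset with hS
  have hcont : Continuous fun H : Mx d => ∑ x ∈ S, qf H x.1 ^ 2 :=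
    continuous_finsetSum _ fun x _ => (continuous_qf x.1).pow 2
  have hclosed : IsClosed {H : Mx d | H.IsSymm} :=
    isClosed_eq continuous_id.matrix_transpose continuous_id
  have hK : IsCompact (Metric.sphere (0 : Mx d) 1 ∩ {H : Mx d | H.IsSymm}) :=
    (isCompact_sphere _ _).inter_right hclosed
  have hpos : ∀ H : Mx d, H.IsSymm → H ≠ 0 → 0 < ∑ x ∈ S, qf H x.1 ^ 2 := by
    intro H hH hne
    refine lt_of_le_of_ne (Finset.sum_nonneg fun _ _ => sq_nonneg _) fun h0 => hne ?_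
    have h1 : ∀ x ∈ S, qf H x.1 = 0 := by
      intro x hx
      have := (Finset.sum_eq_zero_iff_of_nonneg fun x _ => sq_nonneg (qf H x.1)).mp h0.symm x hx
      exact pow_eq_zero_iff (two_ne_zero) |>.mp this
    have h2 : ∀ x : NZ d, qf A x.1 = 1 → qf H x.1 = 0 := fun x hx =>
      h1 x ((finite_minSet hA.1).mem_toFinset.mpr hx)
    rcases le_total (A⁻¹ * H).trace 0 with h3 | h3
    · exact hA.2.2 H hH (fun x hx => (h2 x hx).ge) h3
    · have h4 : (-H) = 0 := by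
        refine hA.2.2 (-H) hH.neg (fun x hx => ?_) ?_
        · rw [qf_neg, h2 x hx, neg_zero]
        · rw [Matrix.mul_neg, Matrix.trace_neg]
          linarith
      exact neg_eq_zero.mp h4
  rcases (Metric.sphere (0 : Mx d) 1 ∩ {H : Mx d | H.IsSymm}).eq_empty_or_nonempty with he | hne
  · refine ⟨1, one_pos, fun H hH => ?_⟩
    have hH0 : H = 0 := by
      by_contra hH0
      have hnpos : 0 < ‖H‖ := norm_pos_iff.mpr hH0
      have : (‖H‖⁻¹ • H) ∈ Metric.sphere (0 : Mx d) 1 ∩ {H : Mx d | H.IsSymm} := by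
        refine ⟨?_, hH.smul _⟩
        rw [mem_sphere_zero_iff_norm, norm_smul, norm_inv, norm_norm, inv_mul_cancel₀ hnpos.ne']
      rw [he] at this
      exact this
    rw [hH0]
    simp only [norm_zero]
    have : (0 : ℝ) ≤ ∑ x ∈ S, qf (0 : Mx d) x.1 ^ 2 := Finset.sum_nonneg fun _ _ => sq_nonneg _
    simpa using this
  · obtain ⟨W, hW, hmin⟩ := hK.exists_isMinOn hne hcont.continuousOn
    have hW0 : W ≠ 0 := by
      intro h0
      have := hW.1
      rw [h0] at this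
      simp at this
    refine ⟨∑ x ∈ S, qf W x.1 ^ 2, hpos W hW.2 hW0, fun H hH => ?_⟩
    rcases eq_or_ne H 0 with rfl | hH0
    · simp only [norm_zero]
      have : (0 : ℝ) ≤ ∑ x ∈ S, qf (0 : Mx d) x.1 ^ 2 := Finset.sum_nonneg fun _ _ => sq_nonneg _
      simpa using this
    · have hnpos : 0 < ‖H‖ := norm_pos_iff.mpr hH0
      have h1 : (‖H‖⁻¹ • H) ∈ Metric.sphere (0 : Mx d) 1 ∩ {H : Mx d | H.IsSymm} := by
        refine ⟨?_, hH.smul _⟩
        rw [mem_sphere_zero_iff_norm, norm_smul, norm_inv, norm_norm, inv_mul_cancel₀ hnpos.ne']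
      have h2 := hmin h1
      simp only [Set.mem_ofPred_eq, qf_smul, mul_pow, ← Finset.mul_sum] at h2
      have h3 := mul_le_mul_of_nonneg_left h2 (sq_nonneg ‖H‖)
      rw [← mul_assoc, ← mul_pow, mul_inv_cancel₀ hnpos.ne', one_pow, one_mul] at h3
      rw [mul_comm]
      exact h3

lemma pow_gap {a b s w : ℝ} (ha : 0 < a) (hb : 0 < b) (ha2 : a ≤ 2) (hb2 : b ≤ 2) (hs : 0 < s)
    (_hw : 0 ≤ w) (hwa : w ≤ a ^ (-s)) (hwb : w ≤ b ^ (-s)) :
    (s + 1) * (w / 4) * (b - a) ^ 2 ≤ (a ^ (-s) / a - b ^ (-s) / b) * (b - a) := by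
  have aux : ∀ a b : ℝ, 0 < a → a ≤ b → b ≤ 2 → w ≤ b ^ (-s) →
      (s + 1) * (w / 4) * (b - a) ≤ a ^ (-s) / a - b ^ (-s) / b := by
    intro a b ha hab hb2 hwb
    have hb : 0 < b := by linarith
    have h1 : a ^ (-s) / a = a ^ (-(s + 1)) := by
      rw [← Real.rpow_sub_one ha.ne']
      ring_nf
    have h2 : b ^ (-s) / b = b ^ (-(s + 1)) := by
      rw [← Real.rpow_sub_one hb.ne']
      ring_nf
    rw [h1, h2]
    have h3 : a ^ (-(s + 1)) = b ^ (-(s + 1)) * (b / a) ^ (s + 1) := by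
      rw [Real.div_rpow hb.le ha.le, Real.rpow_neg ha.le, Real.rpow_neg hb.le]
      have := (Real.rpow_pos_of_pos hb (s + 1)).ne'
      field_simp
    have h4 : 1 + (s + 1) * (b / a - 1) ≤ (b / a) ^ (s + 1) := by
      have h5 : -1 ≤ b / a - 1 := by
        have : 0 < b / a := by positivity
        linarith
      have := one_add_mul_self_le_rpow_one_add h5 (by linarith : 1 ≤ s + 1)
      simpa using this
    have h6 : (b - a) / 2 ≤ b / a - 1 := by
      have : b / a - 1 = (b - a) / a := by field_simp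
      rw [this]
      exact div_le_div_of_nonneg_left (by linarith) ha (by linarith)
    have h7 : w / 2 ≤ b ^ (-(s + 1)) := by
      rw [← h2]
      calc w / 2 ≤ b ^ (-s) / 2 := by linarith
        _ ≤ b ^ (-s) / b := div_le_div_of_nonneg_left (Real.rpow_nonneg hb.le _) hb hb2
    rw [h3]
    have h8 : b ^ (-(s + 1)) * (1 + (s + 1) * (b / a - 1)) ≤ b ^ (-(s + 1)) * (b / a) ^ (s + 1) :=
      mul_le_mul_of_nonneg_left h4 (Real.rpow_nonneg hb.le _)
    have h9 : (w / 2) * ((s + 1) * ((b - a) / 2)) ≤ b ^ (-(s + 1)) * ((s + 1) * (b / a - 1)) := by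
      refine mul_le_mul h7 (mul_le_mul_of_nonneg_left h6 (by linarith)) ?_
        (Real.rpow_nonneg hb.le _)
      have : 0 ≤ b - a := by linarith
      positivity
    nlinarith
  rcases le_total a b with hab | hab
  · have h1 := aux a b ha hab hb2 hwb
    have h2 := mul_le_mul_of_nonneg_right h1 (by linarith : 0 ≤ b - a)
    calc _ = (s + 1) * (w / 4) * (b - a) * (b - a) := by ring
      _ ≤ _ := h2
  · have h1 := aux b a hb hab ha2 hwa
    have h2 := mul_le_mul_of_nonneg_right h1 (by linarith : 0 ≤ a - b)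
    calc _ = (s + 1) * (w / 4) * (a - b) * (a - b) := by ring
      _ ≤ _ := h2
      _ = _ := by ring

lemma pow_gap_nonneg {a b s : ℝ} (ha : 0 < a) (hb : 0 < b) (hs : 0 < s) :
    0 ≤ (a ^ (-s) / a - b ^ (-s) / b) * (b - a) := by
  have aux : ∀ a b : ℝ, 0 < a → a ≤ b → b ^ (-s) / b ≤ a ^ (-s) / a := by
    intro a b ha hab
    have hb : 0 < b := by linarith
    exact div_le_div₀ (Real.rpow_nonneg ha.le _)
      (Real.rpow_le_rpow_of_nonpos ha hab (by linarith)) ha hab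
  rcases le_total a b with hab | hab
  · exact mul_nonneg (by linarith [aux a b ha hab]) (by linarith)
  · exact mul_nonneg_of_nonpos_of_nonpos (by linarith [aux b a hb hab]) (by linarith)

theorem unique_limit (hd : d ≠ 0) {A : Mx d} (hA : Ext A) {s : ℕ → ℝ}
    (hs : Tendsto s atTop atTop)
    {Q : ℕ → Mx d} (hQ : ∀ k, PD (Q k)) (hF : ∀ k, F (s k) (Q k) = 1)
    (hC : ∀ k, Crit (s k) (Q k)) (hlim : Tendsto Q atTop (𝓝 A))
    {Q' : ℕ → Mx d} (hQ' : ∀ k, PD (Q' k)) (hF' : ∀ k, F (s k) (Q' k) = 1)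
    (hC' : ∀ k, Crit (s k) (Q' k)) (hlim' : Tendsto Q' atTop (𝓝 A)) :
    ∀ᶠ k in atTop, Q k = Q' k := by
  have hdpos : (0 : ℝ) < d := by exact_mod_cast Nat.pos_of_ne_zero hd
  obtain ⟨w, hw0, hw⟩ := weights_lower hd hA.1 hs hQ hF hC hlim
  obtain ⟨w', hw0', hw'⟩ := weights_lower hd hA.1 hs hQ' hF' hC' hlim'
  obtain ⟨c, δ, K, r, hn⟩ := exists_near_data hA.1 hA.2.1
  obtain ⟨κ, hκ, hperf⟩ := perfect_lower hA
  have hnear := eventually_near hn hs hlim
  have hnear' := eventually_near hn hs hlim'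
  have hinv := (tendsto_inv hA.1 hlim).norm
  have hinv' := (tendsto_inv hA.1 hlim').norm
  set B : ℝ := ‖A⁻¹‖ + 1 with hB
  set v : ℝ := min w w' with hv
  have hv0 : 0 < v := lt_min hw0 hw0'
  set D : ℝ := d ^ 4 * B ^ 2 / d with hD
  have hbig : ∀ᶠ k in atTop, D < (s k + 1) * (v / 4) * κ := by
    have h1 : Tendsto (fun k => (s k + 1) * (v / 4) * κ) atTop atTop :=
      ((tendsto_atTop_add_const_right _ 1 hs).atTop_mul_const (by positivity)).atTop_mul_const hκ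
    exact h1.eventually_gt_atTop D
  filter_upwards [hw, hw', hnear, hnear', hinv.eventually (gt_mem_nhds (lt_add_one ‖A⁻¹‖)),
    hinv'.eventually (gt_mem_nhds (lt_add_one ‖A⁻¹‖)), hbig] with k k1 k2 k3 k4 k5 k6 k7
  have hs0 : 0 < s k := by linarith [k3.2]
  have hs' : (d : ℝ) / 2 < s k := by linarith [k3.2]
  have hl := hn.low _ k3.1
  have hl' := hn.low _ k4.1
  set H : Mx d := Q' k - Q k with hH
  have hHs : H.IsSymm := (hQ' k).1.sub (hQ k).1
  have e1 := hC k H hHs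
  have e2 := hC' k H hHs
  rw [hF k, one_mul] at e1
  rw [hF' k, one_mul] at e2
  have hS1 := hl.summable_mul hn.c_pos hs' H
  have hS2 := hl'.summable_mul hn.c_pos hs' H
  have e3 : ∑' x : NZ d, (qf (Q k) x.1 ^ (-(s k)) * (qf H x.1 / qf (Q k) x.1) -
      qf (Q' k) x.1 ^ (-(s k)) * (qf H x.1 / qf (Q' k) x.1)) =
      (((Q k)⁻¹ * H).trace - ((Q' k)⁻¹ * H).trace) / d := by
    rw [hS1.tsum_sub hS2, e1, e2]
    ring
  have hterm : ∀ x : NZ d, qf (Q k) x.1 ^ (-(s k)) * (qf H x.1 / qf (Q k) x.1) -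
      qf (Q' k) x.1 ^ (-(s k)) * (qf H x.1 / qf (Q' k) x.1) =
      (qf (Q k) x.1 ^ (-(s k)) / qf (Q k) x.1 - qf (Q' k) x.1 ^ (-(s k)) / qf (Q' k) x.1) *
        (qf (Q' k) x.1 - qf (Q k) x.1) := by
    intro x
    rw [hH, qf_sub]
    ring
  have e4 : ∑ x ∈ (finite_minSet hA.1).toFinset,
      (qf (Q k) x.1 ^ (-(s k)) * (qf H x.1 / qf (Q k) x.1) -
      qf (Q' k) x.1 ^ (-(s k)) * (qf H x.1 / qf (Q' k) x.1)) ≤
      (((Q k)⁻¹ * H).trace - ((Q' k)⁻¹ * H).trace) / d := by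
    rw [← e3]
    refine (hS1.sub hS2).sum_le_tsum _ fun x _ => ?_
    rw [hterm x]
    exact pow_gap_nonneg ((hQ k).pos x) ((hQ' k).pos x) hs0
  have e5 : (s k + 1) * (v / 4) * ∑ x ∈ (finite_minSet hA.1).toFinset, qf H x.1 ^ 2 ≤
      ∑ x ∈ (finite_minSet hA.1).toFinset,
      (qf (Q k) x.1 ^ (-(s k)) * (qf H x.1 / qf (Q k) x.1) -
      qf (Q' k) x.1 ^ (-(s k)) * (qf H x.1 / qf (Q' k) x.1)) := by
    rw [Finset.mul_sum]
    refine Finset.sum_le_sum fun x hx => ?_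
    have hx' : x ∈ minSet A := (finite_minSet hA.1).mem_toFinset.mp hx
    rw [hterm x, hH, qf_sub]
    exact pow_gap ((hQ k).pos x) ((hQ' k).pos x) (k1 x hx').2 (k2 x hx').2 hs0 hv0.le
      ((min_le_left _ _).trans (k1 x hx').1) ((min_le_right _ _).trans (k2 x hx').1)
  have e6 := hperf H hHs
  have hu : IsUnit (Q k).det := (hQ k).det_pos.ne'.isUnit
  have hu' : IsUnit (Q' k).det := (hQ' k).det_pos.ne'.isUnit
  have e7 : (Q k)⁻¹ * H - (Q' k)⁻¹ * H = (Q k)⁻¹ * H * ((Q' k)⁻¹ * H) := by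
    have h1 : (Q k)⁻¹ - (Q' k)⁻¹ = (Q k)⁻¹ * H * (Q' k)⁻¹ := by
      rw [hH, mul_sub, sub_mul, Matrix.nonsing_inv_mul _ hu, one_mul, Matrix.mul_assoc,
        Matrix.mul_nonsing_inv _ hu', mul_one]
    rw [← sub_mul, h1]
    simp only [Matrix.mul_assoc]
  have e8 : ((Q k)⁻¹ * H).trace - ((Q' k)⁻¹ * H).trace ≤ d ^ 4 * B ^ 2 * ‖H‖ ^ 2 := by
    rw [← Matrix.trace_sub, e7]
    refine (le_abs_self _).trans ((trace_le_d _).trans ?_)
    have h1 := norm_mul_le_d ((Q k)⁻¹ * H) ((Q' k)⁻¹ * H)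
    have h2 := norm_mul_le_d (Q k)⁻¹ H
    have h3 := norm_mul_le_d (Q' k)⁻¹ H
    have h4 : ‖(Q k)⁻¹ * H‖ ≤ d * B * ‖H‖ :=
      h2.trans (mul_le_mul_of_nonneg_right (mul_le_mul_of_nonneg_left k5.le hdpos.le)
        (norm_nonneg _))
    have h5 : ‖(Q' k)⁻¹ * H‖ ≤ d * B * ‖H‖ :=
      h3.trans (mul_le_mul_of_nonneg_right (mul_le_mul_of_nonneg_left k6.le hdpos.le)
        (norm_nonneg _))
    have hB0 : 0 ≤ B := by rw [hB]; positivity
    calc (d : ℝ) * ‖(Q k)⁻¹ * H * ((Q' k)⁻¹ * H)‖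
        ≤ d * (d * ‖(Q k)⁻¹ * H‖ * ‖(Q' k)⁻¹ * H‖) := mul_le_mul_of_nonneg_left h1 hdpos.le
      _ ≤ d * (d * (d * B * ‖H‖) * (d * B * ‖H‖)) := by
          refine mul_le_mul_of_nonneg_left ?_ hdpos.le
          exact mul_le_mul (mul_le_mul_of_nonneg_left h4 hdpos.le) h5 (norm_nonneg _)
            (by positivity)
      _ = d ^ 4 * B ^ 2 * ‖H‖ ^ 2 := by ring
  have e9 : (s k + 1) * (v / 4) * κ * ‖H‖ ^ 2 ≤ D * ‖H‖ ^ 2 := by
    have h1 : 0 ≤ (s k + 1) * (v / 4) := by positivity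
    calc (s k + 1) * (v / 4) * κ * ‖H‖ ^ 2 = (s k + 1) * (v / 4) * (κ * ‖H‖ ^ 2) := by ring
      _ ≤ (s k + 1) * (v / 4) * ∑ x ∈ (finite_minSet hA.1).toFinset, qf H x.1 ^ 2 :=
        mul_le_mul_of_nonneg_left e6 h1
      _ ≤ (((Q k)⁻¹ * H).trace - ((Q' k)⁻¹ * H).trace) / d := e5.trans e4
      _ ≤ d ^ 4 * B ^ 2 * ‖H‖ ^ 2 / d := div_le_div_of_nonneg_right e8 hdpos.le
      _ = D * ‖H‖ ^ 2 := by rw [hD]; ring
  have e10 : ‖H‖ ^ 2 = 0 := by
    by_contra hne
    have h1 : 0 < ‖H‖ ^ 2 := lt_of_le_of_ne (sq_nonneg _) (Ne.symm hne)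
    have h2 := le_of_mul_le_mul_right e9 h1
    linarith
  have e11 : H = 0 := norm_eq_zero.mp (pow_eq_zero_iff two_ne_zero |>.mp e10)
  rw [hH, sub_eq_zero] at e11
  exact e11.symm

end Pool.Agent.Lib.EpZ
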